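import Pool.Agent.AEJ.Closure
import Pool.Agent.AEG.GlueS

/-!
# From an oriented tree with a path which turns at every scale to a coded tree
-/

set_option autoImplicit false

namespace AEJ

open Finset Relation AE15 AED AELT AEK
open scoped Classical

set_option linter.unusedSectionVars false

section glue

variable {τ : Type*} [Fintype τ] {E P : τ → τ → Prop}

/-- the forest codes the branches at the vertices of the list `l`, which hang on `v` -/
def CodL (E P : τ → τ → Prop) : τ → List τ → Fd → Prop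
  | _, [], .nil => True
  | v, w :: l, .node d c s => d = decide (E v w) ∧ (∃ l', l'.Nodup ∧ (∀ u, u ∈ l' ↔ P w u) ∧ CodL E P w l' c) ∧
      CodL E P v l s
  | _, _, _ => False

/-- the forest codes the tree below `v` -/
def Cod (E P : τ → τ → Prop) (v : τ) (c : Fd) : Prop := ∃ l : List τ, l.Nodup ∧ (∀ u, u ∈ l ↔ P v u) ∧ CodL E P v l c

theorem codL_mem {v w : τ} : ∀ {l : List τ} {F : Fd}, CodL E P v l F → w ∈ l →
    ∃ c, (decide (E v w), c) ∈ F.trees ∧ Cod E P w c
  | [], _, _, hw => absurd hw (by simp)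
  | u :: l, .nil, h, _ => by simp [CodL] at h
  | u :: l, .node d c s, h, hw => by
    obtain ⟨h1, ⟨l', h2, h3, h4⟩, h5⟩ := h
    rcases List.mem_cons.1 hw with rfl | hw
    · exact ⟨c, by rw [h1]; exact List.mem_cons_self, l', h2, h3, h4⟩
    · obtain ⟨c', h6, h7⟩ := codL_mem h5 hw
      exact ⟨c', List.mem_cons_of_mem _ h6, h7⟩

theorem cod_mem {v w : τ} {F : Fd} (h : Cod E P v F) (hw : P v w) :
    ∃ c, (decide (E v w), c) ∈ F.trees ∧ Cod E P w c := by
  obtain ⟨l, -, h2, h3⟩ := h
  exact codL_mem h3 ((h2 w).2 hw)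

theorem exists_codL {v : τ} : ∀ l : List τ, (∀ w ∈ l, ∃ c, Cod E P w c) → ∃ F, CodL E P v l F
  | [], _ => ⟨.nil, trivial⟩
  | w :: l, h => by
    obtain ⟨F, hF⟩ := exists_codL l (fun w hw => h w (List.mem_cons_of_mem _ hw))
    obtain ⟨c, l', h1, h2, h3⟩ := h w List.mem_cons_self
    exact ⟨.node (decide (E v w)) c F, rfl, ⟨l', h1, h2, h3⟩, hF⟩

theorem exists_cod {h : τ → ℕ} (hE : ∀ a b, P a b → h a < h b) (n : ℕ) :
    ∀ v, (AE32.desc P v).card = n → ∃ c, Cod E P v c := by
  induction n using Nat.strong_induction_on with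
  | _ n ih =>
    intro v hv
    obtain ⟨ch, hch⟩ : ∃ ch : Finset τ, ch = univ.filter (fun w => P v w) := ⟨_, rfl⟩
    have hmem : ∀ c, c ∈ ch.toList ↔ P v c := by
      intro c
      rw [Finset.mem_toList, hch, mem_filter]
      simp
    have hlt : ∀ c ∈ ch.toList, (AE32.desc P c).card < n := by
      intro c hc
      rw [← hv]
      refine card_lt_card ⟨AE32.desc_subset ((hmem c).1 hc), fun hcon => ?_⟩
      exact AE32.notMem_desc hE ((hmem c).1 hc) (hcon (AE32.self_mem_desc v))
    obtain ⟨F, hF⟩ := exists_codL (E := E) (P := P) (v := v) ch.toList (fun w hw => ih _ (hlt w hw) w rfl)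
    exact ⟨F, ch.toList, Finset.nodup_toList _, hmem, hF⟩

/-- properties of the code of a list of branches -/
structure LC (E P : τ → τ → Prop) (b : ℕ) (v : τ) (l : List τ) (F : Fd) : Prop where
  size : F.size = (l.map (fun c => (AE32.desc P c).card)).sum
  len : F.len = l.length
  deg : F.Deg b
  emb : ∀ {V : Type} {R : V → V → Prop} {x : V} {S : Finset V}, Emb R F x S →
      ∃ f : τ → V, (∀ c ∈ l, Adj R (decide (E v c)) x (f c)) ∧ (∀ c ∈ l, ∀ a ∈ AE32.desc P c, f a ∈ S) ∧
        (∀ c ∈ l, ∀ a ∈ AE32.desc P c, ∀ c' ∈ l, ∀ a' ∈ AE32.desc P c', f a = f a' → a = a') ∧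
        ∀ c ∈ l, ∀ a ∈ AE32.desc P c, ∀ a', P a a' → Adj R (decide (E a a')) (f a) (f a')

/-- properties of the code of a tree -/
structure VC (E P : τ → τ → Prop) (b : ℕ) (v : τ) (c : Fd) : Prop where
  size : c.size + 1 = (AE32.desc P v).card
  len : c.len ≤ b
  deg : c.Deg b
  emb : ∀ {V : Type} {R : V → V → Prop} {x : V} {S : Finset V}, x ∉ S → Emb R c x S →
      ∃ f : τ → V, f v = x ∧ (∀ a ∈ AE32.desc P v, f a ∈ insert x S) ∧
        (∀ a ∈ AE32.desc P v, ∀ a' ∈ AE32.desc P v, f a = f a' → a = a') ∧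
        ∀ a ∈ AE32.desc P v, ∀ a', P a a' → Adj R (decide (E a a')) (f a) (f a')

theorem lc_cons {b : ℕ} {v c : τ} {l : List τ} {F G : Fd}
    (hcl : ∀ d ∈ l, Disjoint (AE32.desc P c) (AE32.desc P d)) (hF : LC E P b v l F) (hG : VC E P b c G) :
    LC E P b v (c :: l) (.node (decide (E v c)) G F) := by
  have hnot : ∀ d ∈ l, ∀ a ∈ AE32.desc P d, a ∉ AE32.desc P c := fun d hd a ha ha' =>
    (Finset.disjoint_left.1 (hcl d hd)) ha' ha
  refine ⟨?_, ?_, ⟨hG.len, hG.deg, hF.deg⟩, ?_⟩
  · simp only [Fd.size, List.map_cons, List.sum_cons, ← hF.size, ← hG.size]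
    omega
  · simp [Fd.len, hF.len]
  · intro V R x S hS
    obtain ⟨y, A, B, hy, hyA, hyB, hAB, rfl, hA, hB⟩ := hS
    obtain ⟨f₁, p1, p2, p3, p4⟩ := hG.emb hyA hA
    obtain ⟨f₂, q1, q2, q3, q4⟩ := hF.emb hB
    have hsep : Disjoint (insert y A) B := by
      rw [disjoint_insert_left]
      exact ⟨hyB, hAB⟩
    refine ⟨fun a => if a ∈ AE32.desc P c then f₁ a else f₂ a, ?_, ?_, ?_, ?_⟩
    · intro d hd
      rcases List.mem_cons.1 hd with rfl | hd
      · simp only [AE32.self_mem_desc, if_true, p1]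
        exact hy
      · simp only [hnot d hd d (AE32.self_mem_desc d), if_false]
        exact q1 d hd
    · intro d hd a ha
      rcases List.mem_cons.1 hd with rfl | hd
      · simp only [ha, if_true]
        have := p2 a ha
        rw [mem_insert] at this
        simp only [mem_insert, mem_union]
        tauto
      · simp only [hnot d hd a ha, if_false]
        exact mem_insert_of_mem (mem_union_right _ (q2 d hd a ha))
    · intro d hd a ha d' hd' a' ha' haa
      rcases List.mem_cons.1 hd with e | hd1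
      · rw [e] at ha
        rcases List.mem_cons.1 hd' with e' | hd2
        · rw [e'] at ha'
          simp only [ha, ha', if_true] at haa
          exact p3 a ha a' ha' haa
        · simp only [ha, if_true, hnot d' hd2 a' ha', if_false] at haa
          exact absurd (haa ▸ q2 d' hd2 a' ha') ((Finset.disjoint_left.1 hsep) (p2 a ha))
      · rcases List.mem_cons.1 hd' with e' | hd2
        · rw [e'] at ha'
          simp only [ha', if_true, hnot d hd1 a ha, if_false] at haa
          exact absurd (haa.symm ▸ q2 d hd1 a ha) ((Finset.disjoint_left.1 hsep) (p2 a' ha'))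
        · simp only [hnot d hd1 a ha, hnot d' hd2 a' ha', if_false] at haa
          exact q3 d hd1 a ha d' hd2 a' ha' haa
    · intro d hd a ha a' haa
      rcases List.mem_cons.1 hd with rfl | hd
      · have ha' : a' ∈ AE32.desc P d := AE32.mem_desc.2 ((AE32.mem_desc.1 ha).tail haa)
        simp only [ha, ha', if_true]
        exact p4 a ha a' haa
      · have ha' : a' ∈ AE32.desc P d := AE32.mem_desc.2 ((AE32.mem_desc.1 ha).tail haa)
        simp only [hnot d hd a ha, hnot d hd a' ha', if_false]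
        exact q4 d hd a ha a' haa

theorem vc_of {h : τ → ℕ} (hE : ∀ a b, P a b → h a < h b) (hin : ∀ a b c, P a c → P b c → a = b)
    (hP : ∀ a c, P a c → E a c ∨ E c a) {b : ℕ} (hout : ∀ v, {w | E v w ∨ E w v}.ncard ≤ b) {v : τ} {l : List τ}
    {F : Fd} (hl : l.Nodup) (hmem : ∀ c, c ∈ l ↔ P v c) (hF : LC E P b v l F) : VC E P b v F := by
  obtain ⟨ch, hch⟩ : ∃ ch : Finset τ, ch = univ.filter (fun w => P v w) := ⟨_, rfl⟩
  have hchl : ch = l.toFinset := by
    ext c
    rw [hch, mem_filter, List.mem_toFinset, hmem]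
    simp
  have hdesc : AE32.desc P v = insert v (ch.biUnion (AE32.desc P)) := by
    ext x
    rw [mem_insert, mem_biUnion, AE32.mem_desc, ReflTransGen.cases_head_iff]
    constructor
    · rintro (h1 | ⟨c, h1, h2⟩)
      · exact Or.inl h1.symm
      · exact Or.inr ⟨c, by simp [hch, h1], AE32.mem_desc.2 h2⟩
    · rintro (h1 | ⟨c, h1, h2⟩)
      · exact Or.inl h1.symm
      · exact Or.inr ⟨c, by simpa [hch] using h1, AE32.mem_desc.1 h2⟩
  have hnv : v ∉ ch.biUnion (AE32.desc P) := by
    rw [mem_biUnion]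
    rintro ⟨c, h1, h2⟩
    exact AE32.notMem_desc hE (by simpa [hch] using h1) h2
  refine ⟨?_, ?_, hF.deg, ?_⟩
  · rw [hdesc, card_insert_of_notMem hnv, card_biUnion, hF.size]
    · congr 1
      rw [hchl, List.sum_toFinset _ hl]
    · intro c hc d hd hcd
      exact AE32.desc_disjoint hE hin (by simpa [hch] using hc) (by simpa [hch] using hd) hcd
  · rw [hF.len, ← List.toFinset_card_of_nodup hl, ← hchl, hch]
    have h1 := hout v
    have h2 : {w | P v w}.ncard ≤ {w | E v w ∨ E w v}.ncard :=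
      Set.ncard_le_ncard (fun w hw => hP v w hw) (Set.toFinite _)
    have h3 := h2.trans h1
    rwa [Set.ncard_eq_toFinset_card', Set.toFinset_ofPred] at h3
  · intro V R x S hxS hS
    obtain ⟨f, q1, q2, q3, q4⟩ := hF.emb hS
    have hcase : ∀ a ∈ AE32.desc P v, a = v ∨ ∃ c ∈ l, a ∈ AE32.desc P c := by
      intro a ha
      rw [hdesc, mem_insert, mem_biUnion] at ha
      rcases ha with h1 | ⟨c, h1, h2⟩
      · exact Or.inl h1
      · exact Or.inr ⟨c, by rw [hchl, List.mem_toFinset] at h1; exact h1, h2⟩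
    have hne : ∀ c ∈ l, ∀ a ∈ AE32.desc P c, a ≠ v := by
      rintro c hc a ha rfl
      exact AE32.notMem_desc hE ((hmem c).1 hc) ha
    refine ⟨fun a => if a = v then x else f a, by simp, ?_, ?_, ?_⟩
    · intro a ha
      rcases hcase a ha with rfl | ⟨c, hc, hac⟩
      · simp
      · simp only [hne c hc a hac, if_false]
        exact mem_insert_of_mem (q2 c hc a hac)
    · intro a ha a' ha' haa
      rcases hcase a ha with rfl | ⟨c, hc, hac⟩
      · rcases hcase a' ha' with rfl | ⟨c', hc', hac'⟩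
        · rfl
        · simp only [if_true, hne c' hc' a' hac', if_false] at haa
          exact absurd (haa ▸ q2 c' hc' a' hac') hxS
      · rcases hcase a' ha' with rfl | ⟨c', hc', hac'⟩
        · simp only [if_true, hne c hc a hac, if_false] at haa
          exact absurd (haa.symm ▸ q2 c hc a hac) hxS
        · simp only [hne c hc a hac, hne c' hc' a' hac', if_false] at haa
          exact q3 c hc a hac c' hc' a' hac' haa
    · intro a ha a' haa
      have ha'v : a' ≠ v := by
        rintro rfl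
        have h1 := AE32.rank_le hE (AE32.mem_desc.1 ha)
        have h2 := hE _ _ haa
        omega
      rcases hcase a ha with rfl | ⟨c, hc, hac⟩
      · simp only [if_true, ha'v, if_false]
        exact q1 a' ((hmem a').2 haa)
      · simp only [hne c hc a hac, ha'v, if_false]
        exact q4 c hc a hac a' haa

theorem lc_of {h : τ → ℕ} (hE : ∀ a b, P a b → h a < h b) (hin : ∀ a b c, P a c → P b c → a = b)
    (hP : ∀ a c, P a c → E a c ∨ E c a) {b : ℕ} (hout : ∀ v, {w | E v w ∨ E w v}.ncard ≤ b) :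
    ∀ (F : Fd) (v : τ) (l : List τ), l.Nodup → (∀ w ∈ l, P v w) → CodL E P v l F → LC E P b v l F
  | .nil, v, [], _, _, _ => ⟨rfl, rfl, trivial, fun {V R x S} _ => ⟨fun _ => x, by simp, by simp, by simp, by simp⟩⟩
  | .nil, v, w :: l, _, _, h => by simp [CodL] at h
  | .node d c s, v, [], _, _, h => by simp [CodL] at h
  | .node d c s, v, w :: l, hl, hm, h => by
    obtain ⟨h1, ⟨l', h2, h3, h4⟩, h5⟩ := h
    rw [List.nodup_cons] at hl
    have h6 := lc_of hE hin hP hout s v l hl.2 (fun u hu => hm u (List.mem_cons_of_mem _ hu)) h5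
    have h7 := lc_of hE hin hP hout c w l' h2 (fun u hu => (h3 u).1 hu) h4
    have h8 := vc_of hE hin hP hout h2 h3 h7
    rw [h1]
    refine lc_cons (fun u hu => ?_) h6 h8
    exact AE32.desc_disjoint hE hin (hm w List.mem_cons_self) (hm u (List.mem_cons_of_mem _ hu))
      (fun e => hl.1 (e ▸ hu))

theorem vc_of_cod {h : τ → ℕ} (hE : ∀ a b, P a b → h a < h b) (hin : ∀ a b c, P a c → P b c → a = b)
    (hP : ∀ a c, P a c → E a c ∨ E c a) {b : ℕ} (hout : ∀ v, {w | E v w ∨ E w v}.ncard ≤ b) {v : τ} {F : Fd}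
    (hc : Cod E P v F) : VC E P b v F := by
  obtain ⟨l, h1, h2, h3⟩ := hc
  exact vc_of hE hin hP hout h1 h2 (lc_of hE hin hP hout F v l h1 (fun w hw => (h2 w).1 hw) h3)

/-- the branch reached along a path, and the number of its turns -/
theorem ptT_path {p : ℕ → τ} {i : ℕ} {c : Fd} (hc : Cod E P (p i) c) (n : ℕ) (hp : ∀ t, i ≤ t → t ≤ i + n → P (p t) (p (t + 1))) :
    ∃ c', Cod E P (p (i + n + 1)) c' ∧ AESK.PtT 0 (decide (E (p i) (p (i + 1))), c)
      (decide (E (p (i + n)) (p (i + n + 1))), c')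
      ((Finset.Ioo i (i + n + 1)).filter (fun t => ¬ (E (p (t - 1)) (p t) ↔ E (p t) (p (t + 1))))).card := by
  induction n with
  | zero =>
    obtain ⟨c', h1, h2⟩ := cod_mem hc (hp i le_rfl (by omega))
    refine ⟨c', h2, ?_⟩
    have h3 := AESK.PtT.step (k := 0) (p := (decide (E (p i) (p (i + 1))), c)) _ (decide (E (p i) (p (i + 1))), c') 0
      AESK.PtT.refl h1 (Nat.zero_le _)
    rw [if_pos rfl] at h3
    have h4 : (Finset.Ioo i (i + 0 + 1)) = ∅ := by
      ext t
      simp only [Finset.mem_Ioo, Finset.notMem_empty, iff_false]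
      omega
    rw [h4]
    exact h3
  | succ n ih =>
    obtain ⟨c', h1, h2⟩ := ih (fun t h1 h2 => hp t h1 (by omega))
    obtain ⟨c'', h3, h4⟩ := cod_mem h1 (hp (i + n + 1) (by omega) (by omega))
    refine ⟨c'', h4, ?_⟩
    have h5 := AESK.PtT.step _ (decide (E (p (i + n + 1)) (p (i + n + 1 + 1))), c'') _ h2 h3 (Nat.zero_le _)
    have h6 : (Finset.Ioo i (i + (n + 1) + 1)).filter (fun t => ¬ (E (p (t - 1)) (p t) ↔ E (p t) (p (t + 1)))) =
        (Finset.Ioo i (i + n + 1)).filter (fun t => ¬ (E (p (t - 1)) (p t) ↔ E (p t) (p (t + 1)))) ∪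
          ({i + n + 1} : Finset ℕ).filter (fun t => ¬ (E (p (t - 1)) (p t) ↔ E (p t) (p (t + 1)))) := by
      rw [← Finset.filter_union]
      congr 1
      ext t
      simp only [Finset.mem_Ioo, Finset.mem_union, Finset.mem_singleton]
      omega
    have h7 : Disjoint ((Finset.Ioo i (i + n + 1)).filter (fun t => ¬ (E (p (t - 1)) (p t) ↔ E (p t) (p (t + 1)))))
        (({i + n + 1} : Finset ℕ).filter (fun t => ¬ (E (p (t - 1)) (p t) ↔ E (p t) (p (t + 1))))) := by
      refine Finset.disjoint_filter_filter ?_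
      rw [Finset.disjoint_singleton_right, Finset.mem_Ioo]
      omega
    rw [h6, Finset.card_union_of_disjoint h7, Finset.filter_singleton]
    have h8 : i + n + 1 - 1 = i + n := by omega
    rw [h8]
    by_cases h9 : (E (p (i + n)) (p (i + n + 1)) ↔ E (p (i + n + 1)) (p (i + n + 1 + 1)))
    · rw [if_neg (not_not.2 h9), Finset.card_empty]
      rw [if_pos (by simp only [h9])] at h5
      exact h5
    · rw [if_pos h9, Finset.card_singleton]
      rw [if_neg (by
        intro h10
        apply h9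
        simp only [decide_eq_decide] at h10
        exact h10.symm)] at h5
      exact h5

/-- the scales -/
theorem sc_of_path {h : τ → ℕ} (hE : ∀ a b, P a b → h a < h b) (hin : ∀ a b c, P a c → P b c → a = b)
    (hP : ∀ a c, P a c → E a c ∨ E c a) {b : ℕ} (hout : ∀ v, {w | E v w ∨ E w v}.ncard ≤ b) {θ : ℝ} {M m : ℕ}
    {p : ℕ → τ} (hp : ∀ t < m, P (p t) (p (t + 1))) (hM : (AE32.desc P (p m)).card ≤ M)
    (hs : ∀ i < m, ∃ j, i < j ∧ j ≤ m ∧ θ * (AE32.desc P (p i)).card ≤ (AE32.desc P (p j)).card ∧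
      4 ≤ ((Finset.Ioo i j).filter (fun t => ¬ (E (p (t - 1)) (p t) ↔ E (p t) (p (t + 1))))).card) (n : ℕ) :
    ∀ i c, i ≤ m → m - i = n → Cod E P (p i) c → Sc θ M c := by
  induction n using Nat.strong_induction_on with
  | _ n ih =>
    intro i c him hn hc
    have hsz := (vc_of_cod hE hin hP hout hc).size
    rcases Nat.eq_or_lt_of_le him with h1 | h1
    · rw [h1] at hsz
      exact Sc.small c (by omega)
    · obtain ⟨j, h2, h3, h4, h5⟩ := hs i h1
      obtain ⟨n', hn'⟩ : ∃ n', j = i + n' + 1 := ⟨j - i - 1, by omega⟩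
      subst hn'
      obtain ⟨c', h6, h7⟩ := ptT_path (E := E) hc n' (fun t h8 h9 => hp t (by omega))
      have hsz' := (vc_of_cod hE hin hP hout h6).size
      refine Sc.step c _ _ _ h7 h5 ?_ (ih (m - (i + n' + 1)) (by omega) _ c' h3 rfl h6)
      have e1 : ((c.size : ℝ) + 1) = (AE32.desc P (p i)).card := by exact_mod_cast hsz
      have e2 : ((c'.size : ℝ) + 1) = (AE32.desc P (p (i + n' + 1))).card := by exact_mod_cast hsz'
      rw [e1]
      show _ ≤ (c'.size : ℝ) + 1
      rw [e2]
      exact h4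

end glue

/-! ### Distances -/

section dist

variable {τ : Type*} [Fintype τ]

theorem desc_of_dist {G : SimpleGraph τ} (hG : G.IsTree) (r u : τ) (n : ℕ) : ∀ v, G.dist u v = n →
    G.dist r u + G.dist u v = G.dist r v → ReflTransGen (fun a c => G.Adj a c ∧ G.dist r c = G.dist r a + 1) u v := by
  induction n with
  | zero =>
    intro v hv _
    rw [hG.connected.dist_eq_zero_iff] at hv
    rw [hv]
  | succ n ih =>
    intro v hv hr
    obtain ⟨w, hw⟩ := hG.connected.exists_walk_length_eq_dist u v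
    have hnil : ¬ w.Nil := by
      intro hn
      have := SimpleGraph.Walk.length_eq_zero_iff.2 hn
      omega
    have hadj := w.adj_penultimate hnil
    have h1 : G.dist u w.penultimate ≤ n := by
      have h2 := SimpleGraph.dist_le w.dropLast
      have h3 : w.dropLast.length + 1 = w.length := by
        have := congrArg SimpleGraph.Walk.length (w.concat_dropLast hadj)
        rw [SimpleGraph.Walk.length_concat] at this
        exact this
      omega
    have h2 : G.dist r w.penultimate ≤ G.dist r u + G.dist u w.penultimate := hG.connected.dist_triangle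
    have h3 : G.dist r v ≤ G.dist r w.penultimate + G.dist w.penultimate v := hG.connected.dist_triangle
    rw [SimpleGraph.dist_eq_one_iff_adj.2 hadj] at h3
    exact (ih _ (by omega) (by omega)).tail ⟨hadj, by omega⟩

theorem dist_of_desc {G : SimpleGraph τ} (hG : G.IsTree) (r u : τ) {v : τ}
    (hv : ReflTransGen (fun a c => G.Adj a c ∧ G.dist r c = G.dist r a + 1) u v) :
    G.dist r u + G.dist u v = G.dist r v := by
  induction hv with
  | refl => rw [SimpleGraph.dist_self, add_zero]
  | @tail a c h1 h2 ih =>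
    have h3 : G.dist u c ≤ G.dist u a + G.dist a c := hG.connected.dist_triangle
    rw [SimpleGraph.dist_eq_one_iff_adj.2 h2.1] at h3
    have h4 : G.dist r c ≤ G.dist r u + G.dist u c := hG.connected.dist_triangle
    have h5 := h2.2
    omega

theorem card_desc_dist {G : SimpleGraph τ} (hG : G.IsTree) (r u : τ) :
    (AE32.desc (fun a c => G.Adj a c ∧ G.dist r c = G.dist r a + 1) u).card =
      {x | G.dist r u + G.dist u x = G.dist r x}.ncard := by
  rw [← Set.ncard_coe_finset]
  congr 1
  ext x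
  rw [Finset.mem_coe, AE32.mem_desc, Set.mem_ofPred_eq]
  exact ⟨fun h => dist_of_desc hG r u h, fun h => desc_of_dist hG r u _ x rfl h⟩

end dist

theorem parent_unique' {τ : Type*} {G : SimpleGraph τ} (hG : G.IsTree) (ρ : τ) {a b c : τ} (ha : G.Adj a c)
    (hb : G.Adj b c) (h1 : G.dist ρ c = G.dist ρ a + 1) (h2 : G.dist ρ c = G.dist ρ b + 1) : a = b := by
  obtain ⟨p, hp⟩ := hG.connected.exists_walk_length_eq_dist ρ a
  obtain ⟨q, hq⟩ := hG.connected.exists_walk_length_eq_dist ρ b
  have hp' : (p.concat ha).IsPath := by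
    apply SimpleGraph.Walk.isPath_of_length_eq_dist
    rw [SimpleGraph.Walk.length_concat, hp, h1]
  have hq' : (q.concat hb).IsPath := by
    apply SimpleGraph.Walk.isPath_of_length_eq_dist
    rw [SimpleGraph.Walk.length_concat, hq, h2]
  have he : p.concat ha = q.concat hb := (hG.existsUnique_path ρ c).unique hp' hq'
  have h3 := congrArg (fun w => w.penultimate) he
  simpa using h3

/-- **Every oriented tree with a path which turns at every scale is coded by such a tree.** `p 0, …, p m` is the path; the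
branch at `p i` consists of the vertices which are separated from `p 0` by `p i`. -/
theorem glueJ {k b : ℕ} {E : Fin (k + 1) → Fin (k + 1) → Prop} (h4 : ∀ a c, E a c → ¬ E c a)
    (h5 : (SimpleGraph.fromRel E).IsTree) (h6 : ∀ v, {w | E v w ∨ E w v}.ncard ≤ b) {θ : ℝ} {M m : ℕ}
    {p : ℕ → Fin (k + 1)} (hadj : ∀ i < m, (SimpleGraph.fromRel E).Adj (p i) (p (i + 1)))
    (hdist : ∀ i ≤ m, (SimpleGraph.fromRel E).dist (p 0) (p i) = i)
    (hM : {x | (SimpleGraph.fromRel E).dist (p 0) (p m) + (SimpleGraph.fromRel E).dist (p m) x =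
      (SimpleGraph.fromRel E).dist (p 0) x}.ncard ≤ M)
    (hs : ∀ i < m, ∃ j, i < j ∧ j ≤ m ∧
      θ * ({x | (SimpleGraph.fromRel E).dist (p 0) (p i) + (SimpleGraph.fromRel E).dist (p i) x =
        (SimpleGraph.fromRel E).dist (p 0) x}.ncard : ℝ) ≤
      ({x | (SimpleGraph.fromRel E).dist (p 0) (p j) + (SimpleGraph.fromRel E).dist (p j) x =
        (SimpleGraph.fromRel E).dist (p 0) x}.ncard : ℝ) ∧
      4 ≤ ((Finset.Ioo i j).filter (fun t => ¬ (E (p (t - 1)) (p t) ↔ E (p t) (p (t + 1))))).card) :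
    ∃ c : Fd, c.size = k ∧ c.len ≤ b ∧ c.Deg b ∧ Sc θ M c ∧
      ∀ {V : Type} {R : V → V → Prop} {N : V → Prop} {X : Finset V}, In R c N X →
        ∃ f : Fin (k + 1) → V, Function.Injective f ∧ (∀ a, f a ∈ X) ∧ N (f (p 0)) ∧ ∀ a c, E a c → R (f a) (f c) := by
  obtain ⟨G, hG⟩ : ∃ G, G = SimpleGraph.fromRel E := ⟨_, rfl⟩
  rw [← hG] at h5 hadj hdist hM hs
  obtain ⟨r, hr⟩ : ∃ r, r = p 0 := ⟨_, rfl⟩
  rw [← hr] at hdist hM hs ⊢
  obtain ⟨P, hPdef⟩ : ∃ P : Fin (k + 1) → Fin (k + 1) → Prop, P = fun a c => G.Adj a c ∧ G.dist r c = G.dist r a + 1 :=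
    ⟨_, rfl⟩
  have hE : ∀ a c, P a c → G.dist r a < G.dist r c := by
    intro a c h
    rw [hPdef] at h
    have := h.2
    omega
  have hin : ∀ a b c, P a c → P b c → a = b := by
    intro a b c h1 h2
    rw [hPdef] at h1 h2
    exact parent_unique' h5 r h1.1 h2.1 h1.2 h2.2
  have hP : ∀ a c, P a c → E a c ∨ E c a := by
    intro a c h
    rw [hPdef] at h
    have h1 := h.1
    rw [hG, SimpleGraph.fromRel_adj] at h1
    exact h1.2
  obtain ⟨c, hc⟩ := exists_cod (E := E) (h := fun v => G.dist r v) hE _ (p 0) rfl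
  have hvc := vc_of_cod (h := fun v => G.dist r v) hE hin hP h6 hc
  have hroot : AE32.desc P (p 0) = univ := by
    rw [eq_univ_iff_forall]
    intro v
    rw [AE32.mem_desc, hPdef, ← hr]
    refine desc_of_dist h5 r r _ v rfl ?_
    rw [SimpleGraph.dist_self, Nat.zero_add]
  have hcard : ∀ i, (AE32.desc P (p i)).card = {x | G.dist r (p i) + G.dist (p i) x = G.dist r x}.ncard := by
    intro i
    rw [hPdef]
    exact card_desc_dist h5 r (p i)
  have hsz := hvc.size
  rw [hroot, card_univ, Fintype.card_fin] at hsz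
  refine ⟨c, by omega, hvc.len, hvc.deg, ?_, ?_⟩
  · refine sc_of_path (h := fun v => G.dist r v) hE hin hP h6 (p := p) (m := m) ?_ (by rw [hcard]; exact hM) ?_ _ 0 c
      (Nat.zero_le _) rfl hc
    · intro t ht
      rw [hPdef]
      refine ⟨hadj t ht, ?_⟩
      rw [hdist t ht.le, hdist (t + 1) ht]
    · intro i hi
      obtain ⟨j, e1, e2, e3, e4⟩ := hs i hi
      refine ⟨j, e1, e2, ?_, e4⟩
      rw [hcard, hcard]
      exact e3
  · rintro V R N X ⟨x, hx, A, hA, hxA, hN, hS⟩
    obtain ⟨f, p1, p2, p3, p4⟩ := hvc.emb hxA hS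
    rw [hroot] at p2 p3 p4
    refine ⟨f, fun a b hab => p3 a (mem_univ _) b (mem_univ _) hab, fun a => ?_, by rw [hr, p1]; exact hN,
      fun a c hac => ?_⟩
    · have := p2 a (mem_univ _)
      rw [mem_insert] at this
      rcases this with h | h
      · rw [h]
        exact hx
      · exact hA h
    · have hne : a ≠ c := by
        rintro rfl
        exact h4 _ _ hac hac
      have hadj' : G.Adj a c := by
        rw [hG, SimpleGraph.fromRel_adj]
        exact ⟨hne, Or.inl hac⟩
      rcases h5.dist_eq_dist_add_one_of_adj r hadj' with h | h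
      · have h1 := p4 c (mem_univ _) a (by rw [hPdef]; exact ⟨hadj'.symm, h⟩)
        have h2 : ¬ E c a := h4 _ _ hac
        simpa [Adj, h2] using h1
      · have h1 := p4 a (mem_univ _) c (by rw [hPdef]; exact ⟨hadj', h⟩)
        simpa [Adj, hac] using h1

end AEJ
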