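import Pool.Agent.AEJ.Closure0
import Pool.Agent.AEJ.GlueJ
import Pool.Agent.AELT.Main0

/-!
# Balanced paths, for every code of the tree
-/

set_option autoImplicit false

namespace AEJ

open Finset Relation AE15 AED AELT AEK LTT
open scoped Classical

section glue

variable {τ : Type*} [Fintype τ] {E P : τ → τ → Prop}

theorem codL_rch (σ : Bool) (g : τ → ℕ) {v : τ} : ∀ {l : List τ} {F : Fd}, CodL E P v l F →
    (∀ w ∈ l, ∀ c, Cod E P w c → rch σ c + 1 = g w) →
      rch σ F = (l.map (fun w => if decide (E v w) = σ then g w else 0)).sum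
  | [], .nil, _, _ => rfl
  | [], .node _ _ _, h, _ => by simp [CodL] at h
  | _ :: _, .nil, h, _ => by simp [CodL] at h
  | w :: l, .node d c s, h, hg => by
    obtain ⟨h1, h2, h3⟩ := h
    have h4 := codL_rch σ g h3 (fun u hu => hg u (List.mem_cons_of_mem _ hu))
    have h5 := hg w List.mem_cons_self c h2
    simp only [rch, List.map_cons, List.sum_cons, ← h4, h1, h5]

/-- the number of the vertices which are reached by arcs of the direction `σ` -/
theorem rch_cod {h : τ → ℕ} (hE : ∀ a b, P a b → h a < h b) (hin : ∀ a b c, P a c → P b c → a = b) (σ : Bool) (n : ℕ) :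
    ∀ v c, (AE32.desc P v).card = n → Cod E P v c →
      rch σ c + 1 = (AE32.desc (fun a c => P a c ∧ decide (E a c) = σ) v).card := by
  obtain ⟨Q, hQ⟩ : ∃ Q : τ → τ → Prop, Q = fun a c => P a c ∧ decide (E a c) = σ := ⟨_, rfl⟩
  have hQP : ∀ a c, Q a c → P a c := fun a c h => by rw [hQ] at h; exact h.1
  have hE' : ∀ a b, Q a b → h a < h b := fun a b h => hE a b (hQP a b h)
  have hin' : ∀ a b c, Q a c → Q b c → a = b := fun a b c h h' => hin a b c (hQP _ _ h) (hQP _ _ h')
  rw [← hQ]
  induction n using Nat.strong_induction_on with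
  | _ n ih =>
    intro v c hv hc
    obtain ⟨l, hl1, hl2, hl3⟩ := hc
    have h1 := codL_rch σ (fun w => (AE32.desc Q w).card) hl3 (by
      intro w hw c hc
      have hw' : P v w := (hl2 w).1 hw
      refine ih _ ?_ w c rfl hc
      rw [← hv]
      refine card_lt_card ⟨AE32.desc_subset hw', fun hcon => ?_⟩
      exact AE32.notMem_desc hE hw' (hcon (AE32.self_mem_desc v)))
    obtain ⟨L, hL⟩ : ∃ L : Finset τ, L = l.toFinset := ⟨_, rfl⟩
    have h2 : (l.map (fun w => if decide (E v w) = σ then (AE32.desc Q w).card else 0)).sum =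
        ∑ w ∈ L, (if decide (E v w) = σ then (AE32.desc Q w).card else 0) := by
      rw [hL, List.sum_toFinset _ hl1]
    have h3 : AE32.desc Q v = insert v ((L.filter (fun w => decide (E v w) = σ)).biUnion (AE32.desc Q)) := by
      ext x
      rw [mem_insert, mem_biUnion, AE32.mem_desc, ReflTransGen.cases_head_iff]
      constructor
      · rintro (h1 | ⟨c, h1, h2⟩)
        · exact Or.inl h1.symm
        · refine Or.inr ⟨c, ?_, AE32.mem_desc.2 h2⟩
          rw [hQ] at h1
          rw [mem_filter, hL, List.mem_toFinset]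
          exact ⟨(hl2 c).2 h1.1, h1.2⟩
      · rintro (h1 | ⟨c, h1, h2⟩)
        · exact Or.inl h1.symm
        · refine Or.inr ⟨c, ?_, AE32.mem_desc.1 h2⟩
          rw [mem_filter, hL, List.mem_toFinset] at h1
          rw [hQ]
          exact ⟨(hl2 c).1 h1.1, h1.2⟩
    have h4 : v ∉ (L.filter (fun w => decide (E v w) = σ)).biUnion (AE32.desc Q) := by
      rw [mem_biUnion]
      rintro ⟨c, h1, h2⟩
      rw [mem_filter, hL, List.mem_toFinset] at h1
      have h5 : Q v c := by rw [hQ]; exact ⟨(hl2 c).1 h1.1, h1.2⟩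
      exact AE32.notMem_desc hE' h5 h2
    rw [h1, h2, h3, card_insert_of_notMem h4, card_biUnion, sum_filter]
    intro c hc d hd hcd
    rw [mem_coe, mem_filter, hL, List.mem_toFinset] at hc hd
    have h5 : Q v c := by rw [hQ]; exact ⟨(hl2 c).1 hc.1, hc.2⟩
    have h6 : Q v d := by rw [hQ]; exact ⟨(hl2 d).1 hd.1, hd.2⟩
    exact AE32.desc_disjoint hE' hin' h5 h6 hcd

/-- the vertices of a branch which are not joined to its root by directed paths -/
theorem window_cod {h : τ → ℕ} (hE : ∀ a b, P a b → h a < h b) (hin : ∀ a b c, P a c → P b c → a = b)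
    (hP : ∀ a c, P a c → E a c ∨ E c a) {v : τ} {c : Fd} (hc : Cod E P v c) :
    dcl c + AEB.blk c + 1 + ((AE32.desc P v).filter (fun x => ¬ ReflTransGen E v x ∧ ¬ ReflTransGen E x v)).card ≤
      (AE32.desc P v).card := by
  obtain ⟨D, hD⟩ : ∃ D : Bool → Finset τ,
    D = fun σ => AE32.desc (fun a c => P a c ∧ decide (E a c) = σ) v := ⟨_, rfl⟩
  have h1 : dcl c + 1 = (D true).card := by
    rw [dcl_eq_rch, rch_cod hE hin true _ v c rfl hc, hD]
  have h2 : AEB.blk c + 1 = (D false).card := by
    rw [blk_eq_rch, rch_cod hE hin false _ v c rfl hc, hD]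
  have hmem : ∀ σ x, x ∈ D σ ↔ ReflTransGen (fun a c => P a c ∧ decide (E a c) = σ) v x := by
    intro σ x
    rw [hD]
    exact AE32.mem_desc
  have hDT : ∀ σ, D σ ⊆ AE32.desc P v := by
    intro σ x hx
    rw [hmem] at hx
    rw [AE32.mem_desc]
    exact ReflTransGen.mono (fun a c h => h.1) _ _ hx
  have hcap : D true ∩ D false ⊆ {v} := by
    intro x hx
    rw [mem_inter, hmem, hmem] at hx
    rw [mem_singleton]
    rcases hx.1.cases_tail with h3 | ⟨a, -, h3, h4⟩
    · exact h3.symm ▸ rfl
    · rcases hx.2.cases_tail with h5 | ⟨a', -, h5, h6⟩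
      · exact h5.symm ▸ rfl
      · have h7 := hin a a' x h3 h5
        subst h7
        rw [h4] at h6
        exact absurd h6 (by decide)
  obtain ⟨I, hI⟩ : ∃ I : Finset τ,
    I = (AE32.desc P v).filter (fun x => ¬ ReflTransGen E v x ∧ ¬ ReflTransGen E x v) := ⟨_, rfl⟩
  rw [← hI]
  have hdis : Disjoint (D true ∪ D false) I := by
    rw [disjoint_left]
    intro x hx hx'
    rw [hI, mem_filter] at hx'
    rw [mem_union, hmem, hmem] at hx
    rcases hx with hx | hx
    · apply hx'.2.1
      exact ReflTransGen.mono (fun a c h => of_decide_eq_true h.2) _ _ hx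
    · apply hx'.2.2
      have h3 : ∀ y, ReflTransGen (fun a c => P a c ∧ decide (E a c) = false) v y → ReflTransGen E y v := by
        intro y hy
        induction hy with
        | refl => exact ReflTransGen.refl
        | @tail a c _ h ih =>
          refine ReflTransGen.head ?_ ih
          rcases hP a c h.1 with h4 | h4
          · exact absurd h4 (of_decide_eq_false h.2)
          · exact h4
      exact h3 x hx
  have h3 := card_union_add_card_inter (D true) (D false)
  have h4 := card_le_card hcap
  rw [card_singleton] at h4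
  have h5 : ((D true ∪ D false) ∪ I).card ≤ (AE32.desc P v).card := by
    refine card_le_card (union_subset (union_subset (hDT true) (hDT false)) ?_)
    rw [hI]
    exact filter_subset _ _
  rw [card_union_of_disjoint hdis] at h5
  omega

theorem cod_size {h : τ → ℕ} (hE : ∀ a b, P a b → h a < h b) (hin : ∀ a b c, P a c → P b c → a = b)
    (hP : ∀ a c, P a c → E a c ∨ E c a) {v : τ} {c : Fd} (hc : Cod E P v c) : c.size + 1 = (AE32.desc P v).card := by
  obtain ⟨b, hb⟩ : ∃ b : ℕ, b = Fintype.card τ := ⟨_, rfl⟩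
  refine (vc_of_cod (b := b) hE hin hP (fun v => ?_) hc).size
  rw [hb]
  refine (Set.ncard_le_ncard (Set.subset_univ _) (Set.toFinite _)).trans ?_
  rw [Set.ncard_univ, Nat.card_eq_fintype_card]

/-- **A path which is balanced at every scale, for every code** -/
theorem bl_of_cod {h : τ → ℕ} (hE : ∀ a b, P a b → h a < h b) (hin : ∀ a b c, P a c → P b c → a = b)
    (hP : ∀ a c, P a c → E a c ∨ E c a) {K m : ℕ} {p : ℕ → τ} (hp : ∀ i < m, P (p i) (p (i + 1)))
    (hK : ∀ i ≤ m, K < (AE32.desc P (p i)).card → ∃ j, i < j ∧ j ≤ m ∧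
      (AE32.desc P (p i)).card ≤ K * (AE32.desc P (p j)).card ∧ (AE32.desc P (p j)).card ≤
        K * ((AE32.desc P (p j)).filter (fun x => ¬ ReflTransGen E (p j) x ∧ ¬ ReflTransGen E x (p j))).card) :
    ∀ n i c, i ≤ m → m - i = n → Cod E P (p i) c → Bl (1 / ((K : ℝ) + 1)) K c := by
  intro n
  induction n using Nat.strong_induction_on with
  | _ n ih =>
    intro i c hi hn hc
    have hsz := cod_size hE hin hP hc
    by_cases hs : K < (AE32.desc P (p i)).card
    · obtain ⟨j, e1, e2, e3, e4⟩ := hK i hi hs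
      obtain ⟨n', hn'⟩ : ∃ n', j = i + n' + 1 := ⟨j - i - 1, by omega⟩
      subst hn'
      obtain ⟨c', h6, h7⟩ := ptT_path (E := E) hc n' (fun t h8 h9 => hp t (by omega))
      have hszj := cod_size hE hin hP h6
      have hszR : (c.size : ℝ) + 1 = (AE32.desc P (p i)).card := by exact_mod_cast hsz
      have hszjR : (c'.size : ℝ) + 1 = (AE32.desc P (p (i + n' + 1))).card := by exact_mod_cast hszj
      have hK0 : (0 : ℝ) ≤ K := Nat.cast_nonneg _
      have hlt : c'.size < c.size := by
        have hlt' : ∀ t, i + t + 1 ≤ m → (AE32.desc P (p (i + t + 1))).card < (AE32.desc P (p i)).card := by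
          intro t
          induction t with
          | zero =>
            intro ht
            refine card_lt_card ⟨AE32.desc_subset (hp i (by omega)), fun hcon => ?_⟩
            exact AE32.notMem_desc hE (hp i (by omega)) (hcon (AE32.self_mem_desc _))
          | succ t iht =>
            intro ht
            refine lt_trans ?_ (iht (by omega))
            have h8 := hp (i + t + 1) (by omega)
            refine card_lt_card ⟨AE32.desc_subset h8, fun hcon => ?_⟩
            exact AE32.notMem_desc hE h8 (hcon (AE32.self_mem_desc _))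
        have := hlt' n' e2
        omega
      refine Bl.step _ _ _ _ h7 hlt ?_ ?_ (ih (m - (i + n' + 1)) (by omega) _ c' e2 rfl h6)
      · show 1 / ((K : ℝ) + 1) * ((c.size : ℝ) + 1) ≤ (c'.size : ℝ) + 1
        rw [hszR, hszjR, div_mul_eq_mul_div, one_mul, div_le_iff₀ (by positivity)]
        have e5 : ((AE32.desc P (p i)).card : ℝ) ≤ K * (AE32.desc P (p (i + n' + 1))).card := by exact_mod_cast e3
        have e6 : (0 : ℝ) ≤ (AE32.desc P (p (i + n' + 1))).card := Nat.cast_nonneg _
        linarith
      · show 1 / ((K : ℝ) + 1) * ((c'.size : ℝ) + 1) + dcl c' + AEB.blk c' ≤ (c'.size : ℝ) + 1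
        have e5 := window_cod hE hin hP h6
        obtain ⟨N, hN⟩ : ∃ N : ℕ, N = ((AE32.desc P (p (i + n' + 1))).filter
          (fun x => ¬ ReflTransGen E (p (i + n' + 1)) x ∧ ¬ ReflTransGen E x (p (i + n' + 1)))).card := ⟨_, rfl⟩
        rw [← hN] at e4 e5
        have e7 : (dcl c' : ℝ) + AEB.blk c' + 1 + N ≤ (AE32.desc P (p (i + n' + 1))).card := by exact_mod_cast e5
        have e8 : 1 / ((K : ℝ) + 1) * ((AE32.desc P (p (i + n' + 1))).card : ℝ) ≤ N := by
          rw [div_mul_eq_mul_div, one_mul, div_le_iff₀ (by positivity)]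
          have e9 : ((AE32.desc P (p (i + n' + 1))).card : ℝ) ≤ K * N := by exact_mod_cast e4
          have e10 : (0 : ℝ) ≤ N := Nat.cast_nonneg _
          linarith
        rw [hszjR]
        linarith
    · exact Bl.small _ (by omega)

end glue

end AEJ
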