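import Pool.Agent.AELT.Main0

/-!
# The clean partition

All blocks of a partition with a gap at once: `Z` consists of the generic vertices which belong, if their block is thick,
to the clean core of this block.
-/

set_option autoImplicit false

namespace AEJ

open Finset AE15 AED AELT LTT
open scoped Classical


/-- the blocks of a partition: sum of sizes -/
theorem sum_blk {V : Type*} (X : Finset V) (β : V → ℕ) : ∑ i ∈ X.image β, ((blkI X β i).card : ℝ) = X.card := by
  have h1 := card_eq_sum_card_image β X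
  rw [h1]
  push_cast
  rfl

/-- **The clean partition** -/
theorem clean {k eta : ℝ} (hk : 0 < k) (he : 0 < eta) (he1 : eta ≤ 1) (psi : ℝ → ℝ) (hpsi : ∀ a, 0 < a → 0 < psi a) :
    ∃ a0 : ℝ, 0 < a0 ∧ ∃ n0 : ℕ, ∀ {V : Type} {R : V → V → Prop}, AE32.Tour R → ∀ X : Finset V, n0 ≤ X.card →
      ∃ (al : ℝ) (be : V → ℕ) (Z : Finset V), a0 ≤ al ∧ al ≤ 1 ∧ Z ⊆ X ∧ (1 - eta) * X.card ≤ Z.card ∧
        (∀ x ∈ Z, ((Z.filter (fun v => be x < be v ∧ ¬ R x v)).card : ℝ) ≤ psi al * X.card) ∧
        (∀ x ∈ Z, ((Z.filter (fun v => be v < be x ∧ ¬ R v x)).card : ℝ) ≤ psi al * X.card) ∧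
        (∀ x ∈ Z, eta * X.card ≤ ((Z.filter (fun v => be v = be x)).card : ℝ) →
          Ex R (al * X.card) (Z.filter (fun v => be v = be x))) ∧
        (∀ z ∈ Z, ∀ a, Wide R k a X z → a ≤ ((Z.filter (fun v => be z ≤ be v)).card : ℝ) + eta * X.card) ∧
        (∀ z ∈ Z, ∀ a, Wide (fun a b => R b a) k a X z →
          a ≤ ((Z.filter (fun v => be v ≤ be z)).card : ℝ) + eta * X.card) := by
  -- constants
  obtain ⟨κ', hκ'⟩ : ∃ κ' : ℝ, κ' = min k (eta / 4) := ⟨_, rfl⟩
  have hκ0 : 0 < κ' := by rw [hκ']; exact lt_min hk (by linarith)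
  have hκ1 : κ' ≤ k := by rw [hκ']; exact min_le_left _ _
  have hκ2 : κ' ≤ eta / 4 := by rw [hκ']; exact min_le_right _ _
  obtain ⟨nu, hnu⟩ : ∃ nu : ℝ → ℝ, nu = fun q => min (min (psi (q / 8)) (q / 8)) (min (κ' ^ 2 / 32) (eta / 16)) :=
    ⟨_, rfl⟩
  have hnupos : ∀ q, 0 < q → 0 < nu q := by
    intro q hq
    rw [hnu]
    simp only [lt_min_iff]
    exact ⟨⟨hpsi _ (by linarith), by linarith⟩, by positivity, by linarith⟩
  obtain ⟨k₀, hk₀, hpart⟩ := partition (η₀ := eta) (η₁ := eta / 16) he he1 (by linarith) (by linarith) nu hnupos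
    (k₁ := 1) one_pos
  refine ⟨k₀ / 8, by linarith, 1, ?_⟩
  intro V R hT X hn
  obtain ⟨q, β, hq0, hq1, -, hUns, hNG⟩ := hpart (R := R) X
  have hq : 0 < q := lt_of_lt_of_le hk₀ hq0
  obtain ⟨ν, hν⟩ : ∃ ν : ℝ, ν = nu q := ⟨_, rfl⟩
  rw [← hν] at hNG
  have hν0 : 0 < ν := by rw [hν]; exact hnupos q hq
  have hν' : ν = min (min (psi (q / 8)) (q / 8)) (min (κ' ^ 2 / 32) (eta / 16)) := by rw [hν, hnu]
  have hν1 : ν ≤ psi (q / 8) := by rw [hν']; exact (min_le_left _ _).trans (min_le_left _ _)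
  have hν2 : ν ≤ q / 8 := by rw [hν']; exact (min_le_left _ _).trans (min_le_right _ _)
  have hν3 : ν ≤ κ' ^ 2 / 32 := by rw [hν']; exact (min_le_right _ _).trans (min_le_left _ _)
  have hν4 : ν ≤ eta / 16 := by rw [hν']; exact (min_le_right _ _).trans (min_le_right _ _)
  obtain ⟨n, hnn⟩ : ∃ n : ℝ, n = (X.card : ℝ) := ⟨_, rfl⟩
  have hn1 : 1 ≤ n := by rw [hnn]; exact_mod_cast hn
  have hn0 : 0 < n := by linarith
  obtain ⟨NG, hNGd⟩ : ∃ NG, NG = X.filter (fun v => ¬ Gen R X β (ν * X.card) v) := ⟨_, rfl⟩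
  rw [← hNGd] at hNG
  have hgen : ∀ v ∈ X, v ∉ NG → Gen R X β (ν * X.card) v := by
    intro v hv h
    by_contra hcon
    exact h (by rw [hNGd]; exact mem_filter.2 ⟨hv, hcon⟩)
  -- the cores
  have hcore : ∀ i : ℕ, ∃ Y ⊆ blkI X β i, ((blkI X β i \ Y).card : ℝ) ≤ 2 * (eta / 16) * (blkI X β i).card ∧
      (eta * n ≤ ((blkI X β i).card : ℝ) → Ex R (q / 4 * n) Y) := by
    intro i
    by_cases hthick : eta * n ≤ ((blkI X β i).card : ℝ)
    · obtain ⟨v, hv⟩ : (blkI X β i).Nonempty := by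
        rw [← card_pos]
        have : (0 : ℝ) < (blkI X β i).card := lt_of_lt_of_le (by positivity) hthick
        exact_mod_cast this
      rw [mem_blkI] at hv
      have huns := hUns v hv.1
      rw [hv.2] at huns
      have hBn : ((blkI X β i).card : ℝ) ≤ n := by
        rw [hnn]; exact_mod_cast card_le_card (filter_subset _ _)
      obtain ⟨Y, y1, y2, y3⟩ := exists_core (R := R) (η := eta / 16) (k := q) (θ := q / 4) (n := n) (by linarith)
        (by linarith) (by linarith) (by linarith) hBn (by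
          intro A hA h1 h2
          have h3 := huns (by rw [← hnn]; exact hthick) A hA h1 (by
            have h4 : ((blkI X β i \ A).card : ℝ) = (blkI X β i).card - A.card := by
              rw [card_sdiff_of_subset hA]
              push_cast [Nat.cast_sub (card_le_card hA)]
              ring
            rw [h4] at h2
            linarith)
          have h4 : arcs R A (blkI X β i \ A) = (ar R A (blkI X β i \ A) : ℝ) := by
            simp [arcs, ar]
          rw [h4, ← hnn] at h3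
          exact h3)
      exact ⟨Y, y1, y2, fun _ => y3⟩
    · refine ⟨blkI X β i, Subset.refl _, ?_, fun h => absurd h hthick⟩
      rw [sdiff_self]
      simp only [bot_eq_empty, card_empty, Nat.cast_zero]
      positivity
  choose Y hY1 hY2 hY3 using hcore
  obtain ⟨Z, hZ⟩ : ∃ Z, Z = X.filter (fun v => v ∉ NG ∧ v ∈ Y (β v)) := ⟨_, rfl⟩
  have hZm : ∀ {v}, v ∈ Z ↔ v ∈ X ∧ v ∉ NG ∧ v ∈ Y (β v) := by
    intro v
    rw [hZ, mem_filter]
  have hZX : Z ⊆ X := fun v hv => (hZm.1 hv).1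
  have hXZ : ((X \ Z).card : ℝ) ≤ 3 / 16 * eta * n := by
    have h1 : X \ Z ⊆ NG ∪ (X.image β).biUnion (fun i => blkI X β i \ Y i) := by
      intro v hv
      rw [mem_sdiff, hZm] at hv
      rw [mem_union, mem_biUnion]
      by_cases h2 : v ∈ NG
      · exact Or.inl h2
      · refine Or.inr ⟨β v, mem_image_of_mem _ hv.1, ?_⟩
        rw [mem_sdiff, mem_blkI]
        exact ⟨⟨hv.1, rfl⟩, fun h3 => hv.2 ⟨hv.1, h2, h3⟩⟩
    have h2 : ((X \ Z).card : ℝ) ≤ NG.card + ∑ i ∈ X.image β, ((blkI X β i \ Y i).card : ℝ) := by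
      have h3 := (card_le_card h1).trans (card_union_le _ _)
      have h4 := card_biUnion_le (s := X.image β) (t := fun i => blkI X β i \ Y i)
      exact_mod_cast h3.trans (Nat.add_le_add_left h4 _)
    have h3 : ∑ i ∈ X.image β, ((blkI X β i \ Y i).card : ℝ) ≤ 2 * (eta / 16) * n := by
      refine (sum_le_sum (fun i _ => hY2 i)).trans ?_
      rw [← mul_sum, sum_blk, ← hnn]
    rw [← hnn] at hNG
    have h4 : ν * n ≤ eta / 16 * n := mul_le_mul_of_nonneg_right hν4 hn0.le
    linarith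
  have hcardZ : ((X \ Z).card : ℝ) + Z.card = n := by
    rw [hnn]
    exact_mod_cast card_sdiff_add_card_eq_card hZX
  have hsub : ∀ P : V → Prop, ((X.filter P).card : ℝ) ≤ (Z.filter P).card + (X \ Z).card := by
    intro P
    have h1 : X.filter P ⊆ Z.filter P ∪ (X \ Z) := by
      intro v hv
      rw [mem_filter] at hv
      rw [mem_union, mem_filter, mem_sdiff]
      by_cases h2 : v ∈ Z
      · exact Or.inl ⟨h2, hv.2⟩
      · exact Or.inr ⟨hv.1, h2⟩
    exact_mod_cast (card_le_card h1).trans (card_union_le _ _)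
  have hclosed : 2 * (2 * ν) / κ' + ν ≤ κ' / 2 := by
    have h1 : 2 * (2 * ν) / κ' ≤ κ' / 8 := by
      rw [div_le_iff₀ hκ0]
      nlinarith
    have h2 : κ' ^ 2 / 32 ≤ κ' / 8 := by
      have : κ' ≤ 1 := by linarith
      nlinarith
    linarith
  have hηn : 0 < eta * n := by positivity
  refine ⟨q / 8, β, Z, by linarith, by linarith, hZX, ?_, ?_, ?_, ?_, ?_, ?_⟩
  · rw [← hnn]
    linarith
  · intro x hx
    obtain ⟨hxX, hxN, -⟩ := hZm.1 hx
    refine le_trans ?_ (mul_le_mul_of_nonneg_right hν1 (Nat.cast_nonneg _))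
    refine le_trans ?_ (hgen x hxX hxN).2
    have h1 : Z.filter (fun v => β x < β v ∧ ¬ R x v) ⊆ nI R (dwnI X β (β x)) x := by
      intro v hv
      rw [mem_filter] at hv
      rw [mem_nI, mem_dwnI]
      refine ⟨⟨hZX hv.1, hv.2.1⟩, ?_⟩
      rcases hT.tot x v (fun e => by have h2 := hv.2.1; rw [e] at h2; exact lt_irrefl _ h2) with h3 | h3
      · exact absurd h3 hv.2.2
      · exact h3
    exact_mod_cast card_le_card h1
  · intro x hx
    obtain ⟨hxX, hxN, -⟩ := hZm.1 hx
    refine le_trans ?_ (mul_le_mul_of_nonneg_right hν1 (Nat.cast_nonneg _))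
    refine le_trans ?_ (hgen x hxX hxN).1
    have h1 : Z.filter (fun v => β v < β x ∧ ¬ R v x) ⊆ nO R (uppI X β (β x)) x := by
      intro v hv
      rw [mem_filter] at hv
      rw [mem_nO, mem_uppI]
      refine ⟨⟨hZX hv.1, hv.2.1⟩, ?_⟩
      rcases hT.tot x v (fun e => by have h2 := hv.2.1; rw [e] at h2; exact lt_irrefl _ h2) with h3 | h3
      · exact h3
      · exact absurd h3 hv.2.2
    exact_mod_cast card_le_card h1
  · intro x hx hbig
    rw [← hnn] at hbig ⊢
    have h1 : Z.filter (fun v => β v = β x) = Y (β x) \ NG := by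
      ext v
      rw [mem_filter, hZm, mem_sdiff]
      constructor
      · rintro ⟨⟨-, h2, h3⟩, h4⟩
        rw [h4] at h3
        exact ⟨h3, h2⟩
      · rintro ⟨h2, h3⟩
        have h4 := mem_blkI.1 (hY1 _ h2)
        refine ⟨⟨h4.1, h3, ?_⟩, h4.2⟩
        rw [h4.2]
        exact h2
    rw [h1] at hbig ⊢
    have h2 : eta * n ≤ ((blkI X β (β x)).card : ℝ) := by
      refine hbig.trans ?_
      exact_mod_cast card_le_card (sdiff_subset.trans (hY1 _))
    have h3 := (hY3 (β x) h2).sdiff (D := NG) (by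
      rw [← hnn] at hNG
      have : ν * n ≤ q / 8 * n := mul_le_mul_of_nonneg_right hν2 hn0.le
      linarith)
    have h4 : q / 4 * n / 2 = q / 8 * n := by ring
    rwa [h4] at h3
  · intro z hz a hW
    obtain ⟨hzX, hzN, -⟩ := hZm.1 hz
    have hXY : X \ X.filter (fun v => β z ≤ β v) = uppI X β (β z) := by
      ext v
      simp only [mem_sdiff, mem_filter, mem_uppI, not_and, not_le]
      tauto
    have h1 := reach_bound (R := R) (ε := eta) (Y := X.filter (fun v => β z ≤ β v)) hκ0 hκ1 hκ2 hν0 hclosed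
      (filter_subset _ _) (by
        intro v hv hvN
        rw [mem_filter] at hv
        rw [hXY]
        refine le_trans ?_ (hgen v hv.1 hvN).1
        have : nO R (uppI X β (β z)) v ⊆ nO R (uppI X β (β v)) v := by
          apply nO_mono
          intro u hu
          rw [mem_uppI] at hu ⊢
          exact ⟨hu.1, lt_of_lt_of_le hu.2 hv.2⟩
        exact_mod_cast card_le_card this) hNG (mem_filter.2 ⟨hzX, le_rfl⟩) hzN hn hW
    have h2 : ((X.filter (fun v => β z ≤ β v)).card : ℝ) ≤ (Z.filter (fun v => β z ≤ β v)).card + (X \ Z).card := by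
      convert hsub (fun v => β z ≤ β v)
    rw [← hnn] at h1 ⊢
    linarith
  · intro z hz a hW
    obtain ⟨hzX, hzN, -⟩ := hZm.1 hz
    have hXY : X \ X.filter (fun v => β v ≤ β z) = dwnI X β (β z) := by
      ext v
      simp only [mem_sdiff, mem_filter, mem_dwnI, not_and, not_le]
      tauto
    have h1 := reach_bound (R := fun a b => R b a) (ε := eta) (Y := X.filter (fun v => β v ≤ β z)) hκ0 hκ1 hκ2 hν0
      hclosed (filter_subset _ _) (by
        intro v hv hvN
        rw [mem_filter] at hv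
        rw [hXY]
        refine le_trans ?_ (hgen v hv.1 hvN).2
        have : nI R (dwnI X β (β z)) v ⊆ nI R (dwnI X β (β v)) v := by
          apply nI_mono
          intro u hu
          rw [mem_dwnI] at hu ⊢
          exact ⟨hu.1, lt_of_le_of_lt hv.2 hu.2⟩
        exact_mod_cast card_le_card this) hNG (mem_filter.2 ⟨hzX, le_rfl⟩) hzN hn hW
    have h2 : ((X.filter (fun v => β v ≤ β z)).card : ℝ) ≤ (Z.filter (fun v => β v ≤ β z)).card + (X \ Z).card := by
      convert hsub (fun v => β v ≤ β z)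
    rw [← hnn] at h1 ⊢
    linarith

end AEJ
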