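import Pool.Agent.AEJ.Mark
import Pool.Agent.AELT.Main

/-!
# Jumps: definitions
-/

namespace AEJ

open Finset AE15 AED AELT AEK
open scoped Classical

/-- number of sign changes between neighbours -/
def tn : List Bool → ℕ
  | [] => 0
  | [_] => 0
  | x :: y :: l => (if x = y then 0 else 1) + tn (y :: l)

/-- the directions of the arcs on the path to the mark -/
def Mn.sg : Mn → List Bool
  | .leaf _ => []
  | .step _ d _ t => d :: t.sg

/-- a core with its reserves: `U` for the unrooted trees, `Rc` for the connections, `Ro` for the small rests -/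
structure Cor {V : Type*} (R : V → V → Prop) (Y U Rc Ro : Finset V) (ℓ w₀ : ℕ) (κ : ℝ) : Prop where
  hU : U ⊆ Y
  hc : Rc ⊆ Y
  ho : Ro ⊆ Y
  d1 : Disjoint U Rc
  d2 : Disjoint U Ro
  d3 : Disjoint Rc Ro
  conn : Conn R Y Rc ℓ w₀
  deg : ∀ y ∈ Y, ∀ d : Bool, κ ≤ ((nb R d Ro y).card : ℝ)

/-- the vertices with property `N` which are admissible hosts of the root of the tree with forest `c`: closed sets
containing their out-neighbours (in-neighbours) have at least `ε * |X|` vertices more than what can be reached from the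
root (can reach the root) in the tree -/
noncomputable def Adm {V : Type*} (R : V → V → Prop) (κ ε : ℝ) (c : Fd) (X : Finset V) (N : V → Prop) : Finset V :=
  X.filter (fun z => N z ∧ Wide R κ ((dcl c + 1 : ℝ) + ε * X.card) X z ∧
    Wide (fun a b => R b a) κ ((AEB.blk c + 1 : ℝ) + ε * X.card) X z)

/-- the coarse state -/
def Coarse (κ ε β C : ℝ) (c : Fd) : Prop := ∀ {V : Type} {R : V → V → Prop}, AE32.Tour R → ∀ (X : Finset V)
  (N : V → Prop), (c.size + 1 : ℝ) + C ≤ X.card → β * X.card ≤ ((Adm R κ ε c X N).card : ℝ) → In R c N X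

end AEJ
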