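import Pool.Agent.AEJ.Univ
import Pool.Agent.AEJ.Defs
import Pool.Agent.AESK.PE
import Pool.Agent.AEK.Main

/-!
# Trees with a path which turns at every scale: iterated jumps
-/

namespace AEJ

open Finset AE15 AED AELT AEK
open scoped Classical

/-- one jump, with the constants `k'`, `e'`, `be'` for the branch -/
def JumpTo (b : ℕ) (th k' e' be' : ℝ) : Prop :=
  ∀ th1 k e be : ℝ, 0 < th1 → 0 < k → 0 < e → 0 < be → ∃ C0 : ℝ, ∀ C : ℝ, C0 ≤ C → ∀ (c : Fd) (q : Bool × Fd) (d0 : Bool)
    (m : ℕ), c.len ≤ b → c.Deg b → AESK.PtT 0 (d0, c) q m → 4 ≤ m → th1 * (c.size + 1) ≤ q.2.size + 1 →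
    th * (q.2.size + 1) + dcl q.2 + AEB.blk q.2 ≤ q.2.size + 1 → Coarse k' e' be' C q.2 → Coarse k e be C c

/-- the statement of the jump theorem -/
def JumpSt (b : ℕ) : Prop := ∀ th : ℝ, 0 < th → th ≤ 1 → ∃ k' e' be' : ℝ, 0 < k' ∧ 0 < e' ∧ 0 < be' ∧ JumpTo b th k' e' be'

/-- trees with a path which turns at every scale: small trees, and trees which have such a branch with at least
`θ * |T|` vertices which is reached by a path with at least four turns -/
inductive Sc (θ : ℝ) (M : ℕ) : Fd → Prop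
  | small (c : Fd) : c.size + 1 ≤ M → Sc θ M c
  | step (c : Fd) (d0 : Bool) (q : Bool × Fd) (m : ℕ) : AESK.PtT 0 (d0, c) q m → 4 ≤ m →
      θ * (c.size + 1) ≤ q.2.size + 1 → Sc θ M q.2 → Sc θ M c

/-! ### the window -/

theorem dcl_eq_sum (F : Fd) : dcl F = (F.trees.map (fun p => if p.1 then dcl p.2 + 1 else 0)).sum := by
  induction F with
  | nil => rfl
  | node d c s _ ihs => simp [dcl, Fd.trees, ihs]

theorem blk_eq_sum (F : Fd) : AEB.blk F = (F.trees.map (fun p => if p.1 then 0 else AEB.blk p.2 + 1)).sum := by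
  induction F with
  | nil => rfl
  | node d c s _ ihs => simp [AEB.blk, Fd.trees, ihs]

theorem dcl_add_blk_le (F : Fd) : dcl F + AEB.blk F ≤ F.size := by
  induction F with
  | nil => rfl
  | node d c s ihc ihs =>
    simp only [dcl, AEB.blk, Fd.size]
    cases d <;> simp <;> omega

theorem dcl_add_blk_list (L : List (Bool × Fd)) : (L.map (fun p => if p.1 then dcl p.2 + 1 else 0)).sum +
    (L.map (fun p => if p.1 then 0 else AEB.blk p.2 + 1)).sum ≤ tsz L := by
  induction L with
  | nil => simp [tsz]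
  | cons p L ih =>
    rw [tsz_cons, List.map_cons, List.map_cons, List.sum_cons, List.sum_cons]
    have h1 := dcl_add_blk_le p.2
    cases hp : p.1 <;> simp <;> omega

/-- the last branch of a path is disjoint from the vertices reached from the root (`true` in the word: from those which
reach the root) -/
theorem spine_window {l : List (Bool × List (Bool × Fd))} {p q : Bool × Fd} (h : Spine l p q) :
    (false ∈ (AESK.wd l q.1).tail → dcl p.2 + (q.2.size + 1) ≤ p.2.size) ∧
    (true ∈ (AESK.wd l q.1).tail → AEB.blk p.2 + (q.2.size + 1) ≤ p.2.size) ∧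
    (false ∈ (AESK.wd l q.1).tail → true ∈ (AESK.wd l q.1).tail →
      dcl p.2 + AEB.blk p.2 + (q.2.size + 1) ≤ p.2.size) := by
  induction h with
  | nil p => simp [AESK.wd]
  | cons d c s p q l hperm h ih =>
    obtain ⟨i1, i2, i3⟩ := ih
    have hsz := AESK.spine_size h
    have e1 : c.size = p.2.size + 1 + tsz s := by
      rw [Fd.size_eq, (hperm.map _).sum_eq, List.map_cons, List.sum_cons]
      rfl
    have e2 : dcl c = (if p.1 then dcl p.2 + 1 else 0) + (s.map (fun p => if p.1 then dcl p.2 + 1 else 0)).sum := by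
      rw [dcl_eq_sum, (hperm.map _).sum_eq, List.map_cons, List.sum_cons]
    have e3 : AEB.blk c = (if p.1 then 0 else AEB.blk p.2 + 1) +
        (s.map (fun p => if p.1 then 0 else AEB.blk p.2 + 1)).sum := by
      rw [blk_eq_sum, (hperm.map _).sum_eq, List.map_cons, List.sum_cons]
    have e4 := dcl_add_blk_list s
    have e5 : ((AESK.wd ((d, s) :: l) q.1).tail) = AESK.wd l q.1 := rfl
    have e6 : AESK.wd l q.1 = p.1 :: (AESK.wd l q.1).tail := by
      cases h with
      | nil p => rfl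
      | cons d' c' s' p' q l' _ _ => rfl
    have h1 := dcl_add_blk_le p.2
    rw [e5, e6]
    simp only [List.mem_cons]
    have e7 : 0 ≤ AESK.psz l := Nat.zero_le _
    refine ⟨?_, ?_, ?_⟩
    · intro hm
      cases hp : p.1
      · rw [hp] at e2
        simp only [Bool.false_eq_true, if_false] at e2
        omega
      · rw [hp] at e2 hm
        simp only [if_true] at e2
        have := i1 (by simpa using hm)
        omega
    · intro hm
      cases hp : p.1
      · rw [hp] at e3 hm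
        simp only [Bool.false_eq_true, if_false] at e3
        have := i2 (by simpa using hm)
        omega
      · rw [hp] at e3
        simp only [if_true] at e3
        omega
    · intro hm hm'
      cases hp : p.1
      · rw [hp] at e2 e3 hm'
        simp only [Bool.false_eq_true, if_false] at e2 e3
        have := i2 (by simpa using hm')
        omega
      · rw [hp] at e2 e3 hm
        simp only [if_true] at e2 e3
        have := i1 (by simpa using hm)
        omega

theorem tn_const (x : Bool) (l : List Bool) (h : (!x) ∉ l) : AESK.tn (x :: l) = 0 := by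
  induction l generalizing x with
  | nil => rfl
  | cons y l ih =>
    rw [List.mem_cons, not_or] at h
    have hy : y = x := by cases x <;> cases y <;> simp_all
    subst hy
    simp only [AESK.tn, if_true, Nat.zero_add]
    exact ih _ h.2

theorem tn_cons_leC (x y : Bool) (l : List Bool) : AESK.tn (x :: y :: l) ≤ 1 + AESK.tn (y :: l) := by
  simp only [AESK.tn]
  split_ifs <;> omega

theorem window {c : Fd} {d0 : Bool} {q : Bool × Fd} {m : ℕ} (h : AESK.PtT 0 (d0, c) q m) (hm : 4 ≤ m) :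
    dcl c + AEB.blk c + (q.2.size + 1) ≤ c.size := by
  obtain ⟨l, h1, h2⟩ := h.spine
  have h3 := (spine_window h1).2.2
  cases h1 with
  | nil => simp [AESK.wd, AESK.tn] at h2; omega
  | cons d c s p q l hperm h =>
    have e6 : AESK.wd l q.1 = p.1 :: (AESK.wd l q.1).tail := by
      cases h with
      | nil p => rfl
      | cons d' c' s' p' q l' _ _ => rfl
    have e5 : (AESK.wd ((d0, s) :: l) q.1) = d0 :: AESK.wd l q.1 := rfl
    rw [e5] at h2 h3
    simp only [List.tail_cons] at h3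
    rw [e6] at h2 h3
    have h4 := tn_cons_leC d0 p.1 (AESK.wd l q.1).tail
    have h5 : (!p.1) ∈ (AESK.wd l q.1).tail := by
      by_contra hc
      have := tn_const _ _ hc
      omega
    apply h3
    · rw [List.mem_cons]
      cases hp : p.1
      · exact Or.inl rfl
      · rw [hp] at h5
        exact Or.inr h5
    · rw [List.mem_cons]
      cases hp : p.1
      · rw [hp] at h5
        exact Or.inr h5
      · exact Or.inl rfl

/-! ### the closure -/

theorem coarse_small {b : ℕ} (hb : 1 ≤ b) {be M : ℝ} (hbe : 0 < be) : ∃ C0 : ℝ, ∀ C : ℝ, C0 ≤ C → ∀ (k e : ℝ) (c : Fd),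
    c.len ≤ b → c.Deg b → (c.size + 1 : ℝ) ≤ M → Coarse k e be C c := by
  obtain ⟨C₁, hC₁, hU⟩ := un_one b hb (β := 1) one_pos
  refine ⟨(2 * M + C₁) / be, ?_⟩
  intro C hC k e c hl hD hM V R hT X N hX hA
  rw [div_le_iff₀ hbe] at hC
  have h1 : (2 : ℝ) * (c.size + 1) + C₁ ≤ ((Adm R k e c X N).card : ℝ) := by
    have h2 : C ≤ (X.card : ℝ) := by
      have : (0 : ℝ) ≤ c.size := Nat.cast_nonneg _
      linarith
    have h3 : C * be ≤ be * X.card := by
      rw [mul_comm]
      exact mul_le_mul_of_nonneg_left h2 hbe.le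
    linarith
  obtain ⟨x, hx, A, hAs, hxA, -, hE⟩ := hU hT c hl hD (Adm R k e c X N) (by norm_num; linarith)
  have hsub : Adm R k e c X N ⊆ X := filter_subset _ _
  exact ⟨x, hsub hx, A, hAs.trans hsub, hxA, (mem_filter.1 hx).2.1, hE⟩

theorem coarse_of_sc {b : ℕ} (hb : 1 ≤ b) {θ k' e' be' : ℝ} (hθ : 0 < θ) (hθ1 : θ ≤ 1) (hk : 0 < k') (he : 0 < e')
    (hbe : 0 < be') (h : JumpTo b θ k' e' be') (M : ℕ) :
    ∃ C0 : ℝ, ∀ C : ℝ, C0 ≤ C → ∀ c : Fd, c.len ≤ b → c.Deg b → Sc θ M c → Coarse k' e' be' C c := by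
  obtain ⟨C₁, hC₁⟩ := h θ k' e' be' hθ hk he hbe
  obtain ⟨C₂, hC₂⟩ := coarse_small hb (M := M / θ) hbe
  refine ⟨max C₁ C₂, ?_⟩
  intro C hC c
  obtain ⟨s, hs⟩ : ∃ s, s = c.size := ⟨_, rfl⟩
  induction s using Nat.strong_induction_on generalizing c with
  | _ s ih =>
    intro hl hD hSc
    by_cases hsm : (c.size + 1 : ℝ) ≤ M / θ
    · exact hC₂ C ((le_max_right _ _).trans hC) k' e' c hl hD hsm
    push Not at hsm
    have hM : (M : ℝ) ≤ M / θ := by
      rw [le_div_iff₀ hθ]
      have : (0 : ℝ) ≤ M := Nat.cast_nonneg _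
      nlinarith
    cases hSc with
    | small c h =>
      exfalso
      have : (c.size + 1 : ℝ) ≤ M := by exact_mod_cast h
      linarith
    | step c d0 q m hP hm hq hSq =>
      obtain ⟨l, hl1, -⟩ := hP.spine
      obtain ⟨hql, hqD, -⟩ := AESK.spine_deg hl1 hl hD
      have hlt : q.2.size < c.size := by
        have := hP.ne (by omega)
        unfold AESK.sz at this
        simp only at this
        omega
      refine hC₁ C ((le_max_left _ _).trans hC) c q d0 m hl hD hP hm hq ?_ (ih q.2.size (by omega) q.2 rfl hql hqD hSq)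
      rw [div_lt_iff₀ hθ] at hsm
      have hqM : (M : ℝ) < q.2.size + 1 := by linarith
      cases hSq with
      | small _ h =>
        exfalso
        have : (q.2.size + 1 : ℝ) ≤ M := by exact_mod_cast h
        linarith
      | step _ d1 q1 m1 hP1 hm1 hq1 _ =>
        have h1 := window hP1 hm1
        have h2 : (dcl q.2 : ℝ) + AEB.blk q.2 + (q1.2.size + 1) ≤ q.2.size := by exact_mod_cast h1
        linarith

/-- the middle places of a median order are admissible -/
theorem adm_mid {V : Type} {R : V → V → Prop} (hT : AE32.Tour R) {e : ℝ} (he : 0 < e) (c : Fd) (X : Finset V)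
    {N : V → Prop} (hN : ∀ v, N v) :
    (X.card : ℝ) - dcl c - AEB.blk c - 4 * e * X.card - 6 ≤ ((Adm R (e / 8) e c X N).card : ℝ) := by
  obtain ⟨π, hπ⟩ := AEM.exists_medO R X
  obtain ⟨n, hn⟩ : ∃ n : ℝ, n = (X.card : ℝ) := ⟨_, rfl⟩
  have hn0 : 0 ≤ n := by rw [hn]; exact Nat.cast_nonneg _
  have hen : 0 ≤ e * n := mul_nonneg he.le hn0
  obtain ⟨a, ha⟩ : ∃ a : ℕ, a = AEB.blk c + 1 + ⌈2 * e * n⌉₊ := ⟨_, rfl⟩
  obtain ⟨t, ht⟩ : ∃ t : ℕ, t = X.card - (dcl c + 2 + ⌈2 * e * n⌉₊) := ⟨_, rfl⟩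
  have hc1 := Nat.le_ceil (2 * e * n)
  have hc2 := Nat.ceil_lt_add_one (show 0 ≤ 2 * e * n by linarith)
  have hseg := hπ.card_seg (a := a) (b := t) (by omega)
  have hsub : X.filter (fun w => a ≤ π w ∧ π w < t) ⊆ Adm R (e / 8) e c X N := by
    intro v hv
    rw [mem_filter] at hv
    obtain ⟨hvX, h1, h2⟩ := hv
    have h1' : (a : ℝ) ≤ π v := by exact_mod_cast h1
    have h2' : (π v : ℝ) + (dcl c + 2 + ⌈2 * e * n⌉₊) + 1 ≤ n := by
      have h3 : π v + (dcl c + 2 + ⌈2 * e * n⌉₊) + 1 ≤ X.card := by omega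
      have h4 : ((π v + (dcl c + 2 + ⌈2 * e * n⌉₊) + 1 : ℕ) : ℝ) ≤ X.card := by exact_mod_cast h3
      push_cast at h4
      linarith
    rw [ha] at h1'
    push_cast at h1'
    have w1 := univ_out hT (X := X) (Q := X) (S := X) (T := ∅) hπ (κ := e / 8) (ν := 0) (m := 0) (by linarith)
      (Subset.refl _) (by simp) (Subset.refl _) (by simp) (by simp) hvX (by simp)
    have w2 := univ_in hT (X := X) (Q := X) (S := X) (T := ∅) hπ (κ := e / 8) (ν := 0) (m := 0) (by linarith)
      (Subset.refl _) (by simp) (Subset.refl _) (by simp) (by simp) hvX (by simp)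
    refine mem_filter.2 ⟨hvX, hN v, ?_, ?_⟩
    · intro C hC1 hC2 hC3
      refine le_trans ?_ (w1 C hC1 hC2 hC3)
      rw [← hn]
      simp only [card_empty, Nat.cast_zero]
      linarith
    · intro C hC1 hC2 hC3
      refine le_trans ?_ (w2 C hC1 hC2 hC3)
      rw [← hn]
      simp only [card_empty, Nat.cast_zero]
      linarith
  have h3 : ((t - a : ℕ) : ℝ) ≤ ((Adm R (e / 8) e c X N).card : ℝ) := by
    rw [← hseg]
    exact_mod_cast card_le_card hsub
  refine le_trans ?_ h3
  have h4 : (X.card : ℝ) - dcl c - AEB.blk c - 4 * e * X.card - 6 ≤ (X.card : ℝ) - (dcl c + 2 + ⌈2 * e * n⌉₊) - a := by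
    rw [ha, ← hn]
    push_cast
    linarith
  refine h4.trans ?_
  have h5 : (X.card : ℝ) ≤ ((t - a : ℕ) : ℝ) + (dcl c + 2 + ⌈2 * e * n⌉₊) + a := by
    have : X.card ≤ (t - a) + (dcl c + 2 + ⌈2 * e * n⌉₊) + a := by omega
    exact_mod_cast this
  linarith

/-- **Trees with a path which turns at every scale** -/
theorem scales {b : ℕ} (hb : 1 ≤ b) (hJ : JumpSt b) {θ : ℝ} (hθ : 0 < θ) (hθ1 : θ ≤ 1) (M : ℕ) :
    ∃ C : ℕ, ∀ {V : Type} {R : V → V → Prop}, AE32.Tour R → ∀ c : Fd, c.len ≤ b → c.Deg b → Sc θ M c →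
      ∀ X : Finset V, c.size + 1 + C ≤ X.card → In R c (fun _ => True) X := by
  obtain ⟨k', e', be', hk, he, hbe, h⟩ := hJ θ hθ hθ1
  obtain ⟨C₁, hC₁⟩ := coarse_of_sc hb hθ hθ1 hk he hbe h M
  obtain ⟨C₂, hC₂⟩ := h θ (θ / 64) (θ / 8) (θ / 4) hθ (by linarith) (by linarith) (by linarith)
  obtain ⟨C₃, hC₃0, hU⟩ := un_one b hb (β := 1) one_pos
  obtain ⟨C, hC⟩ : ∃ C : ℕ, C = ⌈max (max C₁ C₂) (max (M / θ + C₃) (64 / θ))⌉₊ := ⟨_, rfl⟩
  have hC' : max (max C₁ C₂) (max (M / θ + C₃) (64 / θ)) ≤ (C : ℝ) := by rw [hC]; exact Nat.le_ceil _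
  have c1 : C₁ ≤ C := (le_max_left _ _).trans ((le_max_left _ _).trans hC')
  have c2 : C₂ ≤ C := (le_max_right _ _).trans ((le_max_left _ _).trans hC')
  have c3 : M / θ + C₃ ≤ C := (le_max_left _ _).trans ((le_max_right _ _).trans hC')
  have c4 : 64 / θ ≤ C := (le_max_right _ _).trans ((le_max_right _ _).trans hC')
  rw [div_le_iff₀ hθ] at c4
  refine ⟨C, ?_⟩
  intro V R hT c hl hD hSc X₀ hX₀
  obtain ⟨X, hXX, hX⟩ := exists_subset_card_eq hX₀
  have hXr : (X.card : ℝ) = c.size + 1 + C := by exact_mod_cast hX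
  have hs0 : (0 : ℝ) ≤ c.size := Nat.cast_nonneg _
  have hC0 : (0 : ℝ) ≤ C := Nat.cast_nonneg _
  have key : In R c (fun _ => True) X := by
    by_cases hsm : (c.size + 1 : ℝ) ≤ M / θ
    · exact hU hT c hl hD X (by rw [hXr]; norm_num; linarith)
    push Not at hsm
    have hM : (M : ℝ) ≤ M / θ := by
      rw [le_div_iff₀ hθ]
      have : (0 : ℝ) ≤ M := Nat.cast_nonneg _
      nlinarith
    cases hSc with
    | small _ h =>
      exfalso
      have : (c.size + 1 : ℝ) ≤ M := by exact_mod_cast h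
      linarith
    | step _ d0 q m hP hm hq hSq =>
      obtain ⟨l, hl1, -⟩ := hP.spine
      obtain ⟨hql, hqD, -⟩ := AESK.spine_deg hl1 hl hD
      have hw := window hP hm
      have hwr : (dcl c : ℝ) + AEB.blk c + (q.2.size + 1) ≤ c.size := by exact_mod_cast hw
      have hm1 := adm_mid hT (e := θ / 8) (by linarith) c X (N := fun _ => True) (fun _ => trivial)
      have hadm : θ / 4 * X.card ≤ ((Adm R (θ / 64) (θ / 8) c X (fun _ => True)).card : ℝ) := by
        refine le_trans ?_ (show (X.card : ℝ) - dcl c - AEB.blk c - 4 * (θ / 8) * X.card - 6 ≤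
          ((Adm R (θ / 64) (θ / 8) c X (fun _ => True)).card : ℝ) by
            have e1 : θ / 8 / 8 = θ / 64 := by ring
            rw [← e1]
            exact hm1)
        rw [hXr]
        nlinarith
      rw [div_lt_iff₀ hθ] at hsm
      have hqM : (M : ℝ) < q.2.size + 1 := by linarith
      refine hC₂ C c2 c q d0 m hl hD hP hm hq ?_ (hC₁ C c1 q.2 hql hqD hSq) hT X _ hXr.ge hadm
      cases hSq with
      | small _ h =>
        exfalso
        have : (q.2.size + 1 : ℝ) ≤ M := by exact_mod_cast h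
        linarith
      | step _ d1 q1 m1 hP1 hm1 hq1 _ =>
        have h1 := window hP1 hm1
        have h2 : (dcl q.2 : ℝ) + AEB.blk q.2 + (q1.2.size + 1) ≤ q.2.size := by exact_mod_cast h1
        linarith
  obtain ⟨x, hx, A, hA, h1, h2, h3⟩ := key
  exact ⟨x, hXX hx, A, hA.trans hXX, h1, h2, h3⟩

end AEJ
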