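import Pool.Agent.AEJ.Closure
import Pool.Agent.AEK.Reroot

/-!
# Trees with a path which is balanced at every scale: iterated jumps without turns
-/

namespace AEJ

open Finset AE15 AED AELT AEK
open scoped Classical

/-- one jump without turns, with the constants `k'`, `e'`, `be'` for the branch -/
def JumpTo0 (b : ℕ) (th k' e' be' : ℝ) : Prop :=
  ∀ k e be : ℝ, 0 < k → 0 < e → 0 < be → ∃ κ₀ : ℝ, 0 < κ₀ ∧ ∀ th1 : ℝ, 0 < th1 → ∃ C0 : ℝ, ∀ C : ℝ, C0 ≤ C →
    ∀ (c : Fd) (q : Bool × Fd) (d0 : Bool) (m : ℕ), c.len ≤ b → c.Deg b → AESK.PtT 0 (d0, c) q m →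
      th1 * (c.size + 1) ≤ q.2.size + 1 → q.2.size + 1 ≤ κ₀ * (c.size + 1) →
        th * (q.2.size + 1) + dcl q.2 + AEB.blk q.2 ≤ q.2.size + 1 → Coarse k' e' be' C q.2 → Coarse k e be C c

/-- the statement of the jump theorem without turns -/
def JumpSt0 (b : ℕ) : Prop :=
  ∀ th : ℝ, 0 < th → th ≤ 1 → ∃ k' e' be' : ℝ, 0 < k' ∧ 0 < e' ∧ 0 < be' ∧ JumpTo0 b th k' e' be'

/-- trees with a chain of balanced branches: small trees, and trees which have such a branch with at least `θ * |T|`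
vertices, at least `θ * |branch|` of which are not joined to the root of the branch by directed paths -/
inductive Bl (θ : ℝ) (M : ℕ) : Fd → Prop
  | small (c : Fd) : c.size + 1 ≤ M → Bl θ M c
  | step (c : Fd) (d0 : Bool) (q : Bool × Fd) (m : ℕ) : AESK.PtT 0 (d0, c) q m → q.2.size < c.size →
      θ * (c.size + 1) ≤ q.2.size + 1 → θ * (q.2.size + 1) + dcl q.2 + AEB.blk q.2 ≤ q.2.size + 1 → Bl θ M q.2 → Bl θ M c

/-! ### paths to branches -/

/-- the direction of the first arc is not important -/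
theorem ptT_dir {k : ℕ} {p q : Bool × Fd} {m : ℕ} (h : AESK.PtT k p q m) : q = p ∨ ∀ d, ∃ m', AESK.PtT k (d, p.2) q m' := by
  induction h with
  | refl => exact Or.inl rfl
  | step q r m _ h2 h3 ih =>
    right
    intro d
    rcases ih with rfl | ih
    · exact ⟨_, AESK.PtT.step _ _ _ AESK.PtT.refl h2 h3⟩
    · obtain ⟨m', h⟩ := ih d
      exact ⟨_, AESK.PtT.step _ _ _ h h2 h3⟩

/-- more trees at the root -/
theorem ptT_sub {k : ℕ} {p q : Bool × Fd} {m : ℕ} (h : AESK.PtT k p q m) {c : Fd} (hc : ∀ t ∈ p.2.trees, t ∈ c.trees) :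
    q = p ∨ ∀ d, ∃ m', AESK.PtT k (d, c) q m' := by
  induction h with
  | refl => exact Or.inl rfl
  | step q r m _ h2 h3 ih =>
    right
    intro d
    rcases ih with rfl | ih
    · exact ⟨_, AESK.PtT.step (d, c) _ _ AESK.PtT.refl (hc r h2) h3⟩
    · obtain ⟨m', h⟩ := ih d
      exact ⟨_, AESK.PtT.step _ _ _ h h2 h3⟩

/-- down to the factor `κ₀` -/
theorem descend {θ κ₀ : ℝ} {M : ℕ} (hθ : 0 < θ) {c : Fd} (hM : (M : ℝ) ≤ κ₀ * (c.size + 1)) (s : ℕ) :
    ∀ a : Bool × Fd, a.2.size = s → Bl θ M a.2 → κ₀ * (c.size + 1) < a.2.size + 1 → ∀ d0 m, AESK.PtT 0 (d0, c) a m →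
      ∃ q m', AESK.PtT 0 (d0, c) q m' ∧ θ * κ₀ * (c.size + 1) ≤ q.2.size + 1 ∧ q.2.size + 1 ≤ κ₀ * (c.size + 1) ∧
        θ * (q.2.size + 1) + dcl q.2 + AEB.blk q.2 ≤ q.2.size + 1 ∧ Bl θ M q.2 := by
  induction s using Nat.strong_induction_on with
  | _ s ih =>
    rintro ⟨da, a⟩ hs hB hlt d0 m hP
    simp only at hs hB hlt
    cases hB with
    | small _ h =>
      exfalso
      have : (a.size + 1 : ℝ) ≤ M := by exact_mod_cast h
      linarith
    | step _ d1 q m1 hP1 hq1 hq2 hq3 hBq =>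
      have h1 : ∃ m', AESK.PtT 0 (da, a) q m' := by
        rcases ptT_dir hP1 with rfl | h
        · exact absurd rfl hq1.ne
        · exact h da
      obtain ⟨m', hm'⟩ := h1
      have h2 := hP.trans hm'
      have h3 : θ * (κ₀ * (c.size + 1)) ≤ θ * (a.size + 1) := mul_le_mul_of_nonneg_left hlt.le hθ.le
      by_cases h4 : (q.2.size : ℝ) + 1 ≤ κ₀ * (c.size + 1)
      · exact ⟨q, _, h2, by linarith, h4, hq3, hBq⟩
      · push Not at h4
        exact ih q.2.size (by omega) q rfl hBq h4 d0 _ h2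

/-! ### the closure -/

theorem coarse_of_bl {b : ℕ} (hb : 1 ≤ b) {θ k' e' be' : ℝ} (hθ : 0 < θ) (hk : 0 < k') (he : 0 < e')
    (hbe : 0 < be') (h : JumpTo0 b θ k' e' be') (M : ℕ) :
    ∃ C0 : ℝ, ∀ C : ℝ, C0 ≤ C → ∀ c : Fd, c.len ≤ b → c.Deg b → Bl θ M c → Coarse k' e' be' C c := by
  obtain ⟨κ₁, hκ₁, h⟩ := h k' e' be' hk he hbe
  obtain ⟨κ₀, hκ₀⟩ : ∃ κ₀ : ℝ, κ₀ = min κ₁ (1 / 2) := ⟨_, rfl⟩
  have hκ : 0 < κ₀ := by rw [hκ₀]; exact lt_min hκ₁ (by norm_num)
  have hκ1 : κ₀ ≤ κ₁ := by rw [hκ₀]; exact min_le_left _ _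
  have hκ2 : κ₀ ≤ 1 / 2 := by rw [hκ₀]; exact min_le_right _ _
  obtain ⟨C₁, hC₁⟩ := h (θ * κ₀) (by positivity)
  obtain ⟨C₂, hC₂⟩ := coarse_small hb (M := M / κ₀) hbe
  refine ⟨max C₁ C₂, ?_⟩
  intro C hC c
  obtain ⟨s, hs⟩ : ∃ s, s = c.size := ⟨_, rfl⟩
  induction s using Nat.strong_induction_on generalizing c with
  | _ s ih =>
    intro hl hD hB
    by_cases hsm : (c.size + 1 : ℝ) ≤ M / κ₀
    · exact hC₂ C ((le_max_right _ _).trans hC) k' e' c hl hD hsm
    push Not at hsm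
    rw [div_lt_iff₀ hκ] at hsm
    have hc1 : (1 : ℝ) ≤ c.size + 1 := by
      have : (0 : ℝ) ≤ c.size := Nat.cast_nonneg _
      linarith
    have hc9 : κ₀ * ((c.size : ℝ) + 1) ≤ 1 / 2 * (c.size + 1) := mul_le_mul_of_nonneg_right hκ2 (zero_le_one.trans hc1)
    have hc8 : κ₀ * ((c.size : ℝ) + 1) < c.size + 1 := by linarith only [hc9, hc1]
    obtain ⟨q, m, hP, hq1, hq2, hq3, hBq⟩ := descend (κ₀ := κ₀) hθ (c := c) (M := M) (hsm.le.trans_eq (mul_comm _ _)) c.size (true, c) rfl hB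
      hc8 true 0 AESK.PtT.refl
    obtain ⟨l, hl1, -⟩ := hP.spine
    obtain ⟨hql, hqD, -⟩ := AESK.spine_deg hl1 hl hD
    have hlt : q.2.size < c.size := by
      have h1 : (q.2.size : ℝ) + 1 < c.size + 1 := hq2.trans_lt hc8
      have h2 : (q.2.size : ℝ) < c.size := by linarith only [h1]
      exact_mod_cast h2
    have hq2' : (q.2.size : ℝ) + 1 ≤ κ₁ * (c.size + 1) :=
      hq2.trans (mul_le_mul_of_nonneg_right hκ1 (by positivity))
    exact hC₁ C ((le_max_left _ _).trans hC) c q true m hl hD hP hq1 hq2' hq3 (ih q.2.size (by omega) q.2 rfl hql hqD hBq)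

/-- the coarse state with arbitrary constants: one more jump -/
theorem coarse_of_bl' {b : ℕ} (hb : 1 ≤ b) (hJ : JumpSt0 b) {θ : ℝ} (hθ : 0 < θ) (hθ1 : θ ≤ 1) (M : ℕ) {k e be : ℝ}
    (hk : 0 < k) (he : 0 < e) (hbe : 0 < be) :
    ∃ C0 : ℝ, ∀ C : ℝ, C0 ≤ C → ∀ c : Fd, c.len ≤ b → c.Deg b → Bl θ M c → Coarse k e be C c := by
  obtain ⟨k', e', be', hk', he', hbe', h⟩ := hJ θ hθ hθ1
  obtain ⟨C₃, hC₃⟩ := coarse_of_bl hb hθ hk' he' hbe' h M
  obtain ⟨κ₁, hκ₁, h⟩ := h k e be hk he hbe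
  obtain ⟨κ₀, hκ₀⟩ : ∃ κ₀ : ℝ, κ₀ = min κ₁ (1 / 2) := ⟨_, rfl⟩
  have hκ : 0 < κ₀ := by rw [hκ₀]; exact lt_min hκ₁ (by norm_num)
  have hκ1 : κ₀ ≤ κ₁ := by rw [hκ₀]; exact min_le_left _ _
  have hκ2 : κ₀ ≤ 1 / 2 := by rw [hκ₀]; exact min_le_right _ _
  obtain ⟨C₁, hC₁⟩ := h (θ * κ₀) (by positivity)
  obtain ⟨C₂, hC₂⟩ := coarse_small hb (M := M / κ₀) hbe
  refine ⟨max C₃ (max C₁ C₂), ?_⟩
  intro C hC c hl hD hB V R hT X N hX hA
  have hc3 : C₃ ≤ C := (le_max_left _ _).trans hC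
  have hc1 : C₁ ≤ C := (le_max_left _ _).trans ((le_max_right _ _).trans hC)
  have hc2 : C₂ ≤ C := (le_max_right _ _).trans ((le_max_right _ _).trans hC)
  rcases le_or_gt ((c.size : ℝ) + 1) (M / κ₀) with hsm | hsm
  · exact hC₂ C hc2 k e c hl hD hsm hT X N hX hA
  rw [div_lt_iff₀ hκ] at hsm
  have hc1' : (1 : ℝ) ≤ c.size + 1 := by
    have : (0 : ℝ) ≤ c.size := Nat.cast_nonneg _
    linarith
  have hc9 : κ₀ * ((c.size : ℝ) + 1) ≤ 1 / 2 * (c.size + 1) := mul_le_mul_of_nonneg_right hκ2 (zero_le_one.trans hc1')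
  have hc8 : κ₀ * ((c.size : ℝ) + 1) < c.size + 1 := by linarith only [hc9, hc1']
  obtain ⟨q, m, hP, hq1, hq2, hq3, hBq⟩ := descend (κ₀ := κ₀) hθ (c := c) (M := M) (hsm.le.trans_eq (mul_comm _ _)) c.size (true, c) rfl hB
    hc8 true 0 AESK.PtT.refl
  obtain ⟨l, hl1, -⟩ := hP.spine
  obtain ⟨hql, hqD, -⟩ := AESK.spine_deg hl1 hl hD
  have hq2' : (q.2.size : ℝ) + 1 ≤ κ₁ * (c.size + 1) :=
    hq2.trans (mul_le_mul_of_nonneg_right hκ1 (by positivity))
  exact hC₁ C hc1 c q true m hl hD hP hq1 hq2' hq3 (hC₃ C hc3 q.2 hql hqD hBq) hT X N hX hA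

/-! ### another root -/

theorem trees_size_mk (l : List (Bool × Fd)) : (AESK.mk l).size = tsz l := AESK.mk_size l

/-- the root of a branch becomes the root of the tree -/
theorem reroot_pt {b : ℕ} {p q : Bool × Fd} {m : ℕ} (h : AESK.PtT 0 p q m) (hl : p.2.len ≤ b) (hD : p.2.Deg b) :
    ∃ U : List (Bool × Fd), U.length ≤ 1 ∧ (∀ t ∈ U, t.2.len ≤ b ∧ t.2.Deg b) ∧ tsz U + q.2.size = p.2.size ∧
      ∀ {V : Type} {R : V → V → Prop} (x : V) (B : Finset V), x ∉ B → EmbL R x (q.2.trees ++ U) B →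
        ∃ y B', y ∉ B' ∧ insert y B' = insert x B ∧ Emb R p.2 y B' := by
  induction h with
  | refl =>
    refine ⟨[], by simp, by simp, by simp [tsz], ?_⟩
    intro V R x B hx hE
    rw [List.append_nil, ← emb_iff] at hE
    exact ⟨x, B, hx, rfl, hE⟩
  | step q r m hP h2 _ ih =>
    obtain ⟨U, u1, u2, u3, u4⟩ := ih
    obtain ⟨l, hl1, -⟩ := hP.spine
    obtain ⟨hql, hqD, -⟩ := AESK.spine_deg hl1 hl hD
    rw [Fd.len_eq] at hql
    rw [Fd.deg_iff] at hqD
    have hperm : q.2.trees.Perm (r :: q.2.trees.erase r) := List.perm_cons_erase h2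
    have hlen := hperm.length_eq
    rw [List.length_cons] at hlen
    have hsz : q.2.size = r.2.size + 1 + tsz (q.2.trees.erase r) := by
      rw [Fd.size_eq, (hperm.map _).sum_eq, List.map_cons, List.sum_cons]
      rfl
    have happ : tsz (q.2.trees.erase r ++ U) = tsz (q.2.trees.erase r) + tsz U := by
      simp [tsz, List.map_append, List.sum_append]
    refine ⟨[(!r.1, AESK.mk (q.2.trees.erase r ++ U))], by simp, ?_, ?_, ?_⟩
    · intro t ht
      rw [List.mem_singleton] at ht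
      subst ht
      refine ⟨?_, ?_⟩
      · rw [AESK.mk_len, List.length_append]
        omega
      · rw [AESK.mk_deg]
        intro t ht
        rcases List.mem_append.1 ht with h | h
        · exact hqD t (List.mem_of_mem_erase h)
        · exact u2 t h
    · rw [tsz_cons]
      simp only [AESK.mk_size, happ]
      have : tsz ([] : List (Bool × Fd)) = 0 := rfl
      omega
    · intro V R x B hx hE
      have h3 : Emb R (.node (!r.1) (AESK.mk (q.2.trees.erase r ++ U)) r.2) x B := by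
        rw [emb_iff]
        refine EmbL.perm ?_ hE
        simp only [Fd.trees]
        exact List.perm_append_comm
      obtain ⟨y, B', g1, g2, g3⟩ := emb_reroot h3 hx
      have h4 : EmbL R y (q.2.trees ++ U) B' := by
        rw [emb_iff] at g3
        refine EmbL.perm ?_ g3
        simp only [Fd.trees, AESK.mk_trees]
        rw [← List.cons_append]
        exact hperm.symm.append_right U
      obtain ⟨y', B'', e1, e2, e3⟩ := u4 y B' g1 h4
      exact ⟨y', B'', e1, e2.trans g2, e3⟩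

/-- **Trees with a path which is balanced at every scale** -/
theorem scales0 {b : ℕ} (hb : 1 ≤ b) (hJ : JumpSt0 (b + 1)) {θ : ℝ} (hθ : 0 < θ) (hθ1 : θ ≤ 1) (M : ℕ) :
    ∃ C : ℕ, ∀ {V : Type} {R : V → V → Prop}, AE32.Tour R → ∀ c : Fd, c.len ≤ b → c.Deg b → Bl θ M c →
      ∀ X : Finset V, c.size + 1 + C ≤ X.card → In R c (fun _ => True) X := by
  obtain ⟨k', e', be', hk, he, hbe, h⟩ := hJ θ hθ hθ1
  obtain ⟨C₁, hC₁⟩ := coarse_of_bl (b := b + 1) (by omega) hθ hk he hbe h M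
  obtain ⟨w, hw⟩ : ∃ w : ℝ, w = θ * θ := ⟨_, rfl⟩
  have hw0 : 0 < w := by rw [hw]; positivity
  obtain ⟨κ₁, hκ₁, h⟩ := h (w / 64) (w / 8) (w / 4) (by positivity) (by positivity) (by positivity)
  obtain ⟨C₂, hC₂⟩ := h (min w (θ * κ₁)) (lt_min hw0 (by positivity))
  obtain ⟨C₃, hC₃0, hU⟩ := un_one b hb (β := 1) one_pos
  obtain ⟨L, hL⟩ : ∃ L : ℝ, L = M / θ + M / κ₁ + M := ⟨_, rfl⟩
  obtain ⟨C, hC⟩ : ∃ C : ℕ, C = ⌈max (max C₁ C₂) (max (L + C₃) (24 / w))⌉₊ := ⟨_, rfl⟩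
  have hC' : max (max C₁ C₂) (max (L + C₃) (24 / w)) ≤ (C : ℝ) := by rw [hC]; exact Nat.le_ceil _
  have c1 : C₁ ≤ C := (le_max_left _ _).trans ((le_max_left _ _).trans hC')
  have c2 : C₂ ≤ C := (le_max_right _ _).trans ((le_max_left _ _).trans hC')
  have c3 : L + C₃ ≤ C := (le_max_left _ _).trans ((le_max_right _ _).trans hC')
  have c4 : 24 / w ≤ C := (le_max_right _ _).trans ((le_max_right _ _).trans hC')
  rw [div_le_iff₀ hw0] at c4
  refine ⟨C, ?_⟩
  intro V R hT c hl hD hB X hX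
  have hXR : (c.size : ℝ) + 1 + C ≤ X.card := by exact_mod_cast hX
  by_cases hsm : (c.size + 1 : ℝ) ≤ L
  · exact hU hT c hl hD X (by norm_num; linarith)
  push Not at hsm
  have hM0 : (0 : ℝ) ≤ M := Nat.cast_nonneg _
  have hMθ : 0 ≤ M / θ := by positivity
  have hMκ : 0 ≤ M / κ₁ := by positivity
  have hsM : (M : ℝ) < c.size + 1 := by linarith
  have hsθ : (M : ℝ) < θ * (c.size + 1) := by
    have h1 : M / θ < c.size + 1 := by linarith
    rw [div_lt_iff₀ hθ] at h1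
    linarith
  have hsκ : (M : ℝ) < κ₁ * (c.size + 1) := by
    have h1 : M / κ₁ < c.size + 1 := by linarith
    rw [div_lt_iff₀ hκ₁] at h1
    linarith
  cases hB with
  | small _ h0 =>
    exfalso
    have : (c.size + 1 : ℝ) ≤ M := by exact_mod_cast h0
    linarith
  | step _ d0 q m hP hq1 hq2 hq3 hBq =>
    obtain ⟨U, u1, u2, u3, u4⟩ := reroot_pt hP hl hD
    obtain ⟨l, hl1, -⟩ := hP.spine
    obtain ⟨hql, hqD, -⟩ := AESK.spine_deg hl1 hl hD
    simp only at u3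
    obtain ⟨c', hc'⟩ : ∃ c', c' = AESK.mk (q.2.trees ++ U) := ⟨_, rfl⟩
    have hct : c'.trees = q.2.trees ++ U := by rw [hc', AESK.mk_trees]
    have hcl : c'.len ≤ b + 1 := by
      rw [Fd.len_eq, hct, List.length_append]
      rw [Fd.len_eq] at hql
      omega
    have hcD : c'.Deg (b + 1) := by
      refine deg_mono (Nat.le_succ b) ?_
      rw [hc', AESK.mk_deg]
      intro t ht
      rcases List.mem_append.1 ht with h1 | h1
      · exact (Fd.deg_iff b _).1 hqD t h1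
      · exact u2 t h1
    have hcs : c'.size = c.size := by
      rw [hc', AESK.mk_size]
      have h1 : tsz (q.2.trees ++ U) = tsz q.2.trees + tsz U := by
        simp [tsz, List.map_append, List.sum_append]
      have h2 : q.2.size = tsz q.2.trees := Fd.size_eq _
      rw [h1]
      omega
    have hwin : (dcl c' : ℝ) + AEB.blk c' + θ * (q.2.size + 1) ≤ c'.size + 1 := by
      have h1 : dcl c' = dcl q.2 + (U.map (fun p => if p.1 then dcl p.2 + 1 else 0)).sum := by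
        rw [dcl_eq_sum, hct, List.map_append, List.sum_append, ← dcl_eq_sum]
      have h2 : AEB.blk c' = AEB.blk q.2 + (U.map (fun p => if p.1 then 0 else AEB.blk p.2 + 1)).sum := by
        rw [blk_eq_sum, hct, List.map_append, List.sum_append, ← blk_eq_sum]
      have h3 := dcl_add_blk_list U
      have h4 : (dcl c' : ℝ) + AEB.blk c' ≤ dcl q.2 + AEB.blk q.2 + tsz U := by
        have : dcl c' + AEB.blk c' ≤ dcl q.2 + AEB.blk q.2 + tsz U := by omega
        exact_mod_cast this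
      have h5 : ((tsz U : ℕ) : ℝ) + q.2.size = c'.size := by
        rw [hcs]
        exact_mod_cast u3
      linarith
    have hwin' : (dcl c' : ℝ) + AEB.blk c' + w * (c'.size + 1) ≤ c'.size + 1 := by
      have h1 : θ * (θ * (c.size + 1)) ≤ θ * (q.2.size + 1) := mul_le_mul_of_nonneg_left hq2 hθ.le
      rw [hw, hcs] at *
      linarith
    -- the next balanced branch
    have hnext : ∃ q₂ m₂, AESK.PtT 0 (true, c') q₂ m₂ ∧ min w (θ * κ₁) * (c'.size + 1) ≤ q₂.2.size + 1 ∧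
        q₂.2.size + 1 ≤ κ₁ * (c'.size + 1) ∧ θ * (q₂.2.size + 1) + dcl q₂.2 + AEB.blk q₂.2 ≤ q₂.2.size + 1 ∧
          Bl θ M q₂.2 := by
      have hs0 : (0 : ℝ) ≤ c'.size + 1 := by positivity
      cases hBq with
      | small _ h0 =>
        exfalso
        have : (q.2.size + 1 : ℝ) ≤ M := by exact_mod_cast h0
        linarith
      | step _ d1 q₁ m₁ hP1 g1 g2 g3 g4 =>
        have h1 : ∃ m', AESK.PtT 0 (true, c') q₁ m' := by
          rcases ptT_sub hP1 (c := c') (by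
            intro t ht
            rw [hct]
            exact List.mem_append_left _ ht) with rfl | h1
          · exact absurd rfl g1.ne
          · exact h1 true
        obtain ⟨m', hm'⟩ := h1
        have h2 : w * (c'.size + 1) ≤ q₁.2.size + 1 := by
          have h3 : θ * (θ * (c.size + 1)) ≤ θ * (q.2.size + 1) := mul_le_mul_of_nonneg_left hq2 hθ.le
          rw [hw, hcs]
          linarith
        by_cases h3 : (q₁.2.size : ℝ) + 1 ≤ κ₁ * (c'.size + 1)
        · exact ⟨q₁, m', hm', (mul_le_mul_of_nonneg_right (min_le_left _ _) hs0).trans h2, h3, g3, g4⟩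
        · push Not at h3
          obtain ⟨q₂, m₂, f1, f2, f3, f4, f5⟩ := descend (κ₀ := κ₁) hθ (c := c') (M := M) (by rw [hcs]; exact hsκ.le)
            q₁.2.size q₁ rfl g4 h3 true m' hm'
          exact ⟨q₂, m₂, f1, (mul_le_mul_of_nonneg_right (min_le_right _ _) hs0).trans f2, f3, f4, f5⟩
    obtain ⟨q₂, m₂, f1, f2, f3, f4, f5⟩ := hnext
    obtain ⟨l', hl', -⟩ := f1.spine
    obtain ⟨hql', hqD', -⟩ := AESK.spine_deg hl' hcl hcD
    have hco : Coarse (w / 64) (w / 8) (w / 4) C c' := hC₂ C c2 c' q₂ true m₂ hcl hcD f1 f2 f3 f4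
      (hC₁ C c1 q₂.2 hql' hqD' f5)
    have hin : In R c' (fun _ => True) X := by
      refine hco hT X (fun _ => True) (by rw [hcs]; exact hXR) ?_
      have h1 := adm_mid hT (e := w / 8) (by positivity) c' X (N := fun _ => True) (fun _ => trivial)
      have e1 : w / 8 / 8 = w / 64 := by ring
      rw [e1] at h1
      refine le_trans ?_ h1
      have h2 : (c'.size : ℝ) + 1 ≤ X.card := by
        rw [hcs]
        have : (0 : ℝ) ≤ C := Nat.cast_nonneg _
        linarith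
      have hw1 : w ≤ 1 := by rw [hw]; exact mul_le_one₀ hθ1 hθ.le hθ1
      have h3 : (1 - w) * ((c'.size : ℝ) + 1) ≤ (1 - w) * X.card := mul_le_mul_of_nonneg_left h2 (sub_nonneg.2 hw1)
      have h4 : (C : ℝ) ≤ X.card := by
        have : (0 : ℝ) ≤ c.size := Nat.cast_nonneg _
        linarith
      have h5 : w * C ≤ w * X.card := mul_le_mul_of_nonneg_left h4 hw0.le
      linarith
    obtain ⟨x, hx, A, hA, hxA, -, hE⟩ := hin
    rw [emb_iff, hct] at hE
    obtain ⟨y, B', b1, b2, b3⟩ := u4 x A hxA hE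
    have b4 : insert y B' ⊆ X := by
      rw [b2]
      exact insert_subset hx hA
    exact ⟨y, b4 (mem_insert_self _ _), B', (subset_insert _ _).trans b4, b1, trivial, b3⟩

end AEJ
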