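import Pool.Agent.AEJ.Walk

/-!
# The component of the marked vertex inside one core

The component is a path with side trees; the host of its first vertex is given or may be chosen in a large set, the host of
the marked vertex has to be in a given set.
-/

namespace AEJ

open Finset AE15 AED AELT AEK AESK
open scoped Classical

/-- degrees along a path: all vertices have at most `b` side trees, all but the last one less than `b` -/
def PD (b : ℕ) (l : List (Bool × List (Bool × Fd))) : Prop :=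
  (∀ t ∈ l, t.2.length ≤ b ∧ ∀ p ∈ t.2, p.2.len ≤ b ∧ p.2.Deg b) ∧
    ∀ l1 l2, l = l1 ++ l2 → l2 ≠ [] → ∀ t ∈ l1, t.2.length + 1 ≤ b

/-- the trees at the first vertex of a path -/
def fw : List (Bool × List (Bool × Fd)) → List (Bool × Fd)
  | [] => []
  | [t] => t.2
  | t :: t' :: l => (t'.1, mk (fw (t' :: l))) :: t.2

theorem fw_size (l : List (Bool × List (Bool × Fd))) : ∀ t, tsz (fw (t :: l)) + 1 = psz (t :: l) := by
  induction l with
  | nil => intro t; rw [fw, psz_cons, psz_nil]; ring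
  | cons t' l ih =>
    intro t
    have := ih t'
    rw [fw, tsz_cons, psz_cons, ← this]
    simp only [mk_size]
    ring

theorem fw_deg {b : ℕ} (l : List (Bool × List (Bool × Fd))) : ∀ t, (∀ u ∈ t :: l, u.2.length + 1 ≤ b ∧
    ∀ p ∈ u.2, p.2.len ≤ b ∧ p.2.Deg b) → (fw (t :: l)).length ≤ b ∧ ∀ p ∈ fw (t :: l), p.2.len ≤ b ∧ p.2.Deg b := by
  induction l with
  | nil =>
    intro t h
    obtain ⟨h1, h2⟩ := h t (by simp)
    exact ⟨by simp only [fw]; omega, h2⟩
  | cons t' l ih =>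
    intro t h
    obtain ⟨h1, h2⟩ := h t (by simp)
    obtain ⟨h3, h4⟩ := ih t' (fun u hu => h u (List.mem_cons_of_mem _ hu))
    refine ⟨by simpa [fw] using h1, ?_⟩
    intro p hp
    rw [fw, List.mem_cons] at hp
    rcases hp with rfl | hp
    · exact ⟨by simpa [mk_len] using h3, mk_deg.2 h4⟩
    · exact h2 p hp

variable {V : Type*} {R : V → V → Prop}

theorem fw_emb (l : List (Bool × List (Bool × Fd))) : ∀ (t : Bool × List (Bool × Fd)) {v : V} {S : Finset V}, v ∉ S →
    EmbL R v (fw (t :: l)) S → ∃ w, PE R (t :: l) v w (insert v S) := by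
  induction l with
  | nil =>
    intro t v S hv h
    exact ⟨v, PE.one t.1 t.2 v S hv h⟩
  | cons t' l ih =>
    intro t v S hv h
    rw [fw] at h
    obtain ⟨S₁, S₂, e1, rfl, ⟨x, A, e2, e3, rfl, e4⟩, e5⟩ := h
    rw [mem_union, not_or] at hv
    rw [emb_iff, mk_trees] at e4
    obtain ⟨w, hw⟩ := ih t' e3 e4
    have h1 : Disjoint (insert v S₂) (insert x A) := by
      rw [disjoint_insert_left]
      exact ⟨hv.1, e1.symm⟩
    have h2 := PE.cons t.1 t.2 v S₂ t' l x w (insert x A) hv.2 e5 e2 hw h1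
    refine ⟨w, ?_⟩
    have h3 : insert v (insert x A ∪ S₂) = insert v S₂ ∪ insert x A := by
      ext u; simp only [mem_insert, mem_union]; tauto
    rw [h3]
    exact h2

/-- the side trees of a path with given hosts -/
theorem ctx_path {b ℓ : ℕ} {ρ C κ : ℝ} {Y U Rc Ro : Finset V} {w₀ : ℕ} (h : Ctx R b ℓ ρ C κ Y U Rc Ro w₀) (J : ℕ)
    (t : Bool × List (Bool × Fd)) (l : List (Bool × List (Bool × Fd)))
    (hl : ∀ u ∈ t :: l, u.2.length ≤ b ∧ ∀ p ∈ u.2, p.2.len ≤ b ∧ p.2.Deg b) (v : V)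
    (wk : List (Bool × V)) (hwk : wk.map Prod.fst = l.map Prod.fst) (hW : Wk R v wk) (hvY : v ∈ Y)
    (hwY : ∀ p ∈ wk, p.2 ∈ Y) (hnd : (v :: wk.map Prod.snd).Nodup) (W : Finset V)
    (hVW : (v :: wk.map Prod.snd).toFinset ⊆ W) (hc1 : (W ∩ Rc).card + (l.length + 1) * (b * cc b ℓ J) ≤ w₀)
    (hc2 : ρ * ((t :: l).map (fun t => orpL b ℓ J t.2)).sum + C + (W ∩ Ro).card ≤ κ)
    (hc3 : ρ * (((t :: l).map (fun t => tsz t.2)).sum : ℕ) + C + (W ∩ U).card ≤ (U.card : ℝ)) :
    ∃ D : Finset V, D ⊆ U ∪ Rc ∪ Ro ∧ Disjoint D W ∧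
      PE R (t :: l) v ((wk.map Prod.snd).getLastD v) ((v :: wk.map Prod.snd).toFinset ∪ D) := by
  have hlen : (v :: wk.map Prod.snd).length = (t :: l).length := by
    have := congrArg List.length hwk
    simp only [List.length_map] at this
    simp [this]
  have hb : ((t :: l).map (fun t => t.2.length * cc b ℓ J)).sum ≤ (l.length + 1) * (b * cc b ℓ J) := by
    have h3 := List.sum_le_card_nsmul ((t :: l).map (fun t => t.2.length * cc b ℓ J)) (b * cc b ℓ J) (by
      intro x hx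
      obtain ⟨u, hu, rfl⟩ := List.mem_map.1 hx
      exact Nat.mul_le_mul_right _ (hl u hu).1)
    rw [List.length_map, smul_eq_mul, List.length_cons] at h3
    exact h3
  obtain ⟨hs, r1, r2, r3, r4, D, -, -, -, -⟩ := LS.fam h.hρ (AELT.LS.all h J) (t :: l) (v :: wk.map Prod.snd) W hlen
    (by
      intro x hx
      refine ⟨?_, hVW (List.mem_toFinset.2 hx)⟩
      rcases List.mem_cons.1 hx with rfl | hx
      · exact hvY
      · obtain ⟨p, hp, rfl⟩ := List.mem_map.1 hx
        exact hwY p hp)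
    (fun u hu p hp => (hl u hu).2 p hp) (by omega) hc2 hc3
  obtain _ | ⟨h₀, hs⟩ := hs
  · simp at r1
  rw [List.map_cons, List.cons.injEq] at r1
  obtain ⟨r1, r1'⟩ := r1
  have hsl : hs.length = l.length := by
    have h1 := congrArg List.length r1'
    have h2 := congrArg List.length hwk
    simp only [List.length_map] at h1 h2
    omega
  have hsW : ∀ u ∈ h₀ :: hs, u.1 ∈ W := by
    intro u hu
    refine hVW (List.mem_toFinset.2 ?_)
    rw [← r1, ← r1', ← List.map_cons]
    exact List.mem_map_of_mem hu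
  have hnot : ∀ u ∈ h₀ :: hs, ∀ u' ∈ h₀ :: hs, u.1 ∉ u'.2 := fun u hu u' hu' hm =>
    disjoint_left.1 (r4 u' hu').2 hm (hsW u hu)
  have hpw : ((h₀ :: hs).map (fun t => insert t.1 t.2)).Pairwise Disjoint := by
    rw [List.pairwise_map]
    have hnd' : (h₀ :: hs).Pairwise (fun t t' => t.1 ≠ t'.1) := by
      rw [← List.pairwise_map (f := Prod.fst) (R := (· ≠ ·)), List.map_cons, r1, r1']
      exact hnd
    refine (r3.and hnd').imp_of_mem (fun {u u'} hu hu' htt => ?_)
    rw [disjoint_insert_left, disjoint_insert_right, mem_insert, not_or]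
    exact ⟨⟨htt.2, hnot u hu u' hu'⟩, hnot u' hu' u hu, htt.1⟩
  simp only [List.zip_cons_cons, List.mem_cons, forall_eq_or_imp] at r2
  have hPE := PE.of_hosts l t h₀ hs hsl (by rw [zip_aux l hs wk hwk r1', r1]; exact hW) r2.1 r2.2 hpw
    (fun u hu => hnot u hu u hu)
  rw [r1', r1] at hPE
  obtain ⟨D, hD⟩ : ∃ D, D = ((h₀ :: hs).map Prod.snd).foldr (· ∪ ·) ∅ := ⟨_, rfl⟩
  have hfold : ∀ (L : List (V × Finset V)), (L.map (fun t => insert t.1 t.2)).foldr (· ∪ ·) ∅ =
      (L.map Prod.fst).toFinset ∪ (L.map Prod.snd).foldr (· ∪ ·) ∅ := by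
    intro L
    induction L with
    | nil => simp
    | cons a L ih =>
      simp only [List.map_cons, List.foldr_cons, List.toFinset_cons, ih]
      ext u
      simp only [mem_union, mem_insert]
      tauto
  have hmem : ∀ (L : List (V × Finset V)) (Q : Finset V), (∀ a ∈ L, a.2 ⊆ Q) → (L.map Prod.snd).foldr (· ∪ ·) ∅ ⊆ Q := by
    intro L Q
    induction L with
    | nil => intro _; simp
    | cons a L ih =>
      intro hL
      simp only [List.map_cons, List.foldr_cons]
      exact union_subset (hL a (by simp)) (ih (fun a' ha' => hL a' (by simp [ha'])))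
  have hdis : ∀ (L : List (V × Finset V)), (∀ a ∈ L, Disjoint a.2 W) → Disjoint ((L.map Prod.snd).foldr (· ∪ ·) ∅) W := by
    intro L
    induction L with
    | nil => intro _; simp
    | cons a L ih =>
      intro hL
      simp only [List.map_cons, List.foldr_cons]
      rw [disjoint_union_left]
      exact ⟨hL a (by simp), ih (fun a' ha' => hL a' (by simp [ha']))⟩
  refine ⟨D, ?_, ?_, ?_⟩
  · rw [hD]
    exact hmem _ _ (fun a ha => (r4 a ha).1)
  · rw [hD]
    exact hdis _ (fun a ha => (r4 a ha).2)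
  · rw [hfold, List.map_cons, r1, r1'] at hPE
    rw [hD]
    exact hPE

/-- **The path is long**: the host `v` of the first vertex and the host `w` of the last vertex are given -/
theorem ctx_long {b ℓ : ℕ} {ρ C κ : ℝ} {Y U Rc Ro : Finset V} {w₀ : ℕ} (h : Ctx R b ℓ ρ C κ Y U Rc Ro w₀) (J : ℕ)
    {l : List (Bool × List (Bool × Fd))} (hl : PD b l) (hlen : ℓ + 2 ≤ l.length) {lam M : ℝ}
    (hlam : lam = 1 - 1 / ((b : ℝ) + 1) ^ ℓ) (hM : M = (ℓ * b + 1 : ℝ) ^ J * ((b : ℝ) + 1) ^ (ℓ + 1)) {v w : V} {W : Finset V}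
    (hv : v ∈ Y) (hvW : v ∈ W) (hw : w ∈ Y) (hwW : w ∉ W)
    (hc1 : (W ∩ Rc).card + 1 + b * cc b ℓ J + ℓ + (ℓ + 1) * (b * cc b ℓ J) ≤ w₀)
    (hc2 : ρ * (lam ^ J * psz l + (ℓ + 2) * (b * M)) + C + 1 + (W ∩ Ro).card ≤ κ)
    (hc3 : ρ * psz l + C + 1 + (W ∩ U).card ≤ (U.card : ℝ)) :
    ∃ A : Finset V, v ∉ A ∧ PE R l v w (insert v A) ∧ Disjoint A W ∧ A ⊆ insert w (U ∪ Rc ∪ Ro) := by
  have hρ := h.hρ
  have hC := h.hC
  have hb := h.hb
  have hl0 : 0 ≤ lam := by rw [hlam]; exact lam_nonneg b ℓ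
  have hM0 : 0 ≤ M := by rw [hM]; positivity
  obtain ⟨hlA, hlB⟩ := hl
  -- the two parts of the path
  obtain ⟨l1, l2, rfl, hl2'⟩ : ∃ l1 l2, l = l1 ++ l2 ∧ l2.length = ℓ + 1 :=
    ⟨l.take (l.length - (ℓ + 1)), l.drop (l.length - (ℓ + 1)), (List.take_append_drop _ _).symm, by
      rw [List.length_drop]; omega⟩
  rw [List.length_append] at hlen
  obtain _ | ⟨t, l1⟩ := l1
  · simp at hlen; omega
  obtain _ | ⟨u, l2⟩ := l2
  · simp at hl2'
  rw [List.length_cons, Nat.add_right_cancel_iff] at hl2'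
  have hD1 : ∀ x ∈ t :: l1, x.2.length + 1 ≤ b ∧ ∀ p ∈ x.2, p.2.len ≤ b ∧ p.2.Deg b := fun x hx =>
    ⟨hlB _ _ rfl (by simp) x hx, (hlA x (List.mem_append_left _ hx)).2⟩
  have hD2 : ∀ x ∈ u :: l2, x.2.length ≤ b ∧ ∀ p ∈ x.2, p.2.len ≤ b ∧ p.2.Deg b := fun x hx =>
    hlA x (List.mem_append_right _ hx)
  rw [psz_append] at hc2 hc3
  push_cast at hc2 hc3
  have p1 : (0 : ℝ) ≤ psz (t :: l1) := Nat.cast_nonneg _
  have p2 : (0 : ℝ) ≤ psz (u :: l2) := Nat.cast_nonneg _
  have hrs : ((tsz (fw (t :: l1)) : ℕ) : ℝ) + 1 = psz (t :: l1) := by exact_mod_cast fw_size l1 t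
  obtain ⟨hr1, hr2⟩ := fw_deg l1 t hD1
  have hr1' : ((fw (t :: l1)).length : ℝ) ≤ b := by exact_mod_cast hr1
  have o1 : orpL b ℓ J (fw (t :: l1)) ≤ lam ^ J * psz (t :: l1) + b * M := by
    rw [orpL_eq, ← hlam, ← hM]
    have h4 : lam ^ J * (tsz (fw (t :: l1)) : ℝ) ≤ lam ^ J * psz (t :: l1) :=
      mul_le_mul_of_nonneg_left (by linarith) (pow_nonneg hl0 _)
    have h5 := mul_le_mul_of_nonneg_right hr1' hM0
    linarith
  have o2 := orp_path (ℓ := ℓ) (J := J) hb (u :: l2) (fun x hx => (hD2 x hx).1)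
  rw [← hlam, ← hM, List.length_cons, hl2'] at o2
  push_cast at o2
  have o4 : 0 ≤ lam ^ J * (psz (t :: l1) : ℝ) := mul_nonneg (pow_nonneg hl0 _) p1
  have o5 : 0 ≤ lam ^ J * (psz (u :: l2) : ℝ) := mul_nonneg (pow_nonneg hl0 _) p2
  have hbM : 0 ≤ (b : ℝ) * M := by positivity
  have hlbM : 0 ≤ (ℓ : ℝ) * (b * M) := by positivity
  have hsplit : ∀ (S Q : Finset V), ((insert w W ∪ S) ∩ Q).card ≤ (W ∩ Q).card + 1 + (S ∩ Q).card := by
    intro S Q
    have h5 := card_union_inter_le (insert w W) S Q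
    have h6 : (insert w W ∩ Q).card ≤ (W ∩ Q).card + 1 := by
      have h7 : insert w W ∩ Q ⊆ insert w (W ∩ Q) := by
        intro x; simp only [mem_inter, mem_insert]; tauto
      exact (card_le_card h7).trans (card_insert_le _ _)
    omega
  have hsplit0 : ∀ Q : Finset V, (insert w W ∩ Q).card ≤ (W ∩ Q).card + 1 := by
    intro Q
    have := hsplit ∅ Q
    simpa using this
  have hlc : (fw (t :: l1)).length * cc b ℓ J ≤ b * cc b ℓ J := Nat.mul_le_mul_right _ hr1
  -- the first part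
  obtain ⟨S1, s1, s2, s3, s4, s5, s6⟩ := AELT.LS.all h J (fw (t :: l1)) v (insert w W) hr2 hv (mem_insert_of_mem hvW)
    (by have := hsplit0 Rc; omega)
    (by
      have h4 : ((insert w W ∩ Ro).card : ℝ) ≤ (W ∩ Ro).card + 1 := by exact_mod_cast hsplit0 Ro
      have h5 := mul_le_mul_of_nonneg_left o1 (by linarith : (0 : ℝ) ≤ ρ)
      linarith [mul_nonneg (by linarith : (0 : ℝ) ≤ ρ) o5, mul_nonneg (by linarith : (0 : ℝ) ≤ ρ) hlbM,
        mul_nonneg (by linarith : (0 : ℝ) ≤ ρ) hbM])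
    (by
      have h4 : ((insert w W ∩ U).card : ℝ) ≤ (W ∩ U).card + 1 := by exact_mod_cast hsplit0 U
      have h5 : ρ * (tsz (fw (t :: l1)) : ℝ) ≤ ρ * psz (t :: l1) :=
        mul_le_mul_of_nonneg_left (by linarith) (by linarith)
      have h7 := mul_nonneg (by linarith : (0 : ℝ) ≤ ρ) p2
      linarith)
  rw [disjoint_insert_right] at s3
  obtain ⟨hwS, hWS⟩ := s3
  have hvS : v ∉ S1 := fun hx => disjoint_left.1 hWS hx hvW
  obtain ⟨y, hy⟩ := fw_emb l1 t hvS s1
  have hS1Y : insert v S1 ⊆ Y := by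
    refine insert_subset hv (s2.trans ?_)
    exact union_subset (union_subset h.hUY h.hcY) h.hoY
  have hyY : y ∈ Y := hS1Y hy.mem.2
  -- the connection
  obtain ⟨ds, d, hds⟩ : ∃ ds d, (u :: l2).map Prod.fst = ds ++ [d] := by
    refine ⟨((u :: l2).map Prod.fst).dropLast, ((u :: l2).map Prod.fst).getLast (by simp), ?_⟩
    rw [List.dropLast_append_getLast]
  have hdsl : ds.length = ℓ := by
    have := congrArg List.length hds
    simp only [List.length_map, List.length_append, List.length_cons, List.length_nil] at this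
    omega
  obtain ⟨wk, k1, k2, k3, k4⟩ := h.hc y hyY w hw ds hdsl d (insert w W ∪ S1) (by
      have := hsplit S1 Rc
      omega)
  have hwkl : wk.length = ℓ := by
    have := congrArg List.length k1
    simp only [List.length_map] at this
    omega
  have hXR : (wk.map Prod.snd).toFinset ⊆ Rc := by
    intro x hx
    rw [List.mem_toFinset] at hx
    obtain ⟨p, hp, rfl⟩ := List.mem_map.1 hx
    exact (k4 p hp).1
  have hXd : Disjoint (wk.map Prod.snd).toFinset (insert w W ∪ S1) := by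
    rw [disjoint_left]
    intro x hx
    rw [List.mem_toFinset] at hx
    obtain ⟨p, hp, rfl⟩ := List.mem_map.1 hx
    exact (k4 p hp).2
  have hXc : (wk.map Prod.snd).toFinset.card ≤ ℓ := by
    refine (List.toFinset_card_le _).trans ?_
    rw [List.length_map, hwkl]
  have hXo : (wk.map Prod.snd).toFinset ∩ Ro = ∅ := by
    rw [← disjoint_iff_inter_eq_empty]
    exact disjoint_of_subset_left hXR h.h3
  have hXU : (wk.map Prod.snd).toFinset ∩ U = ∅ := by
    rw [← disjoint_iff_inter_eq_empty]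
    exact disjoint_of_subset_left hXR h.h1.symm
  -- all hosts of the second part
  obtain ⟨Hs, hHs⟩ : ∃ Hs, Hs = wk ++ [(d, w)] := ⟨_, rfl⟩
  have hHf : Hs.map Prod.fst = (u :: l2).map Prod.fst := by
    rw [hHs, hds, List.map_append, k1]
    rfl
  have hHw : Wk R y Hs := by rw [hHs]; exact k2
  have hHn : (Hs.map Prod.snd).Nodup := by
    rw [hHs, List.map_append, List.nodup_append]
    refine ⟨k3, by simp, ?_⟩
    intro a ha c hc hac
    simp only [List.map_cons, List.map_nil, List.mem_singleton] at hc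
    subst hc
    rw [hac] at ha
    exact disjoint_left.1 hXd (List.mem_toFinset.2 ha) (mem_union_left _ (mem_insert_self _ _))
  have hHmem : ∀ x ∈ Hs.map Prod.snd, x = w ∨ x ∈ (wk.map Prod.snd).toFinset := by
    intro x hx
    rw [hHs, List.map_append, List.mem_append] at hx
    rcases hx with hx | hx
    · exact Or.inr (List.mem_toFinset.2 hx)
    · exact Or.inl (by simpa using hx)
  have hHl : (Hs.map Prod.snd).getLastD y = w := by
    rw [hHs, List.map_append]
    simp
  obtain _ | ⟨⟨d', x1⟩, Hs'⟩ := Hs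
  · simp at hHf
  rw [List.map_cons, List.map_cons, List.cons.injEq] at hHf
  obtain ⟨hd', hHf'⟩ := hHf
  simp only at hd'
  obtain ⟨hHw1, hHw2⟩ := hHw
  rw [List.map_cons, List.getLastD_cons] at hHl
  rw [List.map_cons] at hHn hHmem
  simp only at hHl hHn hHmem hHw1 hHw2
  obtain ⟨W', hW'⟩ : ∃ W', W' = (insert w W ∪ S1) ∪ (wk.map Prod.snd).toFinset := ⟨_, rfl⟩
  have hWQ : ∀ Q : Finset V, (W' ∩ Q).card ≤ (W ∩ Q).card + 1 + (S1 ∩ Q).card + ((wk.map Prod.snd).toFinset ∩ Q).card := by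
    intro Q
    rw [hW']
    have h5 := card_union_inter_le (insert w W ∪ S1) (wk.map Prod.snd).toFinset Q
    have h6 := hsplit S1 Q
    omega
  have hHY : ∀ x, x = w ∨ x ∈ (wk.map Prod.snd).toFinset → x ∈ Y := by
    rintro x (rfl | hx)
    · exact hw
    · exact h.hcY (hXR hx)
  have hHW' : ∀ x, x = w ∨ x ∈ (wk.map Prod.snd).toFinset → x ∈ W' := by
    rintro x (rfl | hx)
    · rw [hW']; simp
    · rw [hW']; exact mem_union_right _ hx
  have hc1' : (W' ∩ Rc).card + (l2.length + 1) * (b * cc b ℓ J) ≤ w₀ := by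
    have h4 := hWQ Rc
    have h5 : ((wk.map Prod.snd).toFinset ∩ Rc).card ≤ ℓ := (card_le_card inter_subset_left).trans hXc
    rw [hl2']
    omega
  have hc2' : ρ * ((u :: l2).map (fun t => orpL b ℓ J t.2)).sum + C + (W' ∩ Ro).card ≤ κ := by
    have h4 : ((W' ∩ Ro).card : ℝ) ≤ (W ∩ Ro).card + 1 + (S1 ∩ Ro).card := by
      have h5 := hWQ Ro
      rw [hXo, card_empty] at h5
      exact_mod_cast h5
    have h5 := mul_le_mul_of_nonneg_left o2 (by linarith : (0 : ℝ) ≤ ρ)
    have h7 : orpL b ℓ J (fw (t :: l1)) ≤ ρ * (lam ^ J * psz (t :: l1) + b * M) := by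
      have h8 : 0 ≤ lam ^ J * (psz (t :: l1) : ℝ) + b * M := by linarith
      have h9 := mul_le_mul_of_nonneg_right hρ h8
      linarith
    linarith
  have hc3' : ρ * (((u :: l2).map (fun t => tsz t.2)).sum : ℕ) + C + (W' ∩ U).card ≤ (U.card : ℝ) := by
    have h4 : ((W' ∩ U).card : ℝ) ≤ (W ∩ U).card + 1 + tsz (fw (t :: l1)) := by
      have h5 := hWQ U
      rw [hXU, card_empty] at h5
      have h8 : (W' ∩ U).card ≤ (W ∩ U).card + 1 + tsz (fw (t :: l1)) := by omega
      exact_mod_cast h8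
    have h5 : (tsz (fw (t :: l1)) : ℝ) ≤ ρ * psz (t :: l1) := by
      have h6 := mul_le_mul_of_nonneg_right hρ p1
      linarith
    have h9 : ((((u :: l2).map (fun t => tsz t.2)).sum : ℕ) : ℝ) ≤ psz (u :: l2) := by exact_mod_cast sum_tsz_le _
    have h10 := mul_le_mul_of_nonneg_left h9 (by linarith : (0 : ℝ) ≤ ρ)
    linarith
  obtain ⟨D, d1, d2, d3⟩ := ctx_path h J u l2 hD2 x1 Hs' hHf' hHw2 (hHY x1 (hHmem x1 (by simp)))
    (fun p hp => hHY p.2 (hHmem p.2 (List.mem_cons_of_mem _ (List.mem_map_of_mem hp)))) hHn W' (by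
      intro x hx
      rw [List.mem_toFinset] at hx
      exact hHW' x (hHmem x hx)) hc1' hc2' hc3'
  rw [hHl] at d3
  -- together
  have hHsub : (x1 :: Hs'.map Prod.snd).toFinset ⊆ insert w (wk.map Prod.snd).toFinset := by
    intro x hx
    rw [List.mem_toFinset] at hx
    rw [mem_insert]
    exact hHmem x hx
  have hdD : Disjoint D (insert v S1) := by
    refine d2.mono_right ?_
    rw [hW']
    refine (insert_subset ?_ ?_).trans subset_union_left
    · simp [hvW]
    · exact subset_union_right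
  have hdH : Disjoint (x1 :: Hs'.map Prod.snd).toFinset (insert v S1) := by
    refine disjoint_of_subset_left hHsub ?_
    rw [disjoint_insert_left]
    constructor
    · rw [mem_insert, not_or]
      exact ⟨fun e => hwW (e ▸ hvW), hwS⟩
    · refine hXd.mono_right (insert_subset ?_ subset_union_right)
      simp [hvW]
  have hdis : Disjoint (insert v S1) ((x1 :: Hs'.map Prod.snd).toFinset ∪ D) := by
    rw [disjoint_union_right]
    exact ⟨hdH.symm, hdD.symm⟩
  have hfin := hy.append d3 (by rw [← hd']; exact hHw1) hdis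
  refine ⟨S1 ∪ ((x1 :: Hs'.map Prod.snd).toFinset ∪ D), ?_, ?_, ?_, ?_⟩
  · rw [mem_union, not_or]
    refine ⟨hvS, fun hx => ?_⟩
    exact disjoint_left.1 hdis (mem_insert_self _ _) hx
  · rw [insert_union] at hfin
    exact hfin
  · rw [disjoint_union_left, disjoint_union_left]
    refine ⟨hWS, ?_, ?_⟩
    · refine disjoint_of_subset_left hHsub ?_
      rw [disjoint_insert_left]
      refine ⟨hwW, hXd.mono_right ?_⟩
      exact (subset_insert _ _).trans subset_union_left
    · refine d2.mono_right ?_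
      rw [hW']
      exact (subset_insert _ _).trans (subset_union_left.trans subset_union_left)
  · refine union_subset (s2.trans (subset_insert _ _)) (union_subset (hHsub.trans ?_) (d1.trans (subset_insert _ _)))
    refine insert_subset_insert _ (hXR.trans ?_)
    exact subset_union_right.trans subset_union_left

/-! ### marked forests -/

/-- the path to the mark with the side trees of the component of the common vertex -/
def Mn.pth (k : ℕ) : Bool → Mn → List (Bool × List (Bool × Fd))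
  | d0, .leaf s => [(d0, (s.top k).trees)]
  | d0, .step s d _ t => (d0, (s.top k).trees) :: Mn.pth k d t

theorem Mn.pth_fst (k : ℕ) (d0 : Bool) (t : Mn) : (t.pth k d0).map Prod.fst = d0 :: t.sg := by
  induction t generalizing d0 with
  | leaf s => rfl
  | step s d e t ih => simp [Mn.pth, Mn.sg, ih]

theorem Mn.pth_cons (k : ℕ) (d0 : Bool) (t : Mn) : ∃ s l, t.pth k d0 = (d0, s) :: l ∧ l.map Prod.fst = t.sg := by
  cases t with
  | leaf s => exact ⟨_, [], rfl, rfl⟩
  | step s d e t => exact ⟨_, _, rfl, Mn.pth_fst k d t⟩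

theorem Mn.pth_size (k : ℕ) (d0 : Bool) (t : Mn) (h : t.In k) : psz (t.pth k d0) = (t.fn.top k).size + 1 := by
  induction t generalizing d0 with
  | leaf s =>
    rw [Mn.pth, psz_cons, psz_nil, Mn.fn, Fd.size_eq]
    simp only [tsz]
    ring
  | step s d e t ih =>
    obtain ⟨rfl, h⟩ := h
    rw [Mn.pth, psz_cons, ih d h, Mn.fn, Fn.top, if_pos rfl, Fd.size, Fd.size_eq (s.top e)]
    simp only [tsz]
    ring

theorem Mn.pth_deg {b : ℕ} (k : ℕ) (d0 : Bool) (t : Mn) (h : t.In k) (hl : t.un.len ≤ b) (hD : t.un.Deg b) :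
    PD b (t.pth k d0) := by
  induction t generalizing d0 with
  | leaf s =>
    have hs : (s.top k).len ≤ b := (Fn.len_top k s).trans hl
    refine ⟨?_, ?_⟩
    · intro u hu
      rw [Mn.pth, List.mem_singleton] at hu
      subst hu
      exact ⟨by rw [← Fd.len_eq]; exact hs, (Fd.deg_iff b _).1 (Fn.deg_top k s hD)⟩
    · intro l1 l2 he hne u hu
      exfalso
      rw [Mn.pth] at he
      have := congrArg List.length he
      rw [List.length_append, List.length_singleton] at this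
      have h1 : 0 < l2.length := List.length_pos_of_ne_nil hne
      have h2 : 0 < l1.length := List.length_pos_of_mem hu
      omega
  | step s d e t ih =>
    obtain ⟨rfl, h⟩ := h
    simp only [Mn.un, Mn.fn, Fn.un, Fd.len] at hl
    obtain ⟨hD1, hD2, hD3⟩ := hD
    obtain ⟨i1, i2⟩ := ih d h hD1 hD2
    have hs : (s.top e).len + 1 ≤ b := by
      have := Fn.len_top e s
      omega
    rw [Fd.len_eq] at hs
    refine ⟨?_, ?_⟩
    · intro u hu
      rw [Mn.pth, List.mem_cons] at hu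
      rcases hu with rfl | hu
      · exact ⟨by simp only; omega, (Fd.deg_iff b _).1 (Fn.deg_top e s hD3)⟩
      · exact i1 u hu
    · intro l1 l2 he hne u hu
      rw [Mn.pth] at he
      cases l1 with
      | nil => simp at hu
      | cons a l1 =>
        rw [List.cons_append, List.cons.injEq] at he
        obtain ⟨rfl, he⟩ := he
        rcases List.mem_cons.1 hu with rfl | hu
        · exact hs
        · exact i2 l1 l2 he hne u hu

theorem topM_of_pe {k : ℕ} (t : Mn) : ∀ {d0 : Bool} {x w : V} {A : Finset V}, t.In k → x ∉ A →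
    PE R (t.pth k d0) x w (insert x A) → TopM R k t x A w := by
  induction t with
  | leaf s =>
    intro d0 x w A _ hx h
    rw [Mn.pth] at h
    obtain ⟨S, hS⟩ : ∃ S, S = insert x A := ⟨_, rfl⟩
    rw [← hS] at h
    cases h with
    | one _ _ _ B h1 h2 =>
      have : B = A := by
        rw [← erase_insert h1, hS, erase_insert hx]
      subst this
      exact ⟨(emb_iff _ _ _).2 h2, rfl⟩
  | step s d e t ih =>
    intro d0 x w A hI hx h
    obtain ⟨rfl, hI⟩ := hI
    rw [Mn.pth] at h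
    obtain ⟨s', l', hl', -⟩ := Mn.pth_cons e d t
    rw [hl'] at h
    obtain ⟨S, hS⟩ : ∃ S, S = insert x A := ⟨_, rfl⟩
    rw [← hS] at h
    cases h with
    | cons _ _ _ B _ _ v' _ S' h1 h2 h3 h4 h5 =>
      have hv' := h4.mem.1
      rw [← hl'] at h4
      rw [← insert_erase hv'] at h4
      have h6 := ih hI (notMem_erase v' S') h4
      rw [TopM, if_pos rfl]
      rw [disjoint_insert_left] at h5
      refine ⟨v', S'.erase v', B, h3, notMem_erase _ _, ?_, ?_, ?_, h6, (emb_iff _ _ _).2 h2⟩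
      · exact fun h => disjoint_left.1 h5.2 h hv'
      · exact (h5.2.mono_right (erase_subset _ _)).symm
      · have h7 : A = B ∪ S' := by
          rw [← erase_insert hx, ← hS, insert_union]
          rw [erase_insert]
          rw [mem_union, not_or]
          exact ⟨h1, h5.1⟩
        rw [h7, ← insert_union, insert_erase hv', union_comm]


/-- the context of `AELT.items` -/
theorem Cor.ctx {b ℓ w₀ : ℕ} {ρ C κ : ℝ} {Y U Rc Ro : Finset V} (h : Cor R Y U Rc Ro ℓ w₀ κ) (hb : 1 ≤ b) (hρ : 1 ≤ ρ)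
    (hC : 0 ≤ C) (hU : Un R b ρ C) : Ctx R b ℓ ρ C κ Y U Rc Ro w₀ :=
  ⟨hb, hρ, hC, hU, h.hU, h.hc, h.ho, h.d1, h.d2, h.d3, h.conn, h.deg⟩

/-- the hosts of a short path are given -/
theorem core_short {b ℓ w₀ : ℕ} {ρ C κ : ℝ} {Y U Rc Ro : Finset V} (h : Ctx R b ℓ ρ C κ Y U Rc Ro w₀) (J : ℕ)
    {lam M : ℝ} (hlam : lam = 1 - 1 / ((b : ℝ) + 1) ^ ℓ) (hM : M = (ℓ * b + 1 : ℝ) ^ J * ((b : ℝ) + 1) ^ (ℓ + 1)) {k : ℕ}
    (t : Mn) (hI : t.In k) (hl : t.un.len ≤ b) (hD : t.un.Deg b) (hlen : t.sg.length ≤ ℓ) {v : V}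
    (wk : List (Bool × V)) (hwk : wk.map Prod.fst = t.sg) (hW : Wk R v wk) (hvY : v ∈ Y)
    (hwY : ∀ p ∈ wk, p.2 ∈ Y) (hnd : (v :: wk.map Prod.snd).Nodup) (W : Finset V) (hwW : ∀ p ∈ wk, p.2 ∉ W)
    (hc1 : (W ∩ Rc).card + (ℓ + 2) + (ℓ + 2) * (b * cc b ℓ J) ≤ w₀)
    (hc2 : ρ * (lam ^ J * ((t.fn.top k).size + 1) + (ℓ + 2) * (b * M)) + C + (ℓ + 2) + (W ∩ Ro).card ≤ κ)
    (hc3 : ρ * ((t.fn.top k).size + 1) + C + (ℓ + 2) + (W ∩ U).card ≤ (U.card : ℝ)) :
    ∃ A : Finset V, v ∉ A ∧ TopM R k t v A ((wk.map Prod.snd).getLastD v) ∧ Disjoint A W ∧ A ⊆ Y ∧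
      (insert v A \ (U ∪ Rc ∪ Ro)).card ≤ ℓ + 2 := by
  have hρ := h.hρ
  have hC := h.hC
  have hb := h.hb
  obtain ⟨s, l, hpl, hlf⟩ := Mn.pth_cons k true t
  have hPD := Mn.pth_deg (b := b) k true t hI hl hD
  have hsz := Mn.pth_size k true t hI
  rw [hpl] at hPD hsz
  have hll : l.length = t.sg.length := by
    have := congrArg List.length hlf
    simpa using this
  have hwl : wk.length = t.sg.length := by
    have := congrArg List.length hwk
    simpa using this
  have hl0 : 0 ≤ lam := by rw [hlam]; exact lam_nonneg b ℓ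
  have hM0 : 0 ≤ M := by rw [hM]; positivity
  have hHc : ((v :: wk.map Prod.snd).toFinset).card ≤ ℓ + 1 := by
    refine (List.toFinset_card_le _).trans ?_
    simp only [List.length_cons, List.length_map]
    omega
  have hHQ : ∀ Q : Finset V, ((W ∪ (v :: wk.map Prod.snd).toFinset) ∩ Q).card ≤ (W ∩ Q).card + (ℓ + 1) := by
    intro Q
    have h1 := card_union_inter_le W (v :: wk.map Prod.snd).toFinset Q
    have h2 : ((v :: wk.map Prod.snd).toFinset ∩ Q).card ≤ ℓ + 1 := (card_le_card inter_subset_left).trans hHc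
    omega
  have o2 := orp_path (ℓ := ℓ) (J := J) hb ((true, s) :: l) (fun x hx => (hPD.1 x hx).1)
  rw [← hlam, ← hM, hsz, List.length_cons] at o2
  push_cast at o2
  have hlR : (l.length : ℝ) + 1 ≤ ℓ + 2 := by
    have : l.length + 1 ≤ ℓ + 2 := by omega
    exact_mod_cast this
  have o3 : ((l.length : ℝ) + 1) * (b * M) ≤ (ℓ + 2) * (b * M) := mul_le_mul_of_nonneg_right hlR (by positivity)
  obtain ⟨D, d1, d2, d3⟩ := ctx_path h J (true, s) l hPD.1 v wk (by rw [hwk, hlf]) hW hvY hwY hnd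
    (W ∪ (v :: wk.map Prod.snd).toFinset) subset_union_right
    (by
      have h1 := hHQ Rc
      have h2 : (l.length + 1) * (b * cc b ℓ J) ≤ (ℓ + 2) * (b * cc b ℓ J) := Nat.mul_le_mul_right _ (by omega)
      omega)
    (by
      have h1 : (((W ∪ (v :: wk.map Prod.snd).toFinset) ∩ Ro).card : ℝ) ≤ (W ∩ Ro).card + (ℓ + 1) := by
        exact_mod_cast hHQ Ro
      have h2 := mul_le_mul_of_nonneg_left (o2.trans (add_le_add_right o3 _)) (by linarith : (0 : ℝ) ≤ ρ)
      linarith)
    (by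
      have h1 : (((W ∪ (v :: wk.map Prod.snd).toFinset) ∩ U).card : ℝ) ≤ (W ∩ U).card + (ℓ + 1) := by
        exact_mod_cast hHQ U
      have h9 : (((((true, s) :: l).map (fun t => tsz t.2)).sum : ℕ) : ℝ) ≤ (t.fn.top k).size + 1 := by
        have := sum_tsz_le ((true, s) :: l)
        rw [hsz] at this
        exact_mod_cast this
      have h10 := mul_le_mul_of_nonneg_left h9 (by linarith : (0 : ℝ) ≤ ρ)
      linarith)
  rw [disjoint_union_right] at d2
  obtain ⟨A, hA⟩ : ∃ A, A = (wk.map Prod.snd).toFinset ∪ D := ⟨_, rfl⟩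
  have hvA : v ∉ A := by
    rw [hA, mem_union, not_or, List.mem_toFinset]
    refine ⟨(List.nodup_cons.1 hnd).1, fun hx => ?_⟩
    exact disjoint_left.1 d2.2 hx (by simp)
  have hins : (v :: wk.map Prod.snd).toFinset ∪ D = insert v A := by
    rw [hA, List.toFinset_cons, insert_union]
  rw [hins, ← hpl] at d3
  refine ⟨A, hvA, topM_of_pe t hI hvA d3, ?_, ?_, ?_⟩
  · rw [hA, disjoint_union_left]
    refine ⟨?_, d2.1⟩
    rw [disjoint_left]
    intro x hx
    rw [List.mem_toFinset] at hx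
    obtain ⟨p, hp, rfl⟩ := List.mem_map.1 hx
    exact hwW p hp
  · rw [hA]
    refine union_subset ?_ (d1.trans (union_subset (union_subset h.hUY h.hcY) h.hoY))
    intro x hx
    rw [List.mem_toFinset] at hx
    obtain ⟨p, hp, rfl⟩ := List.mem_map.1 hx
    exact hwY p hp
  · have h1 : insert v A \ (U ∪ Rc ∪ Ro) ⊆ (v :: wk.map Prod.snd).toFinset := by
      intro x hx
      rw [← hins, mem_sdiff, mem_union] at hx
      rcases hx.1 with h2 | h2
      · exact h2
      · exact absurd (d1 h2) hx.2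
    exact (card_le_card h1).trans (hHc.trans (by omega))

/-- **The component hangs on a vertex of another region**: the host of its first vertex and the host of the marked vertex
may be chosen in a large set `S` -/
theorem core_k1 {b ℓ w₀ : ℕ} {ρ C κ : ℝ} {Y U Rc Ro : Finset V} (hT : AE32.Tour R) (h : Ctx R b ℓ ρ C κ Y U Rc Ro w₀)
    (J : ℕ) {lam M : ℝ} (hlam : lam = 1 - 1 / ((b : ℝ) + 1) ^ ℓ)
    (hM : M = (ℓ * b + 1 : ℝ) ^ J * ((b : ℝ) + 1) ^ (ℓ + 1)) {k : ℕ} (t : Mn) (hI : t.In k) (hl : t.un.len ≤ b)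
    (hD : t.un.Deg b) {S W : Finset V} (hSY : S ⊆ Y) (hSW : Disjoint S W) (hS : 3 ^ (ℓ + 1) ≤ S.card)
    (hc1 : (W ∩ Rc).card + (ℓ + 2) + (ℓ + 2) * (b * cc b ℓ J) ≤ w₀)
    (hc2 : ρ * (lam ^ J * ((t.fn.top k).size + 1) + (ℓ + 2) * (b * M)) + C + (ℓ + 2) + (W ∩ Ro).card ≤ κ)
    (hc3 : ρ * ((t.fn.top k).size + 1) + C + (ℓ + 2) + (W ∩ U).card ≤ (U.card : ℝ)) :
    ∃ (x1 : V) (A : Finset V) (w : V), x1 ∈ S ∧ w ∈ S ∧ x1 ∉ A ∧ TopM R k t x1 A w ∧ Disjoint (insert x1 A) W ∧
      insert x1 A ⊆ Y ∧ (insert x1 A \ (U ∪ Rc ∪ Ro)).card ≤ ℓ + 2 := by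
  have hρ := h.hρ
  have hb := h.hb
  by_cases hlen : t.sg.length ≤ ℓ
  · obtain ⟨v, hv, wk, k1, k2, k3, k4⟩ := walk_free hT t.sg S
      ((Nat.pow_le_pow_right (by norm_num) (by omega)).trans hS)
    have hwW : ∀ p ∈ wk, p.2 ∉ W := fun p hp => disjoint_left.1 hSW (k3 p hp)
    obtain ⟨A, a1, a2, a3, a4, a5⟩ := core_short h J hlam hM t hI hl hD hlen wk k1 k2 (hSY hv)
      (fun p hp => hSY (k3 p hp)) k4 W hwW hc1 hc2 hc3
    refine ⟨v, A, _, hv, ?_, a1, a2, ?_, insert_subset (hSY hv) a4, ?_⟩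
    · have : ∀ (l : List V) (v : V), v ∈ S → (∀ x ∈ l, x ∈ S) → l.getLastD v ∈ S := by
        intro l
        induction l with
        | nil => intro v hv _; exact hv
        | cons a l ih =>
          intro v _ hl
          rw [List.getLastD_cons]
          exact ih a (hl a (by simp)) (fun x hx => hl x (List.mem_cons_of_mem _ hx))
      refine this _ v hv ?_
      intro x hx
      obtain ⟨p, hp, rfl⟩ := List.mem_map.1 hx
      exact k3 p hp
    · rw [disjoint_insert_left]
      exact ⟨disjoint_left.1 hSW hv, a3⟩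
    · exact a5
  · push Not at hlen
    have hS2 : 1 < S.card := by
      refine lt_of_lt_of_le ?_ hS
      calc 1 < 3 ^ 1 := by norm_num
        _ ≤ 3 ^ (ℓ + 1) := Nat.pow_le_pow_right (by norm_num) (by omega)
    obtain ⟨v, hv, w, hw, hvw⟩ := one_lt_card.1 hS2
    obtain ⟨s, l, hpl, hlf⟩ := Mn.pth_cons k true t
    have hPD := Mn.pth_deg (b := b) k true t hI hl hD
    have hsz := Mn.pth_size k true t hI
    have hll : (t.pth k true).length = t.sg.length + 1 := by
      have := congrArg List.length (Mn.pth_fst k true t)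
      simpa using this
    have hszR : (psz (t.pth k true) : ℝ) = (t.fn.top k).size + 1 := by
      rw [hsz]
      push_cast
      ring
    have hWQ : ∀ Q : Finset V, (insert v W ∩ Q).card ≤ (W ∩ Q).card + 1 := by
      intro Q
      have h7 : insert v W ∩ Q ⊆ insert v (W ∩ Q) := by
        intro x; simp only [mem_inter, mem_insert]; tauto
      exact (card_le_card h7).trans (card_insert_le _ _)
    have hℓ : (0 : ℝ) ≤ ℓ := Nat.cast_nonneg _
    obtain ⟨A, a1, a2, a3, a4⟩ := ctx_long h J hPD (by omega) hlam hM (v := v) (w := w) (W := insert v W) (hSY hv)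
      (mem_insert_self _ _) (hSY hw) (by
        rw [mem_insert, not_or]
        exact ⟨fun e => hvw e.symm, disjoint_left.1 hSW hw⟩)
      (by
        have h1 := hWQ Rc
        have h2 : (ℓ + 2) * (b * cc b ℓ J) = b * cc b ℓ J + (ℓ + 1) * (b * cc b ℓ J) := by ring
        omega)
      (by
        have h1 : ((insert v W ∩ Ro).card : ℝ) ≤ (W ∩ Ro).card + 1 := by exact_mod_cast hWQ Ro
        rw [hszR]
        linarith)
      (by
        have h1 : ((insert v W ∩ U).card : ℝ) ≤ (W ∩ U).card + 1 := by exact_mod_cast hWQ U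
        rw [hszR]
        linarith)
    rw [disjoint_insert_right] at a3
    refine ⟨v, A, w, hv, hw, a1, topM_of_pe t hI a1 a2, ?_, ?_, ?_⟩
    · rw [disjoint_insert_left]
      exact ⟨disjoint_left.1 hSW hv, a3.2⟩
    · refine insert_subset (hSY hv) (a4.trans (insert_subset (hSY hw) ?_))
      exact union_subset (union_subset h.hUY h.hcY) h.hoY
    · have h1 : insert v A \ (U ∪ Rc ∪ Ro) ⊆ {v, w} := by
        intro x hx
        rw [mem_sdiff, mem_insert] at hx
        rw [mem_insert, mem_singleton]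
        rcases hx.1 with h2 | h2
        · exact Or.inl h2
        · rcases mem_insert.1 (a4 h2) with h3 | h3
          · exact Or.inr h3
          · exact absurd h3 hx.2
      exact (card_le_card h1).trans (card_le_two.trans (by omega))

/-- **The component contains the root**, whose host `z` is given; the path to the marked vertex is long or has two turns;
the host of the marked vertex is in `N` -/
theorem core_k2 {b ℓ w₀ : ℕ} {ρ C κ : ℝ} {Y U Rc Ro : Finset V} (hT : AE32.Tour R) (h : Ctx R b ℓ ρ C κ Y U Rc Ro w₀)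
    (J : ℕ) {lam M : ℝ} (hlam : lam = 1 - 1 / ((b : ℝ) + 1) ^ ℓ)
    (hM : M = (ℓ * b + 1 : ℝ) ^ J * ((b : ℝ) + 1) ^ (ℓ + 1)) {k : ℕ} (t : Mn) (hI : t.In k) (hl : t.un.len ≤ b)
    (hD : t.un.Deg b) (htn : 2 ≤ tn t.sg) {z : V} {N W : Finset V} (hzY : z ∈ Y) (hzW : z ∈ W) (hNY : N ⊆ Y)
    (hNW : Disjoint N W) {K : ℕ} (hK : W.card + ℓ + 1 ≤ K) (hz : ∀ d, 4 * K + 4 * K * ℓ + 1 ≤ (nb R d Y z).card)
    (hN : 2 * K * (ℓ + 1) < N.card)
    (hc1 : (W ∩ Rc).card + (ℓ + 2) + (ℓ + 2) * (b * cc b ℓ J) ≤ w₀)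
    (hc2 : ρ * (lam ^ J * ((t.fn.top k).size + 1) + (ℓ + 2) * (b * M)) + C + (ℓ + 2) + (W ∩ Ro).card ≤ κ)
    (hc3 : ρ * ((t.fn.top k).size + 1) + C + (ℓ + 2) + (W ∩ U).card ≤ (U.card : ℝ)) :
    ∃ (A : Finset V) (w : V), w ∈ N ∧ z ∉ A ∧ TopM R k t z A w ∧ Disjoint A W ∧ A ⊆ Y ∧
      (insert z A \ (U ∪ Rc ∪ Ro)).card ≤ ℓ + 2 := by
  have hρ := h.hρ
  have hb := h.hb
  by_cases hlen : t.sg.length ≤ ℓ
  · obtain ⟨d, ds, hds⟩ : ∃ d ds, t.sg = d :: ds := by
      cases hsg : t.sg with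
      | nil => rw [hsg] at htn; simp [tn] at htn
      | cons d ds => exact ⟨d, ds, rfl⟩
    have hdl : ds.length + 1 ≤ ℓ := by
      rw [hds, List.length_cons] at hlen
      exact hlen
    obtain ⟨wk, k1, k2, k3, k4, k5⟩ := walk_two hT (K := K) (Y := Y) (z := z) d ds (by rw [← hds]; exact htn) W (by omega)
      (by
        have h1 := hz d
        have h2 : 4 * K * ds.length ≤ 4 * K * ℓ := Nat.mul_le_mul_left _ (by omega)
        omega) N hNY hNW (by
        have h2 : 2 * K * (ds.length + 1) ≤ 2 * K * (ℓ + 1) := Nat.mul_le_mul_left _ (by omega)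
        omega)
    have hnd : (z :: wk.map Prod.snd).Nodup := by
      refine List.nodup_cons.2 ⟨?_, k4⟩
      intro hx
      obtain ⟨p, hp, hpz⟩ := List.mem_map.1 hx
      exact (k5 p hp).2 (hpz ▸ hzW)
    obtain ⟨A, a1, a2, a3, a4, a5⟩ := core_short h J hlam hM t hI hl hD hlen wk (by rw [k1, hds]) k2 hzY
      (fun p hp => (k5 p hp).1) hnd W (fun p hp => (k5 p hp).2) hc1 hc2 hc3
    exact ⟨A, _, k3, a1, a2, a3, a4, a5⟩
  · push Not at hlen
    obtain ⟨w, hw⟩ : N.Nonempty := by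
      rw [← card_pos]
      omega
    have hPD := Mn.pth_deg (b := b) k true t hI hl hD
    have hsz := Mn.pth_size k true t hI
    have hll : (t.pth k true).length = t.sg.length + 1 := by
      have := congrArg List.length (Mn.pth_fst k true t)
      simpa using this
    have hszR : (psz (t.pth k true) : ℝ) = (t.fn.top k).size + 1 := by
      rw [hsz]
      push_cast
      ring
    have hℓ : (0 : ℝ) ≤ ℓ := Nat.cast_nonneg _
    obtain ⟨A, a1, a2, a3, a4⟩ := ctx_long h J hPD (by omega) hlam hM (v := z) (w := w) (W := W) hzY hzW (hNY hw)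
      (disjoint_left.1 hNW hw)
      (by
        have h2 : (ℓ + 2) * (b * cc b ℓ J) = b * cc b ℓ J + (ℓ + 1) * (b * cc b ℓ J) := by ring
        omega)
      (by rw [hszR]; linarith) (by rw [hszR]; linarith)
    refine ⟨A, w, hw, a1, topM_of_pe t hI a1 a2, a3, ?_, ?_⟩
    · refine a4.trans (insert_subset (hNY hw) ?_)
      exact union_subset (union_subset h.hUY h.hcY) h.hoY
    · have h1 : insert z A \ (U ∪ Rc ∪ Ro) ⊆ {z, w} := by
        intro x hx
        rw [mem_sdiff, mem_insert] at hx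
        rw [mem_insert, mem_singleton]
        rcases hx.1 with h2 | h2
        · exact Or.inl h2
        · rcases mem_insert.1 (a4 h2) with h3 | h3
          · exact Or.inr h3
          · exact absurd h3 hx.2
      exact (card_le_card h1).trans (card_le_two.trans (by omega))

end AEJ
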