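import Pool.Agent.AEJ.Lab

/-!
# Weighted cuts

The blocks of the tournament have rooms `A (t + 1) - A t`. The vertices of the tree outside a branch `F` have weight
`1 + σ`, the vertices of `F` have weight `1 - σ'`. We cut a linear extension of the tree, in which `F` is an interval and
the root is in the block `j`, into at most five regions.
-/

namespace AEJ

open Finset AE15 AED AELT AEX AEK LTT
open scoped Classical

/-- positions of the cuts -/
noncomputable def PP (Λ δ o : ℝ) (B : ℕ → ℝ) : ℕ → ℝ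
  | 0 => 0
  | i + 1 => max (PP Λ δ o B i) (min Λ (B (i + 1) - (o + (i + 1)) * δ))

theorem PP_mono (Λ δ o : ℝ) (B : ℕ → ℝ) : Monotone (PP Λ δ o B) :=
  monotone_nat_of_le_succ (fun _ => le_max_left _ _)

theorem PP_nonneg (Λ δ o : ℝ) (B : ℕ → ℝ) (i : ℕ) : 0 ≤ PP Λ δ o B i := PP_mono Λ δ o B (Nat.zero_le i)

theorem PP_le {Λ : ℝ} (δ o : ℝ) (hΛ : 0 ≤ Λ) (B : ℕ → ℝ) (i : ℕ) : PP Λ δ o B i ≤ Λ := by
  induction i with
  | zero => exact hΛ
  | succ i ih => exact max_le ih (min_le_left _ _)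

/-- upper bound -/
theorem PP_up {Λ δ o : ℝ} (hδ : 0 ≤ δ) {B : ℕ → ℝ} (hB : Monotone B) (i : ℕ) :
    PP Λ δ o B i ≤ max 0 (B i - o * δ) := by
  induction i with
  | zero => exact le_max_left _ _
  | succ i ih =>
    refine max_le (ih.trans (max_le_max le_rfl ?_)) ((min_le_right _ _).trans (le_trans ?_ (le_max_right _ _)))
    · have := hB (Nat.le_succ i)
      linarith
    · have : (0 : ℝ) ≤ (i + 1) * δ := by positivity
      linarith only [this]

theorem PP_ge {Λ δ o : ℝ} (hδ : 0 ≤ δ) (ho : 0 ≤ o) {B : ℕ → ℝ} (hB0 : B 0 = 0) (i : ℕ) :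
    min Λ (B i - (o + i) * δ) ≤ PP Λ δ o B i := by
  cases i with
  | zero =>
    rw [hB0]
    refine (min_le_right _ _).trans ?_
    have : 0 ≤ o * δ := by positivity
    simp only [PP]
    push_cast
    linarith
  | succ i =>
    push_cast
    exact le_max_right _ _

theorem PP_step {Λ δ o : ℝ} (hδ : 0 ≤ δ) (ho : 0 ≤ o) {B : ℕ → ℝ} (hB0 : B 0 = 0) (hΛ : 0 ≤ Λ) {i : ℕ} {y : ℝ}
    (hy : PP Λ δ o B i ≤ y) (h : y < PP Λ δ o B (i + 1)) :
    PP Λ δ o B (i + 1) - y ≤ B (i + 1) - B i - δ := by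
  have h1 : PP Λ δ o B (i + 1) = min Λ (B (i + 1) - (o + (i + 1)) * δ) := by
    rcases max_choice (PP Λ δ o B i) (min Λ (B (i + 1) - (o + (i + 1)) * δ)) with h2 | h2
    · exfalso
      rw [PP, h2] at h
      linarith
    · exact h2
  have h2 : PP Λ δ o B (i + 1) ≤ B (i + 1) - (o + (i + 1)) * δ := by rw [h1]; exact min_le_right _ _
  have h3 := PP_ge (Λ := Λ) hδ ho hB0 i
  have h4 := PP_le δ o hΛ B (i + 1)
  rcases min_le_iff.1 h3 with h5 | h5
  · linarith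
  · linarith

/-- positions of the cuts with the value `c` at `m₀` -/
noncomputable def PQ (Λ δ c : ℝ) (B : ℕ → ℝ) (i : ℕ) : ℝ := max (min (PP Λ δ 0 B i) c) (PP Λ δ 5 B i)

theorem PQ_mono (Λ δ c : ℝ) (B : ℕ → ℝ) : Monotone (PQ Λ δ c B) := fun _ _ h =>
  max_le_max (min_le_min (PP_mono _ _ _ _ h) le_rfl) (PP_mono _ _ _ _ h)

theorem PQ_zero {Λ δ c : ℝ} (hc : 0 ≤ c) (B : ℕ → ℝ) : PQ Λ δ c B 0 = 0 := by
  simp only [PQ, PP]
  rw [min_eq_left hc, max_self]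

theorem PQ_le {Λ : ℝ} (δ c : ℝ) (hΛ : 0 ≤ Λ) (B : ℕ → ℝ) (i : ℕ) : PQ Λ δ c B i ≤ Λ :=
  max_le ((min_le_left _ _).trans (PP_le δ 0 hΛ B i)) (PP_le δ 5 hΛ B i)

theorem PQ_le_B {Λ δ : ℝ} (c : ℝ) (hδ : 0 ≤ δ) {B : ℕ → ℝ} (hB : Monotone B) (hB0 : B 0 = 0) (i : ℕ) :
    PQ Λ δ c B i ≤ B i := by
  have h0 : 0 ≤ B i := by
    rw [← hB0]
    exact hB (Nat.zero_le i)
  refine max_le ((min_le_left _ _).trans ((PP_up hδ hB i).trans ?_)) ((PP_up hδ hB i).trans ?_)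
  · exact max_le h0 (by linarith)
  · exact max_le h0 (by linarith)

theorem PQ_ge {Λ δ : ℝ} (c : ℝ) (hδ : 0 ≤ δ) {B : ℕ → ℝ} (hB0 : B 0 = 0) {i : ℕ} (hi : i ≤ 5) :
    min Λ (B i - 10 * δ) ≤ PQ Λ δ c B i := by
  refine le_trans ?_ (le_max_right _ _)
  refine le_trans (min_le_min le_rfl ?_) (PP_ge hδ (by norm_num) hB0 i)
  have h1 : (i : ℝ) ≤ 5 := by exact_mod_cast hi
  have h2 : (i : ℝ) * δ ≤ 5 * δ := mul_le_mul_of_nonneg_right h1 hδ
  linarith

/-- the value at `m₀` -/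
theorem PQ_mid {Λ δ c : ℝ} (hδ : 0 ≤ δ) {B : ℕ → ℝ} (hB : Monotone B) (hB0 : B 0 = 0) {m₀ : ℕ} (hm : m₀ ≤ 5)
    (hc : c = max 0 (B m₀ - 5 * δ)) (hcΛ : B m₀ ≤ Λ) : PQ Λ δ c B m₀ = c := by
  have hΛ0 : 0 ≤ Λ := by
    have := hB (Nat.zero_le m₀)
    rw [hB0] at this
    linarith
  have h1 : c ≤ PP Λ δ 0 B m₀ := by
    rw [hc]
    refine max_le (PP_nonneg _ _ _ _ _) (le_trans ?_ (PP_ge hδ le_rfl hB0 m₀))
    have h1 : (m₀ : ℝ) ≤ 5 := by exact_mod_cast hm
    have h2 : (m₀ : ℝ) * δ ≤ 5 * δ := mul_le_mul_of_nonneg_right h1 hδ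
    exact le_min (by linarith) (by linarith)
  have h2 := PP_up (Λ := Λ) (o := 5) hδ hB m₀
  rw [← hc] at h2
  rw [PQ, min_eq_right h1, max_eq_left h2]

theorem PQ_step {Λ δ c : ℝ} (hδ : 0 ≤ δ) {B : ℕ → ℝ} (hB : Monotone B) (hB0 : B 0 = 0) {m₀ : ℕ} (hm : m₀ ≤ 5)
    (hc : c = max 0 (B m₀ - 5 * δ)) (hcΛ : B m₀ ≤ Λ) {i : ℕ} (h : PQ Λ δ c B i < PQ Λ δ c B (i + 1)) :
    PQ Λ δ c B (i + 1) - PQ Λ δ c B i ≤ B (i + 1) - B i - δ := by
  have hΛ0 : 0 ≤ Λ := by
    have := hB (Nat.zero_le m₀)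
    rw [hB0] at this
    linarith
  have hc0 : 0 ≤ c := by rw [hc]; exact le_max_left _ _
  rcases max_choice (min (PP Λ δ 0 B (i + 1)) c) (PP Λ δ 5 B (i + 1)) with h1 | h1
  · -- below `c`
    have h2 : PQ Λ δ c B (i + 1) = min (PP Λ δ 0 B (i + 1)) c := h1
    have h3 : min (PP Λ δ 0 B i) c ≤ PQ Λ δ c B i := le_max_left _ _
    have h4 : min (PP Λ δ 0 B i) c < min (PP Λ δ 0 B (i + 1)) c := by
      rw [← h2]
      exact h3.trans_lt h
    have h5 : PP Λ δ 0 B i < c := by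
      by_contra hcc
      rw [not_lt] at hcc
      rw [min_eq_right hcc] at h4
      exact absurd (min_le_right (PP Λ δ 0 B (i + 1)) c) (not_le.2 h4)
    have h6 : PQ Λ δ c B (i + 1) ≤ PP Λ δ 0 B (i + 1) := by rw [h2]; exact min_le_left _ _
    have h7 : PP Λ δ 0 B i ≤ PQ Λ δ c B i := by
      rw [min_eq_left h5.le] at h3
      exact h3
    have h8 := PP_step (o := 0) (y := PQ Λ δ c B i) hδ le_rfl hB0 hΛ0 h7 (h.trans_le h6)
    linarith
  · have h2 : PQ Λ δ c B (i + 1) = PP Λ δ 5 B (i + 1) := h1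
    have h3 : PP Λ δ 5 B i ≤ PQ Λ δ c B i := le_max_right _ _
    have h4 : PQ Λ δ c B i < PP Λ δ 5 B (i + 1) := by rw [← h2]; exact h
    have h5 := PP_step (o := 5) hδ (by norm_num) hB0 hΛ0 h3 h4
    rw [h2]
    exact h5

/-- number of the region of a position -/
noncomputable def lb (P : ℕ → ℝ) (y : ℝ) : ℕ := ((Icc 1 4).filter (fun i => P i ≤ y)).card

theorem lb_mono (P : ℕ → ℝ) : Monotone (lb P) := fun _ _ h =>
  card_le_card (fun _ hi => by
    rw [mem_filter] at hi ⊢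
    exact ⟨hi.1, hi.2.trans h⟩)

theorem lb_le (P : ℕ → ℝ) (y : ℝ) : lb P y ≤ 4 := by
  refine (card_filter_le _ _).trans ?_
  simp

theorem lb_lt {P : ℕ → ℝ} (hP : Monotone P) {y : ℝ} {m : ℕ} (hm : 1 ≤ m) (h : y < P m) : lb P y < m := by
  have h1 : (Icc 1 4).filter (fun i => P i ≤ y) ⊆ Icc 1 (m - 1) := by
    intro i hi
    rw [mem_filter, mem_Icc] at hi
    rw [mem_Icc]
    refine ⟨hi.1.1, ?_⟩
    by_contra hc
    exact absurd (h.trans_le (hP (by omega : m ≤ i))) (not_lt.2 hi.2)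
  have h2 := card_le_card h1
  rw [Nat.card_Icc] at h2
  have : lb P y ≤ m - 1 + 1 - 1 := h2
  omega

theorem le_lb {P : ℕ → ℝ} (hP : Monotone P) {y : ℝ} {m : ℕ} (hm : m ≤ 4) (h : P m ≤ y) : m ≤ lb P y := by
  have h1 : Icc 1 m ⊆ (Icc 1 4).filter (fun i => P i ≤ y) := by
    intro i hi
    rw [mem_Icc] at hi
    rw [mem_filter, mem_Icc]
    exact ⟨⟨hi.1, hi.2.trans hm⟩, (hP hi.2).trans h⟩
  have h2 := card_le_card h1
  rw [Nat.card_Icc] at h2
  have : m + 1 - 1 ≤ lb P y := h2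
  omega

theorem lb_eq {P : ℕ → ℝ} (hP : Monotone P) {y : ℝ} {m : ℕ} (hy0 : P 0 ≤ y) (hy : y < P 5) (h : lb P y = m) :
    P m ≤ y ∧ y < P (m + 1) := by
  have h4 := lb_le P y
  constructor
  · rcases Nat.eq_zero_or_pos m with h0 | h0
    · rw [h0]; exact hy0
    · by_contra hc
      have := lb_lt hP h0 (not_le.1 hc)
      omega
  · by_cases h5 : m = 4
    · rw [h5]; exact hy
    · by_contra hc
      have := le_lb hP (by omega : m + 1 ≤ 4) (not_lt.1 hc)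
      omega

theorem cnt_le {w c u v : ℝ} (hw : 0 < w) (S : Finset ℕ) (hS : ∀ i ∈ S, u ≤ w * i + c ∧ w * i + c < v) :
    w * S.card ≤ max 0 (v - u) + w := by
  rcases S.eq_empty_or_nonempty with rfl | hne
  · have := le_max_left 0 (v - u)
    simp only [card_empty, Nat.cast_zero, mul_zero]
    linarith
  · have h1 : S ⊆ Icc (S.min' hne) (S.max' hne) := fun i hi => mem_Icc.2 ⟨S.min'_le i hi, S.le_max' i hi⟩
    have h2 := card_le_card h1
    rw [Nat.card_Icc] at h2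
    have h3 := hS _ (S.min'_mem hne)
    have h4 := hS _ (S.max'_mem hne)
    have h5 : S.min' hne ≤ S.max' hne := S.min'_le _ (S.max'_mem hne)
    have h6 : (S.card : ℝ) ≤ (S.max' hne : ℝ) + 1 - (S.min' hne : ℝ) := by
      have h7 : S.card + S.min' hne ≤ S.max' hne + 1 := by omega
      have h8 : ((S.card + S.min' hne : ℕ) : ℝ) ≤ ((S.max' hne + 1 : ℕ) : ℝ) := by exact_mod_cast h7
      push_cast at h8
      linarith
    have h7 := mul_le_mul_of_nonneg_left h6 hw.le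
    have h8 := le_max_right 0 (v - u)
    linarith only [h7, h3.1, h4.2, h8]

/-- the place of the root -/
theorem exists_place {h a d : ℕ} {w φ Λ c : ℝ} (hc0 : 0 ≤ c) (hw : 1 ≤ w) (hφ : 0 ≤ φ)
    (hΛ : Λ = w * h + φ) (hh : a + d + 1 ≤ h) (h3 : c + w * (d + 1) ≤ Λ) :
    ∃ (x : ℝ) (K ρ : ℕ), c ≤ x ∧ x ≤ max c (w * a) ∧ a ≤ ρ ∧ ρ + d + 1 ≤ h ∧ K ≤ h ∧
      ((K = h ∧ x < w * K) ∨ (K = ρ ∧ ρ + d + 1 = h)) ∧ (∀ i < ρ, w * i + (if i < K then 0 else φ) < x) ∧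
      ∀ i, ρ < i → x < w * i + (if i < K then 0 else φ) := by
  have hw0 : 0 < w := by linarith
  obtain ⟨x, hx⟩ : ∃ x, x = max c (w * a) := ⟨_, rfl⟩
  have hx1 : c ≤ x := by rw [hx]; exact le_max_left _ _
  have hx2 : w * a ≤ x := by rw [hx]; exact le_max_right _ _
  have hx3 : x ≤ max c (w * a) := hx.le
  have hhr : (a : ℝ) + d + 1 ≤ h := by exact_mod_cast hh
  have hx4 : x ≤ Λ - w * (d + 1) := by
    rw [hx]
    refine max_le (by linarith) ?_
    have h5 := mul_le_mul_of_nonneg_left hhr hw0.le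
    linarith only [h5, hφ, hΛ]
  have hx0 : 0 ≤ x := hc0.trans hx1
  by_cases hc : x < w * (h - d)
  · refine ⟨x, h, ⌊x / w⌋₊, hx1, hx3, Nat.le_floor ?_, ?_, le_rfl, Or.inl ⟨rfl, ?_⟩, ?_, ?_⟩
    · rw [le_div_iff₀ hw0]
      linarith
    · have h5 : ((⌊x / w⌋₊ : ℕ) : ℝ) < h - d := (Nat.floor_le (by positivity)).trans_lt (by
        rw [div_lt_iff₀ hw0]
        linarith)
      have h6 : ((⌊x / w⌋₊ + d : ℕ) : ℝ) < (h : ℝ) := by push_cast; linarith
      have : ⌊x / w⌋₊ + d < h := by exact_mod_cast h6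
      omega
    · have : (0 : ℝ) ≤ d := Nat.cast_nonneg _
      have h5 := mul_le_mul_of_nonneg_left (by linarith only [this] : (h : ℝ) - d ≤ h) hw0.le
      linarith only [h5, hc]
    · intro i hi
      have h5 : ((⌊x / w⌋₊ : ℕ) : ℝ) ≤ x / w := Nat.floor_le (by positivity)
      have h5' : ((⌊x / w⌋₊ : ℕ) : ℝ) < h - d := h5.trans_lt (by
        rw [div_lt_iff₀ hw0]
        linarith)
      have h6 : (i : ℝ) + 1 ≤ (⌊x / w⌋₊ : ℕ) := by exact_mod_cast hi
      have h7 : (i : ℝ) + 1 ≤ x / w := h6.trans h5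
      rw [le_div_iff₀ hw0] at h7
      have h8 : i < h := by
        have : (i : ℝ) < h := by
          have : (0 : ℝ) ≤ d := Nat.cast_nonneg _
          linarith
        exact_mod_cast this
      rw [if_pos h8]
      linarith
    · intro i hi
      have h5 : x / w < (⌊x / w⌋₊ : ℕ) + 1 := Nat.lt_floor_add_one _
      have h6 : ((⌊x / w⌋₊ : ℕ) : ℝ) + 1 ≤ i := by exact_mod_cast hi
      have h7 : x / w < i := lt_of_lt_of_le h5 h6
      rw [div_lt_iff₀ hw0] at h7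
      split_ifs <;> linarith
  · rw [not_lt] at hc
    refine ⟨x, h - 1 - d, h - 1 - d, hx1, hx3, by omega, by omega, by omega, Or.inr ⟨rfl, by omega⟩, ?_, ?_⟩
    · intro i hi
      rw [if_pos hi]
      have h5 : (i : ℝ) + 1 + d ≤ h := by
        have : i + 1 + d ≤ h := by omega
        exact_mod_cast this
      have h6 := mul_le_mul_of_nonneg_left (by linarith only [h5] : (i : ℝ) + 1 ≤ h - d) hw0.le
      linarith only [h6, hc, hw0]
    · intro i hi
      rw [if_neg (by omega)]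
      have h5 : (h : ℝ) - d ≤ i := by
        have : h ≤ i + d := by omega
        have h6 : (h : ℝ) ≤ ((i + d : ℕ) : ℝ) := by exact_mod_cast this
        push_cast at h6
        linarith
      have h6 := mul_le_mul_of_nonneg_left h5 hw0.le
      linarith only [h6, hx4, hΛ, hw0]

/-- the three parts of a region -/
theorem parts {u v J₀ J₁ : ℝ} (huv : u ≤ v) (hJ : J₀ ≤ J₁) :
    max 0 (min v J₀ - u) + (max J₀ (min J₁ v) - max J₀ (min J₁ u)) + max 0 (v - max u J₁) ≤ v - u := by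
  rcases le_total u J₀ with h1 | h1 <;> rcases le_total v J₀ with h2 | h2 <;> rcases le_total u J₁ with h3 | h3 <;>
    rcases le_total v J₁ with h4 | h4 <;>
    simp only [min_eq_left, min_eq_right, max_eq_left, max_eq_right, h1, h2, h3, h4, hJ] <;>
    (rcases max_cases 0 (J₀ - u) with h5 | h5) <;> (rcases max_cases 0 (v - u) with h6 | h6) <;>
    (rcases max_cases 0 (v - J₁) with h7 | h7) <;> linarith

/-- the numbers of vertices in the regions -/
theorem count_region {P : ℕ → ℝ} (hP : Monotone P) (hP0 : P 0 = 0) {h K ρ m₀ : ℕ} {w φ : ℝ} (hw : 0 < w) (hφ : 0 ≤ φ)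
    (hP5 : P 5 = w * h + φ) {m : ℕ} (hne : P m < P (m + 1)) :
    w * (((range h).erase ρ).filter (fun i => (if i = ρ then m₀ else lb P (w * i + (if i < K then 0 else φ))) = m)).card +
      (max (w * K) (min (w * K + φ) (P (m + 1))) - max (w * K) (min (w * K + φ) (P m))) ≤ P (m + 1) - P m + 2 * w := by
  obtain ⟨S, hS⟩ : ∃ S, S = ((range h).erase ρ).filter
    (fun i => (if i = ρ then m₀ else lb P (w * i + (if i < K then 0 else φ))) = m) := ⟨_, rfl⟩
  rw [← hS]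
  have hpos : ∀ i ∈ S, i < h ∧ P m ≤ w * i + (if i < K then 0 else φ) ∧ w * i + (if i < K then 0 else φ) < P (m + 1) := by
    intro i hi
    rw [hS, mem_filter, mem_erase, mem_range] at hi
    obtain ⟨⟨h1, h2⟩, h3⟩ := hi
    rw [if_neg h1] at h3
    have h4 : (i : ℝ) + 1 ≤ h := by exact_mod_cast h2
    have h5 := lb_eq hP (y := w * i + (if i < K then 0 else φ)) (by
      rw [hP0]
      split_ifs <;> positivity) (by
      rw [hP5]
      have h6 := mul_le_mul_of_nonneg_left h4 hw.le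
      split_ifs <;> linarith only [h6, hw, hφ]) h3
    exact ⟨h2, h5⟩
  have e1 : (S.card : ℝ) = (S.filter (fun i => i < K)).card + (S.filter (fun i => ¬ i < K)).card := by
    exact_mod_cast (card_filter_add_card_filter_not (s := S) (fun i => i < K)).symm
  have e2 := cnt_le (w := w) (c := 0) (u := P m) (v := min (P (m + 1)) (w * K)) hw (S.filter (fun i => i < K)) (by
    intro i hi
    rw [mem_filter] at hi
    obtain ⟨h1, h2, h3⟩ := hpos i hi.1
    rw [if_pos hi.2] at h2 h3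
    refine ⟨h2, lt_min h3 ?_⟩
    have : (i : ℝ) < K := by exact_mod_cast hi.2
    have h4 := mul_lt_mul_of_pos_left this hw
    linarith only [h4])
  have e3 := cnt_le (w := w) (c := φ) (u := max (P m) (w * K + φ)) (v := P (m + 1)) hw (S.filter (fun i => ¬ i < K)) (by
    intro i hi
    rw [mem_filter] at hi
    obtain ⟨h1, h2, h3⟩ := hpos i hi.1
    rw [if_neg hi.2] at h2 h3
    refine ⟨max_le h2 ?_, h3⟩
    have : (K : ℝ) ≤ i := by exact_mod_cast not_lt.1 hi.2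
    have h4 := mul_le_mul_of_nonneg_left this hw.le
    linarith only [h4])
  have e4 := parts hne.le (by linarith : w * K ≤ w * K + φ)
  rw [e1]
  linarith only [e2, e3, e4]

/-- telescoping -/
theorem sum_tele (Q : ℕ → ℝ) {a b : ℕ} (hab : a ≤ b) : ∑ m ∈ Ico a b, (Q (m + 1) - Q m) = Q b - Q a := by
  rw [sum_Ico_eq_sub _ hab, sum_range_sub, sum_range_sub]
  ring

/-- **The cuts, numbers only** -/
theorem cuts_aux {r : ℕ} {A : ℕ → ℝ} {h f au du : ℕ} {w σ' E L : ℝ}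
    (hw : 1 ≤ w) (hσ' : 0 ≤ σ') (hσ1 : σ' ≤ 1) (hE : 0 ≤ E) (hL : 20 * E ≤ L) (hL1 : 1000 ≤ L) (hs : σ' * f ≤ L / 100)
    (h4 : (au : ℝ) + du + L ≤ f + 1) {t : ℕ → ℕ} {i₀ : ℕ} (hi₀' : i₀ < 5) (ti : t i₀ = r)
    (ti1 : t (i₀ + 1) = r + 1) {P : ℕ → ℝ} (hP : Monotone P) (hP0 : P 0 = 0)
    (hPB : ∀ i, P i ≤ A (t i)) (hPge : ∀ i ≤ 5, min (w * h + (1 - σ') * f) (A (t i) - E) ≤ P i)
    (hP5 : P 5 = w * h + (1 - σ') * f) {K : ℕ} (hK : K ≤ h) {y₀ : ℝ} (hy₀ : y₀ = w * K + (1 - σ') * (au + f - du) / 2)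
    (hr : A r ≤ y₀) (hr1 : y₀ < A (r + 1)) :
    ∃ (k α ι : ℕ) (s : ℕ → ℕ), k < 5 ∧ (∀ m, s m = ⌊max (w * K) (min (w * K + (1 - σ') * f) (P (m + 1))) -
        max (w * K) (min (w * K + (1 - σ') * f) (P m))⌋₊) ∧
      (1 - σ') * f - 5 ≤ ∑ m ∈ range 5, (s m : ℝ) ∧ ∑ m ∈ range 5, (s m : ℝ) ≤ f ∧ α + ι ≤ s k ∧ L / 40 ≤ ι ∧
      au + L / 4 ≤ ∑ m ∈ range k, (s m : ℝ) + α ∧ du + L / 4 + (α + ι) ≤ ∑ m ∈ Ico k 5, (s m : ℝ) ∧
      ((t (k + 1) = t k + 1 ∧ w * K ≤ P (k + 1)) ∨ (w * K ≤ P i₀ ∧ i₀ ≤ k)) := by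
  obtain ⟨Λ, hΛ⟩ : ∃ Λ, Λ = w * h + (1 - σ') * f := ⟨_, rfl⟩
  rw [← hΛ] at hPge hP5
  have hw0 : 0 < w := by linarith
  have hf0 : (0 : ℝ) ≤ f := Nat.cast_nonneg _
  have hφ : 0 ≤ (1 - σ') * f := mul_nonneg (by linarith) hf0
  have hΛ0 : 0 ≤ Λ := by rw [hΛ]; positivity
  obtain ⟨J₀, hJ₀⟩ : ∃ J₀, J₀ = w * (K : ℝ) := ⟨_, rfl⟩
  obtain ⟨J₁, hJ₁⟩ : ∃ J₁, J₁ = J₀ + (1 - σ') * f := ⟨_, rfl⟩
  rw [← hJ₀] at hy₀
  rw [← hJ₀, ← hJ₁]
  have hJ : J₀ ≤ J₁ := by rw [hJ₁]; linarith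
  have hJ₀0 : 0 ≤ J₀ := by rw [hJ₀]; positivity
  have hJΛ : J₁ ≤ Λ := by
    have : (K : ℝ) ≤ h := by exact_mod_cast hK
    rw [hJ₁, hΛ, hJ₀]
    have h5 := mul_le_mul_of_nonneg_left this hw0.le
    linarith only [h5]
  obtain ⟨Q, hQ⟩ : ∃ Q : ℕ → ℝ, Q = fun m => max J₀ (min J₁ (P m)) := ⟨_, rfl⟩
  obtain ⟨s, hsd⟩ : ∃ s : ℕ → ℕ, s = fun m => ⌊Q (m + 1) - Q m⌋₊ := ⟨_, rfl⟩
  have hQm : Monotone Q := by
    rw [hQ]
    intro i i' hii
    exact max_le_max le_rfl (min_le_min le_rfl (hP hii))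
  have hs1 : ∀ m, (s m : ℝ) ≤ Q (m + 1) - Q m := fun m => by
    rw [hsd]
    exact Nat.floor_le (sub_nonneg.2 (hQm (Nat.le_succ m)))
  have hs2 : ∀ m, Q (m + 1) - Q m - 1 ≤ s m := fun m => by
    rw [hsd]
    exact (Nat.sub_one_lt_floor _).le
  have hQ0 : Q 0 = J₀ := by
    rw [hQ]
    simp only [hP0]
    rw [max_eq_left]
    exact (min_le_right _ _).trans hJ₀0
  have hQ5 : Q 5 = J₁ := by
    rw [hQ]
    simp only [hP5]
    rw [min_eq_left hJΛ, max_eq_right hJ]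
  have hsum1 : ∀ a b, a ≤ b → ∑ m ∈ Ico a b, (s m : ℝ) ≤ Q b - Q a := fun a b hab => by
    rw [← sum_tele Q hab]
    exact sum_le_sum (fun m _ => hs1 m)
  have hsum2 : ∀ a b, a ≤ b → Q b - Q a - ((b : ℝ) - a) ≤ ∑ m ∈ Ico a b, (s m : ℝ) := fun a b hab => by
    rw [← sum_tele Q hab]
    have h5 : ∑ m ∈ Ico a b, (Q (m + 1) - Q m) - ((b : ℝ) - a) = ∑ m ∈ Ico a b, (Q (m + 1) - Q m - 1) := by
      rw [sum_sub_distrib (fun m => Q (m + 1) - Q m)]
      simp only [sum_const, Nat.card_Ico, nsmul_eq_mul, mul_one]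
      rw [Nat.cast_sub hab]
    rw [h5]
    exact sum_le_sum (fun m _ => hs2 m)
  have haud : (0 : ℝ) ≤ au := Nat.cast_nonneg _
  have hdud : (0 : ℝ) ≤ du := Nat.cast_nonneg _
  have hauf : (au : ℝ) + f - du ≤ 2 * f := by linarith
  have hauf0 : (0 : ℝ) ≤ (au : ℝ) + f - du := by linarith
  -- the centre of the window
  have hy1 : au + L / 2 - 1 / 2 - L / 100 ≤ y₀ - J₀ := by
    rw [hy₀]
    have : σ' * (au + f - du) ≤ σ' * (2 * f) := mul_le_mul_of_nonneg_left hauf hσ'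
    linarith only [this, hs, h4]
  have hy2 : du + L / 2 - 1 / 2 - L / 100 ≤ J₁ - y₀ := by
    rw [hy₀, hJ₁]
    have h5 : σ' * (f - au + du) ≤ σ' * (2 * f) := mul_le_mul_of_nonneg_left (by linarith) hσ'
    linarith only [h5, hs, h4]
  -- an interval inside a region
  obtain ⟨k, y₁, y₂, hk5, hk1, hk2, hk3, hk4, hk5', hk6⟩ : ∃ (k : ℕ) (y₁ y₂ : ℝ), k < 5 ∧ Q k ≤ y₁ ∧ y₂ ≤ Q (k + 1) ∧
      y₀ - L / 6 ≤ y₁ ∧ y₂ ≤ y₀ + L / 6 ∧ L / 30 ≤ y₂ - y₁ ∧
      ((t (k + 1) = t k + 1 ∧ J₀ ≤ P (k + 1)) ∨ (J₀ ≤ P i₀ ∧ i₀ ≤ k)) := by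
    by_cases hc : A r < J₀ + E
    · -- one block
      have hup : y₀ - E ≤ P (i₀ + 1) := by
        refine le_trans (le_min (by linarith) ?_) (hPge (i₀ + 1) hi₀')
        rw [ti1]
        linarith
      refine ⟨i₀, y₀ - L / 6, y₀ - E, hi₀', ?_, ?_, le_rfl, by linarith, by linarith, Or.inl ⟨by rw [ti, ti1], by linarith⟩⟩
      · rw [hQ]
        refine max_le (by linarith) ((min_le_right _ _).trans ?_)
        have := hPB i₀
        rw [ti] at this
        linarith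
      · rw [hQ]
        exact le_trans (le_min (by linarith) hup) (le_max_right _ _)
    · rw [not_lt] at hc
      have hPi₀ : J₀ ≤ P i₀ := by
        refine le_trans (le_min (hJ.trans hJΛ) ?_) (hPge i₀ hi₀'.le)
        rw [ti]
        linarith
      have hPi₀' : P i₀ ≤ y₀ := by
        have := hPB i₀
        rw [ti] at this
        linarith
      obtain ⟨W, hW⟩ : ∃ W : ℕ → ℝ, W = fun m => max y₀ (min (y₀ + L / 6) (P m)) := ⟨_, rfl⟩
      have hW0 : W 0 = y₀ := by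
        rw [hW]
        simp only [hP0]
        rw [max_eq_left]
        exact (min_le_right _ _).trans (by linarith)
      have hW5 : W 5 = y₀ + L / 6 := by
        rw [hW]
        simp only [hP5]
        rw [min_eq_left (by linarith), max_eq_right (by linarith)]
      obtain ⟨k, hk, hk'⟩ : ∃ k ∈ range 5, L / 30 ≤ W (k + 1) - W k := by
        by_contra hcc
        push Not at hcc
        have h5 : ∑ m ∈ range 5, (W (m + 1) - W m) < ∑ m ∈ range 5, L / 30 :=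
          sum_lt_sum_of_nonempty ⟨0, by simp⟩ hcc
        rw [sum_range_sub, hW0, hW5, sum_const, card_range, nsmul_eq_mul] at h5
        push_cast at h5
        linarith
      rw [mem_range] at hk
      have hWlt : W k < W (k + 1) := by
        have : 0 < L / 30 := by linarith
        linarith
      have g1 : y₀ < P (k + 1) := by
        by_contra hcc
        rw [not_lt] at hcc
        have h5 : W (k + 1) = y₀ := by
          rw [hW]
          simp only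
          rw [max_eq_left ((min_le_right _ _).trans hcc)]
        have h6 : y₀ ≤ W k := by rw [hW]; exact le_max_left _ _
        linarith
      have g2 : P k < y₀ + L / 6 := by
        by_contra hcc
        rw [not_lt] at hcc
        have h5 : W k = y₀ + L / 6 := by
          rw [hW]
          simp only
          rw [min_eq_left hcc, max_eq_right (by linarith)]
        have h6 : W (k + 1) ≤ y₀ + L / 6 := by
          rw [hW]
          exact max_le (by linarith) (min_le_left _ _)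
        linarith
      refine ⟨k, W k, W (k + 1), hk, ?_, ?_, ?_, ?_, hk', Or.inr ⟨hPi₀, ?_⟩⟩
      · rw [hQ, hW]
        simp only
        refine max_le ?_ ?_
        · exact le_trans (by linarith) (le_max_left _ _)
        · rw [min_eq_right g2.le]
          exact (min_le_right _ _).trans (le_max_right _ _)
      · rw [hQ, hW]
        simp only
        refine le_trans ?_ (le_max_right _ _)
        refine max_le (le_min (by linarith) g1.le) (le_min ?_ (min_le_right _ _))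
        exact (min_le_left _ _).trans (by linarith)
      · have h6 : y₀ ≤ W k := by rw [hW]; exact le_max_left _ _
        linarith
      · rw [hW]
        exact max_le (by linarith) (min_le_left _ _)
      · by_contra hcc
        have h5 := hP (by omega : k + 1 ≤ i₀)
        linarith
  -- the numbers
  have hQk : 0 ≤ y₁ - Q k := by linarith
  have hQk2 : 0 ≤ y₂ - Q k := by
    have : 0 < L / 30 := by linarith
    linarith
  have c1 : y₁ - Q k ≤ (⌈y₁ - Q k⌉₊ : ℕ) := Nat.le_ceil _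
  have c2 : ((⌈y₁ - Q k⌉₊ : ℕ) : ℝ) < y₁ - Q k + 1 := Nat.ceil_lt_add_one hQk
  have c3 : ((⌊y₂ - Q k⌋₊ : ℕ) : ℝ) ≤ y₂ - Q k := Nat.floor_le hQk2
  have c4 : y₂ - Q k - 1 < (⌊y₂ - Q k⌋₊ : ℕ) := Nat.sub_one_lt_floor _
  have c5 : ⌈y₁ - Q k⌉₊ ≤ ⌊y₂ - Q k⌋₊ := by
    have : ((⌈y₁ - Q k⌉₊ : ℕ) : ℝ) ≤ (⌊y₂ - Q k⌋₊ : ℕ) := by linarith
    exact_mod_cast this
  have c6 : ⌊y₂ - Q k⌋₊ ≤ s k := by
    rw [hsd]
    exact Nat.floor_le_floor (by linarith)
  have hkr : (k : ℝ) ≤ 4 := by exact_mod_cast (by omega : k ≤ 4)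
  have hk0 : (0 : ℝ) ≤ k := Nat.cast_nonneg _
  have s1 := hsum1 0 5 (by norm_num)
  have s2 := hsum2 0 5 (by norm_num)
  have s3 := hsum2 0 k (by omega)
  have s4 := hsum2 k 5 (by omega)
  rw [← range_eq_Ico, hQ0, hQ5] at s1 s2
  rw [← range_eq_Ico, hQ0] at s3
  rw [hQ5] at s4
  push_cast at s1 s2 s3 s4
  have c7 : ((⌊y₂ - Q k⌋₊ - ⌈y₁ - Q k⌉₊ : ℕ) : ℝ) = (⌊y₂ - Q k⌋₊ : ℕ) - (⌈y₁ - Q k⌉₊ : ℕ) := Nat.cast_sub c5
  refine ⟨k, ⌈y₁ - Q k⌉₊, ⌊y₂ - Q k⌋₊ - ⌈y₁ - Q k⌉₊, s, hk5, ?_, ?_, ?_, ?_, ?_, ?_, ?_, hk6⟩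
  · intro m
    rw [hsd, hQ]
  · linarith
  · have : 0 ≤ σ' * f := by positivity
    linarith
  · omega
  · rw [c7]
    linarith
  · linarith
  · rw [c7]
    linarith

/-- four cuts -/
def tt (a b c d N : ℕ) : ℕ → ℕ
  | 0 => 0
  | 1 => a
  | 2 => b
  | 3 => c
  | 4 => d
  | _ => N

theorem tt_mono {a b c d N : ℕ} (h1 : a ≤ b) (h2 : b ≤ c) (h3 : c ≤ d) (h4 : d ≤ N) : Monotone (tt a b c d N) := by
  apply monotone_nat_of_le_succ
  intro n
  match n with
  | 0 => exact Nat.zero_le _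
  | 1 => exact h1
  | 2 => exact h2
  | 3 => exact h3
  | 4 => exact h4
  | n + 5 => exact le_rfl

/-- **Regions**: a tree with a marked vertex (`M`, `H` = its vertices), at which a branch `F` with `f` vertices hangs, is cut
along the blocks of the tournament. `t` = the block numbers where the regions start, `m₀` = region of the root, which
is the block `j`, `M'` = `M` with the numbers of the regions as labels, `s m` = number of vertices of `F` in the region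
`m`, `k` = region of the root `u` of `F`, which has a place between `α` and `α + ι` there -/
theorem exists_regions (M : Mu) (hF : M.Fal) {N j : ℕ} {A : ℕ → ℝ} (hA0 : A 0 = 0) (hAm : Monotone A) (hj : j < N)
    {f au du : ℕ} {σ σ' δ L : ℝ} (hσ : 0 ≤ σ) (hσ1 : σ ≤ 1) (hσ' : 0 ≤ σ') (hσ'1 : σ' ≤ 1) (hδ : 100 ≤ δ)
    (h1 : (1 + σ) * (M.un.size + 1) + (1 - σ') * f + 12 * δ ≤ A N)
    (h2 : (1 + σ) * (rch false M.un + 1) + 12 * δ ≤ A (j + 1))
    (h3 : A j + (1 + σ) * (rch true M.un + 1) ≤ (1 + σ) * (M.un.size + 1) + (1 - σ') * f)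
    (hL : 200 * δ ≤ L) (hs : σ' * f ≤ L / 100) (h4 : (au : ℝ) + du + L ≤ f + 1) :
    ∃ (t : ℕ → ℕ) (m₀ k : ℕ) (M' : Mn) (s : ℕ → ℕ) (α ι : ℕ), Monotone t ∧ t 0 = 0 ∧ t 5 = N ∧ m₀ < 5 ∧ t m₀ = j ∧
      t (m₀ + 1) = j + 1 ∧ k < 5 ∧ M'.er = M ∧ M'.fn.Ok m₀ ∧ (∀ m, 5 ≤ m → M'.fn.num m = 0) ∧
      (∀ m < 5, (M'.fn.num m = 0 ∧ s m = 0) ∨
        (1 + σ) * M'.fn.num m + s m + δ / 2 ≤ A (t (m + 1)) - A (t m)) ∧
      (1 - σ') * f - 5 ≤ ∑ m ∈ range 5, (s m : ℝ) ∧ ∑ m ∈ range 5, (s m : ℝ) ≤ f ∧ α + ι ≤ s k ∧ L / 40 ≤ ι ∧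
      au + L / 4 ≤ ∑ m ∈ range k, (s m : ℝ) + α ∧ du + L / 4 + (α + ι) ≤ ∑ m ∈ Ico k 5, (s m : ℝ) ∧
      (M'.lab m₀ < k ∨ (M'.lab m₀ = k ∧ t (k + 1) = t k + 1)) := by
  obtain ⟨w, hw⟩ : ∃ w, w = 1 + σ := ⟨_, rfl⟩
  rw [← hw] at h1 h2 h3 ⊢
  have hw1 : 1 ≤ w := by linarith
  have hw2 : w ≤ 2 := by linarith
  have hw0 : 0 < w := by linarith
  obtain ⟨h, hh⟩ : ∃ h, h = M.un.size + 1 := ⟨_, rfl⟩
  obtain ⟨a, ha⟩ : ∃ a, a = rch false M.un := ⟨_, rfl⟩
  obtain ⟨d, hd⟩ : ∃ d, d = rch true M.un := ⟨_, rfl⟩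
  have hhr : (M.un.size : ℝ) + 1 = h := by rw [hh]; push_cast; ring
  rw [hhr] at h1 h3
  rw [← ha] at h2
  rw [← hd] at h3
  have hadh : a + d + 1 ≤ h := by
    have := rch_add_le M.un true
    simp only [Bool.not_true] at this
    omega
  have hadr : (a : ℝ) + d + 1 ≤ h := by exact_mod_cast hadh
  obtain ⟨φ, hφd⟩ : ∃ φ, φ = (1 - σ') * (f : ℝ) := ⟨_, rfl⟩
  rw [← hφd] at h1 h3
  have hf0 : (0 : ℝ) ≤ f := Nat.cast_nonneg _
  have ha0 : (0 : ℝ) ≤ a := Nat.cast_nonneg _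
  have hd0 : (0 : ℝ) ≤ d := Nat.cast_nonneg _
  have hau0 : (0 : ℝ) ≤ au := Nat.cast_nonneg _
  have hdu0 : (0 : ℝ) ≤ du := Nat.cast_nonneg _
  have hφ : 0 ≤ φ := by rw [hφd]; exact mul_nonneg (by linarith) hf0
  obtain ⟨Λ, hΛ⟩ : ∃ Λ, Λ = w * h + φ := ⟨_, rfl⟩
  have hΛ0 : 0 ≤ Λ := by rw [hΛ]; positivity
  rw [← hΛ] at h1 h3
  have hAj : A j ≤ Λ := by
    have h5 : 0 ≤ w * ((d : ℝ) + 1) := by positivity
    linarith only [h3, h5]
  obtain ⟨c, hc⟩ : ∃ c, c = max 0 (A j - 5 * δ) := ⟨_, rfl⟩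
  have hc0 : 0 ≤ c := by rw [hc]; exact le_max_left _ _
  obtain ⟨x, K, ρ, x1, x2, p1, p2, hK, p3, p4, p5⟩ := exists_place (a := a) (d := d) (h := h) (c := c) hc0 hw1 hφ hΛ hadh (by
    rw [hc]
    rcases max_cases 0 (A j - 5 * δ) with h5 | h5
    · rw [h5.1, hΛ]
      have h6 := mul_le_mul_of_nonneg_left (by linarith only [hadr, ha0] : (d : ℝ) + 1 ≤ h) hw0.le
      linarith only [h6, hφ]
    · rw [h5.1]
      linarith)
  obtain ⟨y₀, hy₀⟩ : ∃ y₀ : ℝ, y₀ = w * K + (1 - σ') * (au + f - du) / 2 := ⟨_, rfl⟩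
  have hKr : (K : ℝ) ≤ h := by exact_mod_cast hK
  have hδ0 : 0 ≤ δ := by linarith
  have hy0 : 0 ≤ y₀ := by
    rw [hy₀]
    have : 0 ≤ (1 - σ') * (au + f - du) := mul_nonneg (by linarith) (by linarith)
    have : 0 ≤ w * K := by positivity
    linarith
  have hyN : y₀ < A N := by
    have h5 : (1 - σ') * (au + f - du) ≤ (1 - σ') * (2 * f) := mul_le_mul_of_nonneg_left (by linarith) (by linarith)
    have h6 : w * K ≤ w * h := mul_le_mul_of_nonneg_left hKr hw0.le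
    have h7 : (1 - σ') * (2 * (f : ℝ)) = 2 * φ := by rw [hφd]; ring
    rw [hy₀]
    rw [hΛ] at h1
    linarith
  -- the block of the centre of the window
  obtain ⟨r, hr1, hr2, hrN⟩ : ∃ r, A r ≤ y₀ ∧ y₀ < A (r + 1) ∧ r < N := by
    have h5 : A (Nat.findGreatest (fun b => A b ≤ y₀) N) ≤ y₀ :=
      Nat.findGreatest_spec (P := fun b => A b ≤ y₀) (Nat.zero_le N) (by rw [hA0]; exact hy0)
    have h6 : Nat.findGreatest (fun b => A b ≤ y₀) N < N := by
      refine lt_of_le_of_ne (Nat.findGreatest_le N) (fun h7 => ?_)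
      rw [h7] at h5
      linarith
    refine ⟨_, h5, ?_, h6⟩
    by_contra hcc
    exact Nat.findGreatest_is_greatest (P := fun b => A b ≤ y₀) (Nat.lt_succ_self _) h6 (not_lt.1 hcc)
  obtain ⟨t, m₀, i₀, ht, t0, t5, hm₀, tm, tm1, hi₀, hi₀', ti, ti1⟩ : ∃ (t : ℕ → ℕ) (m₀ i₀ : ℕ), Monotone t ∧ t 0 = 0 ∧
      t 5 = N ∧ m₀ < 5 ∧ t m₀ = j ∧ t (m₀ + 1) = j + 1 ∧ 1 ≤ i₀ ∧ i₀ < 5 ∧ t i₀ = r ∧ t (i₀ + 1) = r + 1 := by
    rcases lt_trichotomy r j with h5 | h5 | h5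
    · exact ⟨tt r (r + 1) j (j + 1) N, 3, 1, tt_mono (by omega) (by omega) (by omega) (by omega), rfl, rfl,
        by norm_num, rfl, rfl, le_rfl, by norm_num, rfl, rfl⟩
    · subst h5
      exact ⟨tt r r (r + 1) (r + 1) N, 2, 2, tt_mono (by omega) (by omega) (by omega) (by omega), rfl, rfl,
        by norm_num, rfl, rfl, by norm_num, by norm_num, rfl, rfl⟩
    · exact ⟨tt j (j + 1) r (r + 1) N, 1, 3, tt_mono (by omega) (by omega) (by omega) (by omega), rfl, rfl,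
        by norm_num, rfl, rfl, by norm_num, by norm_num, rfl, rfl⟩
  have hB : Monotone (fun i => A (t i)) := hAm.comp ht
  have hB0 : (fun i => A (t i)) 0 = 0 := by
    show A (t 0) = 0
    rw [t0, hA0]
  obtain ⟨P, hPd⟩ : ∃ P, P = PQ Λ δ c (fun i => A (t i)) := ⟨_, rfl⟩
  have hP : Monotone P := by rw [hPd]; exact PQ_mono _ _ _ _
  have hP0 : P 0 = 0 := by rw [hPd]; exact PQ_zero hc0 _
  have hPB : ∀ i, P i ≤ A (t i) := fun i => by rw [hPd]; exact PQ_le_B c hδ0 hB hB0 i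
  have hPge : ∀ i ≤ 5, min Λ (A (t i) - 10 * δ) ≤ P i := fun i hi => by
    rw [hPd]
    exact PQ_ge (B := fun i => A (t i)) c hδ0 hB0 hi
  have hP5 : P 5 = Λ := by
    refine le_antisymm (by rw [hPd]; exact PQ_le δ c hΛ0 _ 5) ?_
    have h5 := hPge 5 le_rfl
    rw [t5, min_eq_left (by linarith)] at h5
    exact h5
  have hPm : P m₀ = c := by
    rw [hPd]
    exact PQ_mid hδ0 hB hB0 hm₀.le (by rw [hc]; simp only [tm]) (by simp only [tm]; exact hAj)
  have hPstep : ∀ i, P i < P (i + 1) → P (i + 1) - P i ≤ A (t (i + 1)) - A (t i) - δ := fun i hi => by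
    rw [hPd] at hi ⊢
    exact PQ_step hδ0 hB hB0 hm₀.le (by rw [hc]; simp only [tm]) (by simp only [tm]; exact hAj) hi
  have hxP : x ≤ P (m₀ + 1) := by
    refine x2.trans (max_le ?_ ?_)
    · rw [← hPm]
      exact hP (Nat.le_succ _)
    · refine le_trans (le_min ?_ ?_) (hPge (m₀ + 1) (by omega))
      · rw [hΛ]
        have h5 := mul_le_mul_of_nonneg_left (by linarith only [hadr, hd0] : (a : ℝ) ≤ h) hw0.le
        linarith only [h5, hφ]
      · rw [tm1]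
        linarith only [h2, hw0, hδ0]
  rw [← hPm] at x1
  obtain ⟨k, α, ι, s, hk5, hsd, e1, e2, e3, e4, e5, e6, e7⟩ := cuts_aux (h := h) (f := f) (au := au) (du := du) (w := w)
    (σ' := σ') (E := 10 * δ) (L := L) (A := A) hw1 hσ' hσ'1 (by linarith) (by linarith) (by linarith) hs h4 hi₀' ti ti1 hP hP0
    hPB (by rw [← hφd, ← hΛ]; exact hPge) (by rw [← hφd, ← hΛ]; exact hP5) hK hy₀ hr1 hr2
  -- the labels
  obtain ⟨p, hp⟩ : ∃ p : ℕ → ℝ, p = fun i => w * i + (if i < K then 0 else φ) := ⟨_, rfl⟩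
  have hpm : Monotone p := by
    intro i i' hii
    rw [hp]
    simp only
    have h5 : (i : ℝ) ≤ i' := by exact_mod_cast hii
    have h6 : w * i ≤ w * i' := mul_le_mul_of_nonneg_left h5 hw0.le
    split_ifs with h7 h8
    · linarith
    · linarith
    · omega
    · linarith
  have p4' : ∀ i < ρ, p i < x := by rw [hp]; exact p4
  have p5' : ∀ i, ρ < i → x < p i := by rw [hp]; exact p5
  obtain ⟨g, hg⟩ : ∃ g : ℕ → ℕ, g = fun i => if i = ρ then m₀ else lb P (w * i + (if i < K then 0 else φ)) := ⟨_, rfl⟩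
  have hgρ : g ρ = m₀ := by rw [hg]; simp
  have hgn : ∀ i, i ≠ ρ → g i = lb P (p i) := fun i hi => by
    rw [hg, hp]
    simp only [if_neg hi]
  have hlow : ∀ i < ρ, lb P (p i) ≤ m₀ := fun i hi =>
    Nat.lt_succ_iff.1 (lb_lt hP (by omega) ((p4' i hi).trans_le hxP))
  have hhigh : ∀ i, ρ < i → m₀ ≤ lb P (p i) := fun i hi => le_lb hP (by omega) (x1.trans (p5' i hi).le)
  have hgm : Monotone g := by
    intro i i' hii
    by_cases h5 : i = ρ
    · by_cases h6 : i' = ρ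
      · rw [h5, h6]
      · rw [h5, hgρ, hgn i' h6]
        exact hhigh i' (by omega)
    · by_cases h6 : i' = ρ
      · rw [h6, hgρ, hgn i h5]
        exact hlow i (by omega)
      · rw [hgn i h5, hgn i' h6]
        exact lb_mono P (hpm hii)
  obtain ⟨M', b1, b2, b3, b4, b5⟩ := exists_mnA M ρ (by omega) (by omega) g hgm
  rw [hgρ] at b2 b4 b5
  rw [← hh] at b3
  -- a label bound
  have hlab : ∀ q, 1 ≤ q → w * K ≤ P q → M'.lab m₀ < q := by
    intro q hq hKq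
    rcases p3 with ⟨h5, h6⟩ | ⟨h5, h6⟩
    · refine b4.trans_lt ?_
      by_cases h7 : M.un.size = ρ
      · rw [h7, hgρ]
        by_contra hcc
        have := hP (not_lt.1 hcc)
        linarith
      · rw [hgn _ h7]
        refine lb_lt hP hq ?_
        rw [hp]
        simp only
        rw [if_pos (by omega), add_zero]
        have h8 : (M.un.size : ℝ) < K := by
          have : M.un.size < K := by omega
          exact_mod_cast this
        exact (mul_lt_mul_of_pos_left h8 hw0).trans_le hKq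
    · have h7 := Mu.fal_lt hF
      refine (b5 (by omega) hF).trans_lt ?_
      rw [hgn _ (by omega)]
      refine lb_lt hP hq ?_
      rw [hp]
      simp only
      rw [if_pos (by omega), add_zero]
      have h8 : ((ρ - 1 : ℕ) : ℝ) < K := by
        have : ρ - 1 < K := by omega
        exact_mod_cast this
      exact (mul_lt_mul_of_pos_left h8 hw0).trans_le hKq
  refine ⟨t, m₀, k, M', s, α, ι, ht, t0, t5, hm₀, tm, tm1, hk5, b1, b2, ?_, ?_, e1, e2, e3, e4, e5, e6, ?_⟩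
  · intro m hm
    rw [b3 m, card_eq_zero, filter_eq_empty_iff]
    intro i _
    by_cases h5 : i = ρ
    · rw [h5, hgρ]
      omega
    · rw [hgn i h5]
      have := lb_le P (p i)
      omega
  · intro m hm
    rcases lt_or_ge (P m) (P (m + 1)) with h5 | h5
    · right
      have h6 := count_region (m₀ := m₀) (ρ := ρ) (K := K) hP hP0 hw0 hφ (by rw [hP5, hΛ]) h5
      have h7 := hPstep m h5
      have h8 : (M'.fn.num m : ℝ) = (((range h).erase ρ).filter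
          (fun i => (if i = ρ then m₀ else lb P (w * i + (if i < K then 0 else φ))) = m)).card := by
        rw [b3 m, hg]
      rw [← h8] at h6
      have h9 : (s m : ℝ) ≤ max (w * K) (min (w * K + φ) (P (m + 1))) - max (w * K) (min (w * K + φ) (P m)) := by
        rw [hsd m, ← hφd]
        refine Nat.floor_le (sub_nonneg.2 ?_)
        exact max_le_max le_rfl (min_le_min le_rfl h5.le)
      linarith
    · left
      have h6 : P (m + 1) = P m := le_antisymm h5 (hP (Nat.le_succ m))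
      constructor
      · rw [b3 m, card_eq_zero, filter_eq_empty_iff]
        intro i hi hcc
        rw [mem_erase, mem_range] at hi
        rw [hgn i hi.1] at hcc
        have h7 : (i : ℝ) + 1 ≤ h := by exact_mod_cast hi.2
        have h8 := lb_eq hP (y := p i) (by
          rw [hP0, hp]
          simp only
          split_ifs <;> positivity) (by
          rw [hP5, hΛ, hp]
          simp only
          have h8 := mul_le_mul_of_nonneg_left h7 hw0.le
          split_ifs <;> linarith only [h8, hw0, hφ]) hcc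
        linarith
      · rw [hsd m, h6, sub_self, Nat.floor_zero]
  · rcases e7 with ⟨h5, h6⟩ | ⟨h5, h6⟩
    · have := hlab (k + 1) (by omega) h6
      rcases Nat.lt_succ_iff_lt_or_eq.1 this with h7 | h7
      · exact Or.inl h7
      · exact Or.inr ⟨h7, h5⟩
    · left
      exact (hlab i₀ hi₀ h5).trans_le h6

end AEJ
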