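import Pool.Agent.AEJ.Cuts

/-!
# Cuts, the branch being the last part of the linear extension

If there is room for the branch behind the root, then it can be the last part of the linear extension. No condition on the
path to the mark is needed.
-/

namespace AEJ

open Finset AE15 AED AELT AEX AEK LTT
open scoped Classical

/-- the place of the root -/
theorem exists_place0 {h a d : ℕ} {w φ c : ℝ} (hc0 : 0 ≤ c) (hw : 1 ≤ w) (hφ : 0 ≤ φ) (hh : a + d + 1 ≤ h)
    (h3 : c + w * (d + 1) ≤ w * h) :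
    ∃ (x : ℝ) (ρ : ℕ), c ≤ x ∧ x ≤ max c (w * a) ∧ a ≤ ρ ∧ ρ + d + 1 ≤ h ∧ x < w * h ∧
      (∀ i < ρ, w * i + (if i < h then 0 else φ) < x) ∧ ∀ i, ρ < i → x < w * i + (if i < h then 0 else φ) := by
  have hw0 : 0 < w := by linarith
  obtain ⟨x, hx⟩ : ∃ x, x = max c (w * a) := ⟨_, rfl⟩
  have hx1 : c ≤ x := by rw [hx]; exact le_max_left _ _
  have hx2 : w * a ≤ x := by rw [hx]; exact le_max_right _ _
  have hx3 : x ≤ max c (w * a) := hx.le
  have hhr : (a : ℝ) + d + 1 ≤ h := by exact_mod_cast hh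
  have hc : x < w * (h - d) := by
    rw [hx]
    refine max_lt (by nlinarith only [hw, h3]) ?_
    nlinarith only [hw, hhr]
  have hx0 : 0 ≤ x := hc0.trans hx1
  refine ⟨x, ⌊x / w⌋₊, hx1, hx3, Nat.le_floor ?_, ?_, ?_, ?_, ?_⟩
  · rw [le_div_iff₀ hw0]
    linarith
  · have h5 : ((⌊x / w⌋₊ : ℕ) : ℝ) < h - d := (Nat.floor_le (by positivity)).trans_lt (by
      rw [div_lt_iff₀ hw0]
      linarith only [hc])
    have h6 : ((⌊x / w⌋₊ + d : ℕ) : ℝ) < (h : ℝ) := by push_cast; linarith only [h5]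
    have : ⌊x / w⌋₊ + d < h := by exact_mod_cast h6
    omega
  · have : (0 : ℝ) ≤ d := Nat.cast_nonneg _
    nlinarith only [hc, hw]
  · intro i hi
    have h5 : ((⌊x / w⌋₊ : ℕ) : ℝ) ≤ x / w := Nat.floor_le (by positivity)
    have h5' : ((⌊x / w⌋₊ : ℕ) : ℝ) < h - d := h5.trans_lt (by
      rw [div_lt_iff₀ hw0]
      linarith only [hc])
    have h6 : (i : ℝ) + 1 ≤ (⌊x / w⌋₊ : ℕ) := by exact_mod_cast hi
    have h7 : (i : ℝ) + 1 ≤ x / w := h6.trans h5
    rw [le_div_iff₀ hw0] at h7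
    have h8 : i < h := by
      have : (i : ℝ) < h := by
        have : (0 : ℝ) ≤ d := Nat.cast_nonneg _
        linarith only [h5', h6]
      exact_mod_cast this
    rw [if_pos h8]
    linarith only [hw, h7]
  · intro i hi
    have h5 : x / w < (⌊x / w⌋₊ : ℕ) + 1 := Nat.lt_floor_add_one _
    have h6 : ((⌊x / w⌋₊ : ℕ) : ℝ) + 1 ≤ i := by exact_mod_cast hi
    have h7 : x / w < i := lt_of_lt_of_le h5 h6
    rw [div_lt_iff₀ hw0] at h7
    split_ifs <;> linarith

/-- **Regions**, the branch being last (`M` arbitrary): a tree with a marked vertex (`M`, `H` = its vertices), at which a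
branch `F` with `f` vertices hangs, is cut along the blocks of the tournament. `t` = the block numbers where the regions start, `m₀` = region of the root, which
is the block `j`, `M'` = `M` with the numbers of the regions as labels, `s m` = number of vertices of `F` in the region
`m`, `k` = region of the root `u` of `F`, which has a place between `α` and `α + ι` there -/
theorem exists_regions0 (M : Mu) {N j : ℕ} {A : ℕ → ℝ} (hA0 : A 0 = 0) (hAm : Monotone A) (hj : j < N)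
    {f au du : ℕ} {σ σ' δ L : ℝ} (hσ : 0 ≤ σ) (hσ1 : σ ≤ 1) (hσ' : 0 ≤ σ') (hσ'1 : σ' ≤ 1) (hδ : 100 ≤ δ)
    (h1 : (1 + σ) * (M.un.size + 1) + (1 - σ') * f + 12 * δ ≤ A N)
    (h2 : (1 + σ) * (rch false M.un + 1) + 12 * δ ≤ A (j + 1))
    (h3 : A j + (1 + σ) * (rch true M.un + 1) ≤ (1 + σ) * (M.un.size + 1))
    (hL : 200 * δ ≤ L) (hs : σ' * f ≤ L / 100) (h4 : (au : ℝ) + du + L ≤ f + 1) :
    ∃ (t : ℕ → ℕ) (m₀ k : ℕ) (M' : Mn) (s : ℕ → ℕ) (α ι : ℕ), Monotone t ∧ t 0 = 0 ∧ t 5 = N ∧ m₀ < 5 ∧ t m₀ = j ∧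
      t (m₀ + 1) = j + 1 ∧ k < 5 ∧ M'.er = M ∧ M'.fn.Ok m₀ ∧ (∀ m, 5 ≤ m → M'.fn.num m = 0) ∧
      (∀ m < 5, (M'.fn.num m = 0 ∧ s m = 0) ∨
        (1 + σ) * M'.fn.num m + s m + δ / 2 ≤ A (t (m + 1)) - A (t m)) ∧
      (1 - σ') * f - 5 ≤ ∑ m ∈ range 5, (s m : ℝ) ∧ ∑ m ∈ range 5, (s m : ℝ) ≤ f ∧ α + ι ≤ s k ∧ L / 40 ≤ ι ∧
      au + L / 4 ≤ ∑ m ∈ range k, (s m : ℝ) + α ∧ du + L / 4 + (α + ι) ≤ ∑ m ∈ Ico k 5, (s m : ℝ) ∧
      (M'.lab m₀ < k ∨ (M'.lab m₀ = k ∧ t (k + 1) = t k + 1)) ∧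
      (A (j + 1) ≤ (1 + σ) * (M.un.size + 1) → m₀ < k) := by
  obtain ⟨w, hw⟩ : ∃ w, w = 1 + σ := ⟨_, rfl⟩
  rw [← hw] at h1 h2 h3 ⊢
  have hw1 : 1 ≤ w := by linarith
  have hw2 : w ≤ 2 := by linarith
  have hw0 : 0 < w := by linarith
  obtain ⟨h, hh⟩ : ∃ h, h = M.un.size + 1 := ⟨_, rfl⟩
  obtain ⟨a, ha⟩ : ∃ a, a = rch false M.un := ⟨_, rfl⟩
  obtain ⟨d, hd⟩ : ∃ d, d = rch true M.un := ⟨_, rfl⟩
  have hhr : (M.un.size : ℝ) + 1 = h := by rw [hh]; push_cast; ring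
  rw [hhr] at h1 h3
  rw [← ha] at h2
  rw [← hd] at h3
  have hadh : a + d + 1 ≤ h := by
    have := rch_add_le M.un true
    simp only [Bool.not_true] at this
    omega
  have hadr : (a : ℝ) + d + 1 ≤ h := by exact_mod_cast hadh
  obtain ⟨φ, hφd⟩ : ∃ φ, φ = (1 - σ') * (f : ℝ) := ⟨_, rfl⟩
  rw [← hφd] at h1
  have hf0 : (0 : ℝ) ≤ f := Nat.cast_nonneg _
  have ha0 : (0 : ℝ) ≤ a := Nat.cast_nonneg _
  have hd0 : (0 : ℝ) ≤ d := Nat.cast_nonneg _
  have hau0 : (0 : ℝ) ≤ au := Nat.cast_nonneg _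
  have hdu0 : (0 : ℝ) ≤ du := Nat.cast_nonneg _
  have hφ : 0 ≤ φ := by rw [hφd]; exact mul_nonneg (by linarith only [hσ'1]) hf0
  obtain ⟨Λ, hΛ⟩ : ∃ Λ, Λ = w * h + φ := ⟨_, rfl⟩
  have hΛ0 : 0 ≤ Λ := by rw [hΛ]; (clear * - hw1 hφ; positivity)
  rw [← hΛ] at h1
  have hAj : A j ≤ Λ := by nlinarith only [hσ, hδ, hL, hs, h4, hw, h3, hφd, hΛ]
  obtain ⟨c, hc⟩ : ∃ c, c = max 0 (A j - 5 * δ) := ⟨_, rfl⟩
  have hc0 : 0 ≤ c := by rw [hc]; exact le_max_left _ _
  obtain ⟨x, ρ, x1, x2, p1, p2, p3, p4, p5⟩ := exists_place0 (a := a) (d := d) (h := h) (c := c) (φ := φ) hc0 hw1 hφ hadh (by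
    rw [hc]
    rcases max_cases 0 (A j - 5 * δ) with h5 | h5
    · rw [h5.1]
      nlinarith only [hw, hadr, hσ]
    · rw [h5.1]
      linarith only [hδ, h3])
  obtain ⟨K, hKd⟩ : ∃ K, K = h := ⟨_, rfl⟩
  have hK : K ≤ h := hKd.le
  rw [← hKd] at p3 p4 p5
  obtain ⟨y₀, hy₀⟩ : ∃ y₀ : ℝ, y₀ = w * K + (1 - σ') * (au + f - du) / 2 := ⟨_, rfl⟩
  have hKr : (K : ℝ) ≤ h := by exact_mod_cast hK
  have hδ0 : 0 ≤ δ := by linarith only [hδ]
  have hy0 : 0 ≤ y₀ := by
    rw [hy₀]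
    have : 0 ≤ (1 - σ') * (au + f - du) := mul_nonneg (by linarith only [hσ'1]) (by linarith only [hδ, hL, h4])
    have h5 : 0 ≤ w * (K : ℝ) := mul_nonneg hw0.le (Nat.cast_nonneg K)
    linarith only [this, h5]
  have hyN : y₀ < A N := by
    have h5 : (1 - σ') * (au + f - du) ≤ (1 - σ') * (2 * f) := mul_le_mul_of_nonneg_left (by linarith only [hδ, hL, h4]) (by linarith only [hσ'1])
    have h6 : w * K ≤ w * h := mul_le_mul_of_nonneg_left hKr hw0.le
    have h7 : (1 - σ') * (2 * (f : ℝ)) = 2 * φ := by rw [hφd]; ring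
    rw [hy₀]
    rw [hΛ] at h1
    linarith only [hδ, hφd, h1, h5, h6]
  -- the block of the centre of the window
  obtain ⟨r, hr1, hr2, hrN⟩ : ∃ r, A r ≤ y₀ ∧ y₀ < A (r + 1) ∧ r < N := by
    have h5 : A (Nat.findGreatest (fun b => A b ≤ y₀) N) ≤ y₀ :=
      Nat.findGreatest_spec (P := fun b => A b ≤ y₀) (Nat.zero_le N) (by rw [hA0]; exact hy0)
    have h6 : Nat.findGreatest (fun b => A b ≤ y₀) N < N := by
      refine lt_of_le_of_ne (Nat.findGreatest_le N) (fun h7 => ?_)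
      rw [h7] at h5
      linarith only [hyN, h5]
    refine ⟨_, h5, ?_, h6⟩
    by_contra hcc
    exact Nat.findGreatest_is_greatest (P := fun b => A b ≤ y₀) (Nat.lt_succ_self _) h6 (not_lt.1 hcc)
  obtain ⟨t, m₀, i₀, ht, t0, t5, hm₀, tm, tm1, hi₀, hi₀', ti, ti1⟩ : ∃ (t : ℕ → ℕ) (m₀ i₀ : ℕ), Monotone t ∧ t 0 = 0 ∧
      t 5 = N ∧ m₀ < 5 ∧ t m₀ = j ∧ t (m₀ + 1) = j + 1 ∧ 1 ≤ i₀ ∧ i₀ < 5 ∧ t i₀ = r ∧ t (i₀ + 1) = r + 1 := by
    rcases lt_trichotomy r j with h5 | h5 | h5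
    · exact ⟨tt r (r + 1) j (j + 1) N, 3, 1, tt_mono (by omega) (by omega) (by omega) (by omega), rfl, rfl,
        by norm_num, rfl, rfl, le_rfl, by norm_num, rfl, rfl⟩
    · subst h5
      exact ⟨tt r r (r + 1) (r + 1) N, 2, 2, tt_mono (by omega) (by omega) (by omega) (by omega), rfl, rfl,
        by norm_num, rfl, rfl, by norm_num, by norm_num, rfl, rfl⟩
    · exact ⟨tt j (j + 1) r (r + 1) N, 1, 3, tt_mono (by omega) (by omega) (by omega) (by omega), rfl, rfl,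
        by norm_num, rfl, rfl, by norm_num, by norm_num, rfl, rfl⟩
  have hB : Monotone (fun i => A (t i)) := hAm.comp ht
  have hB0 : (fun i => A (t i)) 0 = 0 := by
    show A (t 0) = 0
    rw [t0, hA0]
  obtain ⟨P, hPd⟩ : ∃ P, P = PQ Λ δ c (fun i => A (t i)) := ⟨_, rfl⟩
  have hP : Monotone P := by rw [hPd]; exact PQ_mono _ _ _ _
  have hP0 : P 0 = 0 := by rw [hPd]; exact PQ_zero hc0 _
  have hPB : ∀ i, P i ≤ A (t i) := fun i => by rw [hPd]; exact PQ_le_B c hδ0 hB hB0 i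
  have hPge : ∀ i ≤ 5, min Λ (A (t i) - 10 * δ) ≤ P i := fun i hi => by
    rw [hPd]
    exact PQ_ge (B := fun i => A (t i)) c hδ0 hB0 hi
  have hP5 : P 5 = Λ := by
    refine le_antisymm (by rw [hPd]; exact PQ_le δ c hΛ0 _ 5) ?_
    have h5 := hPge 5 le_rfl
    rw [t5, min_eq_left (by linarith only [hδ, h1])] at h5
    exact h5
  have hPm : P m₀ = c := by
    rw [hPd]
    exact PQ_mid hδ0 hB hB0 hm₀.le (by rw [hc]; simp only [tm]) (by simp only [tm]; exact hAj)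
  have hPstep : ∀ i, P i < P (i + 1) → P (i + 1) - P i ≤ A (t (i + 1)) - A (t i) - δ := fun i hi => by
    rw [hPd] at hi ⊢
    exact PQ_step hδ0 hB hB0 hm₀.le (by rw [hc]; simp only [tm]) (by simp only [tm]; exact hAj) hi
  have hxP : x ≤ P (m₀ + 1) := by
    refine x2.trans (max_le ?_ ?_)
    · rw [← hPm]
      exact hP (Nat.le_succ _)
    · refine le_trans (le_min ?_ ?_) (hPge (m₀ + 1) (by omega))
      · rw [hΛ]
        nlinarith only [hσ, hδ, hL, hs, h4, hadr, hφd, hw]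
      · rw [tm1]
        nlinarith only [hσ, hδ, hw, h2]
  rw [← hPm] at x1
  obtain ⟨k, α, ι, s, hk5, hsd, e1, e2, e3, e4, e5, e6, e7⟩ := cuts_aux (h := h) (f := f) (au := au) (du := du) (w := w)
    (σ' := σ') (E := 10 * δ) (L := L) (A := A) hw1 hσ' hσ'1 (by linarith only [hδ]) (by linarith only [hL]) (by linarith only [hδ, hL]) hs h4 hi₀' ti ti1 hP hP0
    hPB (by rw [← hφd, ← hΛ]; exact hPge) (by rw [← hφd, ← hΛ]; exact hP5) hK hy₀ hr1 hr2
  -- the labels
  obtain ⟨p, hp⟩ : ∃ p : ℕ → ℝ, p = fun i => w * i + (if i < K then 0 else φ) := ⟨_, rfl⟩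
  have hpm : Monotone p := by
    intro i i' hii
    rw [hp]
    simp only
    have h5 : (i : ℝ) ≤ i' := by exact_mod_cast hii
    have h6 : w * i ≤ w * i' := mul_le_mul_of_nonneg_left h5 hw0.le
    split_ifs with h7 h8
    · linarith only [h6]
    · linarith only [hδ, hL, hs, h4, hφd, h6]
    · omega
    · linarith only [h6]
  have p4' : ∀ i < ρ, p i < x := by rw [hp]; exact p4
  have p5' : ∀ i, ρ < i → x < p i := by rw [hp]; exact p5
  obtain ⟨g, hg⟩ : ∃ g : ℕ → ℕ, g = fun i => if i = ρ then m₀ else lb P (w * i + (if i < K then 0 else φ)) := ⟨_, rfl⟩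
  have hgρ : g ρ = m₀ := by rw [hg]; simp
  have hgn : ∀ i, i ≠ ρ → g i = lb P (p i) := fun i hi => by
    rw [hg, hp]
    simp only [if_neg hi]
  have hlow : ∀ i < ρ, lb P (p i) ≤ m₀ := fun i hi =>
    Nat.lt_succ_iff.1 (lb_lt hP (by omega) ((p4' i hi).trans_le hxP))
  have hhigh : ∀ i, ρ < i → m₀ ≤ lb P (p i) := fun i hi => le_lb hP (by omega) (x1.trans (p5' i hi).le)
  have hgm : Monotone g := by
    intro i i' hii
    by_cases h5 : i = ρ
    · by_cases h6 : i' = ρ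
      · rw [h5, h6]
      · rw [h5, hgρ, hgn i' h6]
        exact hhigh i' (by omega)
    · by_cases h6 : i' = ρ
      · rw [h6, hgρ, hgn i h5]
        exact hlow i (by omega)
      · rw [hgn i h5, hgn i' h6]
        exact lb_mono P (hpm hii)
  obtain ⟨M', b1, b2, b3, b4, b5⟩ := exists_mnA M ρ (by omega) (by omega) g hgm
  rw [hgρ] at b2 b4 b5
  rw [← hh] at b3
  -- a label bound
  have hlab : ∀ q, 1 ≤ q → w * K ≤ P q → M'.lab m₀ < q := by
    intro q hq hKq
    refine b4.trans_lt ?_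
    by_cases h7 : M.un.size = ρ
    · rw [h7, hgρ]
      by_contra hcc
      have := hP (not_lt.1 hcc)
      linarith only [p3, x1, hKq, this]
    · rw [hgn _ h7]
      refine lb_lt hP hq ?_
      rw [hp]
      simp only
      rw [if_pos (by omega), add_zero]
      have h8 : (M.un.size : ℝ) < K := by
        have : M.un.size < K := by omega
        exact_mod_cast this
      nlinarith only [hKq, h8, hw, hσ]
  refine ⟨t, m₀, k, M', s, α, ι, ht, t0, t5, hm₀, tm, tm1, hk5, b1, b2, ?_, ?_, e1, e2, e3, e4, e5, e6, ?_, ?_⟩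
  · intro m hm
    rw [b3 m, card_eq_zero, filter_eq_empty_iff]
    intro i _
    by_cases h5 : i = ρ
    · rw [h5, hgρ]
      omega
    · rw [hgn i h5]
      have := lb_le P (p i)
      omega
  · intro m hm
    rcases lt_or_ge (P m) (P (m + 1)) with h5 | h5
    · right
      have h6 := count_region (m₀ := m₀) (ρ := ρ) (K := K) hP hP0 hw0 hφ (by rw [hP5, hΛ]) h5
      have h7 := hPstep m h5
      have h8 : (M'.fn.num m : ℝ) = (((range h).erase ρ).filter
          (fun i => (if i = ρ then m₀ else lb P (w * i + (if i < K then 0 else φ))) = m)).card := by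
        rw [b3 m, hg]
      rw [← h8] at h6
      have h9 : (s m : ℝ) ≤ max (w * K) (min (w * K + φ) (P (m + 1))) - max (w * K) (min (w * K + φ) (P m)) := by
        rw [hsd m, ← hφd]
        refine Nat.floor_le (sub_nonneg.2 ?_)
        exact max_le_max le_rfl (min_le_min le_rfl h5.le)
      linarith only [hσ1, hδ, hw, h6, h7, h9]
    · left
      have h6 : P (m + 1) = P m := le_antisymm h5 (hP (Nat.le_succ m))
      constructor
      · rw [b3 m, card_eq_zero, filter_eq_empty_iff]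
        intro i hi hcc
        rw [mem_erase, mem_range] at hi
        rw [hgn i hi.1] at hcc
        have h7 : (i : ℝ) + 1 ≤ h := by exact_mod_cast hi.2
        have h70 : w * i + w ≤ w * h := by
          have h71 := mul_le_mul_of_nonneg_left h7 hw0.le
          linarith only [h71]
        have h72 : 0 ≤ w * (i : ℝ) := mul_nonneg hw0.le (Nat.cast_nonneg i)
        have h8 := lb_eq hP (y := p i) (by
          rw [hP0, hp]
          simp only
          split_ifs <;> linarith only [h72, hφ]) (by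
          rw [hP5, hΛ, hp]
          simp only
          split_ifs <;> linarith only [h70, hw0, hφ]) hcc
        linarith only [h5, h8]
      · rw [hsd m, h6, sub_self, Nat.floor_zero]
  · rcases e7 with ⟨h5, h6⟩ | ⟨h5, h6⟩
    · have := hlab (k + 1) (by omega) h6
      rcases Nat.lt_succ_iff_lt_or_eq.1 this with h7 | h7
      · exact Or.inl h7
      · exact Or.inr ⟨h7, h5⟩
    · left
      exact (hlab i₀ hi₀ h5).trans_le h6
  · intro hAj1
    by_contra hcc
    rw [not_lt] at hcc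
    have hPk : P (k + 1) ≤ w * K := by
      refine (hP (by omega : k + 1 ≤ m₀ + 1)).trans ((hPB (m₀ + 1)).trans ?_)
      rw [tm1, hKd, ← hhr]
      exact hAj1
    have hPk' : P k ≤ w * K := (hP (Nat.le_succ k)).trans hPk
    have h6 : s k = 0 := by
      rw [hsd k, max_eq_left ((min_le_right _ _).trans hPk), max_eq_left ((min_le_right _ _).trans hPk'), sub_self,
        Nat.floor_zero]
    have h7 : (0 : ℝ) < ι := by linarith only [hδ, hL, e4]
    have h8 : 0 < ι := by exact_mod_cast h7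
    omega

end AEJ
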