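import Pool.Agent.AEJ.Cuts

/-!
# Weighted cuts, the root of the branch `F` being a descendant of the root
-/

namespace AEJ

open Finset AE15 AED AELT AEX AEK LTT
open scoped Classical

/-- clamping -/
noncomputable def cl (a b y : ℝ) : ℝ := max a (min b y)

theorem cl_mono (a b : ℝ) : Monotone (cl a b) := fun _ _ h => max_le_max le_rfl (min_le_min le_rfl h)

theorem cl_low {a b y : ℝ} (h : y ≤ a) : cl a b y = a := max_eq_left ((min_le_right _ _).trans h)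

theorem cl_high {a b y : ℝ} (hab : a ≤ b) (h : b ≤ y) : cl a b y = b := by
  rw [cl, min_eq_left h, max_eq_right hab]

/-- **The cuts, numbers only**: `F` occupies `[U₀, U₁]` and `[J₀, J₁]` -/
theorem cuts_aux2 {r : ℕ} {A : ℕ → ℝ} {E L U₀ U₁ J₀ J₁ y₀ Λ : ℝ} (hU0 : 0 ≤ U₀) (hU : U₀ ≤ U₁) (hUJ : U₁ ≤ J₀)
    (hJΛ : J₁ ≤ Λ) (hE : 0 ≤ E) (hL : 20 * E ≤ L) (hL1 : 1000 ≤ L) (hc1 : J₀ + L / 4 ≤ y₀) (hc2 : y₀ + L / 4 ≤ J₁)
    {t : ℕ → ℕ} {i₀ : ℕ} (hi₀' : i₀ < 5) (ti : t i₀ = r) (ti1 : t (i₀ + 1) = r + 1) {P : ℕ → ℝ} (hP : Monotone P)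
    (hP0 : P 0 = 0) (hPB : ∀ i, P i ≤ A (t i)) (hPge : ∀ i ≤ 5, min Λ (A (t i) - E) ≤ P i) (hP5 : P 5 = Λ)
    (hr : A r ≤ y₀) (hr1 : y₀ < A (r + 1)) :
    ∃ (k α ι : ℕ) (s : ℕ → ℕ), k < 5 ∧
      (∀ m, s m = ⌊(cl U₀ U₁ (P (m + 1)) - cl U₀ U₁ (P m)) + (cl J₀ J₁ (P (m + 1)) - cl J₀ J₁ (P m))⌋₊) ∧
      (U₁ - U₀) + (J₁ - J₀) - 5 ≤ ∑ m ∈ range 5, (s m : ℝ) ∧
      ∑ m ∈ range 5, (s m : ℝ) ≤ (U₁ - U₀) + (J₁ - J₀) ∧ α + ι ≤ s k ∧ L / 40 ≤ ι ∧
      (U₁ - U₀) + (y₀ - J₀) - L / 6 - 5 ≤ ∑ m ∈ range k, (s m : ℝ) + α ∧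
      (J₁ - y₀) - L / 6 - 5 + (α + ι) ≤ ∑ m ∈ Ico k 5, (s m : ℝ) ∧
      ((t (k + 1) = t k + 1 ∧ J₀ ≤ P (k + 1)) ∨ (J₀ ≤ P i₀ ∧ i₀ ≤ k)) := by
  have hJ : J₀ ≤ J₁ := by linarith
  obtain ⟨Q, hQ⟩ : ∃ Q : ℕ → ℝ, Q = fun m => cl J₀ J₁ (P m) := ⟨_, rfl⟩
  obtain ⟨T, hT⟩ : ∃ T : ℕ → ℝ, T = fun m => cl U₀ U₁ (P m) := ⟨_, rfl⟩
  obtain ⟨s, hsd⟩ : ∃ s : ℕ → ℕ, s = fun m => ⌊(T (m + 1) - T m) + (Q (m + 1) - Q m)⌋₊ := ⟨_, rfl⟩
  have hQm : Monotone Q := by rw [hQ]; exact (cl_mono J₀ J₁).comp hP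
  have hTm : Monotone T := by rw [hT]; exact (cl_mono U₀ U₁).comp hP
  have hpos : ∀ m, 0 ≤ (T (m + 1) - T m) + (Q (m + 1) - Q m) := fun m =>
    add_nonneg (sub_nonneg.2 (hTm (Nat.le_succ m))) (sub_nonneg.2 (hQm (Nat.le_succ m)))
  have hs1 : ∀ m, (s m : ℝ) ≤ (T (m + 1) - T m) + (Q (m + 1) - Q m) := fun m => by
    rw [hsd]
    exact Nat.floor_le (hpos m)
  have hs2 : ∀ m, (T (m + 1) - T m) + (Q (m + 1) - Q m) - 1 ≤ s m := fun m => by
    rw [hsd]
    exact (Nat.sub_one_lt_floor _).le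
  have hQ0 : Q 0 = J₀ := by
    rw [hQ]
    exact cl_low (by rw [hP0]; linarith)
  have hQ5 : Q 5 = J₁ := by
    rw [hQ]
    exact cl_high hJ (by rw [hP5]; exact hJΛ)
  have hT0 : T 0 = U₀ := by
    rw [hT]
    exact cl_low (by rw [hP0]; exact hU0)
  have hT5 : T 5 = U₁ := by
    rw [hT]
    exact cl_high hU (by rw [hP5]; linarith)
  have hsum1 : ∀ a b, a ≤ b → ∑ m ∈ Ico a b, (s m : ℝ) ≤ (T b - T a) + (Q b - Q a) := fun a b hab => by
    rw [← sum_tele Q hab, ← sum_tele T hab, ← sum_add_distrib]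
    exact sum_le_sum (fun m _ => hs1 m)
  have hsum2 : ∀ a b, a ≤ b → (T b - T a) + (Q b - Q a) - ((b : ℝ) - a) ≤ ∑ m ∈ Ico a b, (s m : ℝ) := fun a b hab => by
    rw [← sum_tele Q hab, ← sum_tele T hab, ← sum_add_distrib]
    have h5 : ∑ m ∈ Ico a b, ((T (m + 1) - T m) + (Q (m + 1) - Q m)) - ((b : ℝ) - a) =
        ∑ m ∈ Ico a b, ((T (m + 1) - T m) + (Q (m + 1) - Q m) - 1) := by
      rw [sum_sub_distrib (fun m => (T (m + 1) - T m) + (Q (m + 1) - Q m))]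
      simp only [sum_const, Nat.card_Ico, nsmul_eq_mul, mul_one]
      rw [Nat.cast_sub hab]
    rw [h5]
    exact sum_le_sum (fun m _ => hs2 m)
  -- an interval inside a region
  obtain ⟨k, y₁, y₂, hk5, hk0', hk1, hk2, hk3, hk4, hk5', hk6⟩ : ∃ (k : ℕ) (y₁ y₂ : ℝ), k < 5 ∧ J₀ ≤ P (k + 1) ∧
      Q k ≤ y₁ ∧ y₂ ≤ Q (k + 1) ∧ y₀ - L / 6 ≤ y₁ ∧ y₂ ≤ y₀ + L / 6 ∧ L / 30 ≤ y₂ - y₁ ∧
      ((t (k + 1) = t k + 1 ∧ J₀ ≤ P (k + 1)) ∨ (J₀ ≤ P i₀ ∧ i₀ ≤ k)) := by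
    by_cases hc : A r < J₀ + E
    · -- one block
      have hup : y₀ - E ≤ P (i₀ + 1) := by
        refine le_trans (le_min (by linarith) ?_) (hPge (i₀ + 1) hi₀')
        rw [ti1]
        linarith
      refine ⟨i₀, y₀ - L / 6, y₀ - E, hi₀', by linarith, ?_, ?_, le_rfl, by linarith, by linarith,
        Or.inl ⟨by rw [ti, ti1], by linarith⟩⟩
      · rw [hQ]
        refine max_le (by linarith) ((min_le_right _ _).trans ?_)
        have := hPB i₀
        rw [ti] at this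
        linarith
      · rw [hQ]
        exact le_trans (le_min (by linarith) hup) (le_max_right _ _)
    · rw [not_lt] at hc
      have hPi₀ : J₀ ≤ P i₀ := by
        refine le_trans (le_min (hJ.trans hJΛ) ?_) (hPge i₀ hi₀'.le)
        rw [ti]
        linarith
      have hPi₀' : P i₀ ≤ y₀ := by
        have := hPB i₀
        rw [ti] at this
        linarith
      obtain ⟨W, hW⟩ : ∃ W : ℕ → ℝ, W = fun m => max y₀ (min (y₀ + L / 6) (P m)) := ⟨_, rfl⟩
      have hW0 : W 0 = y₀ := by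
        rw [hW]
        simp only [hP0]
        rw [max_eq_left]
        exact (min_le_right _ _).trans (by linarith)
      have hW5 : W 5 = y₀ + L / 6 := by
        rw [hW]
        simp only [hP5]
        rw [min_eq_left (by linarith), max_eq_right (by linarith)]
      obtain ⟨k, hk, hk'⟩ : ∃ k ∈ range 5, L / 30 ≤ W (k + 1) - W k := by
        by_contra hcc
        push Not at hcc
        have h5 : ∑ m ∈ range 5, (W (m + 1) - W m) < ∑ m ∈ range 5, L / 30 :=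
          sum_lt_sum_of_nonempty ⟨0, by simp⟩ hcc
        rw [sum_range_sub, hW0, hW5, sum_const, card_range, nsmul_eq_mul] at h5
        push_cast at h5
        linarith
      rw [mem_range] at hk
      have hWlt : W k < W (k + 1) := by
        have : 0 < L / 30 := by linarith
        linarith
      have g1 : y₀ < P (k + 1) := by
        by_contra hcc
        rw [not_lt] at hcc
        have h5 : W (k + 1) = y₀ := by
          rw [hW]
          simp only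
          rw [max_eq_left ((min_le_right _ _).trans hcc)]
        have h6 : y₀ ≤ W k := by rw [hW]; exact le_max_left _ _
        linarith
      have g2 : P k < y₀ + L / 6 := by
        by_contra hcc
        rw [not_lt] at hcc
        have h5 : W k = y₀ + L / 6 := by
          rw [hW]
          simp only
          rw [min_eq_left hcc, max_eq_right (by linarith)]
        have h6 : W (k + 1) ≤ y₀ + L / 6 := by
          rw [hW]
          exact max_le (by linarith) (min_le_left _ _)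
        linarith
      refine ⟨k, W k, W (k + 1), hk, by linarith, ?_, ?_, ?_, ?_, hk', Or.inr ⟨hPi₀, ?_⟩⟩
      · rw [hQ, hW]
        simp only [cl]
        refine max_le ?_ ?_
        · exact le_trans (by linarith) (le_max_left _ _)
        · rw [min_eq_right g2.le]
          exact (min_le_right _ _).trans (le_max_right _ _)
      · rw [hQ, hW]
        simp only [cl]
        refine le_trans ?_ (le_max_right _ _)
        refine max_le (le_min (by linarith) g1.le) (le_min ?_ (min_le_right _ _))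
        exact (min_le_left _ _).trans (by linarith)
      · have h6 : y₀ ≤ W k := by rw [hW]; exact le_max_left _ _
        linarith
      · rw [hW]
        exact max_le (by linarith) (min_le_left _ _)
      · by_contra hcc
        have h5 := hP (by omega : k + 1 ≤ i₀)
        linarith
  -- the numbers
  have hTk : T (k + 1) = U₁ := by
    rw [hT]
    exact cl_high hU (hUJ.trans hk0')
  have hTk' : 0 ≤ T (k + 1) - T k := sub_nonneg.2 (hTm (Nat.le_succ k))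
  obtain ⟨v₁, hv₁⟩ : ∃ v₁, v₁ = (T (k + 1) - T k) + (y₁ - Q k) := ⟨_, rfl⟩
  obtain ⟨v₂, hv₂⟩ : ∃ v₂, v₂ = (T (k + 1) - T k) + (y₂ - Q k) := ⟨_, rfl⟩
  have hv₁0 : 0 ≤ v₁ := by linarith
  have hv₂0 : 0 ≤ v₂ := by
    have : 0 < L / 30 := by linarith
    linarith
  have c1 : v₁ ≤ (⌈v₁⌉₊ : ℕ) := Nat.le_ceil _
  have c2 : ((⌈v₁⌉₊ : ℕ) : ℝ) < v₁ + 1 := Nat.ceil_lt_add_one hv₁0
  have c3 : ((⌊v₂⌋₊ : ℕ) : ℝ) ≤ v₂ := Nat.floor_le hv₂0
  have c4 : v₂ - 1 < (⌊v₂⌋₊ : ℕ) := Nat.sub_one_lt_floor _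
  have c5 : ⌈v₁⌉₊ ≤ ⌊v₂⌋₊ := by
    have : ((⌈v₁⌉₊ : ℕ) : ℝ) ≤ (⌊v₂⌋₊ : ℕ) := by linarith
    exact_mod_cast this
  have c6 : ⌊v₂⌋₊ ≤ s k := by
    rw [hsd]
    exact Nat.floor_le_floor (by linarith)
  have hkr : (k : ℝ) ≤ 4 := by exact_mod_cast (by omega : k ≤ 4)
  have hk0 : (0 : ℝ) ≤ k := Nat.cast_nonneg _
  have s1 := hsum1 0 5 (by norm_num)
  have s2 := hsum2 0 5 (by norm_num)
  have s3 := hsum2 0 k (by omega)
  have s4 := hsum2 k 5 (by omega)
  rw [← range_eq_Ico, hQ0, hQ5, hT0, hT5] at s1 s2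
  rw [← range_eq_Ico, hQ0, hT0] at s3
  rw [hQ5, hT5] at s4
  push_cast at s1 s2 s3 s4
  have c7 : ((⌊v₂⌋₊ - ⌈v₁⌉₊ : ℕ) : ℝ) = (⌊v₂⌋₊ : ℕ) - (⌈v₁⌉₊ : ℕ) := Nat.cast_sub c5
  refine ⟨k, ⌈v₁⌉₊, ⌊v₂⌋₊ - ⌈v₁⌉₊, s, hk5, ?_, ?_, ?_, ?_, ?_, ?_, ?_, hk6⟩
  · intro m
    rw [hsd, hT, hQ]
  · linarith
  · linarith
  · omega
  · rw [c7]
    linarith
  · linarith
  · rw [c7]
    linarith

theorem cl_sum {a b c d y : ℝ} (hab : a ≤ b) (hbc : b ≤ c) (hcd : c ≤ d) (hy : y ≤ d) :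
    min y a + cl a b y + cl b c y + cl c d y = y + a + b + c := by
  unfold cl
  rcases le_total y a with h1 | h1
  · rw [min_eq_left h1, min_eq_right (h1.trans hab), max_eq_left h1, min_eq_right (h1.trans (hab.trans hbc)),
      max_eq_left (h1.trans hab), min_eq_right hy, max_eq_left (h1.trans (hab.trans hbc))]
  · rcases le_total y b with h2 | h2
    · rw [min_eq_right h1, min_eq_right h2, max_eq_right h1, min_eq_right (h2.trans hbc), max_eq_left h2,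
        min_eq_right hy, max_eq_left (h2.trans hbc)]
      ring
    · rcases le_total y c with h3 | h3
      · rw [min_eq_right h1, min_eq_left h2, max_eq_right hab, min_eq_right h3, max_eq_right h2, min_eq_right hy,
          max_eq_left h3]
        ring
      · rw [min_eq_right h1, min_eq_left h2, max_eq_right hab, min_eq_left h3, max_eq_right hbc, min_eq_right hy,
          max_eq_right h3]
        ring

theorem over_low {u v a : ℝ} (huv : u ≤ v) : max 0 (min v a - u) ≤ min v a - min u a := by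
  refine max_le (sub_nonneg.2 (min_le_min huv le_rfl)) ?_
  have := min_le_left u a
  linarith

theorem over_mid {u v b c : ℝ} (huv : u ≤ v) (hbc : b ≤ c) : max 0 (min v c - max u b) ≤ cl b c v - cl b c u := by
  refine max_le (sub_nonneg.2 (cl_mono b c huv)) ?_
  have h1 : min v c ≤ cl b c v := by
    rw [cl, min_comm v c]
    exact le_max_right _ _
  have h2 : cl b c u ≤ max u b := by
    rw [cl, max_comm u b]
    exact max_le_max le_rfl (min_le_right _ _)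
  linarith

/-- the numbers of vertices in the regions -/
theorem count_region2 {P : ℕ → ℝ} (hP : Monotone P) (hP0 : P 0 = 0) {h K ρ m₀ : ℕ} {w φ₁ Λ : ℝ} (hw : 0 < w)
    (hφ : 0 ≤ φ₁) (hK : K ≤ h) (hΛ : w * h + φ₁ ≤ Λ) (hPΛ : ∀ i, P i ≤ Λ) (hP5 : P 5 = Λ) {m : ℕ} (hne : P m < P (m + 1)) :
    w * (((range h).erase ρ).filter (fun i => (if i = ρ then m₀ else lb P (w * i + (if i < K then 0 else φ₁))) = m)).card +
      ((cl (w * K) (w * K + φ₁) (P (m + 1)) - cl (w * K) (w * K + φ₁) (P m)) +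
        (cl (w * h + φ₁) Λ (P (m + 1)) - cl (w * h + φ₁) Λ (P m))) ≤ P (m + 1) - P m + 2 * w := by
  obtain ⟨S, hS⟩ : ∃ S, S = ((range h).erase ρ).filter
    (fun i => (if i = ρ then m₀ else lb P (w * i + (if i < K then 0 else φ₁))) = m) := ⟨_, rfl⟩
  rw [← hS]
  have hpos : ∀ i ∈ S, i < h ∧ P m ≤ w * i + (if i < K then 0 else φ₁) ∧ w * i + (if i < K then 0 else φ₁) < P (m + 1) := by
    intro i hi
    rw [hS, mem_filter, mem_erase, mem_range] at hi
    obtain ⟨⟨h1, h2⟩, h3⟩ := hi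
    rw [if_neg h1] at h3
    have h4 : (i : ℝ) + 1 ≤ h := by exact_mod_cast h2
    have h5 := lb_eq hP (y := w * i + (if i < K then 0 else φ₁)) (by
      rw [hP0]
      split_ifs <;> positivity) (by
      rw [hP5]
      split_ifs <;> nlinarith) h3
    exact ⟨h2, h5⟩
  have e1 : (S.card : ℝ) = (S.filter (fun i => i < K)).card + (S.filter (fun i => ¬ i < K)).card := by
    exact_mod_cast (card_filter_add_card_filter_not (s := S) (fun i => i < K)).symm
  have e2 := cnt_le (w := w) (c := 0) (u := P m) (v := min (P (m + 1)) (w * K)) hw (S.filter (fun i => i < K)) (by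
    intro i hi
    rw [mem_filter] at hi
    obtain ⟨h1, h2, h3⟩ := hpos i hi.1
    rw [if_pos hi.2] at h2 h3
    refine ⟨h2, lt_min h3 ?_⟩
    have : (i : ℝ) < K := by exact_mod_cast hi.2
    nlinarith)
  have e3 := cnt_le (w := w) (c := φ₁) (u := max (P m) (w * K + φ₁)) (v := min (P (m + 1)) (w * h + φ₁)) hw
    (S.filter (fun i => ¬ i < K)) (by
    intro i hi
    rw [mem_filter] at hi
    obtain ⟨h1, h2, h3⟩ := hpos i hi.1
    rw [if_neg hi.2] at h2 h3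
    refine ⟨max_le h2 ?_, lt_min h3 ?_⟩
    · have : (K : ℝ) ≤ i := by exact_mod_cast not_lt.1 hi.2
      nlinarith
    · have : (i : ℝ) < h := by exact_mod_cast h1
      nlinarith)
  have hKr : (K : ℝ) ≤ h := by exact_mod_cast hK
  have hab : w * K ≤ w * K + φ₁ := by linarith
  have hbc : w * K + φ₁ ≤ w * h + φ₁ := by nlinarith
  have e4 := over_low (a := w * K) hne.le
  have e5 := over_mid hne.le hbc
  have e6 := cl_sum hab hbc hΛ (hPΛ m)
  have e7 := cl_sum hab hbc hΛ (hPΛ (m + 1))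
  rw [e1]
  nlinarith

/-- the place of the root, the root of `F` being one of its descendants -/
theorem exists_place2 {h a d : ℕ} {w φ η Λ c : ℝ} (hc0 : 0 ≤ c) (hw : 1 ≤ w) (hη : 0 ≤ η)
    (hΛ : Λ = w * h + φ) (hh : a + d + 1 ≤ h) (h3 : c + w * (d + 1) + η ≤ Λ) (h5 : η ≤ φ) :
    ∃ (x φ₁ : ℝ) (K ρ : ℕ), c ≤ x ∧ x ≤ max c (w * a) ∧ a ≤ ρ ∧ ρ + d + 1 ≤ h ∧ K ≤ h ∧ 0 ≤ φ₁ ∧ φ₁ + η ≤ φ ∧
      x < w * h + φ₁ ∧ (∀ i < ρ, w * i + (if i < K then 0 else φ₁) < x) ∧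
      ∀ i, ρ < i → x < w * i + (if i < K then 0 else φ₁) := by
  have hw0 : 0 < w := by linarith
  obtain ⟨x, hx⟩ : ∃ x, x = max c (w * a) := ⟨_, rfl⟩
  have hx1 : c ≤ x := by rw [hx]; exact le_max_left _ _
  have hx2 : w * a ≤ x := by rw [hx]; exact le_max_right _ _
  have hx3 : x ≤ max c (w * a) := hx.le
  have hhr : (a : ℝ) + d + 1 ≤ h := by exact_mod_cast hh
  have hd0 : (0 : ℝ) ≤ d := Nat.cast_nonneg _
  have hx4 : x + w * (d + 1) + η ≤ Λ := by
    have : x ≤ Λ - w * (d + 1) - η := by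
      rw [hx]
      refine max_le (by linarith) ?_
      nlinarith
    linarith
  have hx0 : 0 ≤ x := hc0.trans hx1
  by_cases hc : x < w * (h - d)
  · refine ⟨x, 0, h, ⌊x / w⌋₊, hx1, hx3, Nat.le_floor ?_, ?_, le_rfl, le_rfl, by linarith, ?_, ?_, ?_⟩
    · rw [le_div_iff₀ hw0]
      linarith
    · have h5 : ((⌊x / w⌋₊ : ℕ) : ℝ) < h - d := (Nat.floor_le (by positivity)).trans_lt (by
        rw [div_lt_iff₀ hw0]
        linarith)
      have h6 : ((⌊x / w⌋₊ + d : ℕ) : ℝ) < (h : ℝ) := by push_cast; linarith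
      have : ⌊x / w⌋₊ + d < h := by exact_mod_cast h6
      omega
    · nlinarith
    · intro i hi
      have h5 : ((⌊x / w⌋₊ : ℕ) : ℝ) ≤ x / w := Nat.floor_le (by positivity)
      have h6 : (i : ℝ) + 1 ≤ (⌊x / w⌋₊ : ℕ) := by exact_mod_cast hi
      have h7 : (i : ℝ) + 1 ≤ x / w := h6.trans h5
      rw [le_div_iff₀ hw0] at h7
      split_ifs <;> linarith
    · intro i hi
      have h5 : x / w < (⌊x / w⌋₊ : ℕ) + 1 := Nat.lt_floor_add_one _
      have h6 : ((⌊x / w⌋₊ : ℕ) : ℝ) + 1 ≤ i := by exact_mod_cast hi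
      have h7 : x / w < i := lt_of_lt_of_le h5 h6
      rw [div_lt_iff₀ hw0] at h7
      split_ifs <;> linarith
  · rw [not_lt] at hc
    have hρ : ((h - 1 - d : ℕ) : ℝ) + d + 1 = h := by
      have : (h - 1 - d) + d + 1 = h := by omega
      exact_mod_cast this
    refine ⟨x, x - w * (h - 1 - d : ℕ), h - 1 - d, h - 1 - d, hx1, hx3, by omega, by omega, by omega, ?_, ?_, ?_, ?_, ?_⟩
    · nlinarith
    · have : w * ((h - 1 - d : ℕ) : ℝ) = w * h - w * (d + 1) := by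
        rw [← hρ]
        ring
      linarith
    · have : w * ((h - 1 - d : ℕ) : ℝ) < w * h := by nlinarith
      linarith
    · intro i hi
      rw [if_pos hi]
      have h5 : (i : ℝ) + 1 ≤ ((h - 1 - d : ℕ) : ℝ) := by exact_mod_cast hi
      nlinarith
    · intro i hi
      rw [if_neg (by omega)]
      have h5 : ((h - 1 - d : ℕ) : ℝ) + 1 ≤ i := by exact_mod_cast hi
      nlinarith

/-- **Regions**, the root `u` of the branch `F` being a descendant of the root: the slack behind the root is at least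
`L` -/
theorem exists_regions2 (M : Mu) {N j : ℕ} {A : ℕ → ℝ} (hA0 : A 0 = 0) (hAm : Monotone A) (hj : j < N)
    {f au du : ℕ} {σ σ' δ L : ℝ} (hσ : 0 ≤ σ) (hσ1 : σ ≤ 1) (hσ' : 0 ≤ σ') (hσ'1 : σ' ≤ 1) (hδ : 100 ≤ δ)
    (h1 : (1 + σ) * (M.un.size + 1) + (1 - σ') * f + 12 * δ ≤ A N)
    (h2 : (1 + σ) * (rch false M.un + 1) + 12 * δ ≤ A (j + 1))
    (h3 : A j + (1 + σ) * (rch true M.un + 1) + (1 - σ') * du + L ≤ (1 + σ) * (M.un.size + 1) + (1 - σ') * f)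
    (hL : 200 * δ ≤ L) (hs : σ' * f ≤ L / 100) (h4 : (au : ℝ) + du + L ≤ f + 1) :
    ∃ (t : ℕ → ℕ) (m₀ k : ℕ) (M' : Mn) (s : ℕ → ℕ) (α ι : ℕ), Monotone t ∧ t 0 = 0 ∧ t 5 = N ∧ m₀ < 5 ∧ t m₀ = j ∧
      t (m₀ + 1) = j + 1 ∧ k < 5 ∧ M'.er = M ∧ M'.fn.Ok m₀ ∧ (∀ m, 5 ≤ m → M'.fn.num m = 0) ∧
      (∀ m < 5, (M'.fn.num m = 0 ∧ s m = 0) ∨
        (1 + σ) * M'.fn.num m + s m + δ / 2 ≤ A (t (m + 1)) - A (t m)) ∧
      (1 - σ') * f - 5 ≤ ∑ m ∈ range 5, (s m : ℝ) ∧ ∑ m ∈ range 5, (s m : ℝ) ≤ f ∧ α + ι ≤ s k ∧ L / 40 ≤ ι ∧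
      au + L / 4 ≤ ∑ m ∈ range k, (s m : ℝ) + α ∧ du + L / 4 + (α + ι) ≤ ∑ m ∈ Ico k 5, (s m : ℝ) ∧
      (M'.lab m₀ < k ∨ (M'.lab m₀ = k ∧ t (k + 1) = t k + 1)) := by
  obtain ⟨w, hw⟩ : ∃ w, w = 1 + σ := ⟨_, rfl⟩
  rw [← hw] at h1 h2 h3 ⊢
  have hw1 : 1 ≤ w := by linarith
  have hw2 : w ≤ 2 := by linarith
  have hw0 : 0 < w := by linarith
  obtain ⟨h, hh⟩ : ∃ h, h = M.un.size + 1 := ⟨_, rfl⟩
  obtain ⟨a, ha⟩ : ∃ a, a = rch false M.un := ⟨_, rfl⟩
  obtain ⟨d, hd⟩ : ∃ d, d = rch true M.un := ⟨_, rfl⟩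
  have hhr : (M.un.size : ℝ) + 1 = h := by rw [hh]; push_cast; ring
  rw [hhr] at h1 h3
  rw [← ha] at h2
  rw [← hd] at h3
  have hadh : a + d + 1 ≤ h := by
    have := rch_add_le M.un true
    simp only [Bool.not_true] at this
    omega
  have hadr : (a : ℝ) + d + 1 ≤ h := by exact_mod_cast hadh
  obtain ⟨φ, hφd⟩ : ∃ φ, φ = (1 - σ') * (f : ℝ) := ⟨_, rfl⟩
  rw [← hφd] at h1 h3
  have hf0 : (0 : ℝ) ≤ f := Nat.cast_nonneg _
  have ha0 : (0 : ℝ) ≤ a := Nat.cast_nonneg _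
  have hd0 : (0 : ℝ) ≤ d := Nat.cast_nonneg _
  have hau0 : (0 : ℝ) ≤ au := Nat.cast_nonneg _
  have hdu0 : (0 : ℝ) ≤ du := Nat.cast_nonneg _
  have hh0 : (1 : ℝ) ≤ h := by
    have : 1 ≤ h := by omega
    exact_mod_cast this
  have hφ : 0 ≤ φ := by rw [hφd]; exact mul_nonneg (by linarith) hf0
  obtain ⟨Λ, hΛ⟩ : ∃ Λ, Λ = w * h + φ := ⟨_, rfl⟩
  have hΛ0 : 0 ≤ Λ := by rw [hΛ]; positivity
  rw [← hΛ] at h1 h3
  have hL0 : 0 ≤ L := by linarith
  have hdud : 0 ≤ (1 - σ') * (du : ℝ) := mul_nonneg (by linarith) hdu0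
  have hduf : (1 - σ') * (du : ℝ) ≤ du := by nlinarith
  have hauf : (1 - σ') * (au : ℝ) ≤ au := by nlinarith
  have hAj : A j ≤ Λ := by nlinarith
  -- the slack of the window
  have hφw : (1 - σ') * (au : ℝ) + (1 - σ') * du + 9 / 10 * L ≤ φ := by
    have h5 : (1 - σ') * ((au : ℝ) + du + L) ≤ (1 - σ') * (f + 1) := mul_le_mul_of_nonneg_left h4 (by linarith)
    have h6 : σ' * L ≤ σ' * (f + 1) := mul_le_mul_of_nonneg_left (by linarith) hσ'
    have h7 : (1 - σ') * ((f : ℝ) + 1) = φ + (1 - σ') := by rw [hφd]; ring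
    nlinarith
  obtain ⟨c, hc⟩ : ∃ c, c = max 0 (A j - 5 * δ) := ⟨_, rfl⟩
  have hc0 : 0 ≤ c := by rw [hc]; exact le_max_left _ _
  obtain ⟨x, φ₁, K, ρ, x1, x2, p1, p2, hK, p3, p3', p3'', p4, p5⟩ := exists_place2 (a := a) (d := d) (h := h) (c := c)
    (η := (1 - σ') * du + 9 / 10 * L) hc0 hw1 (by linarith) hΛ hadh (by
    rw [hc]
    rcases max_cases 0 (A j - 5 * δ) with h5 | h5
    · rw [h5.1, hΛ]
      have : 0 ≤ (1 - σ') * (au : ℝ) := mul_nonneg (by linarith) hau0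
      nlinarith
    · rw [h5.1]
      linarith) (by
    have : 0 ≤ (1 - σ') * (au : ℝ) := mul_nonneg (by linarith) hau0
    linarith)
  obtain ⟨y₀, hy₀⟩ : ∃ y₀ : ℝ, y₀ = w * h + (max φ₁ ((1 - σ') * au) + φ - (1 - σ') * du) / 2 := ⟨_, rfl⟩
  have hδ0 : 0 ≤ δ := by linarith
  have hmx1 : φ₁ ≤ max φ₁ ((1 - σ') * au) := le_max_left _ _
  have hmx2 : (1 - σ') * (au : ℝ) ≤ max φ₁ ((1 - σ') * au) := le_max_right _ _
  have hmx3 : max φ₁ ((1 - σ') * (au : ℝ)) + (1 - σ') * du + 9 / 10 * L ≤ φ := by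
    have : max φ₁ ((1 - σ') * (au : ℝ)) ≤ φ - (1 - σ') * du - 9 / 10 * L := max_le (by linarith) (by linarith)
    linarith
  have hy0 : 0 ≤ y₀ := by
    rw [hy₀]
    have : 0 ≤ w * h := by positivity
    linarith
  have hyN : y₀ < A N := by
    rw [hy₀]
    rw [hΛ] at h1
    linarith
  -- the block of the centre of the window
  obtain ⟨r, hr1, hr2, hrN⟩ : ∃ r, A r ≤ y₀ ∧ y₀ < A (r + 1) ∧ r < N := by
    have h5 : A (Nat.findGreatest (fun b => A b ≤ y₀) N) ≤ y₀ :=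
      Nat.findGreatest_spec (P := fun b => A b ≤ y₀) (Nat.zero_le N) (by rw [hA0]; exact hy0)
    have h6 : Nat.findGreatest (fun b => A b ≤ y₀) N < N := by
      refine lt_of_le_of_ne (Nat.findGreatest_le N) (fun h7 => ?_)
      rw [h7] at h5
      linarith
    refine ⟨_, h5, ?_, h6⟩
    by_contra hcc
    exact Nat.findGreatest_is_greatest (P := fun b => A b ≤ y₀) (Nat.lt_succ_self _) h6 (not_lt.1 hcc)
  obtain ⟨t, m₀, i₀, ht, t0, t5, hm₀, tm, tm1, hi₀, hi₀', ti, ti1⟩ : ∃ (t : ℕ → ℕ) (m₀ i₀ : ℕ), Monotone t ∧ t 0 = 0 ∧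
      t 5 = N ∧ m₀ < 5 ∧ t m₀ = j ∧ t (m₀ + 1) = j + 1 ∧ 1 ≤ i₀ ∧ i₀ < 5 ∧ t i₀ = r ∧ t (i₀ + 1) = r + 1 := by
    rcases lt_trichotomy r j with h5 | h5 | h5
    · exact ⟨tt r (r + 1) j (j + 1) N, 3, 1, tt_mono (by omega) (by omega) (by omega) (by omega), rfl, rfl,
        by norm_num, rfl, rfl, le_rfl, by norm_num, rfl, rfl⟩
    · subst h5
      exact ⟨tt r r (r + 1) (r + 1) N, 2, 2, tt_mono (by omega) (by omega) (by omega) (by omega), rfl, rfl,
        by norm_num, rfl, rfl, by norm_num, by norm_num, rfl, rfl⟩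
    · exact ⟨tt j (j + 1) r (r + 1) N, 1, 3, tt_mono (by omega) (by omega) (by omega) (by omega), rfl, rfl,
        by norm_num, rfl, rfl, by norm_num, by norm_num, rfl, rfl⟩
  have hB : Monotone (fun i => A (t i)) := hAm.comp ht
  have hB0 : (fun i => A (t i)) 0 = 0 := by
    show A (t 0) = 0
    rw [t0, hA0]
  obtain ⟨P, hPd⟩ : ∃ P, P = PQ Λ δ c (fun i => A (t i)) := ⟨_, rfl⟩
  have hP : Monotone P := by rw [hPd]; exact PQ_mono _ _ _ _
  have hP0 : P 0 = 0 := by rw [hPd]; exact PQ_zero hc0 _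
  have hPΛ : ∀ i, P i ≤ Λ := fun i => by rw [hPd]; exact PQ_le δ c hΛ0 _ i
  have hPB : ∀ i, P i ≤ A (t i) := fun i => by rw [hPd]; exact PQ_le_B c hδ0 hB hB0 i
  have hPge : ∀ i ≤ 5, min Λ (A (t i) - 10 * δ) ≤ P i := fun i hi => by
    rw [hPd]
    exact PQ_ge (B := fun i => A (t i)) c hδ0 hB0 hi
  have hP5 : P 5 = Λ := by
    refine le_antisymm (hPΛ 5) ?_
    have h5 := hPge 5 le_rfl
    rw [t5, min_eq_left (by linarith)] at h5
    exact h5
  have hPm : P m₀ = c := by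
    rw [hPd]
    exact PQ_mid hδ0 hB hB0 hm₀.le (by rw [hc]; simp only [tm]) (by simp only [tm]; exact hAj)
  have hPstep : ∀ i, P i < P (i + 1) → P (i + 1) - P i ≤ A (t (i + 1)) - A (t i) - δ := fun i hi => by
    rw [hPd] at hi ⊢
    exact PQ_step hδ0 hB hB0 hm₀.le (by rw [hc]; simp only [tm]) (by simp only [tm]; exact hAj) hi
  have hxP : x ≤ P (m₀ + 1) := by
    refine x2.trans (max_le ?_ ?_)
    · rw [← hPm]
      exact hP (Nat.le_succ _)
    · refine le_trans (le_min ?_ ?_) (hPge (m₀ + 1) (by omega))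
      · rw [hΛ]
        nlinarith
      · rw [tm1]
        nlinarith
  rw [← hPm] at x1
  have hKr : (K : ℝ) ≤ h := by exact_mod_cast hK
  obtain ⟨k, α, ι, s, hk5, hsd, e1, e2, e3, e4, e5, e6, e7⟩ := cuts_aux2 (A := A) (E := 10 * δ) (L := L)
    (U₀ := w * K) (U₁ := w * K + φ₁) (J₀ := w * h + φ₁) (J₁ := Λ) (y₀ := y₀) (Λ := Λ) (by positivity) (by linarith)
    (by nlinarith) le_rfl (by linarith) (by linarith) (by linarith) (by rw [hy₀]; linarith) (by rw [hy₀, hΛ]; linarith)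
    hi₀' ti ti1 hP hP0 hPB hPge hP5 hr1 hr2
  -- the labels
  obtain ⟨p, hp⟩ : ∃ p : ℕ → ℝ, p = fun i => w * i + (if i < K then 0 else φ₁) := ⟨_, rfl⟩
  have hpm : Monotone p := by
    intro i i' hii
    rw [hp]
    simp only
    have h5 : (i : ℝ) ≤ i' := by exact_mod_cast hii
    have h6 : w * i ≤ w * i' := mul_le_mul_of_nonneg_left h5 hw0.le
    split_ifs with h7 h8
    · linarith
    · linarith
    · omega
    · linarith
  have p4' : ∀ i < ρ, p i < x := by rw [hp]; exact p4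
  have p5' : ∀ i, ρ < i → x < p i := by rw [hp]; exact p5
  obtain ⟨g, hg⟩ : ∃ g : ℕ → ℕ, g = fun i => if i = ρ then m₀ else lb P (w * i + (if i < K then 0 else φ₁)) := ⟨_, rfl⟩
  have hgρ : g ρ = m₀ := by rw [hg]; simp
  have hgn : ∀ i, i ≠ ρ → g i = lb P (p i) := fun i hi => by
    rw [hg, hp]
    simp only [if_neg hi]
  have hlow : ∀ i < ρ, lb P (p i) ≤ m₀ := fun i hi =>
    Nat.lt_succ_iff.1 (lb_lt hP (by omega) ((p4' i hi).trans_le hxP))
  have hhigh : ∀ i, ρ < i → m₀ ≤ lb P (p i) := fun i hi => le_lb hP (by omega) (x1.trans (p5' i hi).le)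
  have hgm : Monotone g := by
    intro i i' hii
    by_cases h5 : i = ρ
    · by_cases h6 : i' = ρ
      · rw [h5, h6]
      · rw [h5, hgρ, hgn i' h6]
        exact hhigh i' (by omega)
    · by_cases h6 : i' = ρ
      · rw [h6, hgρ, hgn i h5]
        exact hlow i (by omega)
      · rw [hgn i h5, hgn i' h6]
        exact lb_mono P (hpm hii)
  obtain ⟨M', b1, b2, b3, b4, -⟩ := exists_mnA M ρ (by omega) (by omega) g hgm
  rw [hgρ] at b2 b4
  rw [← hh] at b3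
  -- a label bound
  have hlab : ∀ q, 1 ≤ q → w * h + φ₁ ≤ P q → M'.lab m₀ < q := by
    intro q hq hKq
    refine b4.trans_lt ?_
    by_cases h7 : M.un.size = ρ
    · rw [h7, hgρ]
      by_contra hcc
      have := hP (not_lt.1 hcc)
      linarith
    · rw [hgn _ h7]
      refine lb_lt hP hq ?_
      rw [hp]
      simp only
      have h8 : (M.un.size : ℝ) + 1 ≤ h := by rw [hhr]
      split_ifs
      · nlinarith
      · nlinarith
  refine ⟨t, m₀, k, M', s, α, ι, ht, t0, t5, hm₀, tm, tm1, hk5, b1, b2, ?_, ?_, ?_, ?_, e3, e4, ?_, ?_, ?_⟩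
  · intro m hm
    rw [b3 m, card_eq_zero, filter_eq_empty_iff]
    intro i _
    by_cases h5 : i = ρ
    · rw [h5, hgρ]
      omega
    · rw [hgn i h5]
      have := lb_le P (p i)
      omega
  · intro m hm
    rcases lt_or_ge (P m) (P (m + 1)) with h5 | h5
    · right
      have h6 := count_region2 (m₀ := m₀) (ρ := ρ) (K := K) (φ₁ := φ₁) hP hP0 hw0 p3 hK (by rw [hΛ]; linarith) hPΛ hP5 h5
      have h7 := hPstep m h5
      have h8 : (M'.fn.num m : ℝ) = (((range h).erase ρ).filter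
          (fun i => (if i = ρ then m₀ else lb P (w * i + (if i < K then 0 else φ₁))) = m)).card := by
        rw [b3 m, hg]
      rw [← h8] at h6
      have h9 : (s m : ℝ) ≤ (cl (w * K) (w * K + φ₁) (P (m + 1)) - cl (w * K) (w * K + φ₁) (P m)) +
          (cl (w * h + φ₁) Λ (P (m + 1)) - cl (w * h + φ₁) Λ (P m)) := by
        rw [hsd m]
        refine Nat.floor_le (add_nonneg (sub_nonneg.2 ?_) (sub_nonneg.2 ?_))
        · exact cl_mono _ _ h5.le
        · exact cl_mono _ _ h5.le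
      linarith
    · left
      have h6 : P (m + 1) = P m := le_antisymm h5 (hP (Nat.le_succ m))
      constructor
      · rw [b3 m, card_eq_zero, filter_eq_empty_iff]
        intro i hi hcc
        rw [mem_erase, mem_range] at hi
        rw [hgn i hi.1] at hcc
        have h7 : (i : ℝ) + 1 ≤ h := by exact_mod_cast hi.2
        have h8 := lb_eq hP (y := p i) (by
          rw [hP0, hp]
          simp only
          split_ifs <;> positivity) (by
          rw [hP5, hΛ, hp]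
          simp only
          split_ifs <;> nlinarith) hcc
        linarith
      · rw [hsd m, h6, sub_self, sub_self, add_zero, Nat.floor_zero]
  · rw [hΛ] at e1
    rw [← hφd]
    linarith
  · have : 0 ≤ σ' * f := by positivity
    rw [hΛ] at e2
    have h5 : φ = f - σ' * f := by rw [hφd]; ring
    linarith
  · have h5 : σ' * au ≤ σ' * f := mul_le_mul_of_nonneg_left (by linarith) hσ'
    have h6 : (1 - σ') * (au : ℝ) = au - σ' * au := by ring
    rw [hy₀] at e5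
    linarith
  · have h5 : σ' * du ≤ σ' * f := mul_le_mul_of_nonneg_left (by linarith) hσ'
    have h6 : (1 - σ') * (du : ℝ) = du - σ' * du := by ring
    rw [hy₀, hΛ] at e6
    linarith
  · rcases e7 with ⟨h5, h6⟩ | ⟨h5, h6⟩
    · have := hlab (k + 1) (by omega) h6
      rcases Nat.lt_succ_iff_lt_or_eq.1 this with h7 | h7
      · exact Or.inl h7
      · exact Or.inr ⟨h7, h5⟩
    · left
      exact (hlab i₀ hi₀ h5).trans_le h6

end AEJ
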