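import Pool.Agent.AEK.Extm

/-!
# Extension of an embedding of the root component, with larger sets of hosts

`G j` is the room for the vertices with label `j` outside the component of the root, `H j ⊇ G j` is the set of possible
hosts of vertices with label `j`.
-/

namespace AEJ

open Finset AE15 AED AELT AEK
open scoped Classical

variable {V : Type*} {R : V → V → Prop}

/-- every vertex of `H i` sees all but `ν` vertices of `G j` in the right direction (`i ≠ j`) -/
def Typ2 (R : V → V → Prop) (ν : ℝ) (H G : ℕ → Finset V) : Prop := ∀ i j, i < j →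
  (∀ x ∈ H i, (((G j).filter (fun v => ¬ R x v)).card : ℝ) ≤ ν) ∧
    ∀ x ∈ H j, (((G i).filter (fun v => ¬ R v x)).card : ℝ) ≤ ν

theorem Typ2.nb {ν : ℝ} {H G : ℕ → Finset V} (hT : Typ2 R ν H G) {e e' : ℕ} (h : e' ≠ e) {d : Bool}
    (hd : if d then e ≤ e' else e' ≤ e) {x : V} (hx : x ∈ H e) :
    ((G e').card : ℝ) - ν ≤ ((nb R d (G e') x).card : ℝ) := by
  have h1 : (((G e').filter (fun v => ¬ Adj R d x v)).card : ℝ) ≤ ν := by
    cases d with
    | true =>
      rw [if_pos rfl] at hd
      exact (hT e e' (by omega)).1 x hx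
    | false =>
      rw [if_neg (by simp)] at hd
      exact (hT e' e (by omega)).2 x hx
  have h2 : ((AELT.nb R d (G e') x).card : ℝ) + (((G e').filter (fun v => ¬ Adj R d x v)).card : ℝ) = (G e').card := by
    exact_mod_cast card_nb_add
  linarith

theorem card_nb_sdiff {d : Bool} {A W : Finset V} {x : V} :
    ((AELT.nb R d A x).card : ℝ) - (W ∩ A).card ≤ ((AELT.nb R d A x \ W).card : ℝ) := by
  have h1 : (AELT.nb R d A x).card ≤ (AELT.nb R d A x \ W).card + (W ∩ A).card := by
    rw [← card_sdiff_add_card_inter (AELT.nb R d A x) W]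
    apply Nat.add_le_add_left
    apply card_le_card
    intro v hv
    rw [mem_inter, mem_nb] at hv
    rw [mem_inter]
    exact ⟨hv.2, hv.1.1⟩
  have : ((AELT.nb R d A x).card : ℝ) ≤ (AELT.nb R d A x \ W).card + (W ∩ A).card := by exact_mod_cast h1
  linarith

theorem card_inter_union_le (A B Q : Finset V) : ((A ∪ B) ∩ Q).card ≤ (A ∩ Q).card + (B ∩ Q).card := by
  rw [union_inter_distrib_right]
  exact card_union_le _ _

/-- the numbers of `off` at a vertex whose label changes -/
theorem off_node {e e' : ℕ} (h : e' ≠ e) (d : Bool) (c s : Fn) (j : ℕ) : (Fn.off e j (.node d e' c s) : ℝ) =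
    (if e' = j then ((c.top e').size : ℝ) + 1 else 0) + c.off e' j + s.off e j := by
  simp only [Fn.off, if_neg h]
  by_cases hj : e' = j
  · subst hj
    have := Fn.size_top e' c
    rw [if_pos rfl, if_pos rfl, ← this]
    push_cast
    ring
  · rw [if_neg hj, if_neg hj, Fn.off_ne (fun h => hj h.symm)]
    push_cast
    ring

theorem extG {b : ℕ} {ρ C ν : ℝ} (hρ : 1 ≤ ρ) (hU : Un R b ρ C) {G H : ℕ → Finset V} {X : Finset V} (hX : ∀ j, G j ⊆ X)
    (hGH : ∀ j, G j ⊆ H j) (hG : ∀ i j, i ≠ j → Disjoint (G i) (G j)) (hT : Typ2 R ν H G) (F : Fn) :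
    ∀ (e : ℕ), F.Ok e → F.un.Deg b →
    ∀ x ∈ H e, ∀ P ⊆ H e, x ∉ P → Emb R (F.top e) x P → ∀ W : Finset V, insert x P ⊆ W →
      (∀ j, F.off e j ≠ 0 → ρ * (F.off e j : ℝ) + C + ν + (W ∩ G j).card ≤ ((G j).card : ℝ)) →
      ∃ Q ⊆ X, Disjoint Q W ∧ Emb R F.un x (P ∪ Q) ∧ ∀ j, (Q ∩ G j).card ≤ F.off e j := by
  have hρ0 : 0 ≤ ρ := by linarith
  induction F with
  | nil =>
    intro e _ _ x _ P _ _ hE W _ _
    have hP : P = ∅ := hE
    subst hP
    exact ⟨∅, by simp, by simp, (by simp : (∅ : Finset V) ∪ ∅ = ∅), by simp⟩
  | node d e' c s ihc ihs =>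
    intro e hV hD x hx P hP hxP hE W hW hc
    obtain ⟨hV1, hV2, hV3⟩ := hV
    obtain ⟨hD1, hD2, hD3⟩ := hD
    by_cases h : e' = e
    · subst h
      simp only [Fn.top, if_true] at hE
      obtain ⟨x1, A, B, h1, h2, h3, h4, h5, h6, h7⟩ := hE
      subst h5
      have hx1 : x1 ∈ H e' := hP (by simp)
      have hA : A ⊆ H e' := fun v hv => hP (by simp [hv])
      have hB : B ⊆ H e' := fun v hv => hP (by simp [hv])
      have hx1W : x1 ∈ W := hW (by simp)
      have hAW : A ⊆ W := fun v hv => hW (by simp [hv])
      have hBW : B ⊆ W := fun v hv => hW (by simp [hv])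
      have hxW : x ∈ W := hW (by simp)
      simp only [Fn.off, if_true] at hc
      have hoc : ∀ j, (0 : ℝ) ≤ ρ * c.off e' j := fun j => by positivity
      have hos : ∀ j, (0 : ℝ) ≤ ρ * s.off e' j := fun j => by positivity
      obtain ⟨Q1, q1, q2, q3, q4⟩ := ihc e' hV2 hD2 x1 hx1 A hA h2 h6 W
        (by intro v hv; rw [mem_insert] at hv; rcases hv with rfl | hv; exacts [hx1W, hAW hv]) (by
          intro j hj
          have := hc j (by omega)
          push_cast at this
          have := hos j
          linarith)
      obtain ⟨Q2, r1, r2, r3, r4⟩ := ihs e' hV3 hD3 x hx B hB (by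
          intro hxB; exact hxP (by simp [hxB])) h7 (W ∪ Q1)
        (by intro v hv; rw [mem_insert] at hv; rcases hv with rfl | hv; exacts [mem_union_left _ hxW, mem_union_left _ (hBW hv)]) (by
          intro j hj
          have e1 := hc j (by omega)
          push_cast at e1
          have e2 : (((W ∪ Q1) ∩ G j).card : ℝ) ≤ (W ∩ G j).card + c.off e' j := by
            have := card_inter_union_le W Q1 (G j)
            exact_mod_cast this.trans (by have := q4 j; omega)
          have e3 : (c.off e' j : ℝ) ≤ ρ * c.off e' j := by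
            have : (0 : ℝ) ≤ c.off e' j := Nat.cast_nonneg _
            nlinarith
          linarith)
      rw [disjoint_union_right] at r2
      refine ⟨Q1 ∪ Q2, union_subset q1 r1, disjoint_union_left.2 ⟨q2, r2.1⟩, ?_, ?_⟩
      · refine ⟨x1, A ∪ Q1, B ∪ Q2, h1, ?_, ?_, ?_, ?_, q3, r3⟩
        · rw [mem_union, not_or]
          exact ⟨h2, fun h => disjoint_left.1 q2 h hx1W⟩
        · rw [mem_union, not_or]
          exact ⟨h3, fun h => disjoint_left.1 r2.1 h hx1W⟩
        · rw [disjoint_union_left, disjoint_union_right, disjoint_union_right]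
          exact ⟨⟨h4, (r2.1.mono_right hAW).symm⟩, ⟨q2.mono_right hBW, r2.2.symm⟩⟩
        · ext v
          simp only [mem_union, mem_insert]
          tauto
      · intro j
        simp only [Fn.off, if_true]
        have := card_inter_union_le Q1 Q2 (G j)
        have := q4 j
        have := r4 j
        omega
    · simp only [Fn.top, if_neg h] at hE
      have hxW : x ∈ W := hW (by simp)
      have hPW : P ⊆ W := fun v hv => hW (by simp [hv])
      -- the off-label tree
      have hnb := hT.nb h hV1 hx
      have hsd := card_nb_sdiff (R := R) (d := d) (A := G e') (W := W) (x := x)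
      have hoffj := off_node h d c s
      have hoffn : ∀ j, Fn.off e j (.node d e' c s) = (if e' = j then 1 else 0) + c.num j + s.off e j := by
        intro j
        simp only [Fn.off, if_neg h]
      have hoffc : ∀ j, c.off e' j ≤ c.num j := by
        intro j
        by_cases hj : e' = j
        · subst hj
          have := Fn.size_top e' c
          omega
        · rw [Fn.off_ne (fun h => hj h.symm)]
      have p1 : ∀ j, (0 : ℝ) ≤ ρ * c.off e' j := fun j => by positivity
      have p2 : ∀ j, (0 : ℝ) ≤ ρ * s.off e j := fun j => by positivity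
      have p3 : (0 : ℝ) ≤ (c.top e').size := Nat.cast_nonneg _
      obtain ⟨x1, hx1, A, hA, hxA, -, hEA⟩ := hU (c.top e') ((Fn.len_top e' c).trans hD1) (Fn.deg_top e' c hD2)
        (AELT.nb R d (G e') x \ W) (by
          have hce := hc e' (by have := hoffn e'; rw [if_pos rfl] at this; omega)
          rw [hoffj, if_pos rfl] at hce
          have := p1 e'
          have := p2 e'
          linarith)
      rw [mem_sdiff, mem_nb] at hx1
      have hAG : A ⊆ G e' := fun v hv => (mem_nb.1 (mem_sdiff.1 (hA hv)).1).1
      have hAW : Disjoint A W := by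
        rw [disjoint_left]
        intro v hv
        exact (mem_sdiff.1 (hA hv)).2
      have hcardA := hEA.card
      have hI : insert x1 A ⊆ G e' := by
        intro v hv
        rw [mem_insert] at hv
        rcases hv with rfl | hv
        exacts [hx1.1.1, hAG hv]
      have hID : Disjoint (insert x1 A) W := by
        rw [disjoint_insert_left]
        exact ⟨hx1.2, hAW⟩
      have hIc : (insert x1 A).card = (c.top e').size + 1 := by
        rw [card_insert_of_notMem hxA, hcardA]
      have hIj : ∀ j, (insert x1 A ∩ G j).card ≤ if e' = j then (c.top e').size + 1 else 0 := by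
        intro j
        split_ifs with hj
        · rw [← hIc]; exact card_le_card inter_subset_left
        · rw [Nat.le_zero, card_eq_zero, ← disjoint_iff_inter_eq_empty]
          exact (hG e' j hj).mono_left hI
      -- the sizes of `W ∪ insert x1 A`
      have hWj : ∀ j, (((W ∪ insert x1 A) ∩ G j).card : ℝ) ≤
          (W ∩ G j).card + (if e' = j then ((c.top e').size : ℝ) + 1 else 0) := by
        intro j
        have h1 := card_inter_union_le W (insert x1 A) (G j)
        have h2 := hIj j
        have h3 : ((W ∪ insert x1 A) ∩ G j).card ≤ (W ∩ G j).card + if e' = j then (c.top e').size + 1 else 0 := by omega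
        have h4 : (((W ∪ insert x1 A) ∩ G j).card : ℝ) ≤
            ((((W ∩ G j).card + if e' = j then (c.top e').size + 1 else 0) : ℕ) : ℝ) := by exact_mod_cast h3
        refine h4.trans (le_of_eq ?_)
        push_cast
        rfl
      obtain ⟨Q1, q1, q2, q3, q4⟩ := ihc e' hV2 hD2 x1 (hGH e' hx1.1.1) A (hAG.trans (hGH e')) hxA hEA (W ∪ insert x1 A)
        subset_union_right (by
        intro j hj0
        have e1 := hc j (by have := hoffn j; have := hoffc j; omega)
        rw [hoffj] at e1
        have e2 := hWj j
        have := p2 j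
        split_ifs at e1 e2 with hj
        · nlinarith
        · linarith)
      have hxG : x ∈ W ∪ insert x1 A ∪ Q1 := by simp [hxW]
      obtain ⟨Q2, r1, r2, r3, r4⟩ := ihs e hV3 hD3 x hx P hP hxP hE (W ∪ insert x1 A ∪ Q1) (by
          intro v hv
          rw [mem_insert] at hv
          rcases hv with rfl | hv
          · exact hxG
          · simp [hPW hv]) (by
        intro j hj0
        have e1 := hc j (by have := hoffn j; omega)
        rw [hoffj] at e1
        have e2 := hWj j
        have e3 : (((W ∪ insert x1 A ∪ Q1) ∩ G j).card : ℝ) ≤ ((W ∪ insert x1 A) ∩ G j).card + c.off e' j := by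
          have := card_inter_union_le (W ∪ insert x1 A) Q1 (G j)
          exact_mod_cast this.trans (by have := q4 j; omega)
        have e4 : (c.off e' j : ℝ) ≤ ρ * c.off e' j := by
          have : (0 : ℝ) ≤ c.off e' j := Nat.cast_nonneg _
          nlinarith
        split_ifs at e1 e2 with hj
        · nlinarith
        · linarith)
      rw [disjoint_union_right] at q2
      rw [disjoint_union_right, disjoint_union_right] at r2
      have hIQ1 : Disjoint (insert x1 A) Q1 := q2.2.symm
      refine ⟨insert x1 A ∪ Q1 ∪ Q2, union_subset (union_subset (hI.trans (hX e')) q1) r1, ?_, ?_, ?_⟩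
      · rw [disjoint_union_left, disjoint_union_left]
        exact ⟨⟨hID, q2.1⟩, r2.1.1⟩
      · refine ⟨x1, A ∪ Q1, P ∪ Q2, hx1.1.2, ?_, ?_, ?_, ?_, q3, r3⟩
        · rw [mem_union, not_or]
          exact ⟨hxA, fun h => disjoint_left.1 hIQ1 (mem_insert_self _ _) h⟩
        · rw [mem_union, not_or]
          exact ⟨fun h => hx1.2 (hPW h), fun h => disjoint_left.1 r2.1.2 h (mem_insert_self _ _)⟩
        · rw [disjoint_union_left, disjoint_union_right, disjoint_union_right]
          refine ⟨⟨hAW.mono_right hPW, ?_⟩, ⟨q2.1.mono_right hPW, r2.2.symm⟩⟩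
          exact (r2.1.2.mono_right (subset_insert _ _)).symm
        · ext v
          simp only [mem_union, mem_insert]
          tauto
      · intro j
        have h1 := card_inter_union_le (insert x1 A ∪ Q1) Q2 (G j)
        have h2 := card_inter_union_le (insert x1 A) Q1 (G j)
        have h2' := hIj j
        have h3 := q4 j
        have h4 := r4 j
        have h5 := hoffn j
        have h6 := Fn.size_top e' c
        by_cases hj : e' = j
        · subst hj
          rw [if_pos rfl] at h2' h5
          omega
        · rw [if_neg hj] at h2' h5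
          rw [Fn.off_ne (fun h => hj h.symm)] at h3
          omega

end AEJ
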