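import Pool.Agent.AEJ.Mark

/-!
# Extension of an embedding of the root component of a forest with a marked vertex

All components outside the component of the root are placed without a root condition, except for the component of the
marked vertex, if it has label `k`: it is placed by the hypothesis `HK`, which controls the host of the marked vertex.
-/

namespace AEJ

open Finset AE15 AED AELT AEK
open scoped Classical

variable {V : Type*} {R : V → V → Prop}

theorem TopM.mem {e : ℕ} {M : Mn} : ∀ {x : V} {P : Finset V} {w : V}, TopM R e M x P w → M.In e → w = x ∨ w ∈ P := by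
  induction M with
  | leaf s => intro x P w h _; exact Or.inl h.2
  | step s d e' t ih =>
    rintro x P w h ⟨he, hI⟩
    simp only [TopM, if_pos he] at h
    obtain ⟨x1, A, B, h1, h2, h3, h4, rfl, h6, h7⟩ := h
    rcases ih h6 hI with rfl | h
    · exact Or.inr (mem_insert_self _ _)
    · exact Or.inr (mem_insert_of_mem (mem_union_left _ h))

theorem EmbM.mk_on {s : Fn} {d : Bool} {e : ℕ} {t : Mn} {x x1 w : V} {A B Q1 Q2 W : Finset V} (h1 : Adj R d x x1)
    (h2 : x1 ∉ A) (h3 : x1 ∉ B) (h4 : Disjoint A B) (hW : insert x (insert x1 (A ∪ B)) ⊆ W) (hQ1 : Disjoint Q1 W)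
    (hQ2 : Disjoint Q2 (W ∪ Q1)) (ht : EmbM R t x1 (A ∪ Q1) w) (hs : Emb R s.un x (B ∪ Q2)) :
    EmbM R (.step s d e t) x (insert x1 (A ∪ B) ∪ (Q1 ∪ Q2)) w := by
  have hx1W : x1 ∈ W := hW (by simp)
  have hAW : A ⊆ W := fun v hv => hW (by simp [hv])
  have hBW : B ⊆ W := fun v hv => hW (by simp [hv])
  rw [disjoint_union_right] at hQ2
  refine ⟨x1, A ∪ Q1, B ∪ Q2, h1, ?_, ?_, ?_, ?_, ht, hs⟩
  · rw [mem_union, not_or]
    exact ⟨h2, fun h => disjoint_left.1 hQ1 h hx1W⟩
  · rw [mem_union, not_or]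
    exact ⟨h3, fun h => disjoint_left.1 hQ2.1 h hx1W⟩
  · rw [disjoint_union_left, disjoint_union_right, disjoint_union_right]
    exact ⟨⟨h4, (hQ2.1.mono_right hAW).symm⟩, ⟨hQ1.mono_right hBW, hQ2.2.symm⟩⟩
  · ext v
    simp only [mem_union, mem_insert]
    tauto

theorem EmbM.mk_off {s : Fn} {d : Bool} {e : ℕ} {t : Mn} {x x1 w : V} {A P Q1 Q2 W : Finset V} (h1 : Adj R d x x1)
    (h2 : x1 ∉ A) (hW : insert x P ⊆ W) (hD : Disjoint (insert x1 A) W) (hQ1 : Disjoint Q1 (W ∪ insert x1 A))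
    (hQ2 : Disjoint Q2 (W ∪ insert x1 A ∪ Q1)) (ht : EmbM R t x1 (A ∪ Q1) w) (hs : Emb R s.un x (P ∪ Q2)) :
    EmbM R (.step s d e t) x (P ∪ (insert x1 A ∪ Q1 ∪ Q2)) w := by
  have hPW : P ⊆ W := fun v hv => hW (by simp [hv])
  rw [disjoint_union_right] at hQ1
  rw [disjoint_union_right, disjoint_union_right] at hQ2
  rw [disjoint_insert_left] at hD
  refine ⟨x1, A ∪ Q1, P ∪ Q2, h1, ?_, ?_, ?_, ?_, ht, hs⟩
  · rw [mem_union, not_or]
    exact ⟨h2, fun h => disjoint_left.1 hQ1.2 h (mem_insert_self _ _)⟩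
  · rw [mem_union, not_or]
    exact ⟨fun h => hD.1 (hPW h), fun h => disjoint_left.1 hQ2.1.2 h (mem_insert_self _ _)⟩
  · rw [disjoint_union_left, disjoint_union_right, disjoint_union_right]
    refine ⟨⟨hD.2.mono_right hPW, ?_⟩, ⟨hQ1.1.mono_right hPW, hQ2.2.symm⟩⟩
    exact (hQ2.1.2.mono_right (subset_insert _ _)).symm
  · ext v
    simp only [mem_union, mem_insert]
    tauto

/-- the numbers when the child is in the same component -/
theorem cap_on {ρ C ν : ℝ} (hρ : 1 ≤ ρ) {G : ℕ → Finset V} {W : Finset V} {e : ℕ} {d : Bool} {c s : Fn}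
    (hc : ∀ j, (Fn.node d e c s).off e j ≠ 0 →
      ρ * ((Fn.node d e c s).off e j : ℝ) + C + ν + (W ∩ G j).card ≤ ((G j).card : ℝ)) :
    (∀ j, c.off e j ≠ 0 → ρ * (c.off e j : ℝ) + C + ν + (W ∩ G j).card ≤ ((G j).card : ℝ)) ∧
      ∀ Q1 : Finset V, (∀ j, (Q1 ∩ G j).card ≤ c.off e j) →
        ∀ j, s.off e j ≠ 0 → ρ * (s.off e j : ℝ) + C + ν + ((W ∪ Q1) ∩ G j).card ≤ ((G j).card : ℝ) := by
  simp only [Fn.off, if_true] at hc
  have hρ0 : 0 ≤ ρ := by linarith
  have hoc : ∀ j, (0 : ℝ) ≤ ρ * c.off e j := fun j => by positivity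
  have hos : ∀ j, (0 : ℝ) ≤ ρ * s.off e j := fun j => by positivity
  refine ⟨fun j hj => ?_, fun Q1 q4 j hj => ?_⟩
  · have := hc j (by omega)
    push_cast at this
    have := hos j
    linarith
  · have e1 := hc j (by omega)
    push_cast at e1
    have e2 : (((W ∪ Q1) ∩ G j).card : ℝ) ≤ (W ∩ G j).card + c.off e j := by
      have := card_inter_union_le W Q1 (G j)
      exact_mod_cast this.trans (by have := q4 j; omega)
    have e3 : (c.off e j : ℝ) ≤ ρ * c.off e j := by
      have : (0 : ℝ) ≤ c.off e j := Nat.cast_nonneg _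
      nlinarith
    linarith

/-- the numbers when the child is in another component -/
theorem cap_off {ρ C ν : ℝ} (hρ : 1 ≤ ρ) {G : ℕ → Finset V} {W D : Finset V} {e e' : ℕ} (h : e' ≠ e) {d : Bool} {c s : Fn}
    (hc : ∀ j, (Fn.node d e' c s).off e j ≠ 0 →
      ρ * ((Fn.node d e' c s).off e j : ℝ) + C + ν + (W ∩ G j).card ≤ ((G j).card : ℝ))
    (hDj : ∀ j, (D ∩ G j).card ≤ if e' = j then (c.top e').size + 1 else 0) :
    (ρ * (((c.top e').size : ℝ) + 1) + C + ν + (W ∩ G e').card ≤ ((G e').card : ℝ)) ∧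
    (∀ j, c.off e' j ≠ 0 → ρ * (c.off e' j : ℝ) + C + ν + ((W ∪ D) ∩ G j).card ≤ ((G j).card : ℝ)) ∧
      ∀ Q1 : Finset V, (∀ j, (Q1 ∩ G j).card ≤ c.off e' j) →
        (∀ j, s.off e j ≠ 0 → ρ * (s.off e j : ℝ) + C + ν + ((W ∪ D ∪ Q1) ∩ G j).card ≤ ((G j).card : ℝ)) ∧
          ∀ Q2 : Finset V, (∀ j, (Q2 ∩ G j).card ≤ s.off e j) →
            ∀ j, ((D ∪ Q1 ∪ Q2) ∩ G j).card ≤ (Fn.node d e' c s).off e j := by
  have hρ0 : 0 ≤ ρ := by linarith
  have hoffj := off_node h d c s
  have hoffn : ∀ j, Fn.off e j (.node d e' c s) = (if e' = j then 1 else 0) + c.num j + s.off e j := by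
    intro j
    simp only [Fn.off, if_neg h]
  have hoffc : ∀ j, c.off e' j ≤ c.num j := by
    intro j
    by_cases hj : e' = j
    · subst hj
      have := Fn.size_top e' c
      omega
    · rw [Fn.off_ne (fun h => hj h.symm)]
  have p1 : ∀ j, (0 : ℝ) ≤ ρ * c.off e' j := fun j => by positivity
  have p2 : ∀ j, (0 : ℝ) ≤ ρ * s.off e j := fun j => by positivity
  have hWj : ∀ j, (((W ∪ D) ∩ G j).card : ℝ) ≤
      (W ∩ G j).card + (if e' = j then ((c.top e').size : ℝ) + 1 else 0) := by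
    intro j
    have h1 := card_inter_union_le W D (G j)
    have h2 := hDj j
    have h3 : ((W ∪ D) ∩ G j).card ≤ (W ∩ G j).card + if e' = j then (c.top e').size + 1 else 0 := by omega
    have h4 : (((W ∪ D) ∩ G j).card : ℝ) ≤
        ((((W ∩ G j).card + if e' = j then (c.top e').size + 1 else 0) : ℕ) : ℝ) := by exact_mod_cast h3
    refine h4.trans (le_of_eq ?_)
    push_cast
    rfl
  have p3 : (0 : ℝ) ≤ (c.top e').size := Nat.cast_nonneg _
  refine ⟨?_, fun j hj0 => ?_, fun Q1 q4 => ⟨fun j hj0 => ?_, fun Q2 r4 j => ?_⟩⟩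
  · have hce := hc e' (by have := hoffn e'; rw [if_pos rfl] at this; omega)
    rw [hoffj, if_pos rfl] at hce
    have := p1 e'
    have := p2 e'
    linarith
  · have e1 := hc j (by have := hoffn j; have := hoffc j; omega)
    rw [hoffj] at e1
    have e2 := hWj j
    have := p2 j
    split_ifs at e1 e2 with hj
    · nlinarith
    · linarith
  · have e1 := hc j (by have := hoffn j; omega)
    rw [hoffj] at e1
    have e2 := hWj j
    have e3 : (((W ∪ D ∪ Q1) ∩ G j).card : ℝ) ≤ ((W ∪ D) ∩ G j).card + c.off e' j := by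
      have := card_inter_union_le (W ∪ D) Q1 (G j)
      exact_mod_cast this.trans (by have := q4 j; omega)
    have e4 : (c.off e' j : ℝ) ≤ ρ * c.off e' j := by
      have : (0 : ℝ) ≤ c.off e' j := Nat.cast_nonneg _
      nlinarith
    split_ifs at e1 e2 with hj
    · nlinarith
    · linarith
  · have h1 := card_inter_union_le (D ∪ Q1) Q2 (G j)
    have h2 := card_inter_union_le D Q1 (G j)
    have h2' := hDj j
    have h3 := q4 j
    have h4 := r4 j
    have h5 := hoffn j
    have h6 := Fn.size_top e' c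
    by_cases hj : e' = j
    · subst hj
      rw [if_pos rfl] at h2' h5
      omega
    · rw [if_neg hj] at h2' h5
      rw [Fn.off_ne (fun h => hj h.symm)] at h3
      omega

/-- the mark is in the component of the root -/
theorem extM1 {b : ℕ} {ρ C ν : ℝ} (hρ : 1 ≤ ρ) (hU : Un R b ρ C) {G H : ℕ → Finset V} {X : Finset V} (hX : ∀ j, G j ⊆ X)
    (hGH : ∀ j, G j ⊆ H j) (hG : ∀ i j, i ≠ j → Disjoint (G i) (G j)) (hT : Typ2 R ν H G) (M : Mn) :
    ∀ (e : ℕ), M.fn.Ok e → M.un.Deg b → M.In e →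
    ∀ x ∈ H e, ∀ P ⊆ H e, x ∉ P → ∀ w, TopM R e M x P w → ∀ W : Finset V, insert x P ⊆ W →
      (∀ j, M.fn.off e j ≠ 0 → ρ * (M.fn.off e j : ℝ) + C + ν + (W ∩ G j).card ≤ ((G j).card : ℝ)) →
      ∃ Q ⊆ X, Disjoint Q W ∧ EmbM R M x (P ∪ Q) w ∧ ∀ j, (Q ∩ G j).card ≤ M.fn.off e j := by
  induction M with
  | leaf s =>
    intro e hO hD _ x hx P hP hxP w hE W hW hc
    obtain ⟨Q, q1, q2, q3, q4⟩ := extG hρ hU hX hGH hG hT s e hO hD x hx P hP hxP hE.1 W hW hc
    exact ⟨Q, q1, q2, ⟨q3, hE.2⟩, q4⟩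
  | step s d e' t ih =>
    intro e hO hD hI x hx P hP hxP w hE W hW hc
    obtain ⟨h, hI⟩ := hI
    subst h
    obtain ⟨hV1, hV2, hV3⟩ := hO
    obtain ⟨hD1, hD2, hD3⟩ := hD
    simp only [TopM, if_true] at hE
    obtain ⟨x1, A, B, h1, h2, h3, h4, h5, h6, h7⟩ := hE
    subst h5
    have hx1 : x1 ∈ H e' := hP (by simp)
    have hA : A ⊆ H e' := fun v hv => hP (by simp [hv])
    have hB : B ⊆ H e' := fun v hv => hP (by simp [hv])
    have hx1W : x1 ∈ W := hW (by simp)
    have hAW : A ⊆ W := fun v hv => hW (by simp [hv])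
    have hBW : B ⊆ W := fun v hv => hW (by simp [hv])
    have hxW : x ∈ W := hW (by simp)
    obtain ⟨c1, c2⟩ := cap_on hρ hc
    obtain ⟨Q1, q1, q2, q3, q4⟩ := ih e' hV2 hD2 hI x1 hx1 A hA h2 w h6 W
      (by intro v hv; rw [mem_insert] at hv; rcases hv with rfl | hv; exacts [hx1W, hAW hv]) c1
    obtain ⟨Q2, r1, r2, r3, r4⟩ := extG hρ hU hX hGH hG hT s e' hV3 hD3 x hx B hB (by
        intro hxB; exact hxP (by simp [hxB])) h7 (W ∪ Q1)
      (by intro v hv; rw [mem_insert] at hv; rcases hv with rfl | hv; exacts [mem_union_left _ hxW, mem_union_left _ (hBW hv)])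
      (c2 Q1 q4)
    refine ⟨Q1 ∪ Q2, union_subset q1 r1, ?_, EmbM.mk_on h1 h2 h3 h4 hW q2 r2 q3 r3, ?_⟩
    · rw [disjoint_union_right] at r2
      exact disjoint_union_left.2 ⟨q2, r2.1⟩
    · intro j
      simp only [Mn.fn, Fn.off, if_true]
      have := card_inter_union_le Q1 Q2 (G j)
      have := q4 j
      have := r4 j
      omega

/-- **the mark is not in the component of the root** -/
theorem extM2 {b B : ℕ} {ρ C ν : ℝ} (hρ : 1 ≤ ρ) (hU : Un R b ρ C) {G H : ℕ → Finset V} {GG X X' W₀ : Finset V}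
    (hX : ∀ j, G j ⊆ GG) (hXX : GG ⊆ X) (hXX' : X ⊆ X')
    (hGH : ∀ j, G j ⊆ H j) (hHG : ∀ i j, i ≠ j → Disjoint (H i) (G j)) (hT : Typ2 R ν H G) {k : ℕ} {N : V → Prop}
    (HK : ∀ (t : Mn) (d : Bool) (e : ℕ) (x : V), x ∈ H e → e ≠ k → (if d then e ≤ k else k ≤ e) → t.In k →
      t.un.len ≤ b → t.un.Deg b → ∀ W ⊆ W₀ ∪ GG,
      ρ * (((t.fn.top k).size : ℝ) + 1) + C + ν + (W ∩ G k).card ≤ ((G k).card : ℝ) →
      ∃ (x1 : V) (A : Finset V) (w : V), Adj R d x x1 ∧ x1 ∉ A ∧ insert x1 A ⊆ H k ∧ insert x1 A ⊆ X' ∧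
        Disjoint (insert x1 A) W ∧ (insert x1 A \ X).card ≤ B ∧ TopM R k t x1 A w ∧ N w) (M : Mn) :
    ∀ (e : ℕ), M.fn.Ok e → M.un.Deg b → ¬ M.In e →
    ∀ x ∈ H e, ∀ P ⊆ H e, x ∉ P → Emb R (M.fn.top e) x P → ∀ W : Finset V, insert x P ⊆ W → W ⊆ W₀ ∪ GG →
      (∀ j, M.fn.off e j ≠ 0 → ρ * (M.fn.off e j : ℝ) + C + ν + (W ∩ G j).card ≤ ((G j).card : ℝ)) →
      ∃ (Q : Finset V) (w : V), Q ⊆ X' ∧ (Q \ X).card ≤ B ∧ Disjoint Q W ∧ EmbM R M x (P ∪ Q) w ∧ w ∈ H (M.lab e) ∧
        (M.lab e = k → N w) ∧ ∀ j, (Q ∩ G j).card ≤ M.fn.off e j := by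
  have hG : ∀ i j, i ≠ j → Disjoint (G i) (G j) := fun i j hij => (hHG i j hij).mono_left (hGH i)
  have hX' : ∀ j, G j ⊆ X := fun j => (hX j).trans hXX
  induction M with
  | leaf s =>
    intro e _ _ hI
    exact absurd trivial hI
  | step s d e' t ih =>
    intro e hO hD hI x hx P hP hxP hE W hW hW0 hc
    obtain ⟨hV1, hV2, hV3⟩ := hO
    obtain ⟨hD1, hD2, hD3⟩ := hD
    by_cases h : e' = e
    · subst h
      have hI' : ¬ t.In e' := fun h => hI ⟨rfl, h⟩
      simp only [Mn.fn, Fn.top, if_true] at hE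
      obtain ⟨x1, A, B', h1, h2, h3, h4, h5, h6, h7⟩ := hE
      subst h5
      have hx1 : x1 ∈ H e' := hP (by simp)
      have hA : A ⊆ H e' := fun v hv => hP (by simp [hv])
      have hB : B' ⊆ H e' := fun v hv => hP (by simp [hv])
      have hx1W : x1 ∈ W := hW (by simp)
      have hAW : A ⊆ W := fun v hv => hW (by simp [hv])
      have hBW : B' ⊆ W := fun v hv => hW (by simp [hv])
      have hxW : x ∈ W := hW (by simp)
      obtain ⟨c1, c2⟩ := cap_on hρ hc
      obtain ⟨Q1, w, q0, q1, q2, q3, q5, q6, q4⟩ := ih e' hV2 hD2 hI' x1 hx1 A hA h2 h6 W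
        (by intro v hv; rw [mem_insert] at hv; rcases hv with rfl | hv; exacts [hx1W, hAW hv]) hW0 c1
      obtain ⟨Q2, r1, r2, r3, r4⟩ := extG hρ hU hX' hGH hG hT s e' hV3 hD3 x hx B' hB (by
          intro hxB; exact hxP (by simp [hxB])) h7 (W ∪ Q1)
        (by intro v hv; rw [mem_insert] at hv; rcases hv with rfl | hv; exacts [mem_union_left _ hxW, mem_union_left _ (hBW hv)])
        (c2 Q1 q4)
      refine ⟨Q1 ∪ Q2, w, union_subset q0 (r1.trans hXX'), ?_, ?_, EmbM.mk_on h1 h2 h3 h4 hW q2 r2 q3 r3, q5, q6, ?_⟩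
      · refine (card_le_card ?_).trans q1
        intro v hv
        rw [mem_sdiff, mem_union] at hv
        rw [mem_sdiff]
        rcases hv.1 with h | h
        · exact ⟨h, hv.2⟩
        · exact absurd (r1 h) hv.2
      · rw [disjoint_union_right] at r2
        exact disjoint_union_left.2 ⟨q2, r2.1⟩
      · intro j
        simp only [Mn.fn, Fn.off, if_true]
        have := card_inter_union_le Q1 Q2 (G j)
        have := q4 j
        have := r4 j
        omega
    · simp only [Mn.fn, Fn.top, if_neg h] at hE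
      have hxW : x ∈ W := hW (by simp)
      have hPW : P ⊆ W := fun v hv => hW (by simp [hv])
      -- the rest of the construction, the component of the child being placed
      have key : ∀ (x1 : V) (A : Finset V), Adj R d x x1 → x1 ∉ A → insert x1 A ⊆ H e' → insert x1 A ⊆ X' →
          Disjoint (insert x1 A) W → (insert x1 A \ X).card ≤ B → Emb R (t.fn.top e') x1 A →
          (∀ Z : Finset V, insert x1 A ⊆ Z → W ⊆ Z → Z ⊆ W ∪ insert x1 A →
            (∀ j, t.fn.off e' j ≠ 0 → ρ * (t.fn.off e' j : ℝ) + C + ν + (Z ∩ G j).card ≤ ((G j).card : ℝ)) →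
            ∃ (Q : Finset V) (w : V), Q ⊆ X' ∧ (Q \ X).card ≤ B - (insert x1 A \ X).card ∧ Disjoint Q Z ∧
              EmbM R t x1 (A ∪ Q) w ∧ w ∈ H (t.lab e') ∧ (t.lab e' = k → N w) ∧
              ∀ j, (Q ∩ G j).card ≤ t.fn.off e' j) →
          ∃ (Q : Finset V) (w : V), Q ⊆ X' ∧ (Q \ X).card ≤ B ∧ Disjoint Q W ∧ EmbM R (.step s d e' t) x (P ∪ Q) w ∧
            w ∈ H ((Mn.step s d e' t).lab e) ∧ ((Mn.step s d e' t).lab e = k → N w) ∧
            ∀ j, (Q ∩ G j).card ≤ (Mn.step s d e' t).fn.off e j := by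
        intro x1 A hadj hxA hAH hAX' hAW hAX hEA hrec
        have hIc : (insert x1 A).card = (t.fn.top e').size + 1 := by
          rw [card_insert_of_notMem hxA, hEA.card]
        have hIj : ∀ j, (insert x1 A ∩ G j).card ≤ if e' = j then (t.fn.top e').size + 1 else 0 := by
          intro j
          split_ifs with hj
          · rw [← hIc]; exact card_le_card inter_subset_left
          · rw [Nat.le_zero, card_eq_zero, ← disjoint_iff_inter_eq_empty]
            exact (hHG e' j hj).mono_left hAH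
        obtain ⟨-, c1, c2⟩ := cap_off hρ h hc hIj
        obtain ⟨Q1, w, q0, q1, q2, q3, q5, q6, q4⟩ := hrec (W ∪ insert x1 A) subset_union_right subset_union_left
          (Subset.refl _) c1
        obtain ⟨c3, c4⟩ := c2 Q1 q4
        obtain ⟨Q2, r1, r2, r3, r4⟩ := extG hρ hU hX' hGH hG hT s e hV3 hD3 x hx P hP hxP hE (W ∪ insert x1 A ∪ Q1) (by
          intro v hv
          have := hW hv
          simp [this]) c3
        refine ⟨insert x1 A ∪ Q1 ∪ Q2, w, union_subset (union_subset hAX' q0) (r1.trans hXX'), ?_, ?_,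
          EmbM.mk_off hadj hxA hW hAW q2 r2 q3 r3, q5, q6, c4 Q2 r4⟩
        · have h1 : (insert x1 A ∪ Q1 ∪ Q2) \ X ⊆ (insert x1 A \ X) ∪ (Q1 \ X) := by
            intro v hv
            rw [mem_sdiff, mem_union, mem_union] at hv
            rw [mem_union, mem_sdiff, mem_sdiff]
            rcases hv.1 with (h | h) | h
            · exact Or.inl ⟨h, hv.2⟩
            · exact Or.inr ⟨h, hv.2⟩
            · exact absurd (r1 h) hv.2
          have h2 := (card_le_card h1).trans (card_union_le _ _)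
          omega
        · rw [disjoint_union_right] at q2
          rw [disjoint_union_right, disjoint_union_right] at r2
          rw [disjoint_union_left, disjoint_union_left]
          exact ⟨⟨hAW, q2.1⟩, r2.1.1⟩
      by_cases hk : e' = k ∧ t.In e'
      · -- the special component
        obtain ⟨rfl, hIk⟩ := hk
        obtain ⟨x1, A, w, a1, a2, a3, a3', a4, a5, a6, a7⟩ := HK t d e x hx (fun h' => h h'.symm) hV1 hIk hD1 hD2 W hW0
          (cap_off (D := ∅) hρ h hc (by simp)).1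
        refine key x1 A a1 a2 a3 a3' a4 a5 a6.emb ?_
        intro Z hZ1 _ _ hZ
        obtain ⟨Q, q1, q2, q3, q4⟩ := extM1 hρ hU hX' hGH hG hT t e' hV2 hD2 hIk x1 (a3 (mem_insert_self _ _)) A
          ((subset_insert _ _).trans a3) a2 w a6 Z hZ1 hZ
        refine ⟨Q, w, q1.trans hXX', ?_, q2, q3, ?_, fun _ => a7, q4⟩
        · rw [sdiff_eq_empty_iff_subset.2 q1]
          simp
        · rw [Mn.lab_of_in hIk]
          rcases a6.mem hIk with rfl | hw
          · exact a3 (mem_insert_self _ _)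
          · exact a3 (mem_insert_of_mem hw)
      · -- an ordinary component
        have hnb := hT.nb h hV1 hx
        have hsd := card_nb_sdiff (R := R) (d := d) (A := G e') (W := W) (x := x)
        have hcap := (cap_off (D := ∅) hρ h hc (by simp)).1
        obtain ⟨x1, hx1, A, hA, hxA, -, hEA⟩ := hU (t.fn.top e') ((Fn.len_top e' t.fn).trans hD1)
          (Fn.deg_top e' t.fn hD2) (AELT.nb R d (G e') x \ W) (by linarith)
        rw [mem_sdiff, mem_nb] at hx1
        have hAG : A ⊆ G e' := fun v hv => (mem_nb.1 (mem_sdiff.1 (hA hv)).1).1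
        have hAW : Disjoint A W := by
          rw [disjoint_left]
          intro v hv
          exact (mem_sdiff.1 (hA hv)).2
        have hI' : insert x1 A ⊆ G e' := by
          intro v hv
          rw [mem_insert] at hv
          rcases hv with rfl | hv
          exacts [hx1.1.1, hAG hv]
        have hIX : insert x1 A \ X = ∅ := sdiff_eq_empty_iff_subset.2 (hI'.trans (hX' e'))
        refine key x1 A hx1.1.2 hxA (hI'.trans (hGH e')) (hI'.trans ((hX' e').trans hXX')) ?_ (by rw [hIX]; simp) hEA ?_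
        · rw [disjoint_insert_left]
          exact ⟨hx1.2, hAW⟩
        intro Z hZ1 hZ2 hZ3 hZ
        rw [hIX, card_empty, Nat.sub_zero]
        by_cases hIe : t.In e'
        · obtain ⟨w, hw, hwT⟩ := exists_topM e' t hEA
          obtain ⟨Q, q1, q2, q3, q4⟩ := extM1 hρ hU hX' hGH hG hT t e' hV2 hD2 hIe x1 (hGH e' hx1.1.1) A
            (hAG.trans (hGH e')) hxA w hwT Z hZ1 hZ
          refine ⟨Q, w, q1.trans hXX', ?_, q2, q3, ?_, ?_, q4⟩
          · rw [sdiff_eq_empty_iff_subset.2 q1]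
            simp
          · rw [Mn.lab_of_in hIe]
            rcases hw with rfl | hw
            · exact hGH e' hx1.1.1
            · exact hGH e' (hAG hw)
          · rw [Mn.lab_of_in hIe]
            intro h'
            exact absurd ⟨h', hIe⟩ hk
        · obtain ⟨Q, w, q0, q1, q2, q3, q5, q6, q4⟩ := ih e' hV2 hD2 hIe x1 (hGH e' hx1.1.1) A (hAG.trans (hGH e')) hxA hEA Z hZ1
            (hZ3.trans (union_subset hW0 ((hI'.trans (hX e')).trans subset_union_right))) hZ
          exact ⟨Q, w, q0, q1, q2, q3, q5, q6, q4⟩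

end AEJ
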