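import Pool.Agent.AEJ.Window

/-!
# The last step of a jump
-/

namespace AEJ

open Finset AE15 AED AELT AEK LTT
open scoped Classical

/-- from the embedding of the tree without the final branch to the whole tree -/
theorem jump_fin {V : Type} {R : V → V → Prop} (hT : AE32.Tour R) {X Z : Finset V} {β : V → ℕ} {t : ℕ → ℕ}
    (ht : Monotone t) {ν κ' ε' β' C : ℝ} {M : Mn} {F : Fd} {k m₀ a ι : ℕ} {z w : V} {N : V → Prop}
    {S : ℕ → Finset V} {π : V → ℕ} {A : Finset V} {s : ℕ → ℕ} (hZX : Z ⊆ X)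
    (hS : ∀ m, S m ⊆ seg Z β (t m) (t (m + 1))) (hSc : ∀ m, (S m).card = s m) (hπ : AEM.MedO R (S k) π) (hzA : z ∉ A)
    (hzX : z ∈ X) (hAX : A ⊆ X) (hE : EmbM R M z A w) (hdis : ∀ m, m ≠ k → Disjoint (insert z A) (S m))
    (hm₀ : (insert z A ∩ S k).card ≤ m₀)
    (h1 : ∀ x ∈ Z, ((Z.filter (fun v => β x < β v ∧ ¬ R x v)).card : ℝ) ≤ ν)
    (h2 : ∀ x ∈ Z, ((Z.filter (fun v => β v < β x ∧ ¬ R v x)).card : ℝ) ≤ ν)
    (hw : (ι : ℝ) / 3 ≤ ((nO R ((S k).filter (fun v => a ≤ π v ∧ π v < a + ι)) w).card : ℝ)) {x' : ℝ}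
    (hx' : x' = X.card - (M.un.size + 1)) (hκ : 0 ≤ κ')
    (hD : ((dcl F : ℝ) + 1) + ε' * x' ≤ ∑ m ∈ Ico (k + 1) 5, (s m : ℝ) + ((s k : ℝ) - (a + ι)) - 9 * m₀ - 8 * κ' * x' - ν)
    (hA : ((AEB.blk F : ℝ) + 1) + ε' * x' ≤ ∑ m ∈ range k, (s m : ℝ) + (a : ℝ) - 9 * m₀ - 8 * κ' * x' - ν)
    (hβ : β' * x' ≤ (ι : ℝ) / 3 - m₀) (hX' : ((F.size : ℝ) + 1) + C ≤ x') (hco : Coarse κ' ε' β' C F) (hN : N z) :
    In R (M.plug (true, F)) N X := by
  have hAc := hE.emb.card
  obtain ⟨X', hXd⟩ : ∃ X', X' = X \ insert z A := ⟨_, rfl⟩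
  have hIns : insert z A ⊆ X := by
    intro v hv
    rw [mem_insert] at hv
    rcases hv with rfl | hv
    exacts [hzX, hAX hv]
  have hX'X : X' ⊆ X := by rw [hXd]; exact sdiff_subset
  have hX'd : Disjoint X' (insert z A) := by rw [hXd]; exact sdiff_disjoint
  have hXc : (X'.card : ℝ) = x' := by
    rw [hx', hXd, card_sdiff_of_subset hIns, card_insert_of_notMem hzA, hAc]
    have h3 : M.un.size + 1 ≤ X.card := by
      rw [← hAc, ← card_insert_of_notMem hzA]
      exact card_le_card hIns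
    push_cast [Nat.cast_sub h3]
    ring
  obtain ⟨Sv, hSv⟩ : ∃ Sv, Sv = S k \ insert z A := ⟨_, rfl⟩
  have hSG : ∀ m, S m ⊆ Z := fun m v hv => (mem_seg.1 (hS m hv)).1
  have hSdis : ∀ i j, i ≠ j → Disjoint (S i) (S j) := fun i j hij => (seg_disjoint ht i j hij).mono (hS i) (hS j)
  have hSvS : Sv ⊆ S k := by rw [hSv]; exact sdiff_subset
  have hSvX : Sv ⊆ X' := by
    rw [hSv, hXd]
    exact sdiff_subset_sdiff ((hSG k).trans hZX) le_rfl
  have hm1 : (S k \ Sv).card ≤ m₀ := by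
    refine (card_le_card ?_).trans hm₀
    intro v hv
    rw [mem_sdiff, hSv, mem_sdiff, not_and, not_not] at hv
    rw [mem_inter]
    exact ⟨hv.2 hv.1, hv.1⟩
  -- the shares on the two sides
  have hTX : ∀ J : Finset ℕ, k ∉ J → J.biUnion S ⊆ X' := by
    intro J hJ v hv
    obtain ⟨m, hm, hv⟩ := mem_biUnion.1 hv
    rw [hXd, mem_sdiff]
    have hmk : m ≠ k := fun h => hJ (h ▸ hm)
    exact ⟨hZX (hSG m hv), fun h => disjoint_left.1 (hdis m hmk) h hv⟩
  have hTd : ∀ J : Finset ℕ, k ∉ J → Disjoint Sv (J.biUnion S) := by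
    intro J hJ
    rw [disjoint_left]
    intro v hv hv'
    obtain ⟨m, hm, hv'⟩ := mem_biUnion.1 hv'
    have hmk : m ≠ k := fun h => hJ (h ▸ hm)
    exact disjoint_left.1 (hSdis m k hmk) hv' (hSvS hv)
  have hk1 : k ∉ Ico (k + 1) 5 := by simp
  have hk2 : k ∉ range k := by simp
  -- the candidates
  obtain ⟨I', hI'⟩ : ∃ I', I' = nO R ((S k).filter (fun v => a ≤ π v ∧ π v < a + ι)) w \ insert z A := ⟨_, rfl⟩
  have hI'c : (ι : ℝ) / 3 - m₀ ≤ I'.card := by
    have h3 : (nO R ((S k).filter (fun v => a ≤ π v ∧ π v < a + ι)) w).card ≤ I'.card + (insert z A ∩ S k).card := by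
      rw [hI', ← card_sdiff_add_card_inter (nO R ((S k).filter (fun v => a ≤ π v ∧ π v < a + ι)) w) (insert z A)]
      apply Nat.add_le_add_left
      apply card_le_card
      intro v hv
      rw [mem_inter, mem_nO, mem_filter] at hv
      rw [mem_inter]
      exact ⟨hv.2, hv.1.1.1⟩
    have h4 : ((nO R ((S k).filter (fun v => a ≤ π v ∧ π v < a + ι)) w).card : ℝ) ≤ I'.card + m₀ := by
      exact_mod_cast h3.trans (Nat.add_le_add_left hm₀ _)
    linarith
  have hadm : I' ⊆ Adm R κ' ε' F X' (fun v => R w v) := by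
    intro v hv
    rw [hI', mem_sdiff, mem_nO, mem_filter] at hv
    obtain ⟨⟨⟨hvS, hva, hvι⟩, hwv⟩, hvA⟩ := hv
    have hvSv : v ∈ Sv := by rw [hSv, mem_sdiff]; exact ⟨hvS, hvA⟩
    have hvs := mem_seg.1 (hS k hvS)
    have hW := window_adm hT hπ (κ := κ') (ε := ε') (ν := ν) (m := m₀) (a := a) (ι := ι) (X' := X') (Q := S k) (Sv := Sv)
      (T₁ := (Ico (k + 1) 5).biUnion S) (T₂ := (range k).biUnion S) (D := (dcl F : ℝ) + 1) (A := (AEB.blk F : ℝ) + 1)
      hκ hSvS hm1 hSvX (hTX _ hk1) (hTX _ hk2) (hTd _ hk1) (hTd _ hk2) hvSv hva hvι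
      (by
        refine le_trans ?_ (h1 v hvs.1)
        exact_mod_cast card_le_card (fun u hu => by
          rw [mem_filter, mem_biUnion] at hu
          obtain ⟨⟨m, hm, hum⟩, hu2⟩ := hu
          rw [mem_Ico] at hm
          have h3 := mem_seg.1 (hS m hum)
          have h4 := ht hm.1
          rw [mem_filter]
          exact ⟨h3.1, by omega, hu2⟩))
      (by
        refine le_trans ?_ (h2 v hvs.1)
        exact_mod_cast card_le_card (fun u hu => by
          rw [mem_filter, mem_biUnion] at hu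
          obtain ⟨⟨m, hm, hum⟩, hu2⟩ := hu
          rw [mem_range] at hm
          have h3 := mem_seg.1 (hS m hum)
          have h4 := ht (show m + 1 ≤ k from hm)
          rw [mem_filter]
          exact ⟨h3.1, by omega, hu2⟩))
      (by rw [card_shares hSc hSdis, hSc, hXc]; exact hD)
      (by rw [card_shares hSc hSdis, hXc]; exact hA)
    unfold Adm
    rw [mem_filter]
    exact ⟨hSvX hvSv, hwv, hW.1, hW.2⟩
  -- the final branch
  obtain ⟨v, hv, B, hB, hvB, hwv, hEB⟩ := hco hT X' (fun v => R w v) (by rw [hXc]; exact hX') (by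
    rw [hXc]
    have h3 : (I'.card : ℝ) ≤ (Adm R κ' ε' F X' (fun v => R w v)).card := by exact_mod_cast card_le_card hadm
    linarith)
  have hvBX : insert v B ⊆ X' := by
    intro u hu
    rw [mem_insert] at hu
    rcases hu with rfl | hu
    exacts [hv, hB hu]
  have hdis2 : Disjoint (insert v B) (insert z A) := hX'd.mono_left hvBX
  have hplug := hE.plug (p := (true, F)) hzA (S' := insert v B) hdis2 ⟨insert v B, ∅, by simp, by simp, ⟨v, B, by
    simpa [Adj] using hwv, hvB, rfl, hEB⟩, rfl⟩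
  refine ⟨z, hzX, A ∪ insert v B, union_subset hAX (hvBX.trans hX'X), ?_, hN, hplug⟩
  rw [mem_union, not_or]
  exact ⟨hzA, fun h => disjoint_left.1 hdis2 h (mem_insert_self _ _)⟩

end AEJ
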