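import Pool.Agent.AEJ.GlueJ
import Pool.Agent.AEJ.Closure
import Pool.Agent.AEX.Final33

/-!
# One turn per scale: the final statement
-/

namespace AEJ

open Finset AE15 AED AELT AEK
open scoped Classical

/-- one change per factor `K` gives `r` changes per factor `K ^ r` -/
theorem many_of_one {s : ℕ → ℕ} {K m : ℕ} {chg : ℕ → Prop} (hs : ∀ i, 1 ≤ s i)
    (h : ∀ i ≤ m, K < s i → ∃ t j, i < t ∧ t < j ∧ j ≤ m ∧ s i ≤ K * s j ∧ chg t) (r : ℕ) :
    ∀ i ≤ m, s i ≤ K ^ (r + 1) ∨ ∃ j, i < j ∧ j ≤ m ∧ s i ≤ K ^ (r + 1) * s j ∧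
      ∃ S : Finset ℕ, r + 1 ≤ S.card ∧ ∀ t ∈ S, i < t ∧ t < j ∧ chg t := by
  induction r with
  | zero =>
    intro i hi
    by_cases h1 : K < s i
    · obtain ⟨t, j, e1, e2, e3, e4, e5⟩ := h i hi h1
      refine Or.inr ⟨j, e1.trans e2, e3, by simpa using e4, {t}, by simp, ?_⟩
      intro u hu
      rw [mem_singleton] at hu
      subst hu
      exact ⟨e1, e2, e5⟩
    · left
      simpa using not_lt.1 h1
  | succ r ih =>
    intro i hi
    by_cases h1 : K < s i
    · obtain ⟨t, j, e1, e2, e3, e4, e5⟩ := h i hi h1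
      rcases ih j e3 with h2 | ⟨j', f1, f2, f3, S, f4, f5⟩
      · left
        calc s i ≤ K * s j := e4
          _ ≤ K * K ^ (r + 1) := Nat.mul_le_mul_left _ h2
          _ = K ^ (r + 1 + 1) := by ring
      · right
        refine ⟨j', by omega, f2, ?_, insert t S, ?_, ?_⟩
        · calc s i ≤ K * s j := e4
            _ ≤ K * (K ^ (r + 1) * s j') := Nat.mul_le_mul_left _ f3
            _ = K ^ (r + 1 + 1) * s j' := by ring
        · have h4 : t ∉ S := by
            intro h5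
            have := (f5 t h5).1
            omega
          rw [card_insert_of_notMem h4]
          omega
        · intro u hu
          rw [mem_insert] at hu
          rcases hu with rfl | hu
          · exact ⟨e1, by omega, e5⟩
          · obtain ⟨g1, g2, g3⟩ := f5 u hu
            exact ⟨by omega, g2, g3⟩
    · left
      have h2 := not_lt.1 h1
      have h3 := hs i
      calc s i ≤ K := h2
        _ = K ^ 1 := (pow_one K).symm
        _ ≤ K ^ (r + 1 + 1) := Nat.pow_le_pow_right (by omega) (by omega)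

section glue

variable {τ : Type*} [Fintype τ] {E P : τ → τ → Prop}

open Relation

/-- the scales; nothing is required at the indices where the branch is small -/
theorem sc_of_path' {h : τ → ℕ} (hE : ∀ a b, P a b → h a < h b) (hin : ∀ a b c, P a c → P b c → a = b)
    (hP : ∀ a c, P a c → E a c ∨ E c a) {b : ℕ} (hout : ∀ v, {w | E v w ∨ E w v}.ncard ≤ b) {θ : ℝ} {M m : ℕ}
    {p : ℕ → τ} (hp : ∀ t < m, P (p t) (p (t + 1)))
    (hs : ∀ i ≤ m, (AE32.desc P (p i)).card ≤ M ∨ ∃ j, i < j ∧ j ≤ m ∧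
      θ * (AE32.desc P (p i)).card ≤ (AE32.desc P (p j)).card ∧
      4 ≤ ((Finset.Ioo i j).filter (fun t => ¬ (E (p (t - 1)) (p t) ↔ E (p t) (p (t + 1))))).card) (n : ℕ) :
    ∀ i c, i ≤ m → m - i = n → Cod E P (p i) c → Sc θ M c := by
  induction n using Nat.strong_induction_on with
  | _ n ih =>
    intro i c him hn hc
    have hsz := (vc_of_cod hE hin hP hout hc).size
    rcases hs i him with h1 | ⟨j, h2, h3, h4, h5⟩
    · exact Sc.small c (by omega)
    · obtain ⟨n', hn'⟩ : ∃ n', j = i + n' + 1 := ⟨j - i - 1, by omega⟩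
      subst hn'
      obtain ⟨c', h6, h7⟩ := ptT_path (E := E) hc n' (fun t h8 h9 => hp t (by omega))
      have hsz' := (vc_of_cod hE hin hP hout h6).size
      refine Sc.step c _ _ _ h7 h5 ?_ (ih (m - (i + n' + 1)) (by omega) _ c' h3 rfl h6)
      have e1 : ((c.size : ℝ) + 1) = (AE32.desc P (p i)).card := by exact_mod_cast hsz
      have e2 : ((c'.size : ℝ) + 1) = (AE32.desc P (p (i + n' + 1))).card := by exact_mod_cast hsz'
      rw [e1]
      show _ ≤ (c'.size : ℝ) + 1
      rw [e2]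
      exact h4

end glue

/-- `glueJ`, nothing being required at the indices where the branch is small -/
theorem glueJ' {k b : ℕ} {E : Fin (k + 1) → Fin (k + 1) → Prop} (h4 : ∀ a c, E a c → ¬ E c a)
    (h5 : (SimpleGraph.fromRel E).IsTree) (h6 : ∀ v, {w | E v w ∨ E w v}.ncard ≤ b) {θ : ℝ} {M m : ℕ}
    {p : ℕ → Fin (k + 1)} (hadj : ∀ i < m, (SimpleGraph.fromRel E).Adj (p i) (p (i + 1)))
    (hdist : ∀ i ≤ m, (SimpleGraph.fromRel E).dist (p 0) (p i) = i)
    (hs : ∀ i ≤ m, {x | (SimpleGraph.fromRel E).dist (p 0) (p i) + (SimpleGraph.fromRel E).dist (p i) x =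
        (SimpleGraph.fromRel E).dist (p 0) x}.ncard ≤ M ∨ ∃ j, i < j ∧ j ≤ m ∧
      θ * ({x | (SimpleGraph.fromRel E).dist (p 0) (p i) + (SimpleGraph.fromRel E).dist (p i) x =
        (SimpleGraph.fromRel E).dist (p 0) x}.ncard : ℝ) ≤
      ({x | (SimpleGraph.fromRel E).dist (p 0) (p j) + (SimpleGraph.fromRel E).dist (p j) x =
        (SimpleGraph.fromRel E).dist (p 0) x}.ncard : ℝ) ∧
      4 ≤ ((Finset.Ioo i j).filter (fun t => ¬ (E (p (t - 1)) (p t) ↔ E (p t) (p (t + 1))))).card) :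
    ∃ c : Fd, c.size = k ∧ c.len ≤ b ∧ c.Deg b ∧ Sc θ M c ∧
      ∀ {V : Type} {R : V → V → Prop} {N : V → Prop} {X : Finset V}, In R c N X →
        ∃ f : Fin (k + 1) → V, Function.Injective f ∧ (∀ a, f a ∈ X) ∧ N (f (p 0)) ∧ ∀ a c, E a c → R (f a) (f c) := by
  obtain ⟨G, hG⟩ : ∃ G, G = SimpleGraph.fromRel E := ⟨_, rfl⟩
  rw [← hG] at h5 hadj hdist hs
  obtain ⟨r, hr⟩ : ∃ r, r = p 0 := ⟨_, rfl⟩
  rw [← hr] at hdist hs ⊢
  obtain ⟨P, hPdef⟩ : ∃ P : Fin (k + 1) → Fin (k + 1) → Prop, P = fun a c => G.Adj a c ∧ G.dist r c = G.dist r a + 1 :=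
    ⟨_, rfl⟩
  have hE : ∀ a c, P a c → G.dist r a < G.dist r c := by
    intro a c h
    rw [hPdef] at h
    have := h.2
    omega
  have hin : ∀ a b c, P a c → P b c → a = b := by
    intro a b c h1 h2
    rw [hPdef] at h1 h2
    exact parent_unique' h5 r h1.1 h2.1 h1.2 h2.2
  have hP : ∀ a c, P a c → E a c ∨ E c a := by
    intro a c h
    rw [hPdef] at h
    have h1 := h.1
    rw [hG, SimpleGraph.fromRel_adj] at h1
    exact h1.2
  obtain ⟨c, hc⟩ := exists_cod (E := E) (h := fun v => G.dist r v) hE _ (p 0) rfl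
  have hvc := vc_of_cod (h := fun v => G.dist r v) hE hin hP h6 hc
  have hroot : AE32.desc P (p 0) = univ := by
    rw [eq_univ_iff_forall]
    intro v
    rw [AE32.mem_desc, hPdef, ← hr]
    refine desc_of_dist h5 r r _ v rfl ?_
    rw [SimpleGraph.dist_self, Nat.zero_add]
  have hcard : ∀ i, (AE32.desc P (p i)).card = {x | G.dist r (p i) + G.dist (p i) x = G.dist r x}.ncard := by
    intro i
    rw [hPdef]
    exact card_desc_dist h5 r (p i)
  have hsz := hvc.size
  rw [hroot, card_univ, Fintype.card_fin] at hsz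
  refine ⟨c, by omega, hvc.len, hvc.deg, ?_, ?_⟩
  · refine sc_of_path' (h := fun v => G.dist r v) hE hin hP h6 (p := p) (m := m) ?_ ?_ _ 0 c
      (Nat.zero_le _) rfl hc
    · intro t ht
      rw [hPdef]
      refine ⟨hadj t ht, ?_⟩
      rw [hdist t ht.le, hdist (t + 1) ht]
    · intro i hi
      rcases hs i hi with e0 | ⟨j, e1, e2, e3, e4⟩
      · left
        rw [hcard]
        exact e0
      · refine Or.inr ⟨j, e1, e2, ?_, e4⟩
        rw [hcard, hcard]
        exact e3
  · rintro V R N X ⟨x, hx, A, hA, hxA, hN, hS⟩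
    obtain ⟨f, p1, p2, p3, p4⟩ := hvc.emb hxA hS
    rw [hroot] at p2 p3 p4
    refine ⟨f, fun a b hab => p3 a (mem_univ _) b (mem_univ _) hab, fun a => ?_, by rw [hr, p1]; exact hN,
      fun a c hac => ?_⟩
    · have := p2 a (mem_univ _)
      rw [mem_insert] at this
      rcases this with h | h
      · rw [h]
        exact hx
      · exact hA h
    · have hne : a ≠ c := by
        rintro rfl
        exact h4 _ _ hac hac
      have hadj' : G.Adj a c := by
        rw [hG, SimpleGraph.fromRel_adj]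
        exact ⟨hne, Or.inl hac⟩
      rcases h5.dist_eq_dist_add_one_of_adj r hadj' with h | h
      · have h1 := p4 c (mem_univ _) a (by rw [hPdef]; exact ⟨hadj'.symm, h⟩)
        have h2 : ¬ E c a := h4 _ _ hac
        simpa [Adj, h2] using h1
      · have h1 := p4 a (mem_univ _) c (by rw [hPdef]; exact ⟨hadj', h⟩)
        simpa [Adj, hac] using h1

/-- the distances along a path of a tree -/
theorem dist_of_inj {τ : Type*} {G : SimpleGraph τ} (hG : G.IsTree) {m : ℕ} {p : ℕ → τ}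
    (hadj : ∀ i < m, G.Adj (p i) (p (i + 1))) (hinj : ∀ i ≤ m, ∀ j ≤ m, p i = p j → i = j) :
    ∀ i ≤ m, G.dist (p 0) (p i) = i := by
  have h1 : ∀ i, i ≤ m → ∃ w : G.Walk (p 0) (p i), w.length = i ∧ w.support = (List.range (i + 1)).map p := by
    intro i
    induction i with
    | zero => intro _; exact ⟨SimpleGraph.Walk.nil, rfl, by simp⟩
    | succ i ih =>
      intro hi
      obtain ⟨w, w1, w2⟩ := ih (by omega)
      refine ⟨w.concat (hadj i (by omega)), ?_, ?_⟩
      · rw [SimpleGraph.Walk.length_concat, w1]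
      · rw [SimpleGraph.Walk.support_concat, w2, List.range_succ (n := i + 1), List.map_append]
        simp
  intro i hi
  obtain ⟨w, w1, w2⟩ := h1 i hi
  have hw : w.IsPath := by
    rw [SimpleGraph.Walk.isPath_def, w2]
    refine List.Nodup.map_on ?_ List.nodup_range
    intro a ha c hc hac
    rw [List.mem_range] at ha hc
    exact hinj a (by omega) c (by omega) hac
  obtain ⟨q, hq⟩ := hG.connected.exists_walk_length_eq_dist (p 0) (p i)
  have hq' : q.IsPath := SimpleGraph.Walk.isPath_of_length_eq_dist q hq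
  have := (hG.existsUnique_path (p 0) (p i)).unique hw hq'
  rw [← hq, ← this, w1]

/-- **The final statement**, the jump theorem being a hypothesis -/
theorem turning (hJ : ∀ b : ℕ, 1 ≤ b → JumpSt b) : ∀ Δ K : ℕ, ∃ C : ℕ, ∀ k n : ℕ, k + C ≤ n → ∀ R : Fin n → Fin n → Prop,
    (∀ a, ¬ R a a) → (∀ a b, a ≠ b → R a b ∨ R b a) → (∀ a b, R a b → ¬ R b a) →
    ∀ E : Fin (k + 1) → Fin (k + 1) → Prop,
      (∀ a b, E a b → ¬ E b a) →
      (SimpleGraph.fromRel E).IsTree →
      (∀ v, ((SimpleGraph.fromRel E).neighborSet v).ncard ≤ Δ) →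
      (∃ (m : ℕ) (p : ℕ → Fin (k + 1)) (s : ℕ → ℕ),
        (∀ i < m, (SimpleGraph.fromRel E).Adj (p i) (p (i + 1))) ∧
        (∀ i ≤ m, ∀ j ≤ m, p i = p j → i = j) ∧
        (∀ i, s i = {x | (SimpleGraph.fromRel E).dist (p 0) (p i) + (SimpleGraph.fromRel E).dist (p i) x =
          (SimpleGraph.fromRel E).dist (p 0) x}.ncard) ∧
        ∀ i ≤ m, K < s i → ∃ t j, i < t ∧ t < j ∧ j ≤ m ∧ s i ≤ K * s j ∧ (E (p (t - 1)) (p t) ↔ E (p (t + 1)) (p t))) →
      ∃ f : Fin (k + 1) → Fin n, Function.Injective f ∧ ∀ a b, E a b → R (f a) (f b) := by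
  intro Δ K
  obtain ⟨C, hC⟩ := scales (b := Δ + 1) (by omega) (hJ (Δ + 1) (by omega)) (θ := 1 / ((K : ℝ) + 1) ^ 4) (by positivity)
    (by
      rw [div_le_one (by positivity)]
      exact one_le_pow₀ (by linarith [(Nat.cast_nonneg K : (0 : ℝ) ≤ K)])) (K ^ 4)
  refine ⟨C + 1, ?_⟩
  rintro k n hn R h1 h2 h3 E h4 h5 h6 ⟨m, p, s, hadj, hinj, hs, hK⟩
  have h6' : ∀ v, {w | E v w ∨ E w v}.ncard ≤ Δ + 1 := by
    intro v
    refine le_trans (le_of_eq ?_) ((h6 v).trans (Nat.le_succ Δ))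
    congr 1
    ext w
    simp only [Set.mem_ofPred_eq, SimpleGraph.mem_neighborSet, SimpleGraph.fromRel_adj]
    constructor
    · intro h
      refine ⟨?_, h⟩
      rintro rfl
      rcases h with h | h <;> exact h4 _ _ h h
    · exact fun h => h.2
  have hs1 : ∀ i, 1 ≤ s i := by
    intro i
    rw [hs, Nat.one_le_iff_ne_zero, ← Nat.pos_iff_ne_zero, Set.ncard_pos]
    exact ⟨p i, by simp⟩
  have hfour := many_of_one hs1 hK 3
  obtain ⟨c, c1, c2, c3, c4, c5⟩ := glueJ' (θ := 1 / ((K : ℝ) + 1) ^ 4) (M := K ^ 4) h4 h5 h6' hadj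
    (dist_of_inj h5 hadj hinj) (by
      intro i hi
      rw [← hs]
      rcases hfour i hi with e0 | ⟨j, e1, e2, e3, S, e4, e4'⟩
      · exact Or.inl e0
      · refine Or.inr ⟨j, e1, e2, ?_, ?_⟩
        · rw [← hs, div_mul_eq_mul_div, one_mul, div_le_iff₀ (by positivity)]
          have e5 : (s i : ℝ) ≤ K ^ 4 * s j := by exact_mod_cast e3
          have e6 : (K : ℝ) ^ 4 * s j ≤ ((K : ℝ) + 1) ^ 4 * s j := by
            apply mul_le_mul_of_nonneg_right _ (Nat.cast_nonneg _)
            exact pow_le_pow_left₀ (Nat.cast_nonneg _) (by linarith) 4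
          linarith
        · refine e4.trans (card_le_card ?_)
          intro t ht
          obtain ⟨g1, g2, h7⟩ := e4' t ht
          refine mem_filter.2 ⟨mem_Ioo.2 ⟨g1, g2⟩, ?_⟩
          have hat := hadj t (by omega)
          rw [SimpleGraph.fromRel_adj] at hat
          intro h8
          rcases hat.2 with h9 | h9
          · exact h4 _ _ h9 (h7.1 (h8.2 h9))
          · exact h4 _ _ h9 (h8.1 (h7.2 h9)))
  obtain ⟨f, f1, -, -, f4⟩ := c5 (R := R) (N := fun _ => True) (X := univ) (hC ⟨h1, h2, h3⟩ c c2 c3 c4 univ (by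
    rw [card_univ, Fintype.card_fin]
    omega))
  exact ⟨f, f1, f4⟩

end AEJ
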