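import Pool.Agent.AEJ.Closure0
import Pool.Agent.AEJ.OneTurn
import Pool.Agent.AEJT.Typ

/-!
# Trees with a path which is balanced at every scale: the final statement
-/

namespace AEJ

open Finset Relation AE15 AED AELT AEK AEJT LTT
open scoped Classical

section glue

variable {k : ℕ} {G : SimpleGraph (Fin (k + 1))} {r : Fin (k + 1)} {E : Fin (k + 1) → Fin (k + 1) → Prop}

/-- the vertices of a branch which are not joined to its root by directed paths -/
theorem window_code (hG : G.IsTree) (hE : ∀ a b, E a b → ¬ E b a) (hEG : SimpleGraph.fromRel E = G) (v : Fin (k + 1)) :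
    dcl (code E (Par G r) v) + AEB.blk (code E (Par G r) v) + 1 +
      {x | G.dist r v + G.dist v x = G.dist r x ∧ ¬ ReflTransGen E v x ∧ ¬ ReflTransGen E x v}.ncard ≤
        (AE32.desc (Par G r) v).card := by
  obtain ⟨P, hP⟩ : ∃ P, P = Par G r := ⟨_, rfl⟩
  have hPE : ∀ a c, P a c → E a c ∨ E c a := by
    intro a c h
    rw [hP] at h
    have h1 := h.1
    rw [← hEG, SimpleGraph.fromRel_adj] at h1
    exact h1.2
  have hlt : ∀ a c, P a c → G.dist r a < G.dist r c := fun a c h => by rw [hP] at h; exact h.lt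
  have hun : ∀ a b c, P a c → P b c → a = b := fun a b c h h' => by rw [hP] at h h'; exact h.unique hG h'
  obtain ⟨D, hD⟩ : ∃ D : Bool → Finset (Fin (k + 1)),
    D = fun σ => AE32.desc (fun a c => P a c ∧ decide (E a c) = σ) v := ⟨_, rfl⟩
  have h1 : dcl (code E P v) + 1 = (D true).card := by
    rw [dcl_eq_rch, rch_code (h := fun v => G.dist r v) hlt hun true _ v rfl, hD]
  have h2 : AEB.blk (code E P v) + 1 = (D false).card := by
    rw [blk_eq_rch, rch_code (h := fun v => G.dist r v) hlt hun false _ v rfl, hD]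
  have hmem : ∀ σ x, x ∈ D σ ↔ ReflTransGen (fun a c => P a c ∧ decide (E a c) = σ) v x := by
    intro σ x
    rw [hD]
    exact AE32.mem_desc
  have hDT : ∀ σ, D σ ⊆ AE32.desc P v := by
    intro σ x hx
    rw [hmem] at hx
    rw [AE32.mem_desc]
    exact ReflTransGen.mono (fun a c h => h.1) _ _ hx
  have hcap : D true ∩ D false ⊆ {v} := by
    intro x hx
    rw [mem_inter, hmem, hmem] at hx
    rw [mem_singleton]
    rcases hx.1.cases_tail with h3 | ⟨a, -, h3, h4⟩
    · exact h3.symm ▸ rfl
    · rcases hx.2.cases_tail with h5 | ⟨a', -, h5, h6⟩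
      · exact h5.symm ▸ rfl
      · have h7 := hun a a' x h3 h5
        subst h7
        rw [h4] at h6
        exact absurd h6 (by decide)
  obtain ⟨I, hI⟩ : ∃ I : Finset (Fin (k + 1)),
    I = (AE32.desc P v).filter (fun x => ¬ ReflTransGen E v x ∧ ¬ ReflTransGen E x v) := ⟨_, rfl⟩
  have hIc : {x | G.dist r v + G.dist v x = G.dist r x ∧ ¬ ReflTransGen E v x ∧ ¬ ReflTransGen E x v}.ncard = I.card := by
    rw [← Set.ncard_coe_finset]
    congr 1
    ext x
    rw [mem_coe, hI, mem_filter, AE32.mem_desc, hP]
    exact and_congr_left' (reach_dist hG r v x).symm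
  have hdis : Disjoint (D true ∪ D false) I := by
    rw [disjoint_left]
    intro x hx hx'
    rw [hI, mem_filter] at hx'
    rw [mem_union, hmem, hmem] at hx
    rcases hx with hx | hx
    · apply hx'.2.1
      exact ReflTransGen.mono (fun a c h => of_decide_eq_true h.2) _ _ hx
    · apply hx'.2.2
      have h3 : ∀ y, ReflTransGen (fun a c => P a c ∧ decide (E a c) = false) v y → ReflTransGen E y v := by
        intro y hy
        induction hy with
        | refl => exact ReflTransGen.refl
        | @tail a c _ h ih =>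
          refine ReflTransGen.head ?_ ih
          rcases hPE a c h.1 with h4 | h4
          · exact absurd h4 (of_decide_eq_false h.2)
          · exact h4
      exact h3 x hx
  have h3 := card_union_add_card_inter (D true) (D false)
  have h4 := card_le_card hcap
  rw [card_singleton] at h4
  have h5 : ((D true ∪ D false) ∪ I).card ≤ (AE32.desc P v).card := by
    refine card_le_card (union_subset (union_subset (hDT true) (hDT false)) ?_)
    rw [hI]
    exact filter_subset _ _
  rw [card_union_of_disjoint hdis] at h5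
  rw [← hP, hIc]
  omega

end glue

/-- **The final statement**, the jump theorem without turns being a hypothesis -/
theorem balanced (hJ : ∀ b : ℕ, 1 ≤ b → JumpSt0 b) : ∀ Δ K : ℕ, ∃ C : ℕ, ∀ k n : ℕ, k + C ≤ n →
    ∀ R : Fin n → Fin n → Prop,
    (∀ a, ¬ R a a) → (∀ a b, a ≠ b → R a b ∨ R b a) → (∀ a b, R a b → ¬ R b a) →
    ∀ E : Fin (k + 1) → Fin (k + 1) → Prop,
      (∀ a b, E a b → ¬ E b a) →
      (SimpleGraph.fromRel E).IsTree →
      (∀ v, ((SimpleGraph.fromRel E).neighborSet v).ncard ≤ Δ) →
      (∃ (m : ℕ) (p : ℕ → Fin (k + 1)) (T : ℕ → Set (Fin (k + 1))),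
        (∀ i < m, (SimpleGraph.fromRel E).Adj (p i) (p (i + 1))) ∧
        (∀ i ≤ m, ∀ j ≤ m, p i = p j → i = j) ∧
        (∀ i, T i = {x | (SimpleGraph.fromRel E).dist (p 0) (p i) + (SimpleGraph.fromRel E).dist (p i) x =
          (SimpleGraph.fromRel E).dist (p 0) x}) ∧
        ∀ i ≤ m, K < (T i).ncard → ∃ j, i < j ∧ j ≤ m ∧ (T i).ncard ≤ K * (T j).ncard ∧
          (T j).ncard ≤ K * {x ∈ T j | ¬ ReflTransGen E (p j) x ∧ ¬ ReflTransGen E x (p j)}.ncard) →
      ∃ f : Fin (k + 1) → Fin n, Function.Injective f ∧ ∀ a b, E a b → R (f a) (f b) := by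
  intro Δ K
  obtain ⟨C, hC⟩ := scales0 (b := Δ + 1) (by omega) (hJ (Δ + 1 + 1) (by omega)) (θ := 1 / ((K : ℝ) + 1)) (by positivity)
    (by
      rw [div_le_one (by positivity)]
      linarith [(Nat.cast_nonneg K : (0 : ℝ) ≤ K)]) K
  refine ⟨C + 1, ?_⟩
  rintro k n hn R h1 h2 h3 E h4 h5 h6 ⟨m, p, T, hadj, hinj, hT, hK⟩
  obtain ⟨G, hG⟩ : ∃ G, G = SimpleGraph.fromRel E := ⟨_, rfl⟩
  rw [← hG] at h5 h6 hadj hT
  obtain ⟨r, hr⟩ : ∃ r, r = p 0 := ⟨_, rfl⟩
  have hori : E ∈ Ori G := ⟨h4, hG.symm⟩
  have hdist := dist_of_inj h5 hadj hinj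
  rw [← hr] at hT hdist
  have hpar : ∀ i < m, Par G r (p i) (p (i + 1)) := by
    intro i hi
    refine ⟨hadj i hi, ?_⟩
    rw [hdist i hi.le, hdist (i + 1) hi]
  have hTc : ∀ i, (T i).ncard = (AE32.desc (Par G r) (p i)).card := by
    intro i
    rw [card_desc h5, hT]
    congr 1
    ext x
    exact eq_comm
  have hreach : ∀ i j, i ≤ j → j ≤ m → ReflTransGen (Par G r) (p i) (p j) := by
    intro i j hij
    induction j, hij using Nat.le_induction with
    | base => intro _; exact ReflTransGen.refl
    | succ j hij ih => intro hj; exact (ih (by omega)).tail (hpar j (by omega))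
  have hmono : ∀ i j, i < j → j ≤ m → (T j).ncard < (T i).ncard := by
    intro i j hij
    induction j, hij using Nat.le_induction with
    | base =>
      intro hj
      rw [hTc, hTc]
      exact desc_card_lt (h := fun v => G.dist r v) (fun _ _ h => h.lt) (hpar i (by omega))
    | succ j hij ih =>
      intro hj
      refine lt_trans ?_ (ih (by omega))
      rw [hTc, hTc]
      exact desc_card_lt (h := fun v => G.dist r v) (fun _ _ h => h.lt) (hpar j (by omega))
  have key : ∀ n i, i ≤ m → m - i = n → Bl (1 / ((K : ℝ) + 1)) K (code E (Par G r) (p i)) := by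
    intro n
    induction n using Nat.strong_induction_on with
    | _ n ih =>
      intro i hi hn
      have hsz := size_code (E := E) (r := r) h5 (p i)
      rw [← hTc] at hsz
      by_cases hs : K < (T i).ncard
      · obtain ⟨j, e1, e2, e3, e4⟩ := hK i hi hs
        obtain ⟨d, l, hP⟩ := ptT_desc (E := E) (h := fun v => G.dist r v) (fun _ _ h => h.lt) (hreach i j e1.le e2) true
        have hszj := size_code (E := E) (r := r) h5 (p j)
        rw [← hTc] at hszj
        have hlt := hmono i j e1 e2
        have hszR : ((code E (Par G r) (p i)).size : ℝ) + 1 = (T i).ncard := by exact_mod_cast hsz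
        have hszjR : ((code E (Par G r) (p j)).size : ℝ) + 1 = (T j).ncard := by exact_mod_cast hszj
        have hK0 : (0 : ℝ) ≤ K := Nat.cast_nonneg _
        refine Bl.step _ true (d, code E (Par G r) (p j)) l hP (by simp only; omega) ?_ ?_
          (ih (m - j) (by omega) j e2 rfl)
        · simp only
          rw [hszR, hszjR, div_mul_eq_mul_div, one_mul, div_le_iff₀ (by positivity)]
          have e5 : ((T i).ncard : ℝ) ≤ K * (T j).ncard := by exact_mod_cast e3
          have e6 : (0 : ℝ) ≤ (T j).ncard := Nat.cast_nonneg _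
          linarith
        · simp only
          have e5 := window_code (r := r) h5 h4 hG.symm (p j)
          rw [← hTc] at e5
          have e6 : {x | G.dist r (p j) + G.dist (p j) x = G.dist r x ∧ ¬ ReflTransGen E (p j) x ∧
              ¬ ReflTransGen E x (p j)} = {x ∈ T j | ¬ ReflTransGen E (p j) x ∧ ¬ ReflTransGen E x (p j)} := by
            ext x
            rw [hT j]
            rfl
          rw [e6] at e5
          obtain ⟨N, hN⟩ : ∃ N : ℕ, N = {x ∈ T j | ¬ ReflTransGen E (p j) x ∧ ¬ ReflTransGen E x (p j)}.ncard := ⟨_, rfl⟩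
          rw [← hN] at e4 e5
          have e7 : (dcl (code E (Par G r) (p j)) : ℝ) + AEB.blk (code E (Par G r) (p j)) + 1 + N ≤ (T j).ncard := by
            exact_mod_cast e5
          have e8 : 1 / ((K : ℝ) + 1) * ((T j).ncard : ℝ) ≤ N := by
            rw [div_mul_eq_mul_div, one_mul, div_le_iff₀ (by positivity)]
            have e9 : ((T j).ncard : ℝ) ≤ K * N := by exact_mod_cast e4
            have e10 : (0 : ℝ) ≤ N := Nat.cast_nonneg _
            linarith
          rw [hszjR]
          linarith
      · exact Bl.small _ (by omega)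
  have hlen : ∀ v, (chl (Par G r) v).card ≤ Δ + 1 := fun v => (code_len_le h5 h6 v).trans (Nat.le_succ Δ)
  have hB := key m 0 (Nat.zero_le _) rfl
  rw [← hr] at hB
  have hszr := size_code (E := E) (r := r) h5 r
  rw [desc_root h5, card_univ, Fintype.card_fin] at hszr
  exact emb_code h5 hori (N := fun _ => True) (X := univ) (hC ⟨h1, h2, h3⟩ (code E (Par G r) r)
    (by rw [code_len (h := fun v => G.dist r v) (fun _ _ h => h.lt)]; exact hlen r)
    (code_deg (h := fun v => G.dist r v) (fun _ _ h => h.lt) hlen _ r rfl) hB univ (by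
      rw [card_univ, Fintype.card_fin]
      omega))

end AEJ
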