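import Pool.Agent.AEJ.Lab
import Pool.Agent.AESK.PE
import Pool.Agent.AEK.Thin

/-!
# From a path with turns to a tree with a marked vertex
-/

set_option autoImplicit false

namespace AEJ

open Finset AE15 AED AELT AEK
open scoped Classical

/-! ### the same tree up to the order of the children -/

/-- the same tree up to the order of the children -/
structure Eqt (c c' : Fd) : Prop where
  size : c'.size = c.size
  dcl : dcl c' = dcl c
  blk : AEB.blk c' = AEB.blk c
  deg : ∀ b, c.Deg b → c'.Deg b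
  len : c'.len = c.len
  emb : ∀ {V : Type} {R : V → V → Prop} {x : V} {S : Finset V}, Emb R c' x S → Emb R c x S

theorem Eqt.refl (c : Fd) : Eqt c c := ⟨rfl, rfl, rfl, fun _ h => h, rfl, fun h => h⟩

theorem Eqt.trans {c c' c'' : Fd} (h : Eqt c c') (h' : Eqt c' c'') : Eqt c c'' :=
  ⟨h'.size.trans h.size, h'.dcl.trans h.dcl, h'.blk.trans h.blk, fun b hb => h'.deg b (h.deg b hb), h'.len.trans h.len,
    fun hE => h.emb (h'.emb hE)⟩

theorem Eqt.node {c c' : Fd} (h : Eqt c c') (d : Bool) (s : Fd) : Eqt (.node d c s) (.node d c' s) := by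
  refine ⟨?_, ?_, ?_, ?_, rfl, ?_⟩
  · simp only [Fd.size, h.size]
  · simp only [AELT.dcl, h.dcl]
  · simp only [AEB.blk, h.blk]
  · rintro b ⟨h1, h2, h3⟩
    exact ⟨by rw [h.len]; exact h1, h.deg b h2, h3⟩
  · rintro V R x S ⟨x1, A, B, h1, h2, h3, h4, h5, h6, h7⟩
    exact ⟨x1, A, B, h1, h2, h3, h4, h5, h.emb h6, h7⟩

theorem dcl_eq (c : Fd) : dcl c = (c.trees.map (fun p => if p.1 then dcl p.2 + 1 else 0)).sum := by
  induction c with
  | nil => rfl
  | node d c s _ ihs =>
    simp only [dcl, Fd.trees, List.map_cons, List.sum_cons]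
    rw [← ihs]

theorem blk_eq (c : Fd) : AEB.blk c = (c.trees.map (fun p => if p.1 then 0 else AEB.blk p.2 + 1)).sum := by
  induction c with
  | nil => rfl
  | node d c s _ ihs =>
    simp only [AEB.blk, Fd.trees, List.map_cons, List.sum_cons]
    rw [← ihs]

theorem Eqt.of_perm {c c' : Fd} (h : c.trees.Perm c'.trees) : Eqt c c' := by
  refine ⟨?_, ?_, ?_, ?_, ?_, ?_⟩
  · rw [Fd.size_eq, Fd.size_eq c]
    exact ((h.map _).sum_eq).symm
  · rw [dcl_eq, dcl_eq c]
    exact ((h.map _).sum_eq).symm
  · rw [blk_eq, blk_eq c]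
    exact ((h.map _).sum_eq).symm
  · intro b hb
    rw [Fd.deg_iff] at hb ⊢
    intro p hp
    exact hb p (h.mem_iff.2 hp)
  · rw [Fd.len_eq, Fd.len_eq c]
    exact h.length_eq.symm
  · intro V R x S hE
    rw [emb_iff] at hE ⊢
    exact EmbL.perm h.symm hE

/-! ### the marked tree of a path -/

/-- the marked tree of a path (given by its vertices with their side trees) -/
def toMu : List (Bool × List (Bool × Fd)) → Mu
  | [] => .leaf .nil
  | [t] => .leaf (AESK.mk t.2)
  | t :: u :: l => .step (AESK.mk t.2) u.1 (toMu (u :: l))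

theorem toMu_sg (t : Bool × List (Bool × Fd)) (l : List (Bool × List (Bool × Fd))) :
    (toMu (t :: l)).sg = l.map Prod.fst := by
  induction l generalizing t with
  | nil => rfl
  | cons u l ih => simp only [toMu, Mu.sg, ih, List.map_cons]

theorem spine_mu {l : List (Bool × List (Bool × Fd))} {p q : Bool × Fd} (h : Spine l p q) (hl : l ≠ []) :
    Eqt p.2 ((toMu l).plug q) := by
  induction h with
  | nil p => exact absurd rfl hl
  | cons d c s p q l hperm hsp ih =>
    cases l with
    | nil =>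
      cases hsp
      refine Eqt.of_perm ?_
      simpa [toMu, Mu.plug, Fd.trees, AESK.mk_trees] using hperm
    | cons u l =>
      have hp : p.1 = u.1 := by
        cases hsp with
        | cons _ _ _ _ _ _ _ _ => rfl
      have h1 : Eqt c (.node p.1 p.2 (AESK.mk s)) := Eqt.of_perm (by
        simpa [Fd.trees, AESK.mk_trees] using hperm)
      have h2 := (ih (by simp)).node p.1 (AESK.mk s)
      have h3 := h1.trans h2
      rw [hp] at h3
      exact h3

theorem tn_eq (l : List Bool) : tn l = AESK.tn l := by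
  induction l with
  | nil => rfl
  | cons x l ih =>
    cases l with
    | nil => rfl
    | cons y l =>
      simp only [tn, AESK.tn] at ih ⊢
      rw [ih]
      by_cases h : x = y
      · simp [h]
      · rw [if_neg h, if_neg (fun h' => h h'.symm)]

/-- **From a path with turns to a tree with a marked vertex** -/
theorem ptT_mu {k : ℕ} {p q : Bool × Fd} {m : ℕ} (h : AESK.PtT k p q m) (hm : m ≠ 0) :
    ∃ M : Mu, Eqt p.2 (M.plug q) ∧ tn ((p.1 :: M.sg) ++ [q.1]) = m := by
  obtain ⟨l, h1, h2⟩ := h.spine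
  cases l with
  | nil => exact absurd h2.symm (by simpa [AESK.wd, AESK.tn] using hm)
  | cons t l =>
    refine ⟨toMu (t :: l), spine_mu h1 (by simp), ?_⟩
    have hp : p.1 = t.1 := by
      cases h1 with
      | cons _ _ _ _ _ _ _ _ => rfl
    rw [toMu_sg, tn_eq, hp]
    exact h2

/-! ### words -/

theorem tn_cons_le (a : Bool) (l : List Bool) : tn (a :: l) ≤ tn l + 1 := by
  cases l with
  | nil => simp [tn]
  | cons b l =>
    simp only [tn]
    split_ifs <;> omega

theorem tn_snoc_le (l : List Bool) (e : Bool) : tn (l ++ [e]) ≤ tn l + 1 := by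
  induction l with
  | nil => simp [tn]
  | cons a l ih =>
    cases l with
    | nil =>
      simp only [List.singleton_append, tn]
      split_ifs <;> omega
    | cons b l =>
      simp only [List.cons_append, tn] at ih ⊢
      omega

theorem tn_inner {a e : Bool} {l : List Bool} (h : 4 ≤ tn ((a :: l) ++ [e])) : 2 ≤ tn l := by
  have h1 := tn_snoc_le (a :: l) e
  have h2 := tn_cons_le a l
  omega

theorem mem_of_tn {l : List Bool} (h : 1 ≤ tn l) : false ∈ l ∧ true ∈ l := by
  induction l with
  | nil => simp [tn] at h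
  | cons a l ih =>
    cases l with
    | nil => simp [tn] at h
    | cons b l =>
      simp only [tn] at h
      by_cases hab : a = b
      · rw [if_pos hab, Nat.zero_add] at h
        obtain ⟨h1, h2⟩ := ih h
        exact ⟨List.mem_cons_of_mem _ h1, List.mem_cons_of_mem _ h2⟩
      · cases a <;> cases b <;> simp at hab ⊢

/-! ### the reach of the root is not changed by the tree at the mark -/

theorem dcl_plug {M : Mu} (h : false ∈ M.sg) (q : Bool × Fd) : dcl (M.plug q) = dcl M.un := by
  induction M with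
  | leaf s => simp [Mu.sg] at h
  | step s d t ih =>
    cases d
    · simp [Mu.plug, Mu.un, dcl]
    · have h' : false ∈ t.sg := by simpa [Mu.sg] using h
      simp only [Mu.plug, Mu.un, dcl, ih h']

theorem blk_plug {M : Mu} (h : true ∈ M.sg) (q : Bool × Fd) : AEB.blk (M.plug q) = AEB.blk M.un := by
  induction M with
  | leaf s => simp [Mu.sg] at h
  | step s d t ih =>
    cases d
    · have h' : true ∈ t.sg := by simpa [Mu.sg] using h
      simp only [Mu.plug, Mu.un, AEB.blk, ih h']
    · simp [Mu.plug, Mu.un, AEB.blk]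

theorem Mu.size_plug (M : Mu) (q : Bool × Fd) : (M.plug q).size = M.un.size + (q.2.size + 1) := by
  induction M with
  | leaf s => simp only [Mu.plug, Mu.un, Fd.size]; omega
  | step s d t ih => simp only [Mu.plug, Mu.un, Fd.size]; omega

theorem Mu.len_plug {M : Mu} {q : Bool × Fd} {b : ℕ} (h : (M.plug q).len ≤ b) : M.un.len ≤ b := by
  cases M with
  | leaf s => simp only [Mu.plug, Mu.un, Fd.len] at h ⊢; omega
  | step s d t => exact h

theorem Mu.deg_plug {M : Mu} {q : Bool × Fd} {b : ℕ} (h : (M.plug q).Deg b) :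
    M.un.Deg b ∧ q.2.len ≤ b ∧ q.2.Deg b := by
  induction M with
  | leaf s => exact ⟨h.2.2, h.1, h.2.1⟩
  | step s d t ih =>
    obtain ⟨h1, h2, h3⟩ := h
    obtain ⟨h4, h5, h6⟩ := ih h2
    exact ⟨⟨Mu.len_plug h1, h4, h3⟩, h5, h6⟩

/-! ### mirror images -/

/-- mirror image -/
def Mu.mrr : Mu → Mu
  | .leaf s => .leaf (AEK.mrr s)
  | .step s d t => .step (AEK.mrr s) (!d) t.mrr

theorem Mu.mrr_plug (M : Mu) (q : Bool × Fd) : M.mrr.plug (!q.1, AEK.mrr q.2) = AEK.mrr (M.plug q) := by
  induction M with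
  | leaf s => rfl
  | step s d t ih => simp only [Mu.mrr, Mu.plug, AEK.mrr, ih]

theorem Mu.mrr_un (M : Mu) : M.mrr.un = AEK.mrr M.un := by
  induction M with
  | leaf s => rfl
  | step s d t ih => simp only [Mu.mrr, Mu.un, AEK.mrr, ih]

theorem Mu.mrr_sg (M : Mu) : M.mrr.sg = M.sg.map (fun d => !d) := by
  induction M with
  | leaf s => rfl
  | step s d t ih => simp only [Mu.mrr, Mu.sg, List.map_cons, ih]

theorem tn_map_not (l : List Bool) : tn (l.map (fun d => !d)) = tn l := by
  induction l with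
  | nil => rfl
  | cons a l ih =>
    cases l with
    | nil => rfl
    | cons b l =>
      simp only [List.map_cons, tn] at ih ⊢
      rw [ih]
      cases a <;> cases b <;> rfl

theorem dcl_mrr (c : Fd) : dcl (AEK.mrr c) = AEB.blk c := by
  induction c with
  | nil => rfl
  | node d c s ihc ihs => cases d <;> simp [AEK.mrr, dcl, AEB.blk, ihc, ihs]

theorem blk_mrr (c : Fd) : AEB.blk (AEK.mrr c) = dcl c := by
  induction c with
  | nil => rfl
  | node d c s ihc ihs => cases d <;> simp [AEK.mrr, dcl, AEB.blk, ihc, ihs]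

theorem In.mrr {V : Type*} {R : V → V → Prop} {c : Fd} {N : V → Prop} {X : Finset V} (h : In R c N X) :
    In (rev R) (AEK.mrr c) N X := by
  obtain ⟨x, hx, A, hA, hxA, hN, hE⟩ := h
  exact ⟨x, hx, A, hA, hxA, hN, emb_mrr hE⟩

theorem adm_mrr {V : Type*} (R : V → V → Prop) (κ ε : ℝ) (c : Fd) (X : Finset V) (N : V → Prop) :
    Adm (rev R) κ ε c X N = Adm R κ ε (AEK.mrr c) X N := by
  unfold Adm
  apply filter_congr
  intro z _
  rw [dcl_mrr, blk_mrr]
  constructor
  · rintro ⟨h1, h2, h3⟩
    exact ⟨h1, h3, h2⟩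
  · rintro ⟨h1, h2, h3⟩
    exact ⟨h1, h3, h2⟩

theorem Coarse.mrr {κ ε β C : ℝ} {c : Fd} (h : Coarse κ ε β C c) : Coarse κ ε β C (AEK.mrr c) := by
  intro V R hT X N hX hA
  have h1 := h (AEK.tour_rev hT) X N (by rw [← mrr_size c]; exact hX) (by rw [adm_mrr]; exact hA)
  have h2 := In.mrr h1
  exact h2

theorem coarse_mrr {κ ε β C : ℝ} {c : Fd} : Coarse κ ε β C (AEK.mrr c) ↔ Coarse κ ε β C c := by
  constructor
  · intro h
    have h1 : Coarse κ ε β C (AEK.mrr (AEK.mrr c)) := @Coarse.mrr κ ε β C (AEK.mrr c) h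
    rw [mrr_mrr] at h1
    exact @h1
  · intro h
    exact @Coarse.mrr κ ε β C c h

/-- the coarse statement does not depend on the order of the children -/
theorem Coarse.eqt {κ ε β C : ℝ} {c c' : Fd} (h : Coarse κ ε β C c') (he : Eqt c c') : Coarse κ ε β C c := by
  intro V R hT X N hX hA
  obtain ⟨x, hx, A, hA', hxA, hN, hE⟩ := h hT X N (by rw [he.size]; exact hX) (by
    have : Adm R κ ε c' X N = Adm R κ ε c X N := by
      unfold Adm
      rw [he.dcl, he.blk]
    rw [this]
    exact hA)
  exact ⟨x, hx, A, hA', hxA, hN, he.emb hE⟩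

end AEJ
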