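import Pool.Agent.AEJ.JumpP
import Pool.Agent.AEJ.Tree

/-!
# Jumps
-/

namespace AEJ

open Finset AE15 AED AELT AEK LTT
open scoped Classical

/-- both directions of the arc of the final branch -/
theorem jump_mu (b : ℕ) (hb : 1 ≤ b) {θ : ℝ} (hθ : 0 < θ) (hθ1 : θ ≤ 1) (θ₁ κ ε β : ℝ) (hθ₁ : 0 < θ₁) (hκ : 0 < κ)
    (hε : 0 < ε) (hβ : 0 < β) : ∃ C₀ : ℝ, ∀ C : ℝ, C₀ ≤ C → ∀ (M₀ : Mu) (q : Bool × Fd), (M₀.plug q).len ≤ b →
      (M₀.plug q).Deg b → 2 ≤ tn M₀.sg → θ₁ * ((M₀.plug q).size + 1) ≤ (q.2.size : ℝ) + 1 →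
        θ * (q.2.size + 1) + dcl q.2 + AEB.blk q.2 ≤ (q.2.size : ℝ) + 1 → Coarse (θ / 1024) (θ / 64) (θ / 1000) C q.2 →
          Coarse κ ε β C (M₀.plug q) := by
  obtain ⟨C₀, hC₀⟩ := jump_plug b hb hθ hθ1 θ₁ κ ε β hθ₁ hκ hε hβ
  refine ⟨C₀, ?_⟩
  rintro C hC M₀ ⟨d, F⟩ hl hD htn hsz hwin hco
  cases d with
  | true => exact hC₀ C hC M₀ F hl hD htn hsz hwin hco
  | false =>
    have h1 := M₀.mrr_plug (false, F)
    simp only [Bool.not_false] at h1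
    have h2 : Coarse κ ε β C (M₀.mrr.plug (true, AEK.mrr F)) := hC₀ C hC M₀.mrr (AEK.mrr F) (by rw [h1, mrr_len]; exact hl) (by rw [h1]; exact mrr_deg hD)
      (by rw [M₀.mrr_sg, tn_map_not]; exact htn) (by rw [h1, mrr_size, mrr_size]; exact hsz)
      (by rw [mrr_size, dcl_mrr, blk_mrr]; linarith) (coarse_mrr.2 hco)
    rw [h1] at h2
    exact @Iff.mp _ _ (@coarse_mrr κ ε β C (M₀.plug (false, F))) h2

/-- **Jump**: `q = (d, F)` is a branch of the tree `T` (forest `c` at the root) behind at least four turns (the arc `d₀` to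
the root and the arc of `q` being counted), it has at least `θ₁ |T|` vertices and the window of its root has length at
least `θ |F|`; then the coarse state of `F` gives the coarse state of `T`, with the same `C`. The constants of the coarse
state of `F` depend on `b` and `θ` only. -/
theorem jump (b : ℕ) (hb : 1 ≤ b) {θ : ℝ} (hθ : 0 < θ) (hθ1 : θ ≤ 1) : ∃ κ' ε' β' : ℝ, 0 < κ' ∧ 0 < ε' ∧ 0 < β' ∧
    ∀ θ₁ κ ε β : ℝ, 0 < θ₁ → 0 < κ → 0 < ε → 0 < β → ∃ C₀ : ℝ, ∀ C : ℝ, C₀ ≤ C →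
      ∀ (c : Fd) (q : Bool × Fd) (d₀ : Bool) (m : ℕ), c.len ≤ b → c.Deg b → AESK.PtT 0 (d₀, c) q m → 4 ≤ m →
        θ₁ * (c.size + 1) ≤ (q.2.size : ℝ) + 1 → θ * (q.2.size + 1) + dcl q.2 + AEB.blk q.2 ≤ (q.2.size : ℝ) + 1 →
          Coarse κ' ε' β' C q.2 → Coarse κ ε β C c := by
  refine ⟨θ / 1024, θ / 64, θ / 1000, by positivity, by positivity, by positivity, ?_⟩
  intro θ₁ κ ε β hθ₁ hκ hε hβ
  obtain ⟨C₀, hC₀⟩ := jump_mu b hb hθ hθ1 θ₁ κ ε β hθ₁ hκ hε hβ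
  refine ⟨C₀, ?_⟩
  intro C hC c q d₀ m hl hD hp hm hsz hwin hco
  obtain ⟨M, h1, h2⟩ := ptT_mu hp (by omega)
  have h3 : 2 ≤ tn M.sg := tn_inner (by rw [h2]; exact hm)
  have h4 : Coarse κ ε β C (M.plug q) := hC₀ C hC M q (by rw [h1.len]; exact hl) (h1.deg b hD) h3
    (by rw [h1.size]; exact hsz) hwin hco
  exact @Coarse.eqt κ ε β C c (M.plug q) h4 h1

end AEJ
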