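import Pool.Agent.AEJ.Defs
import Pool.Agent.AELT.Reserve

/-!
# Reserves in a core whose expansion is only known to be at least `α₀`
-/

namespace AEJ

open Finset AE15 AED AELT
open scoped Classical

variable {V : Type*} {R : V → V → Prop}

theorem core_family2 {α₀ : ℝ} (hα : 0 < α₀) (hα1 : α₀ ≤ 1) {Y : Finset V} (hY : 2 ≤ Y.card)
    (h : Ex R (α₀ * Y.card) Y) :
    ∃ FF : Finset (Finset V), FF.card ≤ 2 * (Y.card * (Y.card + 1)) + 2 * Y.card ∧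
      ∀ P ⊆ Y, Rep Y FF (α₀ ^ 2 / 2) P → (∀ z ∈ Y, ∀ σ, ∀ α : ℝ, α₀ ≤ α → α * Y.card ≤ ((nO (sg R σ) Y z).card : ℝ) →
        α / 2 * P.card ≤ ((nO (sg R σ) P z).card : ℝ)) ∧
        ∀ z ∈ Y, ∀ σ, Good (sg R σ) (α₀ ^ 2 / 2) 0 P z := by
  have hYn : Y.Nonempty := by
    rw [← card_pos]; omega
  obtain ⟨F₁, h1, h2, h3⟩ := exists_family (sg R true) (α₀ ^ 2) 0 Y
  obtain ⟨F₂, g1, g2, g3⟩ := exists_family (sg R false) (α₀ ^ 2) 0 Y
  have hgood : ∀ z ∈ Y, ∀ σ, Good (sg R σ) (α₀ ^ 2) 0 Y z := fun z hz σ => (h.toEX.sg σ).good hα.le hα1 hY hz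
  have key : ∀ (P : Finset V) (F : Finset V), (F.card : ℝ) ≤ 0 * Y.card → ((F ∩ P).card : ℝ) ≤ 0 * P.card := by
    intro P F hF
    have h4 : ((F ∩ P).card : ℝ) ≤ F.card := by exact_mod_cast card_le_card inter_subset_left
    linarith
  refine ⟨F₁ ∪ F₂ ∪ (Y.image (fun z => nO (sg R true) Y z) ∪ Y.image (fun z => nO (sg R false) Y z)), ?_, ?_⟩
  · have h4 := card_union_le (F₁ ∪ F₂) (Y.image (fun z => nO (sg R true) Y z) ∪ Y.image (fun z => nO (sg R false) Y z))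
    have h5 := card_union_le F₁ F₂
    have h6 := card_union_le (Y.image (fun z => nO (sg R true) Y z)) (Y.image (fun z => nO (sg R false) Y z))
    have h7 : (Y.image (fun z => nO (sg R true) Y z)).card ≤ Y.card := card_image_le
    have h8 : (Y.image (fun z => nO (sg R false) Y z)).card ≤ Y.card := card_image_le
    omega
  · intro P hP hRep
    refine ⟨?_, ?_⟩
    · intro z hz σ α hα0 hdeg
      have h4 : nO (sg R σ) P z = nO (sg R σ) Y z ∩ P := nO_inter hP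
      rw [h4]
      refine Rep.of_large hRep ?_ nO_sub hYn hdeg (by nlinarith)
      rw [mem_union, mem_union, mem_union]
      cases σ with
      | true => exact Or.inr (Or.inl (mem_image_of_mem _ hz))
      | false => exact Or.inr (Or.inr (mem_image_of_mem _ hz))
    · intro z hz σ
      cases σ with
      | true =>
        refine h3 P hP _ _ (fun F hF hc => ?_) (fun F _ hc => key P F hc) z hz (hgood z hz true)
        exact Rep.of_large hRep (mem_union_left _ (mem_union_left _ hF)) (h2 F hF) hYn hc (by linarith)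
      | false =>
        refine g3 P hP _ _ (fun F hF hc => ?_) (fun F _ hc => key P F hc) z hz (hgood z hz false)
        exact Rep.of_large hRep (mem_union_left _ (mem_union_right _ hF)) (g2 F hF) hYn hc (by linarith)

/-- **The reserves**: the connections for the scale `α₀`, the degrees for the scale `α` -/
theorem exists_reserve2 {α₀ : ℝ} (hα : 0 < α₀) (hα1 : α₀ ≤ 1) : ∃ ℓ : ℕ, ∀ (ζ : ℝ) (w₀ : ℕ), 0 < ζ → ζ ≤ 1 / 8 →
    ∃ n₂ : ℕ, ∀ {V : Type} {R : V → V → Prop}, AE32.Tour R → ∀ (Y : Finset V) (α : ℝ), n₂ ≤ Y.card → α₀ ≤ α →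
      Ex R (α * Y.card) Y → ∃ U Rc Ro : Finset V, Cor R Y U Rc Ro ℓ w₀ (α / 2 * ζ * Y.card) ∧
        (1 - 3 * ζ) * Y.card ≤ (U.card : ℝ) := by
  obtain ⟨κ, hκd⟩ : ∃ κ : ℝ, κ = α₀ ^ 2 / 2 := ⟨_, rfl⟩
  have hκ : 0 < κ := by rw [hκd]; positivity
  have hκα : κ ≤ α₀ := by rw [hκd]; nlinarith
  have hκ1 : κ ≤ 1 := hκα.trans hα1
  obtain ⟨M, hM⟩ : ∃ M : ℕ, M = ⌈8 / κ⌉₊ + 1 := ⟨_, rfl⟩
  refine ⟨M + 3, ?_⟩
  intro ζ w₀ hζ hζ1
  obtain ⟨n₁, hn₁⟩ := exists_pieces (ε := κ) (c := ζ) hκ hκ1 hζ 2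
  obtain ⟨a₁, ha₁⟩ : ∃ a₁ : ℝ, a₁ = ((2 * (w₀ + M + 3) * M + (w₀ + M + 3) : ℕ) : ℝ) := ⟨_, rfl⟩
  obtain ⟨a₂, ha₂⟩ : ∃ a₂ : ℝ, a₂ = ((2 * (w₀ + M + 3) * (M + 1) + 2 * (w₀ + M + 3) : ℕ) : ℝ) := ⟨_, rfl⟩
  obtain ⟨n₃, hn₃⟩ := exists_nat_ge (a₁ / (κ / 8 * κ / 4 * ζ))
  obtain ⟨n₄, hn₄⟩ := exists_nat_ge (a₂ / (α₀ / 2 * ζ))
  refine ⟨max n₁ (max n₃ (max n₄ 2)), ?_⟩
  intro V R hT Y α hY hαα hEx'
  have hY1 : n₁ ≤ Y.card := (le_max_left _ _).trans hY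
  have hY3 : n₃ ≤ Y.card := ((le_max_left _ _).trans (le_max_right _ _)).trans hY
  have hY4 : n₄ ≤ Y.card := ((le_max_left _ _).trans ((le_max_right _ _).trans (le_max_right _ _))).trans hY
  have hY2 : 2 ≤ Y.card := ((le_max_right _ _).trans ((le_max_right _ _).trans (le_max_right _ _))).trans hY
  have hY0 : (0 : ℝ) ≤ Y.card := by positivity
  have hEx : Ex R (α₀ * Y.card) Y := hEx'.mono (by gcongr)
  have hdeg : ∀ z ∈ Y, ∀ σ, α * Y.card ≤ ((nO (sg R σ) Y z).card : ℝ) := fun z hz σ =>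
    (hEx'.toEX.sg σ).deg (mul_nonneg (hα.le.trans hαα) hY0) hY2 hz
  obtain ⟨FF, hF1, hF2⟩ := core_family2 hα hα1 hY2 hEx
  rw [← hκd] at hF2
  have hFF : FF.card ≤ Y.card ^ 5 := by
    refine hF1.trans ?_
    have h1 : 8 * Y.card ^ 2 ≤ Y.card ^ 5 := by
      have : 2 ^ 3 ≤ Y.card ^ 3 := Nat.pow_le_pow_left hY2 3
      calc 8 * Y.card ^ 2 = 2 ^ 3 * Y.card ^ 2 := by norm_num
        _ ≤ Y.card ^ 3 * Y.card ^ 2 := Nat.mul_le_mul_right _ this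
        _ = Y.card ^ 5 := by rw [← pow_add]
    have h2 : 2 * Y.card ≤ Y.card ^ 2 := by nlinarith
    nlinarith
  obtain ⟨P, Q, q1, q2, q3, q4, q5, q6, q7, q8, q9⟩ := hn₁ Y FF hY1 hFF 2 ![(1 - 3 * ζ) * Y.card, ζ * Y.card] le_rfl
    (by
      intro i
      fin_cases i
      · show (0 : ℝ) ≤ (1 - 3 * ζ) * Y.card
        exact mul_nonneg (by linarith) hY0
      · show (0 : ℝ) ≤ ζ * Y.card
        positivity)
    (by
      rw [Fin.sum_univ_two]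
      show (1 - 3 * ζ) * (Y.card : ℝ) + ζ * Y.card ≤ (1 - 2 * ζ) * Y.card
      exact le_of_eq (by ring))
  have hU := q6 0
  have hRo := q6 1
  simp only [Matrix.cons_val_zero, Matrix.cons_val_one] at hU hRo
  have r1 := hF2 (P 1) (q1 1) (q7 1)
  have r2 := hF2 Q q5 q9
  refine ⟨P 0, Q, P 1, ⟨q1 0, q5, q1 1, q4 0, q3 0 1 (by decide), (q4 1).symm, ?_, ?_⟩, hU⟩
  · refine conn_of hT hα hκ hκ1 hκα q5 (fun z hz σ => ?_) r2.2 hM ?_ ?_
    · have h1 := r2.1 z hz σ α hαα (hdeg z hz σ)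
      have h2 : α₀ / 2 * (Q.card : ℝ) ≤ α / 2 * Q.card := mul_le_mul_of_nonneg_right (by linarith) (by positivity)
      linarith
    · rw [div_le_iff₀ (by positivity)] at hn₃
      have h3 : (n₃ : ℝ) ≤ Y.card := by exact_mod_cast hY3
      have h4 : (n₃ : ℝ) * (κ / 8 * κ / 4 * ζ) ≤ Y.card * (κ / 8 * κ / 4 * ζ) :=
        mul_le_mul_of_nonneg_right h3 (by positivity)
      have h5 : κ / 8 * κ / 4 * (ζ * Y.card) ≤ κ / 8 * κ / 4 * Q.card := mul_le_mul_of_nonneg_left q8 (by positivity)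
      rw [← ha₁]
      linarith
    · rw [div_le_iff₀ (by positivity)] at hn₄
      have h3 : (n₄ : ℝ) ≤ Y.card := by exact_mod_cast hY4
      have h4 : (n₄ : ℝ) * (α₀ / 2 * ζ) ≤ Y.card * (α₀ / 2 * ζ) := mul_le_mul_of_nonneg_right h3 (by positivity)
      have h5 : α₀ / 2 * (ζ * Y.card) ≤ α₀ / 2 * Q.card := mul_le_mul_of_nonneg_left q8 (by positivity)
      rw [← ha₂]
      linarith
  · intro y hy d
    have h1 := r1.1 y hy d α hαα (hdeg y hy d)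
    have h2 : α / 2 * (ζ * Y.card) ≤ α / 2 * (P 1).card := mul_le_mul_of_nonneg_left hRo (by
      have : 0 < α := lt_of_lt_of_le hα hαα
      positivity)
    rw [nb_eq]
    linarith

end AEJ
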