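import Pool.Agent.AEJ.Jump
import Pool.Agent.AEJ.Cuts0
import Pool.Agent.AEJT.PlaceI

/-!
# Jumps without turns

The branch `F` at the mark is small against the slack of the coarse state of the tree, the path to the mark is arbitrary.
-/

namespace AEJ

open Finset AE15 AED AELT AEK LTT
open scoped Classical

theorem dcl_un_le (M : Mu) (q : Bool × Fd) : dcl M.un ≤ dcl (M.plug q) := by
  induction M with
  | leaf s =>
    simp only [Mu.plug, Mu.un, dcl]
    omega
  | step s d t ih =>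
    simp only [Mu.plug, Mu.un, dcl]
    split_ifs <;> omega

theorem blk_un_le (M : Mu) (q : Bool × Fd) : AEB.blk M.un ≤ AEB.blk (M.plug q) := by
  induction M with
  | leaf s =>
    obtain ⟨d, F⟩ := q
    cases d <;> simp [Mu.plug, Mu.un, AEB.blk]
  | step s d t ih =>
    cases d
    · simp only [Mu.plug, Mu.un, AEB.blk, Bool.false_eq_true, if_false]
      omega
    · simp [Mu.plug, Mu.un, AEB.blk]

/-- some block is dense in `P` -/
theorem exists_block {V : Type*} {Z P : Finset V} {β : V → ℕ} {c : ℝ} (hP : P ⊆ Z) (hP0 : P.Nonempty)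
    (h : c * Z.card ≤ P.card) : ∃ z ∈ P, c * ((Z.filter (fun v => β v = β z)).card : ℝ) ≤
      ((P.filter (fun v => β v = β z)).card : ℝ) := by
  by_contra hcon
  push Not at hcon
  have h1 : P.card = ∑ j ∈ P.image β, (P.filter (fun v => β v = j)).card :=
    card_eq_sum_card_image β P
  have h2 : ∑ j ∈ P.image β, ((Z.filter (fun v => β v = j)).card : ℝ) ≤ Z.card := by
    have h3 : ∑ j ∈ P.image β, (Z.filter (fun v => β v = j)).card ≤ Z.card := by
      rw [← card_biUnion]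
      · apply card_le_card
        intro v hv
        rw [mem_biUnion] at hv
        obtain ⟨j, -, hj⟩ := hv
        exact (mem_filter.1 hj).1
      · intro i _ j _ hij
        rw [Function.onFun, disjoint_left]
        intro v hv hv'
        exact hij ((mem_filter.1 hv).2.symm.trans (mem_filter.1 hv').2)
    exact_mod_cast h3
  have h3 : (P.card : ℝ) < c * ∑ j ∈ P.image β, ((Z.filter (fun v => β v = j)).card : ℝ) := by
    rw [h1, mul_sum]
    push_cast
    apply sum_lt_sum_of_nonempty (hP0.image β)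
    intro j hj
    obtain ⟨z, hz, rfl⟩ := mem_image.1 hj
    exact hcon z hz
  obtain ⟨z, hz⟩ := hP0
  have hc : 0 < c := by
    by_contra hc
    push Not at hc
    have h4 := hcon z hz
    have h5 : (0 : ℝ) ≤ ((P.filter (fun v => β v = β z)).card : ℝ) := Nat.cast_nonneg _
    have h6 : c * ((Z.filter (fun v => β v = β z)).card : ℝ) ≤ 0 := mul_nonpos_of_nonpos_of_nonneg hc (Nat.cast_nonneg _)
    linarith
  have h4 : c * ∑ j ∈ P.image β, ((Z.filter (fun v => β v = j)).card : ℝ) ≤ c * Z.card :=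
    mul_le_mul_of_nonneg_left h2 hc.le
  linarith

/-- the numbers in the application of the region lemma -/
theorem jump0_num1 {n h f ε ε₁ η Zc Aj Aj1 D D' C : ℝ} (hn : 0 < n) (hε : 0 < ε) (hη4 : η ≤ ε / 200) (hε1 : ε₁ ≤ ε / 4)
    (hC : 0 ≤ C) (hnT : h + f + 1 + C ≤ n) (hfκ : f ≤ ε / 64 * n) (hnear : (1 - ε₁) * n < h + f + 1) (hZ2 : Zc ≤ n)
    (hreach : (D + 1) + ε * n ≤ (Zc - Aj) + η / 4 * n) (hD : D' ≤ D) (hD0 : 0 ≤ D) :
    Aj + (D' + 1) ≤ h + 1 ∧ (h + 1 < Aj1 → ε / 2 * n ≤ Aj1 - Aj) := by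
  have hεn : ε₁ * n ≤ ε / 4 * n := mul_le_mul_of_nonneg_right hε1 hn.le
  have hηn : η * n ≤ ε / 200 * n := mul_le_mul_of_nonneg_right hη4 hn.le
  have h0 : 0 < ε * n := by positivity
  refine ⟨by linarith, fun h1 => by linarith⟩

theorem jump0_plug (b : ℕ) (hb : 1 ≤ b) {θ : ℝ} (hθ : 0 < θ) (hθ1 : θ ≤ 1) (κ ε β : ℝ) (hκ : 0 < κ)
    (hε : 0 < ε) (hβ : 0 < β) : ∃ κ₀ : ℝ, 0 < κ₀ ∧ ∀ θ₁ : ℝ, 0 < θ₁ → ∃ C₀ : ℝ, ∀ C : ℝ, C₀ ≤ C →
      ∀ (M₀ : Mu) (F : Fd), (M₀.plug (true, F)).len ≤ b → (M₀.plug (true, F)).Deg b →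
        θ₁ * ((M₀.plug (true, F)).size + 1) ≤ (F.size : ℝ) + 1 →
        (F.size : ℝ) + 1 ≤ κ₀ * ((M₀.plug (true, F)).size + 1) →
        θ * (F.size + 1) + dcl F + AEB.blk F ≤ (F.size : ℝ) + 1 → Coarse (θ / 1024) (θ / 64) (θ / 1000) C F →
          Coarse κ ε β C (M₀.plug (true, F)) := by
  obtain ⟨ε₀, hε₀⟩ : ∃ ε₀ : ℝ, ε₀ = min ε 1 := ⟨_, rfl⟩
  obtain ⟨β₀, hβ₀⟩ : ∃ β₀ : ℝ, β₀ = min β 1 := ⟨_, rfl⟩
  have ε00 : 0 < ε₀ := by rw [hε₀]; exact lt_min hε one_pos
  have β00 : 0 < β₀ := by rw [hβ₀]; exact lt_min hβ one_pos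
  have ε01 : ε₀ ≤ 1 := by rw [hε₀]; exact min_le_right _ _
  have β01 : β₀ ≤ 1 := by rw [hβ₀]; exact min_le_right _ _
  have ε0e : ε₀ ≤ ε := by rw [hε₀]; exact min_le_left _ _
  have β0b : β₀ ≤ β := by rw [hβ₀]; exact min_le_left _ _
  refine ⟨β₀ * ε₀ / 64, by positivity, ?_⟩
  intro θ₁ hθ₁
  obtain ⟨u, η, ε₁, hu0, hu1, huθ, hη0, hηβ, hη2, hη3, hη4, hε0, hε1, hεβ, hεu⟩ := jump_consts hθ hθ₁ ε00 β00
  obtain ⟨nl, hlt⟩ := lt1 b hb hκ hε0
  obtain ⟨a0, ha0, nc, hcl⟩ := clean (k := κ) (eta := η / 4) hκ (by positivity) (by linarith) (fun _ => η / 32)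
    (fun _ _ => by positivity)
  obtain ⟨α, hα⟩ : ∃ α : ℝ, α = min a0 1 := ⟨_, rfl⟩
  have hα0 : 0 < α := by rw [hα]; exact lt_min ha0 one_pos
  have hα1 : α ≤ 1 := by rw [hα]; exact min_le_right _ _
  have hαa : α ≤ a0 := by rw [hα]; exact min_le_left _ _
  obtain ⟨ℓ, hpl0⟩ := placeL b hb (α := α) hα0 hα1
  obtain ⟨np, mp, hpl⟩ := hpl0 (δ := η / 2) (γ := θ * u / 200) (by positivity) (by linarith) (by positivity)
  obtain ⟨nq, mq, hpi⟩ := AEJT.placeI b hb (α := α) (δ := η / 2) (γ := θ * u / 200) hα0 hα1 (by positivity) (by linarith)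
    (by positivity)
  obtain ⟨m₁, hm₁⟩ : ∃ m₁ : ℕ, m₁ = max mp mq := ⟨_, rfl⟩
  refine ⟨nl + nc + np + nq + 200 / η + 2000 * (9 * m₁ + 10) / (θ * u), ?_⟩
  intro C hC M₀ F hl hD hθF hκF hwin hco V R hT X N hX hN
  obtain ⟨n, hn⟩ : ∃ n : ℝ, n = (X.card : ℝ) := ⟨_, rfl⟩
  have p1 : (0 : ℝ) ≤ 200 / η := by positivity
  have p2 : (0 : ℝ) ≤ 2000 * (9 * m₁ + 10) / (θ * u) := by positivity
  have p3 : (0 : ℝ) ≤ nl := Nat.cast_nonneg _
  have p4 : (0 : ℝ) ≤ nc := Nat.cast_nonneg _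
  have p5 : (0 : ℝ) ≤ np := Nat.cast_nonneg _
  have p6 : (0 : ℝ) ≤ nq := Nat.cast_nonneg _
  have hC0 : 0 ≤ C := by linarith
  have hsz := M₀.size_plug (true, F)
  obtain ⟨h, hh⟩ : ∃ h : ℝ, h = (M₀.un.size : ℝ) := ⟨_, rfl⟩
  obtain ⟨f, hf⟩ : ∃ f : ℝ, f = (F.size : ℝ) + 1 := ⟨_, rfl⟩
  have hszr : ((M₀.plug (true, F)).size : ℝ) = h + f := by
    rw [hsz, hh, hf]
    push_cast
    ring
  rw [hszr, ← hn] at hX
  have hh0 : 0 ≤ h := by rw [hh]; positivity
  have hf0 : 1 ≤ f := by rw [hf]; linarith [(Nat.cast_nonneg F.size : (0 : ℝ) ≤ F.size)]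
  have hnl : nl ≤ X.card := by
    have : (nl : ℝ) ≤ X.card := by
      rw [← hn]
      linarith
    exact_mod_cast this
  have hnc : nc ≤ X.card := by
    have : (nc : ℝ) ≤ X.card := by
      rw [← hn]
      linarith
    exact_mod_cast this
  have hnp : np ≤ X.card := by
    have : (np : ℝ) ≤ X.card := by
      rw [← hn]
      linarith
    exact_mod_cast this
  have hnq : nq ≤ X.card := by
    have : (nq : ℝ) ≤ X.card := by
      rw [← hn]
      linarith
    exact_mod_cast this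
  have hn1 : 200 / η ≤ n := by linarith
  have hn2 : 2000 * (9 * m₁ + 10) / (θ * u) ≤ n := by linarith
  have hn0 : 0 < n := by linarith
  rw [← hn] at hN
  by_cases hreg : ((M₀.plug (true, F)).size + 1 : ℝ) ≤ (1 - ε₁) * X.card
  · -- there is room: the light theorem
    refine hlt hT X N hnl _ hl hD hreg ?_
    have h1 : ε₁ * (X.card : ℝ) ≤ β * n := by rw [hn]; exact mul_le_mul_of_nonneg_right (hεβ.trans β0b) (by positivity)
    refine h1.trans (hN.trans ?_)
    have h2 : ε₁ * (X.card : ℝ) ≤ ε * X.card := mul_le_mul_of_nonneg_right (by linarith) (by positivity)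
    have h3 : Adm R κ ε (M₀.plug (true, F)) X N ⊆ X.filter (fun z => N z ∧
        Wide R κ ((dcl (M₀.plug (true, F)) + 1) + ε₁ * X.card) X z ∧
        Wide (fun a b => R b a) κ ((AEB.blk (M₀.plug (true, F)) + 1) + ε₁ * X.card) X z) := by
      intro v hv
      unfold Adm at hv
      rw [mem_filter] at hv ⊢
      exact ⟨hv.1, hv.2.1, wide_mono (by linarith) hv.2.2.1, wide_mono (by linarith) hv.2.2.2⟩
    exact_mod_cast card_le_card h3
  push Not at hreg
  rw [hszr, ← hn] at hreg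
  rw [hszr, ← hf] at hθF
  have hfn : u * n / 2 ≤ f := by
    have h1 : u * ((1 - ε₁) * n) ≤ θ₁ * (h + f + 1) := by
      refine mul_le_mul huθ hreg.le ?_ hθ₁.le
      exact mul_nonneg (by linarith) hn0.le
    have h2 : 1 / 2 * (u * n) ≤ (1 - ε₁) * (u * n) := mul_le_mul_of_nonneg_right (by linarith) (by positivity)
    linarith
  have hn2f : n ≤ h + f + 1 + f := by
    have h1 : ε₁ * n ≤ u / 2 * n := mul_le_mul_of_nonneg_right hεu hn0.le
    linarith
  have hκ1 : β₀ * ε₀ / 64 ≤ ε₀ / 64 := by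
    have : β₀ * ε₀ ≤ 1 * ε₀ := mul_le_mul_of_nonneg_right β01 ε00.le
    linarith
  have hfκ0 : f ≤ β₀ * ε₀ / 64 * n := by
    rw [hszr, ← hf] at hκF
    refine hκF.trans (mul_le_mul_of_nonneg_left (by linarith) (by positivity))
  have hfκ : f ≤ ε₀ / 64 * n := hfκ0.trans (mul_le_mul_of_nonneg_right hκ1 hn0.le)
  obtain ⟨al, be, Z, c1, c2, c3, c4, c5, c6, c7, c8, c9⟩ := hcl hT X hnc
  rw [← hn] at c4 c5 c6 c7 c8 c9
  have hZn : (Z.card : ℝ) ≤ n := by rw [hn]; exact_mod_cast card_le_card c3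
  -- the block of the root
  obtain ⟨P, hP⟩ : ∃ P, P = Adm R κ ε (M₀.plug (true, F)) X N ∩ Z := ⟨_, rfl⟩
  have hPZ : P ⊆ Z := by rw [hP]; exact inter_subset_right
  have hPc : β₀ / 2 * n ≤ P.card := by
    have h1 : Adm R κ ε (M₀.plug (true, F)) X N ⊆ P ∪ (X \ Z) := fun v hv => by
      rw [mem_union, hP, mem_inter, mem_sdiff]
      by_cases h : v ∈ Z
      · exact Or.inl ⟨hv, h⟩
      · exact Or.inr ⟨(mem_filter.1 hv).1, h⟩
    have h2 : ((Adm R κ ε (M₀.plug (true, F)) X N).card : ℝ) ≤ P.card + ((X \ Z).card : ℝ) := by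
      exact_mod_cast (card_le_card h1).trans (card_union_le _ _)
    have h3 : ((X \ Z).card : ℝ) = n - Z.card := by
      rw [card_sdiff_of_subset c3, Nat.cast_sub (card_le_card c3), hn]
    have h4 : η * n ≤ β₀ * n := mul_le_mul_of_nonneg_right hηβ hn0.le
    have h5 : β₀ * n ≤ β * n := mul_le_mul_of_nonneg_right β0b hn0.le
    linarith
  have hP0 : P.Nonempty := by
    rw [← card_pos]
    have : (0 : ℝ) < P.card := by
      have : 0 < β₀ / 2 * n := by positivity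
      linarith
    exact_mod_cast this
  obtain ⟨z₀, hz₀P, hden⟩ := exists_block (β := be) (c := β₀ / 2) hPZ hP0
    ((mul_le_mul_of_nonneg_left hZn (by positivity)).trans hPc)
  have hz₀Z := hPZ hz₀P
  have hz₀A : z₀ ∈ Adm R κ ε (M₀.plug (true, F)) X N := by rw [hP] at hz₀P; exact (mem_inter.1 hz₀P).1
  unfold Adm at hz₀A
  rw [mem_filter] at hz₀A
  obtain ⟨hz₀X, hNz₀, hW1, hW2⟩ := hz₀A
  have hr1 := c8 z₀ hz₀Z _ hW1
  have hr2 := c9 z₀ hz₀Z _ hW2
  rw [cum_ge, ← hn] at hr1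
  rw [cum_le, ← hn] at hr2
  have hεn : ε₀ * n ≤ ε * n := mul_le_mul_of_nonneg_right ε0e hn0.le
  obtain ⟨σ, hσ⟩ : ∃ σ : ℝ, σ = 28 * η / u := ⟨_, rfl⟩
  obtain ⟨g1, g2, g3, g4, g5, g6, g7, g8⟩ := jump_num1 (h := h) (f := f) (Zc := Z.card) (ε := ε₀)
    (D := dcl (M₀.plug (true, F))) (B := AEB.blk (M₀.plug (true, F))) (Aj := cum Z be (be z₀))
    (Aj1 := cum Z be (be z₀ + 1)) hn0 hu0 hu1 hη0 hη2 hη3 hη4
    hε1 ε00 hθ hθ1 hσ hC0 (by linarith) hfn (by linarith) c4 hZn hh0 (by linarith [hr1]) (by linarith [hr2]) hn1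
  have hη5 : η ≤ ε₀ / 200 := by
    have : ε₀ * u ≤ ε₀ * 1 := mul_le_mul_of_nonneg_left hu1 ε00.le
    linarith
  have hD1 : (rch true M₀.un : ℝ) ≤ dcl (M₀.plug (true, F)) := by
    rw [← dcl_eq_rch]
    exact_mod_cast dcl_un_le M₀ (true, F)
  have hB1 : (rch false M₀.un : ℝ) ≤ AEB.blk (M₀.plug (true, F)) := by
    rw [← blk_eq_rch]
    exact_mod_cast blk_un_le M₀ (true, F)
  obtain ⟨g9, g10⟩ := jump0_num1 (h := h) (f := f) (Zc := Z.card) (ε := ε₀) (Aj := cum Z be (be z₀))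
    (Aj1 := cum Z be (be z₀ + 1)) hn0 ε00 hη5 hε1 hC0 (by linarith) hfκ (by linarith) hZn (by linarith [hr1]) hD1
    (Nat.cast_nonneg _)
  -- the regions
  obtain ⟨t, e, k, M, s, a, ι, t1, t2, t3, t4, t5, t6, t7, t8, t9, t10, t11, t12, t13, t14, t15, t16, t17, t18, t19⟩ :=
    exists_regions0 M₀ (N := Z.sup be + 1) (j := be z₀) (A := cum Z be) (cum_zero _ _) (cum_mono _ _)
    (Nat.lt_succ_of_le (le_sup (f := be) hz₀Z)) (f := F.size + 1) (au := AEB.blk F + 1) (du := dcl F + 1) (σ := 0)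
    (σ' := σ) (δ := η * n) (L := θ * f - 1) le_rfl zero_le_one g1 g8 g2
    (by
      rw [cum_all (fun v hv => Nat.lt_succ_of_le (le_sup (f := be) hv)), ← hh]
      push_cast
      rw [← hf]
      linarith)
    (by linarith) (by rw [← hh]; linarith) g6 (by push_cast; rw [← hf]; exact g7)
    (by
      push_cast
      rw [← hf] at hwin ⊢
      linarith)
  obtain ⟨s', hs'⟩ : ∃ s' : ℕ → ℕ, s' = fun m => if m < 5 then s m else 0 := ⟨_, rfl⟩
  have hs'lt : ∀ m, m < 5 → s' m = s m := fun m hm => by rw [hs']; simp [hm]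
  have hMun : M.un = M₀.un := by rw [← M.er_un, t8]
  obtain ⟨q1, -, -⟩ := Mu.deg_plug hD
  have q2 := Mu.len_plug hl
  have hcum : ∀ m, ((seg Z be (t m) (t (m + 1))).card : ℝ) = cum Z be (t (m + 1)) - cum Z be (t m) :=
    fun m => cum_seg Z be (t1 (Nat.le_succ m))
  have hroom : ∀ m, (M.fn.num m = 0 ∧ s' m = 0) ∨
      (M.fn.num m : ℝ) + s' m + η / 2 * n ≤ (seg Z be (t m) (t (m + 1))).card := by
    intro m
    by_cases hm : m < 5
    · rw [hs'lt m hm, hcum]
      rcases t11 m hm with h1 | h1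
      · exact Or.inl h1
      · right; linarith
    · left
      exact ⟨t10 m (by omega), by rw [hs']; simp [hm]⟩
  have hex : ∀ x ∈ Z, η / 2 * n ≤ ((Z.filter (fun v => be v = be x)).card : ℝ) →
      Ex R (α * (Z.filter (fun v => be v = be x)).card) (Z.filter (fun v => be v = be x)) := by
    intro x hx h1
    refine (c7 x hx (by linarith [mul_pos hη0 hn0])).mono ?_
    refine mul_le_mul (hαa.trans c1) ?_ (by positivity) (by linarith)
    rw [hn]
    exact_mod_cast card_le_card ((filter_subset _ _).trans c3)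
  have hνn : η / 32 * n ≤ θ * u / 200 / 16 * n := by
    apply mul_le_mul_of_nonneg_right _ hn0.le
    have : 0 < θ * u := by positivity
    linarith
  have hG5 : ∀ m, 5 ≤ m → seg Z be (t m) (t (m + 1)) = ∅ := by
    intro m hm
    rw [eq_empty_iff_forall_notMem]
    intro v hv
    rw [mem_seg] at hv
    have h1 := t1 hm
    have h2 : be v ≤ Z.sup be := le_sup (f := be) hv.1
    rw [t3] at h1
    omega
  have hιn : θ * u / 200 * n ≤ (ι : ℝ) := by
    have h1 : θ * (u * n / 2) ≤ θ * f := mul_le_mul_of_nonneg_left hfn hθ.le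
    have h2 : θ * u / 200 * n = θ * (u * n / 2) / 100 := by ring
    linarith
  have hexk : M.lab e = k → Ex R (α * (seg Z be (t k) (t (k + 1))).card) (seg Z be (t k) (t (k + 1))) := by
    intro h1
    rcases t18 with h2 | ⟨-, h2⟩
    · omega
    · have h3 : η / 2 * n ≤ ((seg Z be (t k) (t (k + 1))).card : ℝ) := by
        rcases hroom k with h2 | h2
        · exfalso
          have h3 := h2.2
          rw [hs'lt k t7] at h3
          have h4 : ι = 0 := by omega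
          rw [h4] at t15
          push_cast at t15
          linarith
        · have h3 : (0 : ℝ) ≤ (M.fn.num k : ℝ) + s' k := by positivity
          linarith
      obtain ⟨x, hx⟩ : (seg Z be (t k) (t (k + 1))).Nonempty := by
        rw [← card_pos]
        have : (0 : ℝ) < ((seg Z be (t k) (t (k + 1))).card : ℝ) := by
          have : 0 < η * n := by positivity
          linarith
        exact_mod_cast this
      rw [mem_seg] at hx
      have hbx : be x = t k := by omega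
      rw [seg_one Z be hbx.symm (by omega)] at h3 ⊢
      exact hex x hx.1 h3
  obtain ⟨z, S, π, A, w, hzP, r1, r2, r3, r4, r5, r6, r7, r8, r9, r10⟩ : ∃ (z : V) (S : ℕ → Finset V) (π : V → ℕ)
      (A : Finset V) (w : V), z ∈ P ∧ (∀ m, S m ⊆ seg Z be (t m) (t (m + 1))) ∧ (∀ m, (S m).card = s' m) ∧
      AEM.MedO R (S k) π ∧ z ∉ A ∧ A ⊆ X ∧ EmbM R M z A w ∧ w ∈ seg Z be (t (M.lab e)) (t (M.lab e + 1)) ∧
      (∀ m, m ≠ k → Disjoint (insert z A) (S m)) ∧ (insert z A ∩ S k).card ≤ m₁ ∧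
      (M.lab e = k → (ι : ℝ) / 3 ≤ ((nO R ((S k).filter (fun v => a ≤ π v ∧ π v < a + ι)) w).card : ℝ)) := by
    by_cases hIn : M.In e ∧ e = k
    · obtain ⟨hI, hek⟩ := hIn
      have hlab : M.lab e = k := (Mn.lab_of_in hI).trans hek
      have hbig : ε₀ / 2 * n ≤ cum Z be (be z₀ + 1) - cum Z be (be z₀) := by
        apply g10
        by_contra hcon
        push Not at hcon
        have := t19 (by rw [← hh]; linarith)
        omega
      have hPb : ((P.filter (fun v => be v = be z₀)).card : ℝ) ≥ β₀ * ε₀ / 4 * n := by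
        have h1 : ((Z.filter (fun v => be v = be z₀)).card : ℝ) = cum Z be (be z₀ + 1) - cum Z be (be z₀) := by
          rw [← seg_one Z be rfl rfl]
          exact cum_seg Z be (Nat.le_succ _)
        rw [h1] at hden
        have h2 : β₀ / 2 * (ε₀ / 2 * n) ≤ β₀ / 2 * (cum Z be (be z₀ + 1) - cum Z be (be z₀)) :=
          mul_le_mul_of_nonneg_left hbig (by positivity)
        linarith
      have hse : (s' e : ℝ) ≤ f := by
        rw [hs'lt e t4]
        have h1 : (s e : ℝ) ≤ ∑ m ∈ range 5, (s m : ℝ) :=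
          single_le_sum (f := fun m => (s m : ℝ)) (fun i _ => Nat.cast_nonneg _) (mem_range.2 t4)
        push_cast at t13
        linarith
      have hγ : θ * u / 200 * n ≤ β₀ * ε₀ / 64 * n := by
        have h1 : θ * (u * n) ≤ 1 * (u * n) := mul_le_mul_of_nonneg_right hθ1 (by positivity)
        have h2 : θ * u / 200 * n = θ * (u * n) / 200 := by ring
        linarith
      obtain ⟨S, π, A, z, w, r1, r2, r3, r4, r5, r6, r7, r8, r9, r10, r11, r12⟩ := hpi hT X
        (fun m => seg Z be (t m) (t (m + 1))) (η / 32 * n) M e (P.filter (fun v => be v = be z₀)) s' a ι hnq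
        (fun m => (filter_subset _ _).trans c3) (fun i j hij => seg_disjoint t1 i j hij) (seg_typ t1 c5 c6)
        (by rw [← hn]; linarith) t9 (by rw [hMun]; exact q1) (by rw [hMun]; exact q2) hI
        (by rw [hek]; exact hexk hlab) (by rw [← hn]; exact hroom)
        (by
          show P.filter (fun v => be v = be z₀) ⊆ seg Z be (t e) (t (e + 1))
          rw [seg_one Z be t5 t6]
          exact filter_subset_filter _ hPZ)
        (by rw [← hn]; linarith) (by rw [← hn]; exact hιn) (by rw [hek, hs'lt k t7]; exact t14)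
      subst hek
      refine ⟨z, S, π, A, w, (mem_filter.1 r5).1, r1, r2, r4, r6, r7, r9, ?_, r10, r11.trans ?_, fun _ => r12⟩
      · rw [hlab]
        exact r1 _ r8
      · rw [hm₁]; exact le_max_right _ _
    · obtain ⟨S, π, A, w, r1, r2, r3, r4, r5, r6, r7, r8, r9, r10⟩ := hpl hT X (fun m => seg Z be (t m) (t (m + 1)))
        (η / 32 * n) M e k z₀ s' a ι hnp (fun m => (filter_subset _ _).trans c3) (fun i j hij => seg_disjoint t1 i j hij)
        hG5 (seg_typ t1 c5 c6) (by positivity) (by rw [← hn]; linarith) (by rw [← hn]; exact hνn) t9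
        (by rw [hMun]; exact q1) (by rw [hMun]; exact q2) (fun h1 h2 => absurd ⟨h1, h2⟩ hIn)
        (by rw [mem_seg]; exact ⟨hz₀Z, t5.le, by omega⟩)
        (by
          intro h1
          show Ex R (α * (seg Z be (t e) (t (e + 1))).card) (seg Z be (t e) (t (e + 1)))
          rw [seg_one Z be t5 t6]
          apply hex z₀ hz₀Z
          rw [← seg_one Z be t5 t6]
          rcases hroom e with h2 | h2
          · exfalso
            have := Fn.size_top e M.fn
            omega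
          · have h3 : (0 : ℝ) ≤ (M.fn.num e : ℝ) + s' e := by positivity
            linarith)
        hexk (by rw [← hn]; exact hroom) (by rw [← hn]; exact hιn) (by rw [hs'lt k t7]; exact t14)
      exact ⟨z₀, S, π, A, w, hz₀P, r1, r2, r3, r4, r5, r6, r7, r8, r9.trans (by rw [hm₁]; exact le_max_left _ _), r10⟩
  have hzA : z ∈ Adm R κ ε (M₀.plug (true, F)) X N := by rw [hP] at hzP; exact (mem_inter.1 hzP).1
  have hzX : z ∈ X := (mem_filter.1 hzA).1
  have hNz : N z := (mem_filter.1 hzA).2.1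
  have hk5 : ∀ m ∈ range k, s' m = s m := fun m hm => hs'lt m (by rw [mem_range] at hm; omega)
  have hι : (ι : ℝ) / 3 ≤ ((nO R ((S k).filter (fun v => a ≤ π v ∧ π v < a + ι)) w).card : ℝ) := by
    rcases t18 with h1 | ⟨h1, -⟩
    · -- the host of the mark is in an earlier region
      have h2 := ((seg_typ (R := R) t1 c5 c6) _ _ h1).1 w r7
      have h3 : ((S k).filter (fun v => a ≤ π v ∧ π v < a + ι)).card = ι := by
        have := r3.card_seg (a := a) (b := a + ι) (by rw [r2, hs'lt k t7]; exact t14)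
        omega
      have h4 : (((S k).filter (fun v => a ≤ π v ∧ π v < a + ι)).filter (fun v => ¬ R w v)).card ≤
          ((seg Z be (t k) (t (k + 1))).filter (fun v => ¬ R w v)).card := by
        apply card_le_card
        intro v hv
        rw [mem_filter, mem_filter] at hv
        rw [mem_filter]
        exact ⟨r1 k hv.1.1, hv.2⟩
      have h5 : (nO R ((S k).filter (fun v => a ≤ π v ∧ π v < a + ι)) w).card +
          (((S k).filter (fun v => a ≤ π v ∧ π v < a + ι)).filter (fun v => ¬ R w v)).card =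
          ((S k).filter (fun v => a ≤ π v ∧ π v < a + ι)).card := by
        rw [nO]
        exact card_filter_add_card_filter_not _
      rw [h3] at h5
      have h6 : ((nO R ((S k).filter (fun v => a ≤ π v ∧ π v < a + ι)) w).card : ℝ) +
          (((S k).filter (fun v => a ≤ π v ∧ π v < a + ι)).filter (fun v => ¬ R w v)).card = ι := by exact_mod_cast h5
      have h7 : ((((S k).filter (fun v => a ≤ π v ∧ π v < a + ι)).filter (fun v => ¬ R w v)).card : ℝ) ≤ η / 32 * n := by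
        refine le_trans ?_ h2
        exact_mod_cast h4
      have h8 : θ * (u * n / 2) ≤ θ * f := mul_le_mul_of_nonneg_left hfn hθ.le
      have h9 : η * n ≤ θ * u / 8000 * n := mul_le_mul_of_nonneg_right hη3 hn0.le
      have h10 : θ * u / 8000 * n = θ * (u * n / 2) / 4000 := by ring
      linarith
    · exact r10 h1
  have hsum : ∑ m ∈ Ico k 5, (s m : ℝ) = s k + ∑ m ∈ Ico (k + 1) 5, (s m : ℝ) := by
    rw [sum_eq_sum_Ico_succ_bot t7]
  have hsum1 : ∑ m ∈ Ico (k + 1) 5, (s' m : ℝ) = ∑ m ∈ Ico (k + 1) 5, (s m : ℝ) :=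
    sum_congr rfl (fun m hm => by rw [hs'lt m (mem_Ico.1 hm).2])
  have hsum2 : ∑ m ∈ range k, (s' m : ℝ) = ∑ m ∈ range k, (s m : ℝ) :=
    sum_congr rfl (fun m hm => by rw [hk5 m hm])
  obtain ⟨x', hx'⟩ : ∃ x' : ℝ, x' = n - (h + 1) := ⟨_, rfl⟩
  obtain ⟨y1, y2, y3⟩ := jump_num2 (n := n) (h := h) (f := f) (θ := θ) (u := u) (η := η) (ν := η / 32 * n)
    (s1 := ∑ m ∈ range k, (s m : ℝ)) (s2 := ∑ m ∈ Ico (k + 1) 5, (s m : ℝ)) (sk := s k) (a := a) (ι := ι) (D := dcl F)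
    (B := AEB.blk F) (x' := x') (m := m₁) hθ hu0 hn0 (by positivity) hfn hn2f hx' le_rfl hη3 hn2 t15
    (by push_cast at t16; linarith) (by push_cast at t17; rw [hsum] at t17; linarith)
  have hfin := jump_fin hT t1 (ν := η / 32 * n) (κ' := θ / 1024) (ε' := θ / 64) (β' := θ / 1000) (C := C) (M := M)
    (F := F) (k := k) (m₀ := m₁) (a := a) (ι := ι) (N := N) (s := s') c3 r1 r2 r3 r4 hzX r5 r6 r8 r9 c5 c6 hι
    (x' := x') (by rw [hx', hn, hh, hMun]) (by positivity) (by rw [hsum1, hs'lt k t7]; exact y1)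
    (by rw [hsum2]; exact y2) y3 (by rw [hx', ← hf]; linarith) hco hNz
  rw [← M.er_plug, t8] at hfin
  exact hfin


/-- both directions of the arc of the final branch -/
theorem jump0_mu (b : ℕ) (hb : 1 ≤ b) {θ : ℝ} (hθ : 0 < θ) (hθ1 : θ ≤ 1) (κ ε β : ℝ) (hκ : 0 < κ)
    (hε : 0 < ε) (hβ : 0 < β) : ∃ κ₀ : ℝ, 0 < κ₀ ∧ ∀ θ₁ : ℝ, 0 < θ₁ → ∃ C₀ : ℝ, ∀ C : ℝ, C₀ ≤ C →
      ∀ (M₀ : Mu) (q : Bool × Fd), (M₀.plug q).len ≤ b → (M₀.plug q).Deg b →
        θ₁ * ((M₀.plug q).size + 1) ≤ (q.2.size : ℝ) + 1 → (q.2.size : ℝ) + 1 ≤ κ₀ * ((M₀.plug q).size + 1) →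
        θ * (q.2.size + 1) + dcl q.2 + AEB.blk q.2 ≤ (q.2.size : ℝ) + 1 → Coarse (θ / 1024) (θ / 64) (θ / 1000) C q.2 →
          Coarse κ ε β C (M₀.plug q) := by
  obtain ⟨κ₀, hκ₀, H⟩ := jump0_plug b hb hθ hθ1 κ ε β hκ hε hβ
  refine ⟨κ₀, hκ₀, ?_⟩
  intro θ₁ hθ₁
  obtain ⟨C₀, hC₀⟩ := H θ₁ hθ₁
  refine ⟨C₀, ?_⟩
  rintro C hC M₀ ⟨d, F⟩ hl hD hsz hsz' hwin hco
  cases d with
  | true => exact hC₀ C hC M₀ F hl hD hsz hsz' hwin hco
  | false =>
    have h1 := M₀.mrr_plug (false, F)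
    simp only [Bool.not_false] at h1
    have h2 : Coarse κ ε β C (M₀.mrr.plug (true, AEK.mrr F)) := hC₀ C hC M₀.mrr (AEK.mrr F)
      (by rw [h1, mrr_len]; exact hl) (by rw [h1]; exact mrr_deg hD)
      (by rw [h1, mrr_size, mrr_size]; exact hsz) (by rw [h1, mrr_size, mrr_size]; exact hsz')
      (by rw [mrr_size, dcl_mrr, blk_mrr]; linarith) (coarse_mrr.2 hco)
    rw [h1] at h2
    exact @Iff.mp _ _ (@coarse_mrr κ ε β C (M₀.plug (false, F))) h2

theorem ptT_mu0 {k : ℕ} {p q : Bool × Fd} {m : ℕ} (h : AESK.PtT k p q m) (hs : q.2.size < p.2.size) :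
    ∃ M : Mu, Eqt p.2 (M.plug q) := by
  obtain ⟨l, h1, -⟩ := h.spine
  cases l with
  | nil =>
    cases h1
    exact absurd hs (lt_irrefl _)
  | cons t l => exact ⟨toMu (t :: l), spine_mu h1 (by simp)⟩

/-- **Jump without turns**: `q = (d, F)` is a branch of the tree `T` (forest `c` at the root) with at least `θ₁ |T|` and at
most `κ₀ |T|` vertices, and the window of its root has length at least `θ |F|`; then the coarse state of `F` gives the
coarse state of `T`, with the same `C`. The constants of the coarse state of `F` depend on `b` and `θ` only; `κ₀` does not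
depend on `θ₁`. The path from the root of `T` to `F` is arbitrary. -/
theorem jump0 (b : ℕ) (hb : 1 ≤ b) {θ : ℝ} (hθ : 0 < θ) (hθ1 : θ ≤ 1) : ∃ κ' ε' β' : ℝ, 0 < κ' ∧ 0 < ε' ∧ 0 < β' ∧
    ∀ κ ε β : ℝ, 0 < κ → 0 < ε → 0 < β → ∃ κ₀ : ℝ, 0 < κ₀ ∧ ∀ θ₁ : ℝ, 0 < θ₁ → ∃ C₀ : ℝ, ∀ C : ℝ, C₀ ≤ C →
      ∀ (c : Fd) (q : Bool × Fd) (d₀ : Bool) (m : ℕ), c.len ≤ b → c.Deg b → AESK.PtT 0 (d₀, c) q m →
        θ₁ * (c.size + 1) ≤ (q.2.size : ℝ) + 1 → (q.2.size : ℝ) + 1 ≤ κ₀ * (c.size + 1) →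
          θ * (q.2.size + 1) + dcl q.2 + AEB.blk q.2 ≤ (q.2.size : ℝ) + 1 →
            Coarse κ' ε' β' C q.2 → Coarse κ ε β C c := by
  refine ⟨θ / 1024, θ / 64, θ / 1000, by positivity, by positivity, by positivity, ?_⟩
  intro κ ε β hκ hε hβ
  obtain ⟨κ₀, hκ₀, H⟩ := jump0_mu b hb hθ hθ1 κ ε β hκ hε hβ
  refine ⟨min κ₀ (1 / 2), lt_min hκ₀ (by norm_num), ?_⟩
  intro θ₁ hθ₁
  obtain ⟨C₀, hC₀⟩ := H θ₁ hθ₁
  refine ⟨C₀, ?_⟩
  intro C hC c q d₀ m hl hD hp hsz hsz' hwin hco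
  have h0 : (0 : ℝ) ≤ c.size := Nat.cast_nonneg _
  have h1 : (q.2.size : ℝ) + 1 ≤ κ₀ * (c.size + 1) :=
    hsz'.trans (mul_le_mul_of_nonneg_right (min_le_left _ _) (by positivity))
  have h2 : (q.2.size : ℝ) + 1 ≤ 1 / 2 * (c.size + 1) :=
    hsz'.trans (mul_le_mul_of_nonneg_right (min_le_right _ _) (by positivity))
  have h3 : q.2.size < c.size := by
    have : (q.2.size : ℝ) < c.size := by
      have h5 : (0 : ℝ) ≤ q.2.size := Nat.cast_nonneg _
      linarith
    exact_mod_cast this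
  obtain ⟨M, h4⟩ := ptT_mu0 hp h3
  have h5 : Coarse κ ε β C (M.plug q) := hC₀ C hC M q (by rw [h4.len]; exact hl) (h4.deg b hD)
    (by rw [h4.size]; exact hsz) (by rw [h4.size]; exact h1) hwin hco
  exact @Coarse.eqt κ ε β C c (M.plug q) h5 h4

end AEJ
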