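import Pool.Agent.AEJ.JumpP
import Pool.Agent.AEJ.Jump
import Pool.Agent.AEJ.Jump0
import Pool.Agent.AEJ.Cuts2

/-!
# Jumps along long paths

The state has two slacks: `e₁` for the out-closures and `e₂` for the in-closures. If the path to the branch is long, then
there are no conditions on its turns; if all its arcs have the direction of the arc of the branch, then the slack in this
direction has to be comparable with the window of the branch.
-/

set_option autoImplicit false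

namespace AEJ

open Finset AE15 AED AELT AEK LTT
open scoped Classical

/-- admissible hosts of the root, with two slacks -/
noncomputable def Adm2 {V : Type*} (R : V → V → Prop) (κ e₁ e₂ : ℝ) (c : Fd) (X : Finset V) (N : V → Prop) : Finset V :=
  X.filter (fun z => N z ∧ Wide R κ ((dcl c + 1 : ℝ) + e₁ * X.card) X z ∧
    Wide (fun a b => R b a) κ ((AEB.blk c + 1 : ℝ) + e₂ * X.card) X z)

/-- the coarse state with two slacks -/
def Coarse2 (κ e₁ e₂ β C : ℝ) (c : Fd) : Prop := ∀ {V : Type} {R : V → V → Prop}, AE32.Tour R → ∀ (X : Finset V)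
  (N : V → Prop), (c.size + 1 : ℝ) + C ≤ X.card → β * X.card ≤ ((Adm2 R κ e₁ e₂ c X N).card : ℝ) → In R c N X

theorem coarse2_iff {κ ε β C : ℝ} {c : Fd} : Coarse2 κ ε ε β C c ↔ Coarse κ ε β C c := Iff.rfl

theorem Coarse.to2 {κ e e₁ e₂ β C : ℝ} {c : Fd} (h : Coarse κ e β C c) (h1 : e ≤ e₁) (h2 : e ≤ e₂) :
    Coarse2 κ e₁ e₂ β C c := by
  intro V R hT X N hX hA
  refine h hT X N hX (hA.trans (Nat.cast_le.2 (card_le_card ?_)))
  intro v hv
  unfold Adm2 at hv
  unfold Adm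
  rw [mem_filter] at hv ⊢
  have h3 : e * (X.card : ℝ) ≤ e₁ * X.card := mul_le_mul_of_nonneg_right h1 (Nat.cast_nonneg _)
  have h4 : e * (X.card : ℝ) ≤ e₂ * X.card := mul_le_mul_of_nonneg_right h2 (Nat.cast_nonneg _)
  exact ⟨hv.1, hv.2.1, wide_mono (by linarith) hv.2.2.1, wide_mono (by linarith) hv.2.2.2⟩

theorem dcl_plug_all {M : Mu} (h : ∀ d ∈ M.sg, d = true) (F : Fd) : dcl (M.plug (true, F)) = dcl M.un + (dcl F + 1) := by
  induction M with
  | leaf s => simp only [Mu.plug, Mu.un, dcl, if_true]; omega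
  | step s d t ih =>
    have h1 : d = true := h d (by simp [Mu.sg])
    have h2 := ih (fun x hx => h x (by simp [Mu.sg, hx]))
    subst h1
    simp only [Mu.plug, Mu.un, dcl, if_true, h2]
    omega

theorem jumpL_plug (b : ℕ) (hb : 1 ≤ b) {θ : ℝ} (hθ : 0 < θ) (hθ1 : θ ≤ 1) (θ₁ κ e₁ e₂ β : ℝ) (hθ₁ : 0 < θ₁)
    (hκ : 0 < κ) (he₁ : 0 < e₁) (he₂ : 0 < e₂) (hβ : 0 < β) : ∃ (ℓ : ℕ) (C₀ : ℝ), ∀ C : ℝ, C₀ ≤ C →
      ∀ (M₀ : Mu) (F : Fd), (M₀.plug (true, F)).len ≤ b → (M₀.plug (true, F)).Deg b →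
        (2 ≤ tn M₀.sg ∨ ℓ < M₀.sg.length) → (false ∈ M₀.sg ∨ 2 * θ ≤ e₁) →
        θ₁ * ((M₀.plug (true, F)).size + 1) ≤ (F.size : ℝ) + 1 →
        θ * (F.size + 1) + dcl F + AEB.blk F ≤ (F.size : ℝ) + 1 → Coarse (θ / 1024) (θ / 64) (θ / 1000) C F →
          Coarse2 κ e₁ e₂ β C (M₀.plug (true, F)) := by
  obtain ⟨ε, hεd⟩ : ∃ ε : ℝ, ε = min e₁ e₂ := ⟨_, rfl⟩
  have hε : 0 < ε := by rw [hεd]; exact lt_min he₁ he₂
  have hεe1 : ε ≤ e₁ := by rw [hεd]; exact min_le_left _ _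
  have hεe2 : ε ≤ e₂ := by rw [hεd]; exact min_le_right _ _
  obtain ⟨u, η, ε₁, hu0, hu1, huθ, hη0, hηβ, hη2, hη3, hη4, hε0, hε1, hεβ, hεu⟩ := jump_consts hθ hθ₁ hε hβ
  obtain ⟨nl, hlt⟩ := lt1 b hb hκ hε0
  obtain ⟨a0, ha0, nc, hcl⟩ := clean (k := κ) (eta := η / 4) hκ (by positivity) (by linarith) (fun _ => η / 32)
    (fun _ _ => by positivity)
  obtain ⟨α, hα⟩ : ∃ α : ℝ, α = min a0 1 := ⟨_, rfl⟩
  have hα0 : 0 < α := by rw [hα]; exact lt_min ha0 one_pos
  have hα1 : α ≤ 1 := by rw [hα]; exact min_le_right _ _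
  have hαa : α ≤ a0 := by rw [hα]; exact min_le_left _ _
  obtain ⟨ℓ, hpl0⟩ := placeL b hb (α := α) hα0 hα1
  obtain ⟨np, m₁, hpl⟩ := hpl0 (δ := η / 2) (γ := θ * u / 200) (by positivity) (by linarith) (by positivity)
  refine ⟨ℓ, nl + nc + np + 200 / η + 2000 * (9 * m₁ + 10) / (θ * u), ?_⟩
  intro C hC M₀ F hl hD htn hfal hθF hwin hco V R hT X N hX hN
  obtain ⟨n, hn⟩ : ∃ n : ℝ, n = (X.card : ℝ) := ⟨_, rfl⟩
  have p1 : (0 : ℝ) ≤ 200 / η := by positivity
  have p2 : (0 : ℝ) ≤ 2000 * (9 * m₁ + 10) / (θ * u) := by positivity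
  have hC0 : 0 ≤ C := by
    have : (0 : ℝ) ≤ nl + nc + np := by positivity
    linarith
  have hsz := M₀.size_plug (true, F)
  obtain ⟨h, hh⟩ : ∃ h : ℝ, h = (M₀.un.size : ℝ) := ⟨_, rfl⟩
  obtain ⟨f, hf⟩ : ∃ f : ℝ, f = (F.size : ℝ) + 1 := ⟨_, rfl⟩
  have hszr : ((M₀.plug (true, F)).size : ℝ) = h + f := by
    rw [hsz, hh, hf]
    push_cast
    ring
  rw [hszr, ← hn] at hX
  have hh0 : 0 ≤ h := by rw [hh]; positivity
  have hf0 : 1 ≤ f := by rw [hf]; linarith [(Nat.cast_nonneg F.size : (0 : ℝ) ≤ F.size)]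
  have hnl : nl ≤ X.card := by
    have : (nl : ℝ) ≤ X.card := by
      rw [← hn]
      have : (0 : ℝ) ≤ nc + np := by positivity
      linarith
    exact_mod_cast this
  have hnc : nc ≤ X.card := by
    have : (nc : ℝ) ≤ X.card := by
      rw [← hn]
      have : (0 : ℝ) ≤ nl + np := by positivity
      linarith
    exact_mod_cast this
  have hnp : np ≤ X.card := by
    have : (np : ℝ) ≤ X.card := by
      rw [← hn]
      have : (0 : ℝ) ≤ nl + nc := by positivity
      linarith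
    exact_mod_cast this
  have hn1 : 200 / η ≤ n := by
    have : (0 : ℝ) ≤ nl + nc + np := by positivity
    linarith
  have hn2 : 2000 * (9 * m₁ + 10) / (θ * u) ≤ n := by
    have : (0 : ℝ) ≤ nl + nc + np := by positivity
    linarith
  have hn0 : 0 < n := by linarith
  rw [← hn] at hN
  by_cases hreg : ((M₀.plug (true, F)).size + 1 : ℝ) ≤ (1 - ε₁) * X.card
  · -- there is room: the light theorem
    refine hlt hT X N hnl _ hl hD hreg ?_
    have h1 : ε₁ * (X.card : ℝ) ≤ β * n := by rw [hn]; exact mul_le_mul_of_nonneg_right hεβ (by positivity)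
    refine h1.trans (hN.trans ?_)
    have h2 : ε₁ * (X.card : ℝ) ≤ e₁ * X.card := mul_le_mul_of_nonneg_right (by linarith) (by positivity)
    have h2' : ε₁ * (X.card : ℝ) ≤ e₂ * X.card := mul_le_mul_of_nonneg_right (by linarith) (by positivity)
    have h3 : Adm2 R κ e₁ e₂ (M₀.plug (true, F)) X N ⊆ X.filter (fun z => N z ∧
        Wide R κ ((dcl (M₀.plug (true, F)) + 1) + ε₁ * X.card) X z ∧
        Wide (fun a b => R b a) κ ((AEB.blk (M₀.plug (true, F)) + 1) + ε₁ * X.card) X z) := by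
      intro v hv
      unfold Adm2 at hv
      rw [mem_filter] at hv ⊢
      exact ⟨hv.1, hv.2.1, wide_mono (by linarith) hv.2.2.1, wide_mono (by linarith) hv.2.2.2⟩
    exact_mod_cast card_le_card h3
  push Not at hreg
  rw [hszr, ← hn] at hreg
  rw [hszr, ← hf] at hθF
  have hfn : u * n / 2 ≤ f := by
    have h1 : u * ((1 - ε₁) * n) ≤ θ₁ * (h + f + 1) := by
      refine mul_le_mul huθ hreg.le ?_ hθ₁.le
      exact mul_nonneg (by linarith) hn0.le
    have h2 : 1 / 2 * (u * n) ≤ (1 - ε₁) * (u * n) := mul_le_mul_of_nonneg_right (by linarith) (by positivity)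
    linarith
  have hn2f : n ≤ h + f + 1 + f := by
    have h1 : ε₁ * n ≤ u / 2 * n := mul_le_mul_of_nonneg_right hεu hn0.le
    linarith
  obtain ⟨al, be, Z, c1, c2, c3, c4, c5, c6, c7, c8, c9⟩ := hcl hT X hnc
  rw [← hn] at c4 c5 c6 c7 c8 c9
  have hZn : (Z.card : ℝ) ≤ n := by rw [hn]; exact_mod_cast card_le_card c3
  -- the host of the root
  obtain ⟨z, hzA, hzZ⟩ : ∃ z ∈ Adm2 R κ e₁ e₂ (M₀.plug (true, F)) X N, z ∈ Z := by
    by_contra hcon
    push Not at hcon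
    have h1 : Adm2 R κ e₁ e₂ (M₀.plug (true, F)) X N ⊆ X \ Z := fun v hv =>
      mem_sdiff.2 ⟨(mem_filter.1 hv).1, hcon v hv⟩
    have h2 : ((Adm2 R κ e₁ e₂ (M₀.plug (true, F)) X N).card : ℝ) ≤ ((X \ Z).card : ℝ) := by
      exact_mod_cast card_le_card h1
    have h3 : ((X \ Z).card : ℝ) = n - Z.card := by
      rw [card_sdiff_of_subset c3, Nat.cast_sub (card_le_card c3), hn]
    have h4 : η * n ≤ β * n := mul_le_mul_of_nonneg_right hηβ hn0.le
    have h5 : 0 < η * n := by positivity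
    linarith
  unfold Adm2 at hzA
  rw [mem_filter] at hzA
  obtain ⟨hzX, hNz, hW1, hW2⟩ := hzA
  have hr1 := c8 z hzZ _ hW1
  have hr2 := c9 z hzZ _ hW2
  rw [cum_ge, ← hn] at hr1
  rw [cum_le, ← hn] at hr2
  have hε1n : ε * n ≤ e₁ * n := mul_le_mul_of_nonneg_right hεe1 hn0.le
  have hε2n : ε * n ≤ e₂ * n := mul_le_mul_of_nonneg_right hεe2 hn0.le
  obtain ⟨σ, hσ⟩ : ∃ σ : ℝ, σ = 28 * η / u := ⟨_, rfl⟩
  obtain ⟨g1, g2, g3, g4, g5, g6, g7, g8⟩ := jump_num1 (h := h) (f := f) (Zc := Z.card)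
    (D := dcl (M₀.plug (true, F))) (B := AEB.blk (M₀.plug (true, F))) (Aj := cum Z be (be z))
    (Aj1 := cum Z be (be z + 1)) hn0 hu0 hu1 hη0 hη2 hη3 hη4 hε1 hε hθ
    hθ1 hσ hC0 (by linarith) hfn (by linarith) c4 hZn hh0 (by linarith [hr1]) (by linarith [hr2]) hn1
  have hD1 : (rch true M₀.un : ℝ) ≤ dcl (M₀.plug (true, F)) := by
    rw [← dcl_eq_rch]
    exact_mod_cast dcl_un_le M₀ (true, F)
  have hB1 : (rch false M₀.un : ℝ) ≤ AEB.blk (M₀.plug (true, F)) := by
    rw [← blk_eq_rch]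
    exact_mod_cast blk_un_le M₀ (true, F)
  have hAN : cum Z be (Z.sup be + 1) = Z.card := cum_all (fun v hv => Nat.lt_succ_of_le (le_sup (f := be) hv))
  -- the regions
  obtain ⟨t, e, k, M, s, a, ι, t1, t2, t3, t4, t5, t6, t7, t8, t9, t10, t11, t12, t13, t14, t15, t16, t17, t18⟩ :
      ∃ (t : ℕ → ℕ) (m₀ k : ℕ) (M' : Mn) (s : ℕ → ℕ) (a ι : ℕ), Monotone t ∧ t 0 = 0 ∧ t 5 = Z.sup be + 1 ∧ m₀ < 5 ∧
      t m₀ = be z ∧ t (m₀ + 1) = be z + 1 ∧ k < 5 ∧ M'.er = M₀ ∧ M'.fn.Ok m₀ ∧ (∀ m, 5 ≤ m → M'.fn.num m = 0) ∧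
      (∀ m < 5, (M'.fn.num m = 0 ∧ s m = 0) ∨
        (1 + (0 : ℝ)) * M'.fn.num m + s m + η * n / 2 ≤ cum Z be (t (m + 1)) - cum Z be (t m)) ∧
      (1 - σ) * (F.size + 1 : ℕ) - 5 ≤ ∑ m ∈ range 5, (s m : ℝ) ∧ ∑ m ∈ range 5, (s m : ℝ) ≤ (F.size + 1 : ℕ) ∧
      a + ι ≤ s k ∧ (θ * f - 1) / 40 ≤ ι ∧
      (AEB.blk F + 1 : ℕ) + (θ * f - 1) / 4 ≤ ∑ m ∈ range k, (s m : ℝ) + a ∧
      (dcl F + 1 : ℕ) + (θ * f - 1) / 4 + (a + ι) ≤ ∑ m ∈ Ico k 5, (s m : ℝ) ∧
      (M'.lab m₀ < k ∨ (M'.lab m₀ = k ∧ t (k + 1) = t k + 1)) := by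
    by_cases hF : false ∈ M₀.sg
    · exact exists_regions M₀ ((Mu.fal_iff M₀).2 hF) (N := Z.sup be + 1) (j := be z) (A := cum Z be) (cum_zero _ _)
        (cum_mono _ _)
        (Nat.lt_succ_of_le (le_sup (f := be) hzZ)) (f := F.size + 1) (au := AEB.blk F + 1) (du := dcl F + 1) (σ := 0)
        (σ' := σ) (δ := η * n) (L := θ * f - 1) le_rfl zero_le_one g1 g8 g2
        (by
          rw [hAN, ← hh]
          push_cast
          rw [← hf]
          linarith)
        (by linarith) (by rw [← hh]; push_cast; rw [← hf]; linarith) g6 (by push_cast; rw [← hf]; exact g7)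
        (by
          push_cast
          rw [← hf] at hwin ⊢
          linarith)
    · have h2θ : 2 * θ ≤ e₁ := hfal.resolve_left hF
      have hall : ∀ d ∈ M₀.sg, d = true := by
        intro d hd
        cases d
        · exact absurd hd hF
        · rfl
      have hdp : ((dcl (M₀.plug (true, F)) : ℕ) : ℝ) = rch true M₀.un + (dcl F + 1) := by
        rw [dcl_plug_all hall, dcl_eq_rch M₀.un]
        push_cast
        ring
      have hlast : cum Z be (be z) + (1 + (0 : ℝ)) * (rch true M₀.un + 1) + (1 - σ) * (dcl F + 1 : ℕ) + (θ * f - 1) ≤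
          (1 + (0 : ℝ)) * (M₀.un.size + 1) + (1 - σ) * (F.size + 1 : ℕ) := by
        rw [hdp] at hr1
        push_cast
        rw [← hh, ← hf]
        have k1 : (0 : ℝ) ≤ dcl F + 1 := by positivity
        have k2 : (1 - σ) * ((dcl F : ℝ) + 1) ≤ dcl F + 1 := by nlinarith
        have k3 : 2 * θ * f ≤ e₁ * n := by
          have k4 : 2 * θ * f ≤ 2 * θ * n := mul_le_mul_of_nonneg_left (by linarith) (by positivity)
          have k5 : 2 * θ * n ≤ e₁ * n := mul_le_mul_of_nonneg_right h2θ hn0.le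
          linarith
        have k6 : ε₁ * n ≤ ε / 4 * n := mul_le_mul_of_nonneg_right hε1 hn0.le
        have k7 : η * n ≤ ε * u / 200 * n := mul_le_mul_of_nonneg_right hη4 hn0.le
        have k8 : ε * u / 200 * n ≤ ε / 200 * n := by
          apply mul_le_mul_of_nonneg_right _ hn0.le
          have : ε * u ≤ ε * 1 := mul_le_mul_of_nonneg_left hu1 hε.le
          linarith
        have k9 : 0 < ε * n := by positivity
        linarith
      exact exists_regions2 M₀ (N := Z.sup be + 1) (j := be z) (A := cum Z be) (cum_zero _ _)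
        (cum_mono _ _)
        (Nat.lt_succ_of_le (le_sup (f := be) hzZ)) (f := F.size + 1) (au := AEB.blk F + 1) (du := dcl F + 1) (σ := 0)
        (σ' := σ) (δ := η * n) (L := θ * f - 1) le_rfl zero_le_one g1 g8 g2
        (by
          rw [hAN, ← hh]
          push_cast
          rw [← hf]
          linarith)
        (by linarith) hlast g6 (by push_cast; rw [← hf]; exact g7)
        (by
          push_cast
          rw [← hf] at hwin ⊢
          linarith)
  obtain ⟨s', hs'⟩ : ∃ s' : ℕ → ℕ, s' = fun m => if m < 5 then s m else 0 := ⟨_, rfl⟩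
  have hs'lt : ∀ m, m < 5 → s' m = s m := fun m hm => by rw [hs']; simp [hm]
  have hMun : M.un = M₀.un := by rw [← M.er_un, t8]
  have hMsg : M.sg = M₀.sg := by rw [← M.er_sg, t8]
  obtain ⟨q1, -, -⟩ := Mu.deg_plug hD
  have q2 := Mu.len_plug hl
  have hcum : ∀ m, ((seg Z be (t m) (t (m + 1))).card : ℝ) = cum Z be (t (m + 1)) - cum Z be (t m) :=
    fun m => cum_seg Z be (t1 (Nat.le_succ m))
  have hroom : ∀ m, (M.fn.num m = 0 ∧ s' m = 0) ∨
      (M.fn.num m : ℝ) + s' m + η / 2 * n ≤ (seg Z be (t m) (t (m + 1))).card := by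
    intro m
    by_cases hm : m < 5
    · rw [hs'lt m hm, hcum]
      rcases t11 m hm with h1 | h1
      · exact Or.inl h1
      · right; linarith
    · left
      exact ⟨t10 m (by omega), by rw [hs']; simp [hm]⟩
  have hex : ∀ x ∈ Z, η / 2 * n ≤ ((Z.filter (fun v => be v = be x)).card : ℝ) →
      Ex R (α * (Z.filter (fun v => be v = be x)).card) (Z.filter (fun v => be v = be x)) := by
    intro x hx h1
    refine (c7 x hx (by linarith [mul_pos hη0 hn0])).mono ?_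
    refine mul_le_mul (hαa.trans c1) ?_ (by positivity) (by linarith)
    rw [hn]
    exact_mod_cast card_le_card ((filter_subset _ _).trans c3)
  have hνn : η / 32 * n ≤ θ * u / 200 / 16 * n := by
    apply mul_le_mul_of_nonneg_right _ hn0.le
    have : 0 < θ * u := by positivity
    linarith
  obtain ⟨S, π, A, w, r1, r2, r3, r4, r5, r6, r7, r8, r9, r10⟩ := hpl hT X (fun m => seg Z be (t m) (t (m + 1)))
    (η / 32 * n) M e k z s' a ι hnp (fun m => (filter_subset _ _).trans c3) (fun i j hij => seg_disjoint t1 i j hij)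
    (by
      intro m hm
      rw [eq_empty_iff_forall_notMem]
      intro v hv
      rw [mem_seg] at hv
      have h1 := t1 hm
      have h2 : be v ≤ Z.sup be := le_sup (f := be) hv.1
      rw [t3] at h1
      omega)
    (seg_typ t1 c5 c6) (by positivity) (by rw [← hn]; linarith) (by rw [← hn]; exact hνn) t9 (by rw [hMun]; exact q1)
    (by rw [hMun]; exact q2) (fun _ _ => by rw [hMsg]; exact htn)
    (by rw [mem_seg]; exact ⟨hzZ, t5.le, by omega⟩)
    (by
      intro h1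
      show Ex R (α * (seg Z be (t e) (t (e + 1))).card) (seg Z be (t e) (t (e + 1)))
      rw [seg_one Z be t5 t6]
      apply hex z hzZ
      rw [← seg_one Z be t5 t6]
      rcases hroom e with h2 | h2
      · exfalso
        have := Fn.size_top e M.fn
        omega
      · have h3 : (0 : ℝ) ≤ (M.fn.num e : ℝ) + s' e := by positivity
        linarith)
    (by
      intro h1
      rcases t18 with h2 | ⟨-, h2⟩
      · omega
      · show Ex R (α * (seg Z be (t k) (t (k + 1))).card) (seg Z be (t k) (t (k + 1)))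
        have h3 : η / 2 * n ≤ ((seg Z be (t k) (t (k + 1))).card : ℝ) := by
          rcases hroom k with h2 | h2
          · exfalso
            have h3 := h2.2
            rw [hs'lt k t7] at h3
            have h4 : ι = 0 := by omega
            rw [h4] at t15
            push_cast at t15
            linarith
          · have h3 : (0 : ℝ) ≤ (M.fn.num k : ℝ) + s' k := by positivity
            linarith
        obtain ⟨x, hx⟩ : (seg Z be (t k) (t (k + 1))).Nonempty := by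
          rw [← card_pos]
          have : (0 : ℝ) < ((seg Z be (t k) (t (k + 1))).card : ℝ) := by
            have : 0 < η * n := by positivity
            linarith
          exact_mod_cast this
        rw [mem_seg] at hx
        have hbx : be x = t k := by omega
        rw [seg_one Z be hbx.symm (by omega)] at h3 ⊢
        exact hex x hx.1 h3)
    (by rw [← hn]; exact hroom)
    (by
      rw [← hn]
      have h1 : θ * (u * n / 2) ≤ θ * f := mul_le_mul_of_nonneg_left hfn hθ.le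
      have h2 : θ * u / 200 * n = θ * (u * n / 2) / 100 := by ring
      linarith)
    (by rw [hs'lt k t7]; exact t14)
  have hk5 : ∀ m ∈ range k, s' m = s m := fun m hm => hs'lt m (by rw [mem_range] at hm; omega)
  have hι : (ι : ℝ) / 3 ≤ ((nO R ((S k).filter (fun v => a ≤ π v ∧ π v < a + ι)) w).card : ℝ) := by
    rcases t18 with h1 | ⟨h1, -⟩
    · -- the host of the mark is in an earlier region
      have h2 := ((seg_typ (R := R) t1 c5 c6) _ _ h1).1 w r7
      have h3 : ((S k).filter (fun v => a ≤ π v ∧ π v < a + ι)).card = ι := by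
        have := r3.card_seg (a := a) (b := a + ι) (by rw [r2, hs'lt k t7]; exact t14)
        omega
      have h4 : (((S k).filter (fun v => a ≤ π v ∧ π v < a + ι)).filter (fun v => ¬ R w v)).card ≤
          ((seg Z be (t k) (t (k + 1))).filter (fun v => ¬ R w v)).card := by
        apply card_le_card
        intro v hv
        rw [mem_filter, mem_filter] at hv
        rw [mem_filter]
        exact ⟨r1 k hv.1.1, hv.2⟩
      have h5 : (nO R ((S k).filter (fun v => a ≤ π v ∧ π v < a + ι)) w).card +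
          (((S k).filter (fun v => a ≤ π v ∧ π v < a + ι)).filter (fun v => ¬ R w v)).card =
          ((S k).filter (fun v => a ≤ π v ∧ π v < a + ι)).card := by
        rw [nO]
        exact card_filter_add_card_filter_not _
      rw [h3] at h5
      have h6 : ((nO R ((S k).filter (fun v => a ≤ π v ∧ π v < a + ι)) w).card : ℝ) +
          (((S k).filter (fun v => a ≤ π v ∧ π v < a + ι)).filter (fun v => ¬ R w v)).card = ι := by exact_mod_cast h5
      have h7 : ((((S k).filter (fun v => a ≤ π v ∧ π v < a + ι)).filter (fun v => ¬ R w v)).card : ℝ) ≤ η / 32 * n := by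
        refine le_trans ?_ h2
        exact_mod_cast h4
      have h8 : θ * (u * n / 2) ≤ θ * f := mul_le_mul_of_nonneg_left hfn hθ.le
      have h9 : η * n ≤ θ * u / 8000 * n := mul_le_mul_of_nonneg_right hη3 hn0.le
      have h10 : θ * u / 8000 * n = θ * (u * n / 2) / 4000 := by ring
      linarith
    · exact r10 h1
  have hsum : ∑ m ∈ Ico k 5, (s m : ℝ) = s k + ∑ m ∈ Ico (k + 1) 5, (s m : ℝ) := by
    rw [sum_eq_sum_Ico_succ_bot t7]
  have hsum1 : ∑ m ∈ Ico (k + 1) 5, (s' m : ℝ) = ∑ m ∈ Ico (k + 1) 5, (s m : ℝ) :=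
    sum_congr rfl (fun m hm => by rw [hs'lt m (mem_Ico.1 hm).2])
  have hsum2 : ∑ m ∈ range k, (s' m : ℝ) = ∑ m ∈ range k, (s m : ℝ) :=
    sum_congr rfl (fun m hm => by rw [hk5 m hm])
  obtain ⟨x', hx'⟩ : ∃ x' : ℝ, x' = n - (h + 1) := ⟨_, rfl⟩
  obtain ⟨y1, y2, y3⟩ := jump_num2 (n := n) (h := h) (f := f) (θ := θ) (u := u) (η := η) (ν := η / 32 * n)
    (s1 := ∑ m ∈ range k, (s m : ℝ)) (s2 := ∑ m ∈ Ico (k + 1) 5, (s m : ℝ)) (sk := s k) (a := a) (ι := ι) (D := dcl F)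
    (B := AEB.blk F) (x' := x') (m := m₁) hθ hu0 hn0 (by positivity) hfn hn2f hx' le_rfl hη3 hn2 t15
    (by push_cast at t16; linarith) (by push_cast at t17; rw [hsum] at t17; linarith)
  have hfin := jump_fin hT t1 (ν := η / 32 * n) (κ' := θ / 1024) (ε' := θ / 64) (β' := θ / 1000) (C := C) (M := M)
    (F := F) (k := k) (m₀ := m₁) (a := a) (ι := ι) (N := N) (s := s') c3 r1 r2 r3 r4 hzX r5 r6 r8 r9 c5 c6 hι
    (x' := x') (by rw [hx', hn, hh, hMun]) (by positivity) (by rw [hsum1, hs'lt k t7]; exact y1)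
    (by rw [hsum2]; exact y2) y3 (by rw [hx', ← hf]; linarith) hco hNz
  rw [← M.er_plug, t8] at hfin
  exact hfin


theorem adm2_mrr {V : Type*} (R : V → V → Prop) (κ e₁ e₂ : ℝ) (c : Fd) (X : Finset V) (N : V → Prop) :
    Adm2 (rev R) κ e₂ e₁ c X N = Adm2 R κ e₁ e₂ (AEK.mrr c) X N := by
  unfold Adm2
  apply filter_congr
  intro z _
  rw [dcl_mrr, blk_mrr]
  constructor
  · rintro ⟨h1, h2, h3⟩
    exact ⟨h1, h3, h2⟩
  · rintro ⟨h1, h2, h3⟩
    exact ⟨h1, h3, h2⟩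

theorem Coarse2.mrr {κ e₁ e₂ β C : ℝ} {c : Fd} (h : Coarse2 κ e₂ e₁ β C c) : Coarse2 κ e₁ e₂ β C (AEK.mrr c) := by
  intro V R hT X N hX hA
  have h1 := h (AEK.tour_rev hT) X N (by rw [← mrr_size c]; exact hX) (by rw [adm2_mrr]; exact hA)
  have h2 := In.mrr h1
  exact h2

theorem coarse2_mrr {κ e₁ e₂ β C : ℝ} {c : Fd} : Coarse2 κ e₁ e₂ β C (AEK.mrr c) ↔ Coarse2 κ e₂ e₁ β C c := by
  constructor
  · intro h
    have h1 : Coarse2 κ e₂ e₁ β C (AEK.mrr (AEK.mrr c)) := @Coarse2.mrr κ e₂ e₁ β C (AEK.mrr c) h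
    rw [mrr_mrr] at h1
    exact @h1
  · intro h
    exact @Coarse2.mrr κ e₁ e₂ β C c h

/-- the coarse statement does not depend on the order of the children -/
theorem Coarse2.eqt {κ e₁ e₂ β C : ℝ} {c c' : Fd} (h : Coarse2 κ e₁ e₂ β C c') (he : Eqt c c') :
    Coarse2 κ e₁ e₂ β C c := by
  intro V R hT X N hX hA
  obtain ⟨x, hx, A, hA', hxA, hN, hE⟩ := h hT X N (by rw [he.size]; exact hX) (by
    have : Adm2 R κ e₁ e₂ c' X N = Adm2 R κ e₁ e₂ c X N := by
      unfold Adm2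
      rw [he.dcl, he.blk]
    rw [this]
    exact hA)
  exact ⟨x, hx, A, hA', hxA, hN, he.emb hE⟩

/-- **Jump along a long path, or with two turns**, the state having two slacks. The constants of the coarse state of the
branch depend on `θ` only. -/
theorem jumpL (b : ℕ) (hb : 1 ≤ b) {θ : ℝ} (hθ : 0 < θ) (hθ1 : θ ≤ 1) (θ₁ κ e₁ e₂ β : ℝ) (hθ₁ : 0 < θ₁)
    (hκ : 0 < κ) (he₁ : 0 < e₁) (he₂ : 0 < e₂) (hβ : 0 < β) : ∃ (ℓ : ℕ) (C₀ : ℝ), ∀ C : ℝ, C₀ ≤ C →
      ∀ (M₀ : Mu) (q : Bool × Fd), (M₀.plug q).len ≤ b → (M₀.plug q).Deg b →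
        (2 ≤ tn M₀.sg ∨ ℓ < M₀.sg.length) →
        ((!q.1) ∈ M₀.sg ∨ (q.1 = true ∧ 2 * θ ≤ e₁) ∨ (q.1 = false ∧ 2 * θ ≤ e₂)) →
        θ₁ * ((M₀.plug q).size + 1) ≤ (q.2.size : ℝ) + 1 →
        θ * (q.2.size + 1) + dcl q.2 + AEB.blk q.2 ≤ (q.2.size : ℝ) + 1 →
          Coarse (θ / 1024) (θ / 64) (θ / 1000) C q.2 → Coarse2 κ e₁ e₂ β C (M₀.plug q) := by
  obtain ⟨l1, C1, h1⟩ := jumpL_plug b hb hθ hθ1 θ₁ κ e₁ e₂ β hθ₁ hκ he₁ he₂ hβ
  obtain ⟨l2, C2, h2⟩ := jumpL_plug b hb hθ hθ1 θ₁ κ e₂ e₁ β hθ₁ hκ he₂ he₁ hβ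
  refine ⟨max l1 l2, max C1 C2, ?_⟩
  rintro C hC M₀ ⟨d, F⟩ hl hD htn hfal hsz hwin hco
  cases d with
  | true =>
    refine h1 C ((le_max_left _ _).trans hC) M₀ F hl hD ?_ ?_ hsz hwin hco
    · rcases htn with h | h
      · exact Or.inl h
      · exact Or.inr (lt_of_le_of_lt (le_max_left _ _) h)
    · rcases hfal with h | ⟨_, h⟩ | ⟨h, _⟩
      · exact Or.inl h
      · exact Or.inr h
      · exact absurd h (by simp)
  | false =>
    have g1 := M₀.mrr_plug (false, F)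
    simp only [Bool.not_false] at g1
    have g2 : Coarse2 κ e₂ e₁ β C (M₀.mrr.plug (true, AEK.mrr F)) := by
      refine h2 C ((le_max_right _ _).trans hC) M₀.mrr (AEK.mrr F) (by rw [g1, mrr_len]; exact hl)
        (by rw [g1]; exact mrr_deg hD) ?_ ?_ (by rw [g1, mrr_size, mrr_size]; exact hsz)
        (by rw [mrr_size, dcl_mrr, blk_mrr]; linarith) (coarse_mrr.2 hco)
      · rw [M₀.mrr_sg, tn_map_not, List.length_map]
        rcases htn with h | h
        · exact Or.inl h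
        · exact Or.inr (lt_of_le_of_lt (le_max_right _ _) h)
      · rw [M₀.mrr_sg]
        rcases hfal with h | ⟨h, _⟩ | ⟨_, h⟩
        · left
          rw [List.mem_map]
          exact ⟨true, by simpa using h, rfl⟩
        · exact absurd h (by simp)
        · exact Or.inr h
    rw [g1] at g2
    exact @Iff.mp _ _ (@coarse2_mrr κ e₂ e₁ β C (M₀.plug (false, F))) g2

/-- the same for a path given by the trees at its vertices -/
theorem jumpL_spine (b : ℕ) (hb : 1 ≤ b) {θ : ℝ} (hθ : 0 < θ) (hθ1 : θ ≤ 1) (θ₁ κ e₁ e₂ β : ℝ) (hθ₁ : 0 < θ₁)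
    (hκ : 0 < κ) (he₁ : 0 < e₁) (he₂ : 0 < e₂) (hβ : 0 < β) : ∃ (ℓ : ℕ) (C₀ : ℝ), ∀ C : ℝ, C₀ ≤ C →
      ∀ (c : Fd) (t : Bool × List (Bool × Fd)) (l : List (Bool × List (Bool × Fd))) (q : Bool × Fd),
        Spine (t :: l) (t.1, c) q → c.len ≤ b → c.Deg b → (2 ≤ tn (l.map Prod.fst) ∨ ℓ < l.length) →
        ((!q.1) ∈ l.map Prod.fst ∨ (q.1 = true ∧ 2 * θ ≤ e₁) ∨ (q.1 = false ∧ 2 * θ ≤ e₂)) →
        θ₁ * (c.size + 1) ≤ (q.2.size : ℝ) + 1 →
        θ * (q.2.size + 1) + dcl q.2 + AEB.blk q.2 ≤ (q.2.size : ℝ) + 1 →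
          Coarse (θ / 1024) (θ / 64) (θ / 1000) C q.2 → Coarse2 κ e₁ e₂ β C c := by
  obtain ⟨ℓ, C₀, h⟩ := jumpL b hb hθ hθ1 θ₁ κ e₁ e₂ β hθ₁ hκ he₁ he₂ hβ
  refine ⟨ℓ, C₀, ?_⟩
  intro C hC c t l q hsp hl hD htn hfal hsz hwin hco
  have g1 : Eqt c ((toMu (t :: l)).plug q) := spine_mu hsp (by simp)
  have g2 : Coarse2 κ e₁ e₂ β C ((toMu (t :: l)).plug q) := h C hC (toMu (t :: l)) q (by rw [g1.len]; exact hl)
    (g1.deg b hD) (by rw [toMu_sg, List.length_map]; exact htn) (by rw [toMu_sg]; exact hfal)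
    (by rw [g1.size]; exact hsz) hwin hco
  exact @Coarse2.eqt κ e₁ e₂ β C c _ g2 g1

end AEJ
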