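import Pool.Agent.AEJ.TopC

/-!
# The component of the root: long paths without turns

The same as `core_k2` and `top_comp`; no turns are needed when the path to the mark has more than `ℓ` arcs.
-/

namespace AEJ

open Finset AE15 AED AELT AEK AESK
open scoped Classical

variable {V : Type*} {R : V → V → Prop}

/-- **The component contains the root**, whose host `z` is given; the path to the marked vertex is long or has two turns;
the host of the marked vertex is in `N` -/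
theorem core_k2L {b ℓ w₀ : ℕ} {ρ C κ : ℝ} {Y U Rc Ro : Finset V} (hT : AE32.Tour R) (h : Ctx R b ℓ ρ C κ Y U Rc Ro w₀)
    (J : ℕ) {lam M : ℝ} (hlam : lam = 1 - 1 / ((b : ℝ) + 1) ^ ℓ)
    (hM : M = (ℓ * b + 1 : ℝ) ^ J * ((b : ℝ) + 1) ^ (ℓ + 1)) {k : ℕ} (t : Mn) (hI : t.In k) (hl : t.un.len ≤ b)
    (hD : t.un.Deg b) (htn : 2 ≤ tn t.sg ∨ ℓ < t.sg.length) {z : V} {N W : Finset V} (hzY : z ∈ Y) (hzW : z ∈ W) (hNY : N ⊆ Y)
    (hNW : Disjoint N W) {K : ℕ} (hK : W.card + ℓ + 1 ≤ K) (hz : ∀ d, 4 * K + 4 * K * ℓ + 1 ≤ (nb R d Y z).card)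
    (hN : 2 * K * (ℓ + 1) < N.card)
    (hc1 : (W ∩ Rc).card + (ℓ + 2) + (ℓ + 2) * (b * cc b ℓ J) ≤ w₀)
    (hc2 : ρ * (lam ^ J * ((t.fn.top k).size + 1) + (ℓ + 2) * (b * M)) + C + (ℓ + 2) + (W ∩ Ro).card ≤ κ)
    (hc3 : ρ * ((t.fn.top k).size + 1) + C + (ℓ + 2) + (W ∩ U).card ≤ (U.card : ℝ)) :
    ∃ (A : Finset V) (w : V), w ∈ N ∧ z ∉ A ∧ TopM R k t z A w ∧ Disjoint A W ∧ A ⊆ Y ∧
      (insert z A \ (U ∪ Rc ∪ Ro)).card ≤ ℓ + 2 := by
  have hρ := h.hρ
  have hb := h.hb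
  by_cases hlen : t.sg.length ≤ ℓ
  · replace htn : 2 ≤ tn t.sg := htn.resolve_right (by omega)
    obtain ⟨d, ds, hds⟩ : ∃ d ds, t.sg = d :: ds := by
      cases hsg : t.sg with
      | nil => rw [hsg] at htn; simp [tn] at htn
      | cons d ds => exact ⟨d, ds, rfl⟩
    have hdl : ds.length + 1 ≤ ℓ := by
      rw [hds, List.length_cons] at hlen
      exact hlen
    obtain ⟨wk, k1, k2, k3, k4, k5⟩ := walk_two hT (K := K) (Y := Y) (z := z) d ds (by rw [← hds]; exact htn) W (by omega)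
      (by
        have h1 := hz d
        have h2 : 4 * K * ds.length ≤ 4 * K * ℓ := Nat.mul_le_mul_left _ (by omega)
        omega) N hNY hNW (by
        have h2 : 2 * K * (ds.length + 1) ≤ 2 * K * (ℓ + 1) := Nat.mul_le_mul_left _ (by omega)
        omega)
    have hnd : (z :: wk.map Prod.snd).Nodup := by
      refine List.nodup_cons.2 ⟨?_, k4⟩
      intro hx
      obtain ⟨p, hp, hpz⟩ := List.mem_map.1 hx
      exact (k5 p hp).2 (hpz ▸ hzW)
    obtain ⟨A, a1, a2, a3, a4, a5⟩ := core_short h J hlam hM t hI hl hD hlen wk (by rw [k1, hds]) k2 hzY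
      (fun p hp => (k5 p hp).1) hnd W (fun p hp => (k5 p hp).2) hc1 hc2 hc3
    exact ⟨A, _, k3, a1, a2, a3, a4, a5⟩
  · push Not at hlen
    obtain ⟨w, hw⟩ : N.Nonempty := by
      rw [← card_pos]
      omega
    have hPD := Mn.pth_deg (b := b) k true t hI hl hD
    have hsz := Mn.pth_size k true t hI
    have hll : (t.pth k true).length = t.sg.length + 1 := by
      have := congrArg List.length (Mn.pth_fst k true t)
      simpa using this
    have hszR : (psz (t.pth k true) : ℝ) = (t.fn.top k).size + 1 := by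
      rw [hsz]
      push_cast
      ring
    have hℓ : (0 : ℝ) ≤ ℓ := Nat.cast_nonneg _
    obtain ⟨A, a1, a2, a3, a4⟩ := ctx_long h J hPD (by omega) hlam hM (v := z) (w := w) (W := W) hzY hzW (hNY hw)
      (disjoint_left.1 hNW hw)
      (by
        have h2 : (ℓ + 2) * (b * cc b ℓ J) = b * cc b ℓ J + (ℓ + 1) * (b * cc b ℓ J) := by ring
        omega)
      (by rw [hszR]; linarith) (by rw [hszR]; linarith)
    refine ⟨A, w, hw, a1, topM_of_pe t hI a1 a2, a3, ?_, ?_⟩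
    · refine a4.trans (insert_subset (hNY hw) ?_)
      exact union_subset (union_subset h.hUY h.hcY) h.hoY
    · have h1 : insert z A \ (U ∪ Rc ∪ Ro) ⊆ {z, w} := by
        intro x hx
        rw [mem_sdiff, mem_insert] at hx
        rw [mem_insert, mem_singleton]
        rcases hx.1 with h2 | h2
        · exact Or.inl h2
        · rcases mem_insert.1 (a4 h2) with h3 | h3
          · exact Or.inr h3
          · exact absurd h3 hx.2
      exact (card_le_card h1).trans (card_le_two.trans (by omega))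

/-- **The component of the root**, whose host is `z`: if it contains the marked vertex and `e = k`, then the host of the
marked vertex is in `N`; otherwise everything is in `U ∪ Rc ∪ Ro` -/
theorem top_compL {b ℓ w₀ : ℕ} {ρ C κ : ℝ} {Y U Rc Ro : Finset V} (hT : AE32.Tour R) (h : Ctx R b ℓ ρ C κ Y U Rc Ro w₀)
    (J : ℕ) {lam M' : ℝ} (hlam : lam = 1 - 1 / ((b : ℝ) + 1) ^ ℓ)
    (hM : M' = (ℓ * b + 1 : ℝ) ^ J * ((b : ℝ) + 1) ^ (ℓ + 1)) (M : Mn) (e k : ℕ) (hl : M.un.len ≤ b) (hD : M.un.Deg b)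
    (htn : M.In e → e = k → 2 ≤ tn M.sg ∨ ℓ < M.sg.length) {z : V} {N : Finset V} (hzY : z ∈ Y) (hNY : N ⊆ Y) (hzN : z ∉ N) {K : ℕ} (hK : ℓ + 2 ≤ K)
    (hz : M.In e → e = k → ∀ d, 4 * K + 4 * K * ℓ + 1 ≤ (nb R d Y z).card)
    (hN : M.In e → e = k → 2 * K * (ℓ + 1) < N.card)
    (hc1 : 1 + (ℓ + 2) + (ℓ + 2) * (b * cc b ℓ J) ≤ w₀)
    (hc2 : ρ * (lam ^ J * ((M.fn.top e).size + 1) + (ℓ + 2) * (b * M')) + C + (ℓ + 2) + 1 ≤ κ)
    (hc3 : ρ * ((M.fn.top e).size + 1) + C + (ℓ + 2) + 1 ≤ (U.card : ℝ)) :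
    ∃ (P : Finset V) (w : V), z ∉ P ∧ P ⊆ Y ∧ TopM R e M z P w ∧ (w = z ∨ w ∈ P) ∧
      (insert z P \ (U ∪ Rc ∪ Ro)).card ≤ ℓ + 2 ∧ (M.In e → e = k → w ∈ N) ∧
      (¬ (M.In e ∧ e = k) → P ⊆ U ∪ Rc ∪ Ro ∧ (P ∩ Rc).card ≤ b * cc b ℓ J ∧
        ((P ∩ Ro).card : ℝ) ≤ lam ^ J * (M.fn.top e).size + b * M') := by
  have hρ := h.hρ
  have hC := h.hC
  have hW : ∀ Q : Finset V, (({z} : Finset V) ∩ Q).card ≤ 1 := fun Q =>
    (card_le_card inter_subset_left).trans (card_singleton z).le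
  have hWR : ∀ Q : Finset V, ((({z} : Finset V) ∩ Q).card : ℝ) ≤ 1 := fun Q => by exact_mod_cast hW Q
  by_cases hcase : M.In e ∧ e = k
  · obtain ⟨hI, rfl⟩ := hcase
    obtain ⟨A, w, a1, a2, a3, a4, a5, a6⟩ := core_k2L hT h J hlam hM M hI hl hD (htn hI rfl) (z := z) (N := N) (W := {z}) hzY
      (mem_singleton_self z) hNY (by rw [disjoint_singleton_right]; exact hzN) (K := K)
      (by rw [card_singleton]; omega) (hz hI rfl) (hN hI rfl)
      (by have := hW Rc; omega) (by have := hWR Ro; linarith) (by have := hWR U; linarith)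
    exact ⟨A, w, a2, a5, a3, a3.mem hI, a6, fun _ _ => a1, fun hn => absurd ⟨hI, rfl⟩ hn⟩
  · have hlen : (M.fn.top e).trees.length ≤ b := by
      rw [← Fd.len_eq]
      exact (Fn.len_top e M.fn).trans hl
    have hts : ∀ p ∈ (M.fn.top e).trees, p.2.len ≤ b ∧ p.2.Deg b := (Fd.deg_iff b _).1 (Fn.deg_top e M.fn hD)
    have hsz : (M.fn.top e).size = tsz (M.fn.top e).trees := Fd.size_eq _
    have hl0 : 0 ≤ lam := by rw [hlam]; exact lam_nonneg b ℓ
    have hM0 : 0 ≤ M' := by rw [hM]; positivity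
    have hlenR : ((M.fn.top e).trees.length : ℝ) ≤ b := by exact_mod_cast hlen
    have horp : orpL b ℓ J (M.fn.top e).trees ≤ lam ^ J * (M.fn.top e).size + b * M' := by
      rw [orpL_eq, ← hsz, ← hlam, ← hM]
      have h5 := mul_le_mul_of_nonneg_right hlenR hM0
      linarith
    have hlJ : 0 ≤ lam ^ J := pow_nonneg hl0 _
    have hbM : 0 ≤ (b : ℝ) * M' := by positivity
    have hlbM : 0 ≤ (ℓ : ℝ) * (b * M') := by positivity
    obtain ⟨S, s1, s2, s3, s4, s5, s6⟩ := AELT.LS.all h J (M.fn.top e).trees z {z} hts hzY (mem_singleton_self z)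
      (by
        have h4 := hW Rc
        have h5 : (M.fn.top e).trees.length * cc b ℓ J ≤ b * cc b ℓ J := Nat.mul_le_mul_right _ hlen
        have h6 : (ℓ + 2) * (b * cc b ℓ J) = b * cc b ℓ J + (ℓ + 1) * (b * cc b ℓ J) := by ring
        omega)
      (by
        have h4 := hWR Ro
        have h5 := mul_le_mul_of_nonneg_left horp (by linarith : (0 : ℝ) ≤ ρ)
        have h6 : ρ * (lam ^ J * (M.fn.top e).size + b * M') ≤ ρ * (lam ^ J * ((M.fn.top e).size + 1) + (ℓ + 2) * (b * M')) := by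
          apply mul_le_mul_of_nonneg_left _ (by linarith)
          linarith
        have h7 : (0 : ℝ) ≤ ℓ := Nat.cast_nonneg _
        linarith)
      (by
        have h4 := hWR U
        rw [← hsz]
        have h7 : (0 : ℝ) ≤ ℓ := Nat.cast_nonneg _
        linarith)
    rw [disjoint_singleton_right] at s3
    obtain ⟨w, hw1, hw2⟩ := exists_topM e M ((emb_iff _ _ _).2 s1)
    refine ⟨S, w, s3, s2.trans (union_subset (union_subset h.hUY h.hcY) h.hoY), hw2, hw1, ?_,
      fun h1 h2 => absurd ⟨h1, h2⟩ hcase, fun _ => ⟨s2, ?_, ?_⟩⟩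
    · have h1 : insert z S \ (U ∪ Rc ∪ Ro) ⊆ {z} := by
        intro x hx
        rw [mem_sdiff, mem_insert] at hx
        rw [mem_singleton]
        rcases hx.1 with h2 | h2
        · exact h2
        · exact absurd (s2 h2) hx.2
      exact (card_le_card h1).trans ((card_singleton z).le.trans (by omega))
    · exact s4.trans (Nat.mul_le_mul_right _ hlen)
    · exact s5.trans horp

end AEJ
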