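import Pool.Agent.AEF.MedClose
import Pool.Agent.AELT.Defs
import Pool.Agent.AECut.StructP

/-!
# Universal admissibility

The places of one median order of a set `Q` are closures: if `S` is `Q` minus at most `m` vertices, `S ⊆ X`, and `v ∈ S`
sees all but `ν` vertices of a set `T ⊆ X`, then every closed set of `X` containing the out-neighbours of `v` has at least
`|T| + (number of vertices of Q after v) - 9 m - 8 κ |X| - ν` vertices.
-/

set_option autoImplicit false

namespace AEJ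

open Finset AE15 AED AELT
open scoped Classical

variable {V : Type*} {R : V → V → Prop}

theorem univ_out (hT : AE32.Tour R) {X Q S T : Finset V} {π : V → ℕ} (h : AEM.MedO R Q π) {κ ν : ℝ} {m : ℕ}
    (hκ : 0 ≤ κ) (hSQ : S ⊆ Q) (hm : (Q \ S).card ≤ m) (hSX : S ⊆ X) (hTX : T ⊆ X) (hST : Disjoint S T) {v : V}
    (hv : v ∈ S) (hg : ((T.filter (fun u => ¬ R v u)).card : ℝ) ≤ ν) :
    Wide R κ (T.card + ((Q.card : ℝ) - 1 - π v) - 9 * m - 8 * κ * X.card - ν) X v := by
  intro C hCX hnC hC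
  have hvQ := hSQ hv
  have hQ0 : (0 : ℝ) < Q.card := by exact_mod_cast card_pos.2 ⟨v, hvQ⟩
  have hm' : ((Q \ S).card : ℝ) ≤ m := by exact_mod_cast hm
  obtain ⟨κQ, hκQ⟩ : ∃ κQ : ℝ, κQ = (κ * X.card + m) / Q.card := ⟨_, rfl⟩
  have hκQ1 : κQ * Q.card = κ * X.card + m := by
    rw [hκQ]
    field_simp
  have hκQ0 : 0 ≤ κQ := by
    rw [hκQ]
    positivity
  have h1 := AEF.med_closed hT h hκQ0 hvQ (C := (C ∩ S) ∪ (Q \ S)) (by
    intro u hu
    rw [mem_nO] at hu
    rw [mem_union, mem_inter, mem_sdiff]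
    by_cases hS : u ∈ S
    · exact Or.inl ⟨hnC (mem_nO.2 ⟨hSX hS, hu.2⟩), hS⟩
    · exact Or.inr ⟨hu.1, hS⟩) (by
    intro u hu hu'
    rw [mem_union, not_or, mem_inter, mem_sdiff] at hu'
    have huS : u ∈ S := by
      by_contra hc
      exact hu'.2 ⟨hu, hc⟩
    have huC : u ∉ C := fun hc => hu'.1 ⟨hc, huS⟩
    have h2 := hC u (hSX huS) huC
    have h3 : nI R ((C ∩ S) ∪ (Q \ S)) u ⊆ nI R C u ∪ (Q \ S) := by
      intro w hw
      rw [mem_nI, mem_union, mem_inter] at hw
      rw [mem_union, mem_nI]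
      rcases hw.1 with h4 | h4
      · exact Or.inl ⟨h4.1, hw.2⟩
      · exact Or.inr h4
    have h4 : ((nI R ((C ∩ S) ∪ (Q \ S)) u).card : ℝ) ≤ (nI R C u).card + (Q \ S).card := by
      exact_mod_cast (card_le_card h3).trans (card_union_le _ _)
    rw [hκQ1]
    linarith)
  have h2 : 8 * κQ * Q.card = 8 * κ * X.card + 8 * m := by
    rw [mul_assoc, hκQ1]
    ring
  rw [h2] at h1
  -- the vertices after `v`
  have h3 := h.card_seg (a := π v + 1) (b := Q.card) le_rfl
  have h4 : Q.filter (fun w => π v + 1 ≤ π w ∧ π w < Q.card) ⊆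
      ((C ∩ S) ∪ (Q \ S)) ∪ Q.filter (fun u => π v < π u ∧ u ∉ (C ∩ S) ∪ (Q \ S)) := by
    intro u hu
    rw [mem_filter] at hu
    rw [mem_union, mem_filter]
    by_cases hc : u ∈ (C ∩ S) ∪ (Q \ S)
    · exact Or.inl hc
    · exact Or.inr ⟨hu.1, by omega, hc⟩
  have h5 := (card_le_card h4).trans ((card_union_le _ _).trans (Nat.add_le_add_right (card_union_le _ _) _))
  rw [h3] at h5
  have h6 := h.lt v hvQ
  have h7 : ((Q.card - (π v + 1) : ℕ) : ℝ) = (Q.card : ℝ) - 1 - π v := by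
    rw [Nat.cast_sub (by omega)]
    push_cast
    ring
  have h8 : (Q.card : ℝ) - 1 - π v ≤ ((C ∩ S).card : ℝ) + (Q \ S).card +
      (Q.filter (fun u => π v < π u ∧ u ∉ (C ∩ S) ∪ (Q \ S))).card := by
    rw [← h7]
    exact_mod_cast h5
  -- the vertices of `T`
  have h9 : T ⊆ (C ∩ T) ∪ T.filter (fun u => ¬ R v u) := by
    intro u hu
    rw [mem_union, mem_inter, mem_filter]
    by_cases hc : R v u
    · exact Or.inl ⟨hnC (mem_nO.2 ⟨hTX hu, hc⟩), hu⟩
    · exact Or.inr ⟨hu, hc⟩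
  have h10 : (T.card : ℝ) ≤ (C ∩ T).card + (T.filter (fun u => ¬ R v u)).card := by
    exact_mod_cast (card_le_card h9).trans (card_union_le _ _)
  have h11 : ((C ∩ S).card : ℝ) + (C ∩ T).card ≤ C.card := by
    have h12 : (C ∩ S) ∪ (C ∩ T) ⊆ C := union_subset inter_subset_left inter_subset_left
    have h13 : ((C ∩ S) ∪ (C ∩ T)).card = (C ∩ S).card + (C ∩ T).card := by
      apply card_union_of_disjoint
      exact disjoint_of_subset_left inter_subset_right (disjoint_of_subset_right inter_subset_right hST)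
    have h14 := card_le_card h12
    rw [h13] at h14
    exact_mod_cast h14
  linarith

theorem univ_in (hT : AE32.Tour R) {X Q S T : Finset V} {π : V → ℕ} (h : AEM.MedO R Q π) {κ ν : ℝ} {m : ℕ}
    (hκ : 0 ≤ κ) (hSQ : S ⊆ Q) (hm : (Q \ S).card ≤ m) (hSX : S ⊆ X) (hTX : T ⊆ X) (hST : Disjoint S T) {v : V}
    (hv : v ∈ S) (hg : ((T.filter (fun u => ¬ R u v)).card : ℝ) ≤ ν) :
    Wide (fun a b => R b a) κ (T.card + (π v : ℝ) - 9 * m - 8 * κ * X.card - ν) X v := by
  have h1 := univ_out (AEF.tour_rev hT) h.rev hκ hSQ hm hSX hTX hST hv (ν := ν) hg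
  have h2 := h.lt v (hSQ hv)
  have h3 : ((Q.card - 1 - π v : ℕ) : ℝ) = (Q.card : ℝ) - 1 - π v := by
    rw [Nat.cast_sub (by omega), Nat.cast_sub (by omega)]
    push_cast
    ring
  intro C hCX hnC hC
  refine le_trans (le_of_eq ?_) (h1 C hCX hnC hC)
  rw [h3]
  ring

/-- the vertices of an interval of a median order, seen by `w`: in every interval of length `a` at least `a / 10`
vertices have at least `a / 3 - 1` out-neighbours in it -/
theorem half_deg (hT : AE32.Tour R) (I : Finset V) :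
    (I.card : ℝ) / 3 - 1 ≤ ((I.filter (fun w => (I.card : ℝ) / 3 ≤ ((nO R I w).card : ℝ))).card : ℝ) := by
  have h1 := AECut.card_few hT I (k := (I.card : ℝ) / 3) (by positivity)
  have h2 := card_filter_add_card_filter_not (s := I) (fun v => ((nO R I v).card : ℝ) < (I.card : ℝ) / 3)
  simp only [not_lt] at h2
  have h3 : (I.card : ℝ) = (I.filter (fun v => ((nO R I v).card : ℝ) < (I.card : ℝ) / 3)).card +
      (I.filter (fun w => (I.card : ℝ) / 3 ≤ ((nO R I w).card : ℝ))).card := by exact_mod_cast h2.symm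
  linarith

end AEJ
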