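import Pool.Agent.AEJ.ExtM
import Pool.Agent.AEJ.Univ
import Pool.Agent.AEJ.Resv
import Pool.Agent.AEJ.TopL
import Pool.Agent.AEK.Thick
import Pool.Agent.AEK.Main

/-!
# Placing the tree in the regions
-/

namespace AEJ

open Finset AE15 AED AELT AEK AESK
open scoped Classical

/-- the reserves and the shares -/
theorem place_sets {V : Type*} {R : V → V → Prop} {α ζ : ℝ} {ℓ w₀ n₂ : ℕ} (hζ : 0 ≤ ζ)
    (hres : ∀ Y : Finset V, n₂ ≤ Y.card → Ex R (α * Y.card) Y → ∃ U Rc Ro : Finset V,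
      Cor R Y U Rc Ro ℓ w₀ (α / 2 * ζ * Y.card) ∧ (1 - 3 * ζ) * Y.card ≤ (U.card : ℝ))
    (need : ℕ → Prop) (G : ℕ → Finset V) (s : ℕ → ℕ) (z : V)
    (hneed : ∀ m, need m → n₂ ≤ (G m).card ∧ Ex R (α * (G m).card) (G m))
    (hs : ∀ m, s m = 0 ∨ (s m : ℝ) + 1 ≤ (1 - 3 * ζ) * (G m).card) :
    ∃ U Rc Ro S : ℕ → Finset V, (∀ m, U m ⊆ G m) ∧ (∀ m, Rc m ⊆ G m) ∧ (∀ m, Ro m ⊆ G m) ∧
      (∀ m, Disjoint (U m) (Rc m)) ∧ (∀ m, Disjoint (U m) (Ro m)) ∧
      (∀ m, (1 - 3 * ζ) * (G m).card ≤ ((U m).card : ℝ)) ∧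
      (∀ m, need m → Cor R (G m) (U m) (Rc m) (Ro m) ℓ w₀ (α / 2 * ζ * (G m).card)) ∧
      (∀ m, S m ⊆ U m) ∧ (∀ m, z ∉ S m) ∧ ∀ m, (S m).card = s m := by
  have h1 : ∀ m, ∃ U Rc Ro S : Finset V, U ⊆ G m ∧ Rc ⊆ G m ∧ Ro ⊆ G m ∧ Disjoint U Rc ∧ Disjoint U Ro ∧
      (1 - 3 * ζ) * (G m).card ≤ (U.card : ℝ) ∧ (need m → Cor R (G m) U Rc Ro ℓ w₀ (α / 2 * ζ * (G m).card)) ∧
      S ⊆ U ∧ z ∉ S ∧ S.card = s m := by
    intro m
    obtain ⟨U, Rc, Ro, u1, u2, u3, u4, u5, u6, u7⟩ : ∃ U Rc Ro : Finset V, U ⊆ G m ∧ Rc ⊆ G m ∧ Ro ⊆ G m ∧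
        Disjoint U Rc ∧ Disjoint U Ro ∧ (1 - 3 * ζ) * (G m).card ≤ (U.card : ℝ) ∧
        (need m → Cor R (G m) U Rc Ro ℓ w₀ (α / 2 * ζ * (G m).card)) := by
      by_cases hm : need m
      · obtain ⟨g1, g2⟩ := hneed m hm
        obtain ⟨U, Rc, Ro, h1, h2⟩ := hres (G m) g1 g2
        exact ⟨U, Rc, Ro, h1.hU, h1.hc, h1.ho, h1.d1, h1.d2, h2, fun _ => h1⟩
      · refine ⟨G m, ∅, ∅, subset_rfl, empty_subset _, empty_subset _, disjoint_empty_right _, disjoint_empty_right _,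
          ?_, fun h => absurd h hm⟩
        nlinarith [(Nat.cast_nonneg (G m).card : (0 : ℝ) ≤ (G m).card)]
    have h3 : s m ≤ (U.erase z).card := by
      rcases hs m with h | h
      · omega
      · have h4 : U.card ≤ (U.erase z).card + 1 := by
          have := pred_card_le_card_erase (s := U) (a := z)
          omega
        have h5 : (U.card : ℝ) ≤ (U.erase z).card + 1 := by exact_mod_cast h4
        have h6 : (s m : ℝ) ≤ (U.erase z).card := by linarith
        exact_mod_cast h6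
    obtain ⟨S, s1, s2⟩ := exists_subset_card_eq h3
    exact ⟨U, Rc, Ro, S, u1, u2, u3, u4, u5, u6, u7, s1.trans (erase_subset _ _),
      fun h => notMem_erase z U (s1 h), s2⟩
  choose U Rc Ro S h using h1
  exact ⟨U, Rc, Ro, S, fun m => (h m).1, fun m => (h m).2.1, fun m => (h m).2.2.1, fun m => (h m).2.2.2.1,
    fun m => (h m).2.2.2.2.1, fun m => (h m).2.2.2.2.2.1, fun m => (h m).2.2.2.2.2.2.1, fun m => (h m).2.2.2.2.2.2.2.1,
    fun m => (h m).2.2.2.2.2.2.2.2.1, fun m => (h m).2.2.2.2.2.2.2.2.2⟩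

/-- the component of the mark, hanging on a vertex of another region -/
theorem place_hk {V : Type*} {R : V → V → Prop} {b ℓ w₀ : ℕ} {ρ C κ ν ν' : ℝ} (hT : AE32.Tour R) {G GG : ℕ → Finset V}
    {Rc Ro : Finset V} {k : ℕ} (h : Ctx R b ℓ ρ C κ (G k) (GG k) Rc Ro w₀) (J : ℕ) {lam M' : ℝ}
    (hlam : lam = 1 - 1 / ((b : ℝ) + 1) ^ ℓ) (hM : M' = (ℓ * b + 1 : ℝ) ^ J * ((b : ℝ) + 1) ^ (ℓ + 1))
    (hTy : Typ2 R ν G G) (hν : 0 ≤ ν) (hν' : ν + (ℓ + 2) ≤ ν') {N1 : Finset V} (hN1 : N1 ⊆ G k)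
    (hN1c : ν + 3 ^ (ℓ + 1) ≤ (N1.card : ℝ)) {Wa : Finset V} (hWN : Disjoint N1 Wa)
    (hWc : (Wa ∩ Rc).card + (ℓ + 2) + (ℓ + 2) * (b * cc b ℓ J) ≤ w₀)
    (hWo : ρ * (lam ^ J * (G k).card + (ℓ + 2) * (b * M')) + C + (ℓ + 2) + (Wa ∩ Ro).card ≤ κ)
    (t : Mn) (d : Bool) (e : ℕ) (x : V) (hx : x ∈ G e) (hek : e ≠ k) (hd : if d then e ≤ k else k ≤ e) (hI : t.In k)
    (hl : t.un.len ≤ b) (hD : t.un.Deg b) (W : Finset V) (hW : W ⊆ Wa)
    (hcap : ρ * (((t.fn.top k).size : ℝ) + 1) + C + ν' + (W ∩ GG k).card ≤ ((GG k).card : ℝ)) :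
    ∃ (x1 : V) (A : Finset V) (w : V), Adj R d x x1 ∧ x1 ∉ A ∧ insert x1 A ⊆ G k ∧ Disjoint (insert x1 A) W ∧
      (insert x1 A \ (GG k ∪ Rc ∪ Ro)).card ≤ ℓ + 2 ∧ TopM R k t x1 A w ∧ w ∈ N1 := by
  have hρ := h.hρ
  have hC := h.hC
  obtain ⟨S, hS⟩ : ∃ S, S = N1.filter (fun v => Adj R d x v) := ⟨_, rfl⟩
  have hSN : S ⊆ N1 := by rw [hS]; exact filter_subset _ _
  have hnb := hTy.nb (e := e) (e' := k) (fun h => hek h.symm) (d := d) hd hx
  have hadd : ((nb R d (G k) x).card : ℝ) + (((G k).filter (fun u => ¬ Adj R d x u)).card : ℝ) = (G k).card := by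
    exact_mod_cast card_nb_add
  have hSc : (N1.card : ℝ) ≤ S.card + ν := by
    have h1 : N1 ⊆ S ∪ (G k).filter (fun u => ¬ Adj R d x u) := by
      intro u hu
      rw [hS, mem_union, mem_filter, mem_filter]
      by_cases hc : Adj R d x u
      · exact Or.inl ⟨hu, hc⟩
      · exact Or.inr ⟨hN1 hu, hc⟩
    have h2 : (N1.card : ℝ) ≤ S.card + ((G k).filter (fun u => ¬ Adj R d x u)).card := by
      exact_mod_cast (card_le_card h1).trans (card_union_le _ _)
    linarith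
  have hSc' : 3 ^ (ℓ + 1) ≤ S.card := by
    have h1 : (3 : ℝ) ^ (ℓ + 1) ≤ S.card := by linarith
    exact_mod_cast h1
  have hUG : ((GG k).card : ℝ) ≤ (G k).card := by exact_mod_cast card_le_card h.hUY
  have hs0 : (0 : ℝ) ≤ (t.fn.top k).size := Nat.cast_nonneg _
  have hW0 : (0 : ℝ) ≤ (W ∩ GG k).card := Nat.cast_nonneg _
  have hℓ : (0 : ℝ) ≤ ℓ := Nat.cast_nonneg _
  have hs1 : ((t.fn.top k).size : ℝ) + 1 ≤ (G k).card := by
    have hq := mul_le_mul_of_nonneg_right hρ (by linarith only [hs0] : (0 : ℝ) ≤ (t.fn.top k).size + 1)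
    linarith only [hq, hcap, hUG, hW0, hC, hν, hν', hℓ]
  have hl0 : 0 ≤ lam ^ J := by rw [hlam]; exact pow_nonneg (lam_nonneg b ℓ) _
  obtain ⟨x1, A, w, a1, a2, a3, a4, a5, a6, a7⟩ := core_k1 hT h J hlam hM t hI hl hD (S := S) (W := W)
    (hSN.trans hN1) (hWN.mono hSN hW) hSc'
    (by
      have : (W ∩ Rc).card ≤ (Wa ∩ Rc).card := card_le_card (inter_subset_inter_right hW)
      omega)
    (by
      have h1 : ((W ∩ Ro).card : ℝ) ≤ (Wa ∩ Ro).card := by exact_mod_cast card_le_card (inter_subset_inter_right hW)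
      have h2 : lam ^ J * ((t.fn.top k).size + 1) ≤ lam ^ J * (G k).card := mul_le_mul_of_nonneg_left hs1 hl0
      have h3 : ρ * (lam ^ J * ((t.fn.top k).size + 1) + (ℓ + 2) * (b * M')) ≤
          ρ * (lam ^ J * (G k).card + (ℓ + 2) * (b * M')) := mul_le_mul_of_nonneg_left (by linarith) (by linarith)
      linarith)
    (by linarith)
  have h1 : Adj R d x x1 := by
    rw [hS, mem_filter] at a1
    exact a1.2
  exact ⟨x1, A, w, h1, a3, a6, a5, a7, a4, hSN a2⟩

/-- the placing, the constants being fixed -/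
theorem place_core {V : Type*} {R : V → V → Prop} {b ℓ w₀ J : ℕ} {ρ C ν lam M' : ℝ} {κ : ℕ → ℝ} (hT : AE32.Tour R)
    (hb : 1 ≤ b) (hρ : 1 ≤ ρ) (hC : 0 ≤ C) (hU : Un R b ρ C) (hlam : lam = 1 - 1 / ((b : ℝ) + 1) ^ ℓ)
    (hM : M' = (ℓ * b + 1 : ℝ) ^ J * ((b : ℝ) + 1) ^ (ℓ + 1))
    (hw₀ : 1 + b * cc b ℓ J + (ℓ + 2) + (ℓ + 2) * (b * cc b ℓ J) ≤ w₀) {X : Finset V} {G U Rc Ro S : ℕ → Finset V}
    (hGX : ∀ m, G m ⊆ X) (hUG : ∀ m, U m ⊆ G m) (hcG : ∀ m, Rc m ⊆ G m) (hoG : ∀ m, Ro m ⊆ G m)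
    (hUc : ∀ m, Disjoint (U m) (Rc m)) (hUo : ∀ m, Disjoint (U m) (Ro m)) (hSU : ∀ m, S m ⊆ U m) {z : V}
    (hzS : ∀ m, z ∉ S m) (hGd : ∀ i j, i ≠ j → Disjoint (G i) (G j)) (hG5 : ∀ m, 5 ≤ m → G m = ∅)
    (hTy : Typ2 R ν G G) (hν : 0 ≤ ν) {M : Mn} {e k : ℕ} (hOk : M.fn.Ok e) (hD : M.un.Deg b) (hl : M.un.len ≤ b)
    (htn : M.In e → e = k → 2 ≤ tn M.sg ∨ ℓ < M.sg.length) (hz : z ∈ G e)
    (hCor1 : (M.fn.top e).size ≠ 0 → Cor R (G e) (U e) (Rc e) (Ro e) ℓ w₀ (κ e))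
    (hCor2 : M.lab e = k → Cor R (G k) (U k) (Rc k) (Ro k) ℓ w₀ (κ k))
    (hcap : ∀ j, (M.fn.num j ≠ 0 ∨ (M.lab e = k ∧ j = k)) →
      ρ * ((M.fn.num j : ℝ) + 1) + C + (ν + (ℓ + 2)) + 1 ≤ ((U j \ S j).card : ℝ))
    (hκ : ∀ j, (((M.fn.top e).size ≠ 0 ∧ j = e) ∨ (M.lab e = k ∧ j = k)) →
      ρ * (lam ^ J * (G j).card + (ℓ + 2) * (b * M')) + C + (ℓ + 2) + 1 + (lam ^ J * (G j).card + b * M') ≤ κ j)
    (hκ' : M.lab e = k → ((4 * (ℓ + 2) + 4 * (ℓ + 2) * ℓ + 1 : ℕ) : ℝ) ≤ κ k)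
    {N1 : Finset V} (hN1S : N1 ⊆ S k) (hN1c : M.lab e = k → ν + 3 ^ (ℓ + 1) ≤ (N1.card : ℝ))
    (hN1c' : M.lab e = k → 2 * (ℓ + 2) * (ℓ + 1) < N1.card) :
    ∃ (A : Finset V) (w : V), z ∉ A ∧ A ⊆ X ∧ EmbM R M z A w ∧ w ∈ G (M.lab e) ∧
      (∀ m, m ≠ k → Disjoint (insert z A) (S m)) ∧ (insert z A ∩ S k).card ≤ 2 * (ℓ + 2) ∧
      (M.lab e = k → w ∈ N1) := by
  have hl0 : 0 ≤ lam ^ J := by rw [hlam]; exact pow_nonneg (lam_nonneg b ℓ) _
  have hM0 : 0 ≤ M' := by rw [hM]; positivity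
  have hℓ : (0 : ℝ) ≤ ℓ := Nat.cast_nonneg _
  have hbM : 0 ≤ (b : ℝ) * M' := by positivity
  obtain ⟨GG, hGG⟩ : ∃ GG : ℕ → Finset V, GG = fun m => U m \ S m := ⟨_, rfl⟩
  have hGGe : ∀ m, GG m = U m \ S m := fun m => by rw [hGG]
  have hGGU : ∀ m, GG m ⊆ U m := fun m => by rw [hGGe]; exact sdiff_subset
  have hGGG : ∀ m, GG m ⊆ G m := fun m => (hGGU m).trans (hUG m)
  have hGGX : ∀ m, GG m ⊆ X := fun m => (hGGG m).trans (hGX m)
  have hGGS : ∀ m j, Disjoint (GG j) (S m) := by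
    intro m j
    by_cases h : j = m
    · subst h
      rw [hGGe]
      exact sdiff_disjoint
    · exact (hGd j m h).mono (hGGG j) ((hSU m).trans (hUG m))
  have hcS : ∀ m, Disjoint (Rc m) (S m) := fun m => ((hUc m).mono_left (hSU m)).symm
  have hoS : ∀ m, Disjoint (Ro m) (S m) := fun m => ((hUo m).mono_left (hSU m)).symm
  have hctx : ∀ m, Cor R (G m) (U m) (Rc m) (Ro m) ℓ w₀ (κ m) →
      Ctx R b ℓ ρ C (κ m) (G m) (GG m) (Rc m) (Ro m) w₀ := by
    intro m h
    exact ⟨hb, hρ, hC, hU, hGGG m, h.hc, h.ho, h.d1.mono_left (hGGU m), h.d2.mono_left (hGGU m), h.d3, h.conn, h.deg⟩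
  have hTyG : Typ2 R (ν + (ℓ + 2)) G GG := by
    intro i j hij
    obtain ⟨h1, h2⟩ := hTy i j hij
    refine ⟨fun x hx => ?_, fun x hx => ?_⟩
    · have h3 : (((GG j).filter (fun v => ¬ R x v)).card : ℝ) ≤ ((G j).filter (fun v => ¬ R x v)).card := by
        exact_mod_cast card_le_card (filter_subset_filter _ (hGGG j))
      have := h1 x hx
      linarith
    · have h3 : (((GG i).filter (fun v => ¬ R v x)).card : ℝ) ≤ ((G i).filter (fun v => ¬ R v x)).card := by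
        exact_mod_cast card_le_card (filter_subset_filter _ (hGGG i))
      have := h2 x hx
      linarith
  have hcap' : ∀ j, (M.fn.num j ≠ 0 ∨ (M.lab e = k ∧ j = k)) →
      ρ * ((M.fn.num j : ℝ) + 1) + C + (ν + (ℓ + 2)) + 1 ≤ ((GG j).card : ℝ) := by
    intro j hj
    rw [hGGe]
    exact hcap j hj
  have hN1G : N1 ⊆ G k := hN1S.trans ((hSU k).trans (hUG k))
  have hzN1 : z ∉ N1 := fun h => hzS k (hN1S h)
  -- the component of the root
  have htop : ∃ (P : Finset V) (w : V), z ∉ P ∧ P ⊆ G e ∧ TopM R e M z P w ∧ (w = z ∨ w ∈ P) ∧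
      (∀ m, m ≠ k → Disjoint P (S m)) ∧ (P ∩ S k).card ≤ ℓ + 2 ∧ (M.In e → M.lab e = k → w ∈ N1) ∧
      (¬ M.In e → Disjoint P (S k) ∧ (P ∩ Rc k).card ≤ b * cc b ℓ J ∧
        ((P ∩ Ro k).card : ℝ) ≤ lam ^ J * (G k).card + b * M') := by
    by_cases hne : (M.fn.top e).size ≠ 0 ∨ (M.In e ∧ e = k)
    · have hlab : M.In e ∧ e = k → M.lab e = k := fun h => (Mn.lab_of_in h.1).trans h.2
      have hCor : Cor R (G e) (U e) (Rc e) (Ro e) ℓ w₀ (κ e) := by
        rcases hne with h | h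
        · exact hCor1 h
        · obtain ⟨h1, rfl⟩ := h
          exact hCor2 (Mn.lab_of_in h1)
      have hκe : ρ * (lam ^ J * (G e).card + (ℓ + 2) * (b * M')) + C + (ℓ + 2) + 1 + (lam ^ J * (G e).card + b * M')
          ≤ κ e := by
        rcases hne with h | h
        · exact hκ e (Or.inl ⟨h, rfl⟩)
        · exact hκ e (Or.inr ⟨hlab h, h.2⟩)
      have hst := Fn.size_top e M.fn
      have hstR : ((M.fn.top e).size : ℝ) ≤ M.fn.num e := by
        have : (M.fn.top e).size ≤ M.fn.num e := by omega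
        exact_mod_cast this
      have hcape : ρ * ((M.fn.num e : ℝ) + 1) + C + (ν + (ℓ + 2)) + 1 ≤ ((GG e).card : ℝ) := by
        rcases hne with h | h
        · exact hcap' e (Or.inl (by omega))
        · exact hcap' e (Or.inr ⟨hlab h, h.2⟩)
      have hcape2 : ρ * (((M.fn.top e).size : ℝ) + 1) ≤ ρ * ((M.fn.num e : ℝ) + 1) :=
        mul_le_mul_of_nonneg_left (by linarith) (by linarith)
      have hs0 : (0 : ℝ) ≤ (M.fn.top e).size := Nat.cast_nonneg _
      have hGe : ((M.fn.top e).size : ℝ) + 1 ≤ (G e).card := by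
        have h1 : ((GG e).card : ℝ) ≤ (G e).card := by exact_mod_cast card_le_card (hGGG e)
        have hq := mul_le_mul_of_nonneg_right hρ (by linarith only [hs0] : (0 : ℝ) ≤ (M.fn.top e).size + 1)
        linarith only [hq, hcape, hcape2, h1, hC, hν, hℓ]
      obtain ⟨N, hN⟩ : ∃ N : Finset V, N = if e = k then N1 else ∅ := ⟨_, rfl⟩
      have hNk : e = k → N = N1 := fun h => by rw [hN, if_pos h]
      have hNk' : e ≠ k → N = ∅ := fun h => by rw [hN, if_neg h]
      obtain ⟨P, w, p1, p2, p3, p4, p5, p6, p7⟩ := top_compL hT (hctx e hCor) J hlam hM M e k hl hD htn (z := z) (N := N)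
        (K := ℓ + 2) hz (by
          by_cases h : e = k
          · rw [hNk h, h]; exact hN1G
          · rw [hNk' h]; exact empty_subset _) (by
          by_cases h : e = k
          · rw [hNk h]; exact hzN1
          · rw [hNk' h]; exact notMem_empty _) le_rfl
        (by
          intro h1 h2 d
          have h3 := hCor.deg z hz d
          have h4 := hκ' (hlab ⟨h1, h2⟩)
          rw [← h2] at h4
          have h5 : ((nb R d (Ro e) z).card : ℝ) ≤ (nb R d (G e) z).card := by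
            have h6 : nb R d (Ro e) z ⊆ nb R d (G e) z := by
              intro u hu
              rw [AELT.mem_nb] at hu ⊢
              exact ⟨hoG e hu.1, hu.2⟩
            exact_mod_cast card_le_card h6
          have h7 := (h4.trans h3).trans h5
          exact_mod_cast h7)
        (by
          intro h1 h2
          rw [hNk h2]
          exact hN1c' (hlab ⟨h1, h2⟩))
        (by omega)
        (by
          have h1 : lam ^ J * ((M.fn.top e).size + 1) ≤ lam ^ J * (G e).card := mul_le_mul_of_nonneg_left hGe hl0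
          have h2 : ρ * (lam ^ J * ((M.fn.top e).size + 1) + (ℓ + 2) * (b * M')) ≤
              ρ * (lam ^ J * (G e).card + (ℓ + 2) * (b * M')) := mul_le_mul_of_nonneg_left (by linarith) (by linarith)
          have h3 : 0 ≤ lam ^ J * ((G e).card : ℝ) := mul_nonneg hl0 (Nat.cast_nonneg _)
          linarith)
        (by linarith)
      refine ⟨P, w, p1, p2, p3, p4, ?_, ?_, ?_, ?_⟩
      · intro m hm
        by_cases h : e = k
        · subst h
          exact (hGd e m (fun h => hm h.symm)).mono p2 ((hSU m).trans (hUG m))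
        · obtain ⟨q1, -, -⟩ := p7 (fun hc => h hc.2)
          by_cases hme : m = e
          · subst hme
            refine Disjoint.mono_left q1 ?_
            rw [disjoint_union_left, disjoint_union_left]
            exact ⟨⟨hGGS m m, hcS m⟩, hoS m⟩
          · exact (hGd e m (fun h => hme h.symm)).mono p2 ((hSU m).trans (hUG m))
      · by_cases h : e = k
        · subst h
          refine (card_le_card ?_).trans p5
          intro u hu
          rw [mem_inter] at hu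
          rw [mem_sdiff, mem_union, mem_union, not_or, not_or]
          exact ⟨mem_insert_of_mem hu.1, ⟨fun hc => disjoint_left.1 (hGGS e e) hc hu.2,
            fun hc => disjoint_left.1 (hcS e) hc hu.2⟩, fun hc => disjoint_left.1 (hoS e) hc hu.2⟩
        · have h1 : P ∩ S k = ∅ := by
            rw [← disjoint_iff_inter_eq_empty]
            exact (hGd e k h).mono p2 ((hSU k).trans (hUG k))
          rw [h1, card_empty]
          omega
      · intro h1 h2
        have h3 : e = k := (Mn.lab_of_in h1).symm.trans h2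
        rw [← hNk h3]
        exact p6 h1 h3
      · intro h1
        obtain ⟨q1, q2, q3⟩ := p7 (fun hc => h1 hc.1)
        by_cases h : e = k
        · subst h
          refine ⟨?_, q2, q3.trans ?_⟩
          · refine Disjoint.mono_left q1 ?_
            rw [disjoint_union_left, disjoint_union_left]
            exact ⟨⟨hGGS e e, hcS e⟩, hoS e⟩
          · have h2 : lam ^ J * (M.fn.top e).size ≤ lam ^ J * (G e).card := mul_le_mul_of_nonneg_left (by linarith) hl0
            linarith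
        · have h2 : ∀ Q : Finset V, Q ⊆ G k → P ∩ Q = ∅ := by
            intro Q hQ
            rw [← disjoint_iff_inter_eq_empty]
            exact (hGd e k h).mono p2 hQ
          refine ⟨?_, ?_, ?_⟩
          · exact (hGd e k h).mono p2 ((hSU k).trans (hUG k))
          · rw [h2 _ (hcG k), card_empty]
            exact Nat.zero_le _
          · rw [h2 _ (hoG k), card_empty]
            have h3 : 0 ≤ lam ^ J * ((G k).card : ℝ) := mul_nonneg hl0 (Nat.cast_nonneg _)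
            push_cast
            linarith
    · push Not at hne
      obtain ⟨hn1, hn2⟩ := hne
      have hE : Emb R (M.fn.top e) z ∅ := by
        cases hF : M.fn.top e with
        | nil => rfl
        | node d c s => rw [hF] at hn1; simp only [Fd.size] at hn1; omega
      obtain ⟨w, w1, w2⟩ := exists_topM e M hE
      refine ⟨∅, w, notMem_empty _, empty_subset _, w2, w1, fun _ _ => disjoint_empty_left _, by simp, ?_, ?_⟩
      · intro h1 h2
        exact absurd ((Mn.lab_of_in h1).symm.trans h2) (hn2 h1)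
      · intro _
        refine ⟨disjoint_empty_left _, by simp, ?_⟩
        have h3 : 0 ≤ lam ^ J * ((G k).card : ℝ) := mul_nonneg hl0 (Nat.cast_nonneg _)
        simp only [empty_inter, card_empty]
        push_cast
        linarith
  obtain ⟨P, w, p1, p2, p3, p4, p5, p6, p7, p8⟩ := htop
  have hPc : P.card = (M.fn.top e).size := p3.emb.card
  have hzP : insert z P ⊆ G e := insert_subset hz p2
  -- the room
  have hcapW : ∀ j, M.fn.off e j ≠ 0 → ρ * (M.fn.off e j : ℝ) + C + (ν + (ℓ + 2)) + (insert z P ∩ GG j).card ≤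
      ((GG j).card : ℝ) := by
    intro j hj
    have h0 := Fn.off_le e j M.fn
    have h1 := hcap' j (Or.inl (by omega))
    by_cases hje : j = e
    · subst hje
      have hst := Fn.size_top j M.fn
      have h2 : (insert z P ∩ GG j).card ≤ 1 + (M.fn.top j).size := by
        rw [← hPc]
        have h3 := card_le_card (inter_subset_left (s₁ := insert z P) (s₂ := GG j))
        have h4 := card_insert_le z P
        omega
      have h3 : ((insert z P ∩ GG j).card : ℝ) ≤ 1 + (M.fn.top j).size := by exact_mod_cast h2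
      have h4 : ((M.fn.top j).size : ℝ) + M.fn.off j j = M.fn.num j := by exact_mod_cast hst
      have h5 : (0 : ℝ) ≤ (M.fn.top j).size := Nat.cast_nonneg _
      have h6 : ((M.fn.top j).size : ℝ) ≤ ρ * (M.fn.top j).size := by
        have hq := mul_le_mul_of_nonneg_right hρ h5
        linarith only [hq]
      have h7 : ρ * ((M.fn.num j : ℝ) + 1) = ρ * (M.fn.top j).size + ρ * M.fn.off j j + ρ := by
        rw [← h4]; ring
      linarith
    · have h2 : insert z P ∩ GG j = ∅ := by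
        rw [← disjoint_iff_inter_eq_empty]
        exact (hGd e j (fun h => hje h.symm)).mono hzP (hGGG j)
      rw [h2, card_empty]
      have h3 : (M.fn.off e j : ℝ) ≤ M.fn.num j := by exact_mod_cast h0
      have h4 : ρ * (M.fn.off e j : ℝ) ≤ ρ * ((M.fn.num j : ℝ) + 1) := mul_le_mul_of_nonneg_left (by linarith) (by linarith)
      push_cast
      linarith
  obtain ⟨GA, hGA⟩ : ∃ GA : Finset V, GA = X.filter (fun v => ∃ j, v ∈ GG j) := ⟨_, rfl⟩
  have hGA1 : ∀ j, GG j ⊆ GA := by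
    intro j v hv
    rw [hGA, mem_filter]
    exact ⟨hGGX j hv, j, hv⟩
  have hGAX : GA ⊆ X := by rw [hGA]; exact filter_subset _ _
  have hGAd : ∀ Q : Finset V, (∀ j, Disjoint (GG j) Q) → Disjoint GA Q := by
    intro Q hQ
    rw [disjoint_left]
    intro v hv
    rw [hGA, mem_filter] at hv
    obtain ⟨-, j, hj⟩ := hv
    exact disjoint_left.1 (hQ j) hj
  have hGAS : ∀ m, Disjoint GA (S m) := fun m => hGAd _ (fun j => hGGS m j)
  have hGGd : ∀ i j, i ≠ j → Disjoint (GG i) (GG j) := fun i j h => (hGd i j h).mono (hGGG i) (hGGG j)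
  have hHG : ∀ i j, i ≠ j → Disjoint (G i) (GG j) := fun i j h => (hGd i j h).mono_right (hGGG j)
  -- the rest
  have hQ : ∃ (Q : Finset V) (w : V), Q ⊆ X ∧ Disjoint Q (insert z P) ∧ EmbM R M z (P ∪ Q) w ∧ w ∈ G (M.lab e) ∧
      (M.lab e = k → w ∈ N1) ∧ (∀ m, m ≠ k → Disjoint Q (S m)) ∧ (Q ∩ S k).card ≤ ℓ + 2 := by
    by_cases hIn : M.In e
    · obtain ⟨Q, q1, q2, q3, -⟩ := extM1 hρ hU hGA1 hGGG hGGd hTyG M e hOk hD hIn z hz P p2 p1 w p3 (insert z P)
        subset_rfl hcapW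
      refine ⟨Q, w, q1.trans hGAX, q2, q3, ?_, p7 hIn, fun m _ => (hGAS m).mono_left q1, ?_⟩
      · rw [Mn.lab_of_in hIn]
        rcases p4 with rfl | h
        · exact hz
        · exact p2 h
      · have h1 : Q ∩ S k = ∅ := by
          rw [← disjoint_iff_inter_eq_empty]
          exact (hGAS k).mono_left q1
        rw [h1, card_empty]
        omega
    · by_cases hlab : M.lab e = k
      · obtain ⟨r1, r2, r3⟩ := p8 hIn
        have hCk := hCor2 hlab
        have hck := hctx k hCk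
        have hGAc : GA ∩ Rc k = ∅ := by
          rw [← disjoint_iff_inter_eq_empty]
          refine hGAd _ (fun j => ?_)
          by_cases h : j = k
          · subst h
            exact (hUc j).mono_left (hGGU j)
          · exact (hGd j k h).mono (hGGG j) (hcG k)
        have hGAo : GA ∩ Ro k = ∅ := by
          rw [← disjoint_iff_inter_eq_empty]
          refine hGAd _ (fun j => ?_)
          by_cases h : j = k
          · subst h
            exact (hUo j).mono_left (hGGU j)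
          · exact (hGd j k h).mono (hGGG j) (hoG k)
        have hins : ∀ Q : Finset V, GA ∩ Q = ∅ → ((insert z P ∪ GA) ∩ Q).card ≤ 1 + (P ∩ Q).card := by
          intro Q hQ
          have h1 : (insert z P ∪ GA) ∩ Q ⊆ insert z (P ∩ Q) := by
            intro u hu
            rw [mem_inter, mem_union, mem_insert] at hu
            rw [mem_insert, mem_inter]
            rcases hu.1 with (h | h) | h
            · exact Or.inl h
            · exact Or.inr ⟨h, hu.2⟩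
            · exfalso
              have : u ∈ GA ∩ Q := mem_inter.2 ⟨h, hu.2⟩
              rw [hQ] at this
              exact notMem_empty _ this
          have h2 := card_insert_le z (P ∩ Q)
          have h3 := card_le_card h1
          omega
        have hWN : Disjoint N1 (insert z P ∪ GA) := by
          rw [disjoint_union_right, disjoint_insert_right]
          exact ⟨⟨hzN1, (r1.mono_right hN1S).symm⟩, ((hGAS k).mono_right hN1S).symm⟩
        have hWc : ((insert z P ∪ GA) ∩ Rc k).card + (ℓ + 2) + (ℓ + 2) * (b * cc b ℓ J) ≤ w₀ := by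
          have := hins _ hGAc
          omega
        have hWo : ρ * (lam ^ J * (G k).card + (ℓ + 2) * (b * M')) + C + (ℓ + 2) + ((insert z P ∪ GA) ∩ Ro k).card
            ≤ κ k := by
          have h1 : (((insert z P ∪ GA) ∩ Ro k).card : ℝ) ≤ 1 + (P ∩ Ro k).card := by exact_mod_cast hins _ hGAo
          have h2 := hκ k (Or.inr ⟨hlab, rfl⟩)
          linarith
        obtain ⟨Q, w', q1, q2, q3, q4, q5, q6, -⟩ := extM2 (B := ℓ + 2) (GG := GA) (X := GA ∪ Rc k ∪ Ro k)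
          (X' := GA ∪ G k) (W₀ := insert z P) (k := k) (N := fun v => v ∈ N1) hρ hU hGA1
          (subset_union_left.trans subset_union_left)
          (union_subset (union_subset subset_union_left ((hcG k).trans subset_union_right))
            ((hoG k).trans subset_union_right)) hGGG hHG hTyG (by
            intro t d e' x hx hek hd hI hl' hD' W hW hcW
            obtain ⟨x1, A, w', a1, a2, a3, a4, a5, a6, a7⟩ := place_hk hT hck J hlam hM hTy hν le_rfl hN1G
              (hN1c hlab) hWN hWc hWo t d e' x hx hek hd hI hl' hD' W hW hcW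
            refine ⟨x1, A, w', a1, a2, a3, a3.trans subset_union_right, a4, (card_le_card ?_).trans a5, a6, a7⟩
            refine sdiff_subset_sdiff subset_rfl ?_
            exact union_subset_union (union_subset_union (hGA1 k) subset_rfl) subset_rfl) M e hOk hD hIn z hz P p2 p1
          p3.emb (insert z P) subset_rfl subset_union_left hcapW
        refine ⟨Q, w', q1.trans (union_subset hGAX (hGX k)), q3, q4, q5, q6, ?_, ?_⟩
        · intro m hm
          refine Disjoint.mono_left q1 ?_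
          rw [disjoint_union_left]
          exact ⟨hGAS m, (hGd k m (fun h => hm h.symm)).mono_right ((hSU m).trans (hUG m))⟩
        · refine (card_le_card ?_).trans q2
          intro u hu
          rw [mem_inter] at hu
          rw [mem_sdiff, mem_union, mem_union, not_or, not_or]
          exact ⟨hu.1, ⟨fun hc => disjoint_left.1 (hGAS k) hc hu.2, fun hc => disjoint_left.1 (hcS k) hc hu.2⟩,
            fun hc => disjoint_left.1 (hoS k) hc hu.2⟩
      · obtain ⟨Q, w', q1, -, q3, q4, q5, -, -⟩ := extM2 (B := 0) (GG := GA) (X := GA) (X' := GA) (W₀ := insert z P)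
          (k := 5) (N := fun _ => True) hρ hU hGA1 subset_rfl subset_rfl hGGG hHG hTyG (by
            intro t d e' x _ _ _ _ _ _ W _ hcW
            exfalso
            have h1 : GG 5 = ∅ := subset_empty.1 (by rw [← hG5 5 le_rfl]; exact hGGG 5)
            rw [h1] at hcW
            simp only [card_empty, inter_empty] at hcW
            have h2 : (0 : ℝ) ≤ (t.fn.top 5).size := Nat.cast_nonneg _
            push_cast at hcW
            nlinarith) M e hOk hD hIn z hz P p2 p1 p3.emb (insert z P) subset_rfl subset_union_left hcapW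
        refine ⟨Q, w', q1.trans hGAX, q3, q4, q5, fun h => absurd h hlab, fun m _ => (hGAS m).mono_left q1, ?_⟩
        have h1 : Q ∩ S k = ∅ := by
          rw [← disjoint_iff_inter_eq_empty]
          exact (hGAS k).mono_left q1
        rw [h1, card_empty]
        omega
  obtain ⟨Q, w', q1, q2, q3, q4, q5, q6, q7⟩ := hQ
  refine ⟨P ∪ Q, w', ?_, union_subset (p2.trans (hGX e)) q1, q3, q4, ?_, ?_, q5⟩
  · rw [mem_union, not_or]
    exact ⟨p1, fun h => disjoint_left.1 q2 h (mem_insert_self _ _)⟩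
  · intro m hm
    rw [disjoint_insert_left, disjoint_union_left]
    exact ⟨hzS m, p5 m hm, q6 m hm⟩
  · have h1 : insert z (P ∪ Q) ∩ S k ⊆ (P ∩ S k) ∪ (Q ∩ S k) := by
      intro u hu
      rw [mem_inter, mem_insert, mem_union] at hu
      rw [mem_union, mem_inter, mem_inter]
      rcases hu.1 with h | h | h
      · exact absurd hu.2 (h ▸ hzS k)
      · exact Or.inl ⟨h, hu.2⟩
      · exact Or.inr ⟨h, hu.2⟩
    have h2 := (card_le_card h1).trans (card_union_le _ _)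
    omega

/-- **Placing the tree in the regions, general form.** If the root and the mark are in one component in the region `k`, then
the path between them has to have two turns or more than `ℓ` arcs, where `ℓ` depends only on `α`; the rest is as in
`place`. -/
theorem placeL (b : ℕ) (hb : 1 ≤ b) {α : ℝ} (hα : 0 < α) (hα1 : α ≤ 1) : ∃ ℓ : ℕ, ∀ {δ γ : ℝ}, 0 < δ → δ ≤ 1 → 0 < γ →
    ∃ n₀ m₀ : ℕ, ∀ {V : Type} {R : V → V → Prop}, AE32.Tour R → ∀ (X : Finset V) (G : ℕ → Finset V) (ν : ℝ) (M : Mn)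
      (e k : ℕ) (z : V) (s : ℕ → ℕ) (a ι : ℕ), n₀ ≤ X.card → (∀ m, G m ⊆ X) → (∀ i j, i ≠ j → Disjoint (G i) (G j)) →
      (∀ m, 5 ≤ m → G m = ∅) → Typ2 R ν G G → 0 ≤ ν → ν ≤ δ / 16 * X.card → ν ≤ γ / 16 * X.card →
      M.fn.Ok e → M.un.Deg b → M.un.len ≤ b → (M.In e → e = k → 2 ≤ tn M.sg ∨ ℓ < M.sg.length) → z ∈ G e →
      ((M.fn.top e).size ≠ 0 → Ex R (α * (G e).card) (G e)) → (M.lab e = k → Ex R (α * (G k).card) (G k)) →
      (∀ m, (M.fn.num m = 0 ∧ s m = 0) ∨ (M.fn.num m : ℝ) + s m + δ * X.card ≤ (G m).card) →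
      γ * X.card ≤ (ι : ℝ) → a + ι ≤ s k →
      ∃ (S : ℕ → Finset V) (π : V → ℕ) (A : Finset V) (w : V), (∀ m, S m ⊆ G m) ∧ (∀ m, (S m).card = s m) ∧
        AEM.MedO R (S k) π ∧ z ∉ A ∧ A ⊆ X ∧ EmbM R M z A w ∧ w ∈ G (M.lab e) ∧
        (∀ m, m ≠ k → Disjoint (insert z A) (S m)) ∧ (insert z A ∩ S k).card ≤ m₀ ∧
        (M.lab e = k → (ι : ℝ) / 3 ≤ ((nO R ((S k).filter (fun v => a ≤ π v ∧ π v < a + ι)) w).card : ℝ)) := by
  obtain ⟨ℓ, hres⟩ := exists_reserve2 hα hα1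
  refine ⟨ℓ, ?_⟩
  intro δ γ hδ hδ1 hγ
  obtain ⟨ζ, hζd⟩ : ∃ ζ : ℝ, ζ = min (δ / 32) (1 / 8) := ⟨_, rfl⟩
  have hζ : 0 < ζ := by rw [hζd]; exact lt_min (by positivity) (by norm_num)
  have hζ8 : ζ ≤ 1 / 8 := by rw [hζd]; exact min_le_right _ _
  have hζδ : ζ ≤ δ / 32 := by rw [hζd]; exact min_le_left _ _
  obtain ⟨C, hC, hUn⟩ := un_one b hb (show (0 : ℝ) < δ / 16 by positivity)
  obtain ⟨lam, hlam⟩ : ∃ lam : ℝ, lam = 1 - 1 / ((b : ℝ) + 1) ^ ℓ := ⟨_, rfl⟩
  have hlam0 : 0 ≤ lam := by rw [hlam]; exact lam_nonneg b ℓ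
  have hlam1 : lam < 1 := by
    rw [hlam]
    have : (0 : ℝ) < 1 / ((b : ℝ) + 1) ^ ℓ := by positivity
    linarith
  obtain ⟨J, hJ⟩ := exists_pow_lt_of_lt_one (show 0 < α * ζ / 16 by positivity) hlam1
  obtain ⟨M', hM⟩ : ∃ M' : ℝ, M' = (ℓ * b + 1 : ℝ) ^ J * ((b : ℝ) + 1) ^ (ℓ + 1) := ⟨_, rfl⟩
  have hM0 : 0 ≤ M' := by rw [hM]; positivity
  obtain ⟨w₀, hw₀⟩ : ∃ w₀ : ℕ, w₀ = 1 + b * cc b ℓ J + (ℓ + 2) + (ℓ + 2) * (b * cc b ℓ J) := ⟨_, rfl⟩
  obtain ⟨n₂, hn₂⟩ := hres ζ w₀ hζ hζ8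
  obtain ⟨D, hDd⟩ : ∃ D : ℝ, D = 2 * ((ℓ + 2) * (b * M')) + b * M' + C + (ℓ + 4) := ⟨_, rfl⟩
  obtain ⟨E, hEd⟩ : ∃ E : ℝ, E = (3 : ℝ) ^ (ℓ + 1) + ((2 * (ℓ + 2) * (ℓ + 1) : ℕ) : ℝ) + 2 := ⟨_, rfl⟩
  obtain ⟨F, hFd⟩ : ∃ F : ℝ, F = ((4 * (ℓ + 2) + 4 * (ℓ + 2) * ℓ + 1 : ℕ) : ℝ) := ⟨_, rfl⟩
  obtain ⟨n₃, hn₃⟩ := exists_nat_ge ((n₂ : ℝ) / δ)
  obtain ⟨n₄, hn₄⟩ := exists_nat_ge (D / (α * ζ / 8 * δ))
  obtain ⟨n₅, hn₅⟩ := exists_nat_ge ((C + ℓ + 6) / (δ / 8))
  obtain ⟨n₆, hn₆⟩ := exists_nat_ge (E / (γ / 6))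
  obtain ⟨n₇, hn₇⟩ := exists_nat_ge (F / (α / 2 * ζ * δ))
  refine ⟨max 1 (max n₃ (max n₄ (max n₅ (max n₆ n₇)))), 2 * (ℓ + 2), ?_⟩
  intro V R hT X G ν M e k z s a ι hn hGX hGd hG5 hTy hν hνδ hνγ hOk hD hl htn hz hEx1 hEx2 hnum hι hak
  obtain ⟨x, hx⟩ : ∃ x : ℝ, x = X.card := ⟨_, rfl⟩
  rw [← hx] at hνδ hνγ hι
  have hx1 : 1 ≤ x := by
    rw [hx]
    exact_mod_cast (le_max_left _ _).trans hn
  have hx3 : (n₂ : ℝ) ≤ δ * x := by
    rw [div_le_iff₀ hδ] at hn₃
    have h1 : (n₃ : ℝ) ≤ x := by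
      rw [hx]
      exact_mod_cast ((le_max_left _ _).trans (le_max_right _ _)).trans hn
    have h2 := mul_le_mul_of_nonneg_right h1 hδ.le
    linarith
  have hx4 : D ≤ α * ζ / 8 * δ * x := by
    rw [div_le_iff₀ (by positivity)] at hn₄
    have h1 : (n₄ : ℝ) ≤ x := by
      rw [hx]
      exact_mod_cast ((le_max_left _ _).trans ((le_max_right _ _).trans (le_max_right _ _))).trans hn
    have h2 := mul_le_mul_of_nonneg_right h1 (show 0 ≤ α * ζ / 8 * δ by positivity)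
    linarith
  have hx5 : C + ℓ + 6 ≤ δ / 8 * x := by
    rw [div_le_iff₀ (by positivity)] at hn₅
    have h1 : (n₅ : ℝ) ≤ x := by
      rw [hx]
      exact_mod_cast ((le_max_left _ _).trans ((le_max_right _ _).trans ((le_max_right _ _).trans
        (le_max_right _ _)))).trans hn
    have h2 := mul_le_mul_of_nonneg_right h1 (show 0 ≤ δ / 8 by positivity)
    linarith
  have hx6 : E ≤ γ / 6 * x := by
    rw [div_le_iff₀ (by positivity)] at hn₆
    have h1 : (n₆ : ℝ) ≤ x := by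
      rw [hx]
      exact_mod_cast ((le_max_left _ _).trans ((le_max_right _ _).trans ((le_max_right _ _).trans
        ((le_max_right _ _).trans (le_max_right _ _))))).trans hn
    have h2 := mul_le_mul_of_nonneg_right h1 (show 0 ≤ γ / 6 by positivity)
    linarith
  have hx7 : F ≤ α / 2 * ζ * δ * x := by
    rw [div_le_iff₀ (by positivity)] at hn₇
    have h1 : (n₇ : ℝ) ≤ x := by
      rw [hx]
      exact_mod_cast ((le_max_right _ _).trans ((le_max_right _ _).trans ((le_max_right _ _).trans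
        ((le_max_right _ _).trans (le_max_right _ _))))).trans hn
    have h2 := mul_le_mul_of_nonneg_right h1 (show 0 ≤ α / 2 * ζ * δ by positivity)
    linarith
  have hℓ : (0 : ℝ) ≤ ℓ := Nat.cast_nonneg _
  have hGx : ∀ m, ((G m).card : ℝ) ≤ x := by
    intro m
    rw [hx]
    exact_mod_cast card_le_card (hGX m)
  have hι0 : 0 < ι := by
    have h1 : (0 : ℝ) < ι := lt_of_lt_of_le (mul_pos hγ (lt_of_lt_of_le one_pos hx1)) hι
    exact_mod_cast h1
  have hsk : s k ≠ 0 := by omega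
  -- the regions which are used
  have hbig : ∀ m, (M.fn.num m ≠ 0 ∨ s m ≠ 0) → (M.fn.num m : ℝ) + s m + δ * x ≤ (G m).card := by
    intro m hm
    rcases hnum m with h | h
    · rcases hm with h' | h'
      · exact absurd h.1 h'
      · exact absurd h.2 h'
    · rw [hx]
      exact h
  have hδG : ∀ m, (M.fn.num m ≠ 0 ∨ s m ≠ 0) → δ * x ≤ (G m).card := by
    intro m hm
    have h1 := hbig m hm
    have h2 : (0 : ℝ) ≤ M.fn.num m := Nat.cast_nonneg _
    have h3 : (0 : ℝ) ≤ s m := Nat.cast_nonneg _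
    linarith
  obtain ⟨need, hneed⟩ : ∃ need : ℕ → Prop, need = fun m => ((M.fn.top e).size ≠ 0 ∧ m = e) ∨ (M.lab e = k ∧ m = k) :=
    ⟨_, rfl⟩
  have hneed' : ∀ m, need m → M.fn.num m ≠ 0 ∨ s m ≠ 0 := by
    intro m hm
    rw [hneed] at hm
    rcases hm with ⟨h, rfl⟩ | ⟨-, rfl⟩
    · left
      have := Fn.size_top m M.fn
      omega
    · exact Or.inr hsk
  have hζx : 3 * ζ * x ≤ 3 * (δ / 32) * x := by
    have := mul_le_mul_of_nonneg_right hζδ (by linarith : (0 : ℝ) ≤ 3 * x)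
    linarith
  obtain ⟨U, Rc, Ro, S, u1, u2, u3, u4, u5, u6, u7, u8, u9, u10⟩ := place_sets (R := R) (α := α) (ζ := ζ) (ℓ := ℓ)
    (w₀ := w₀) (n₂ := n₂) hζ.le (fun Y hY hEx => hn₂ hT Y α hY le_rfl hEx) need G s z
    (by
      intro m hm
      have h1 := hδG m (hneed' m hm)
      have h2 : (n₂ : ℝ) ≤ (G m).card := by linarith
      refine ⟨by exact_mod_cast h2, ?_⟩
      rw [hneed] at hm
      rcases hm with ⟨h, rfl⟩ | ⟨h, rfl⟩
      · exact hEx1 h
      · exact hEx2 h)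
    (by
      intro m
      by_cases hm : s m = 0
      · exact Or.inl hm
      · right
        have h1 := hbig m (Or.inr hm)
        have h2 : (0 : ℝ) ≤ M.fn.num m := Nat.cast_nonneg _
        have h3 : 3 * ζ * (G m).card ≤ 3 * ζ * x := mul_le_mul_of_nonneg_left (hGx m) (by positivity)
        have hδx : 0 ≤ δ * x := mul_nonneg hδ.le (zero_le_one.trans hx1)
        linarith only [h1, h2, h3, hζx, hδx, hx5, hC, hℓ])
  obtain ⟨π, hπ⟩ := AEM.exists_medO R (S k)
  obtain ⟨I, hI⟩ : ∃ I : Finset V, I = (S k).filter (fun v => a ≤ π v ∧ π v < a + ι) := ⟨_, rfl⟩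
  have hIc : I.card = ι := by
    rw [hI, hπ.card_seg (by rw [u10]; exact hak)]
    omega
  obtain ⟨N1, hN1⟩ : ∃ N1 : Finset V, N1 = I.filter (fun w => (I.card : ℝ) / 3 ≤ ((nO R I w).card : ℝ)) := ⟨_, rfl⟩
  have hN1c : (ι : ℝ) / 3 - 1 ≤ N1.card := by
    have := half_deg hT I
    rw [← hN1, hIc] at this
    exact this
  have hN1S : N1 ⊆ S k := by
    rw [hN1]
    refine (filter_subset _ _).trans ?_
    rw [hI]
    exact filter_subset _ _
  have hγx : 0 ≤ γ * x := by positivity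
  have h3p : (0 : ℝ) ≤ (3 : ℝ) ^ (ℓ + 1) := by positivity
  have hcap : ∀ j, (M.fn.num j ≠ 0 ∨ (M.lab e = k ∧ j = k)) →
      (1 + δ / 16) * ((M.fn.num j : ℝ) + 1) + C + (ν + (ℓ + 2)) + 1 ≤ ((U j \ S j).card : ℝ) := by
    intro j hj
    have hj' : M.fn.num j ≠ 0 ∨ s j ≠ 0 := by
      rcases hj with h | ⟨-, rfl⟩
      · exact Or.inl h
      · exact Or.inr hsk
    have h1 := hbig j hj'
    have h2 : ((U j \ S j).card : ℝ) = (U j).card - s j := by
      rw [card_sdiff_of_subset (u8 j), u10, Nat.cast_sub (by rw [← u10]; exact card_le_card (u8 j))]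
    have h3 := u6 j
    have h4 : 3 * ζ * (G j).card ≤ 3 * ζ * x := mul_le_mul_of_nonneg_left (hGx j) (by positivity)
    have h5 : (0 : ℝ) ≤ s j := Nat.cast_nonneg _
    have hδx : 0 ≤ δ * x := mul_nonneg hδ.le (zero_le_one.trans hx1)
    have h6 : (M.fn.num j : ℝ) ≤ x := by
      have := hGx j
      linarith only [this, h1, h5, hδx]
    have h7 : δ / 16 * (M.fn.num j : ℝ) ≤ δ / 16 * x := mul_le_mul_of_nonneg_left h6 (by positivity)
    rw [h2]
    linarith only [h1, h3, h4, h7, hζx, hδx, hx5, hνδ, hδ1, hC, hℓ]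
  have hbM : 0 ≤ (b : ℝ) * M' := by positivity
  have hκ : ∀ j, (((M.fn.top e).size ≠ 0 ∧ j = e) ∨ (M.lab e = k ∧ j = k)) →
      (1 + δ / 16) * (lam ^ J * (G j).card + (ℓ + 2) * (b * M')) + C + (ℓ + 2) + 1 + (lam ^ J * (G j).card + b * M') ≤
        α / 2 * ζ * (G j).card := by
    intro j hj
    have h1 := hδG j (hneed' j (by rw [hneed]; exact hj))
    obtain ⟨g, hg⟩ : ∃ g : ℝ, g = (G j).card := ⟨_, rfl⟩
    rw [← hg] at h1 ⊢
    have hg0 : 0 ≤ g := by rw [hg]; exact Nat.cast_nonneg _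
    have h2 : lam ^ J * g ≤ α * ζ / 16 * g := mul_le_mul_of_nonneg_right hJ.le hg0
    have h3 : α * ζ / 8 * (δ * x) ≤ α * ζ / 8 * g := mul_le_mul_of_nonneg_left h1 (by positivity)
    have h4 : 0 ≤ lam ^ J * g := mul_nonneg (pow_nonneg hlam0 _) hg0
    have h5 : 0 ≤ ((ℓ : ℝ) + 2) * (b * M') := by positivity
    have h6 : (1 + δ / 16) * (lam ^ J * g + (ℓ + 2) * (b * M')) ≤ 2 * (lam ^ J * g + (ℓ + 2) * (b * M')) :=
      mul_le_mul_of_nonneg_right (by linarith) (by linarith)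
    have h7 : 0 ≤ α * ζ * g := by positivity
    linarith
  obtain ⟨A, w, a1, a2, a3, a4, a5, a6, a7⟩ := place_core (κ := fun j => α / 2 * ζ * (G j).card) hT hb
    (show (1 : ℝ) ≤ 1 + δ / 16 by linarith [hδ]) hC (hUn hT) hlam hM hw₀.ge hGX u1 u2 u3 u4 u5 u8 u9 hGd hG5 hTy hν
    hOk hD hl htn hz (fun h => u7 e (by rw [hneed]; exact Or.inl ⟨h, rfl⟩))
    (fun h => u7 k (by rw [hneed]; exact Or.inr ⟨h, rfl⟩)) hcap hκ
    (by
      intro _
      have h1 := hδG k (Or.inr hsk)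
      have h2 : α / 2 * ζ * (δ * x) ≤ α / 2 * ζ * (G k).card := mul_le_mul_of_nonneg_left h1 (by positivity)
      rw [← hFd]
      linarith) hN1S
    (by
      intro _
      have h1 : (0 : ℝ) ≤ ((2 * (ℓ + 2) * (ℓ + 1) : ℕ) : ℝ) := Nat.cast_nonneg _
      linarith)
    (by
      intro _
      have h1 : ((2 * (ℓ + 2) * (ℓ + 1) : ℕ) : ℝ) < N1.card := by linarith
      exact_mod_cast h1)
  refine ⟨S, π, A, w, fun m => (u8 m).trans (u1 m), u10, hπ, a1, a2, a3, a4, a5, a6, ?_⟩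
  intro h
  have h1 := a7 h
  rw [hN1, mem_filter, hIc] at h1
  rw [← hI]
  exact h1.2

/-- **Placing the tree in the regions.** `G 0, .., G 4` are the regions, the root (label `e`) goes to `z`, `s m` is the size
of the share of the final branch in the region `m`, the vertices with numbers `a, .., a + ι - 1` in a median order `π` of
the share of the region `k` are the candidates for the root of the final branch. At most `m₀` vertices of the share of the
region `k` are used; if the mark has label `k`, its host is one of the candidates and sees a third of them. -/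
theorem place (b : ℕ) (hb : 1 ≤ b) {α δ γ : ℝ} (hα : 0 < α) (hα1 : α ≤ 1) (hδ : 0 < δ) (hδ1 : δ ≤ 1) (hγ : 0 < γ) :
    ∃ n₀ m₀ : ℕ, ∀ {V : Type} {R : V → V → Prop}, AE32.Tour R → ∀ (X : Finset V) (G : ℕ → Finset V) (ν : ℝ) (M : Mn)
      (e k : ℕ) (z : V) (s : ℕ → ℕ) (a ι : ℕ), n₀ ≤ X.card → (∀ m, G m ⊆ X) → (∀ i j, i ≠ j → Disjoint (G i) (G j)) →
      (∀ m, 5 ≤ m → G m = ∅) → Typ2 R ν G G → 0 ≤ ν → ν ≤ δ / 16 * X.card → ν ≤ γ / 16 * X.card →
      M.fn.Ok e → M.un.Deg b → M.un.len ≤ b → 2 ≤ tn M.sg → M.un.size ≤ X.card → z ∈ G e →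
      ((M.fn.top e).size ≠ 0 → Ex R (α * (G e).card) (G e)) → (M.lab e = k → Ex R (α * (G k).card) (G k)) →
      (∀ m, (M.fn.num m = 0 ∧ s m = 0) ∨ (M.fn.num m : ℝ) + s m + δ * X.card ≤ (G m).card) →
      γ * X.card ≤ (ι : ℝ) → a + ι ≤ s k →
      ∃ (S : ℕ → Finset V) (π : V → ℕ) (A : Finset V) (w : V), (∀ m, S m ⊆ G m) ∧ (∀ m, (S m).card = s m) ∧
        AEM.MedO R (S k) π ∧ z ∉ A ∧ A ⊆ X ∧ EmbM R M z A w ∧ w ∈ G (M.lab e) ∧
        (∀ m, m ≠ k → Disjoint (insert z A) (S m)) ∧ (insert z A ∩ S k).card ≤ m₀ ∧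
        (M.lab e = k → (ι : ℝ) / 3 ≤ ((nO R ((S k).filter (fun v => a ≤ π v ∧ π v < a + ι)) w).card : ℝ)) := by
  obtain ⟨ℓ, h⟩ := placeL b hb hα hα1
  obtain ⟨n₀, m₀, h⟩ := h hδ hδ1 hγ
  refine ⟨n₀, m₀, ?_⟩
  intro V R hT X G ν M e k z s a ι hn hGX hGd hG5 hTy hν hνδ hνγ hOk hD hl htn _ hz hEx1 hEx2 hnum hι hak
  exact h hT X G ν M e k z s a ι hn hGX hGd hG5 hTy hν hνδ hνγ hOk hD hl (fun _ _ => Or.inl htn) hz hEx1 hEx2 hnum hι hak

end AEJ
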