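import Pool.Agent.AEJ.Cuts
import Pool.Agent.AEJ.Place
import Pool.Agent.AEJ.Tree
import Pool.Agent.AEJ.Fin

/-!
# Jumps, the final branch hanging by an arc away from the root
-/

namespace AEJ

open Finset AE15 AED AELT AEK LTT
open scoped Classical

theorem rch_plug (σ : Bool) (q : Bool × Fd) {M : Mu} (h : 2 ≤ tn M.sg) : rch σ (M.plug q) = rch σ M.un := by
  obtain ⟨h1, h2⟩ := mem_of_tn (show 1 ≤ tn M.sg by omega)
  cases σ
  · rw [← blk_eq_rch, ← blk_eq_rch, blk_plug h2]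
  · rw [← dcl_eq_rch, ← dcl_eq_rch, dcl_plug h1]

theorem seg_one {V : Type*} (Z : Finset V) (β : V → ℕ) {a b j : ℕ} (ha : a = j) (hb : b = j + 1) :
    seg Z β a b = Z.filter (fun v => β v = j) := by
  subst ha hb
  unfold seg
  apply filter_congr
  intro v _
  omega

/-- the constants -/
theorem jump_consts {θ θ₁ ε β : ℝ} (hθ : 0 < θ) (hθ₁ : 0 < θ₁) (hε : 0 < ε) (hβ : 0 < β) :
    ∃ u η ε₁ : ℝ, 0 < u ∧ u ≤ 1 ∧ u ≤ θ₁ ∧ 0 < η ∧ η ≤ β ∧ η ≤ 1 / 100 ∧ η ≤ θ * u / 8000 ∧ η ≤ ε * u / 200 ∧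
      0 < ε₁ ∧ ε₁ ≤ ε / 4 ∧ ε₁ ≤ β ∧ ε₁ ≤ u / 2 := by
  obtain ⟨u, hu⟩ : ∃ u : ℝ, u = min θ₁ 1 := ⟨_, rfl⟩
  have u0 : 0 < u := by rw [hu]; exact lt_min hθ₁ one_pos
  have u1 : u ≤ 1 := by rw [hu]; exact min_le_right _ _
  have u2 : u ≤ θ₁ := by rw [hu]; exact min_le_left _ _
  refine ⟨u, min (min β (1 / 100)) (min (θ * u / 8000) (ε * u / 200)), min (ε / 4) (min β (u / 2)), u0, u1, u2,
    lt_min (lt_min hβ (by norm_num)) (lt_min (by positivity) (by positivity)),
    (min_le_left _ _).trans (min_le_left _ _), (min_le_left _ _).trans (min_le_right _ _),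
    (min_le_right _ _).trans (min_le_left _ _), (min_le_right _ _).trans (min_le_right _ _),
    lt_min (by positivity) (lt_min hβ (by positivity)), min_le_left _ _, (min_le_right _ _).trans (min_le_left _ _),
    (min_le_right _ _).trans (min_le_right _ _)⟩

/-- the numbers in the application of the region lemma -/
theorem jump_num1 {n h f θ u η ε ε₁ σ Zc Aj Aj1 D B C : ℝ} (hn : 0 < n) (hu0 : 0 < u) (hu1 : u ≤ 1)
    (hη0 : 0 < η) (hη2 : η ≤ 1 / 100) (hη3 : η ≤ θ * u / 8000) (hη4 : η ≤ ε * u / 200) (hε1 : ε₁ ≤ ε / 4)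
    (hε : 0 < ε) (hθ : 0 < θ) (hθ1 : θ ≤ 1) (hσ : σ = 28 * η / u) (hC : 0 ≤ C) (hnT : h + f + 1 + C ≤ n)
    (hfn : u * n / 2 ≤ f) (hnear : (1 - ε₁) * n < h + f + 1) (hZ : (1 - η / 4) * n ≤ Zc) (hZ2 : Zc ≤ n) (hh : 0 ≤ h)
    (hreach : (D + 1) + ε * n ≤ (Zc - Aj) + η / 4 * n) (hco : (B + 1) + ε * n ≤ Aj1 + η / 4 * n) (hn1 : 200 / η ≤ n) :
    0 ≤ σ ∧ 100 ≤ η * n ∧ h + 1 + (1 - σ) * f + 12 * (η * n) ≤ Zc ∧ (B + 1) + 12 * (η * n) ≤ Aj1 ∧
      Aj + (D + 1) ≤ h + 1 + (1 - σ) * f ∧ 200 * (η * n) ≤ θ * f - 1 ∧ σ * f ≤ (θ * f - 1) / 100 ∧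
      σ ≤ 1 := by
  have hσ0 : 0 ≤ σ := by rw [hσ]; positivity
  have hηn : 200 ≤ η * n := by
    rw [div_le_iff₀ hη0] at hn1
    linarith
  have hσf : 14 * (η * n) ≤ σ * f := by
    have h1 : σ * (u * n / 2) ≤ σ * f := mul_le_mul_of_nonneg_left hfn hσ0
    have h2 : σ * (u * n / 2) = 14 * (η * n) := by
      rw [hσ]
      field_simp
      ring
    linarith
  have hσ1 : σ ≤ θ / 200 := by
    rw [hσ, div_le_iff₀ hu0]
    have : θ / 200 * u = θ * u / 200 := by ring
    rw [this]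
    have h3 : 0 ≤ θ * u := by positivity
    linarith
  have hσ2 : σ ≤ ε / 4 := by
    rw [hσ, div_le_iff₀ hu0]
    have : ε / 4 * u = ε * u / 4 := by ring
    rw [this]
    have h3 : 0 ≤ ε * u := by positivity
    linarith
  have hf0 : 0 ≤ f := by
    have : 0 ≤ u * n / 2 := by positivity
    linarith
  have hσf2 : σ * f ≤ ε / 4 * n := by
    have h1 : σ * f ≤ ε / 4 * f := mul_le_mul_of_nonneg_right hσ2 hf0
    have h2 : ε / 4 * f ≤ ε / 4 * n := mul_le_mul_of_nonneg_left (by linarith) (by positivity)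
    linarith
  have hεn : ε₁ * n ≤ ε / 4 * n := mul_le_mul_of_nonneg_right hε1 hn.le
  have hηε : η * n ≤ ε / 200 * n := by
    apply mul_le_mul_of_nonneg_right _ hn.le
    have : ε * u / 200 ≤ ε / 200 := by
      have : ε * u ≤ ε * 1 := mul_le_mul_of_nonneg_left hu1 hε.le
      linarith
    linarith
  have hθf : 2000 * (η * n) ≤ θ * f := by
    have h1 : θ * (u * n / 2) ≤ θ * f := mul_le_mul_of_nonneg_left hfn hθ.le
    have h2 : η * n ≤ θ * u / 8000 * n := mul_le_mul_of_nonneg_right hη3 hn.le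
    have h3 : θ * u / 8000 * n * 4000 = θ * (u * n / 2) := by ring
    linarith
  have hσθ : σ * f ≤ θ / 200 * f := mul_le_mul_of_nonneg_right hσ1 hf0
  refine ⟨hσ0, by linarith, by linarith, by linarith, by linarith, by linarith, by linarith, by linarith⟩

/-- the numbers in the last step -/
theorem jump_num2 {n h f θ u η ν s1 s2 sk a ι D B x' m : ℝ} (hθ : 0 < θ) (hu0 : 0 < u) (hn : 0 < n)
    (hm : 0 ≤ m) (hfn : u * n / 2 ≤ f) (hnT : n ≤ h + f + 1 + f) (hx' : x' = n - (h + 1))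
    (hν : ν ≤ η / 32 * n) (hη3 : η ≤ θ * u / 8000) (hn2 : 2000 * (9 * m + 10) / (θ * u) ≤ n)
    (hL1 : (θ * f - 1) / 40 ≤ ι) (hin : (B + 1) + (θ * f - 1) / 4 ≤ s1 + a)
    (hout : (D + 1) + (θ * f - 1) / 4 + (a + ι) ≤ sk + s2) :
    (D + 1) + θ / 64 * x' ≤ s2 + (sk - (a + ι)) - 9 * m - 8 * (θ / 1024) * x' - ν ∧
      (B + 1) + θ / 64 * x' ≤ s1 + a - 9 * m - 8 * (θ / 1024) * x' - ν ∧ θ / 1000 * x' ≤ ι / 3 - m := by
  have hx2 : x' ≤ 2 * f := by linarith
  have hθu : 0 < θ * u := by positivity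
  have h1 : 2000 * (9 * m + 10) ≤ θ * u * n := by
    rw [div_le_iff₀ hθu] at hn2
    linarith
  have h2 : θ * (u * n / 2) ≤ θ * f := mul_le_mul_of_nonneg_left hfn hθ.le
  have h3 : η / 32 * n ≤ θ * u / 8000 / 32 * n := mul_le_mul_of_nonneg_right (by linarith) hn.le
  have h4 : θ * x' ≤ θ * (2 * f) := mul_le_mul_of_nonneg_left hx2 hθ.le
  have h5 : θ * (u * n / 2) = θ * u * n / 2 := by ring
  have h6 : θ * u / 8000 / 32 * n = θ * u * n / 256000 := by ring
  have h7 : θ * (2 * f) = 2 * (θ * f) := by ring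
  rw [h5] at h2
  rw [h6] at h3
  rw [h7] at h4
  have e1 : θ / 64 * x' = θ * x' / 64 := by ring
  have e2 : 8 * (θ / 1024) * x' = θ * x' / 128 := by ring
  have e3 : θ / 1000 * x' = θ * x' / 1000 := by ring
  rw [e1, e2, e3]
  refine ⟨by linarith, by linarith, by linarith⟩

theorem jump_plug (b : ℕ) (hb : 1 ≤ b) {θ : ℝ} (hθ : 0 < θ) (hθ1 : θ ≤ 1) (θ₁ κ ε β : ℝ) (hθ₁ : 0 < θ₁) (hκ : 0 < κ)
    (hε : 0 < ε) (hβ : 0 < β) : ∃ C₀ : ℝ, ∀ C : ℝ, C₀ ≤ C → ∀ (M₀ : Mu) (F : Fd), (M₀.plug (true, F)).len ≤ b →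
      (M₀.plug (true, F)).Deg b → 2 ≤ tn M₀.sg → θ₁ * ((M₀.plug (true, F)).size + 1) ≤ (F.size : ℝ) + 1 →
        θ * (F.size + 1) + dcl F + AEB.blk F ≤ (F.size : ℝ) + 1 → Coarse (θ / 1024) (θ / 64) (θ / 1000) C F →
          Coarse κ ε β C (M₀.plug (true, F)) := by
  obtain ⟨u, η, ε₁, hu0, hu1, huθ, hη0, hηβ, hη2, hη3, hη4, hε0, hε1, hεβ, hεu⟩ := jump_consts hθ hθ₁ hε hβ
  obtain ⟨nl, hlt⟩ := lt1 b hb hκ hε0
  obtain ⟨a0, ha0, nc, hcl⟩ := clean (k := κ) (eta := η / 4) hκ (by positivity) (by linarith) (fun _ => η / 32)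
    (fun _ _ => by positivity)
  obtain ⟨α, hα⟩ : ∃ α : ℝ, α = min a0 1 := ⟨_, rfl⟩
  have hα0 : 0 < α := by rw [hα]; exact lt_min ha0 one_pos
  have hα1 : α ≤ 1 := by rw [hα]; exact min_le_right _ _
  have hαa : α ≤ a0 := by rw [hα]; exact min_le_left _ _
  obtain ⟨np, m₁, hpl⟩ := place b hb (α := α) (δ := η / 2) (γ := θ * u / 200) hα0 hα1 (by positivity) (by linarith)
    (by positivity)
  refine ⟨nl + nc + np + 200 / η + 2000 * (9 * m₁ + 10) / (θ * u), ?_⟩
  intro C hC M₀ F hl hD htn hθF hwin hco V R hT X N hX hN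
  obtain ⟨n, hn⟩ : ∃ n : ℝ, n = (X.card : ℝ) := ⟨_, rfl⟩
  have p1 : (0 : ℝ) ≤ 200 / η := by positivity
  have p2 : (0 : ℝ) ≤ 2000 * (9 * m₁ + 10) / (θ * u) := by positivity
  have hC0 : 0 ≤ C := by
    have : (0 : ℝ) ≤ nl + nc + np := by positivity
    linarith
  have hsz := M₀.size_plug (true, F)
  obtain ⟨h, hh⟩ : ∃ h : ℝ, h = (M₀.un.size : ℝ) := ⟨_, rfl⟩
  obtain ⟨f, hf⟩ : ∃ f : ℝ, f = (F.size : ℝ) + 1 := ⟨_, rfl⟩
  have hszr : ((M₀.plug (true, F)).size : ℝ) = h + f := by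
    rw [hsz, hh, hf]
    push_cast
    ring
  rw [hszr, ← hn] at hX
  have hh0 : 0 ≤ h := by rw [hh]; positivity
  have hf0 : 1 ≤ f := by rw [hf]; linarith [(Nat.cast_nonneg F.size : (0 : ℝ) ≤ F.size)]
  have hnl : nl ≤ X.card := by
    have : (nl : ℝ) ≤ X.card := by
      rw [← hn]
      have : (0 : ℝ) ≤ nc + np := by positivity
      linarith
    exact_mod_cast this
  have hnc : nc ≤ X.card := by
    have : (nc : ℝ) ≤ X.card := by
      rw [← hn]
      have : (0 : ℝ) ≤ nl + np := by positivity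
      linarith
    exact_mod_cast this
  have hnp : np ≤ X.card := by
    have : (np : ℝ) ≤ X.card := by
      rw [← hn]
      have : (0 : ℝ) ≤ nl + nc := by positivity
      linarith
    exact_mod_cast this
  have hn1 : 200 / η ≤ n := by
    have : (0 : ℝ) ≤ nl + nc + np := by positivity
    linarith
  have hn2 : 2000 * (9 * m₁ + 10) / (θ * u) ≤ n := by
    have : (0 : ℝ) ≤ nl + nc + np := by positivity
    linarith
  have hn0 : 0 < n := by linarith
  rw [← hn] at hN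
  by_cases hreg : ((M₀.plug (true, F)).size + 1 : ℝ) ≤ (1 - ε₁) * X.card
  · -- there is room: the light theorem
    refine hlt hT X N hnl _ hl hD hreg ?_
    have h1 : ε₁ * (X.card : ℝ) ≤ β * n := by rw [hn]; exact mul_le_mul_of_nonneg_right hεβ (by positivity)
    refine h1.trans (hN.trans ?_)
    have h2 : ε₁ * (X.card : ℝ) ≤ ε * X.card := mul_le_mul_of_nonneg_right (by linarith) (by positivity)
    have h3 : Adm R κ ε (M₀.plug (true, F)) X N ⊆ X.filter (fun z => N z ∧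
        Wide R κ ((dcl (M₀.plug (true, F)) + 1) + ε₁ * X.card) X z ∧
        Wide (fun a b => R b a) κ ((AEB.blk (M₀.plug (true, F)) + 1) + ε₁ * X.card) X z) := by
      intro v hv
      unfold Adm at hv
      rw [mem_filter] at hv ⊢
      exact ⟨hv.1, hv.2.1, wide_mono (by linarith) hv.2.2.1, wide_mono (by linarith) hv.2.2.2⟩
    exact_mod_cast card_le_card h3
  push Not at hreg
  rw [hszr, ← hn] at hreg
  rw [hszr, ← hf] at hθF
  have hfn : u * n / 2 ≤ f := by
    have h1 : u * ((1 - ε₁) * n) ≤ θ₁ * (h + f + 1) := by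
      refine mul_le_mul huθ hreg.le ?_ hθ₁.le
      exact mul_nonneg (by linarith) hn0.le
    have h2 : 1 / 2 * (u * n) ≤ (1 - ε₁) * (u * n) := mul_le_mul_of_nonneg_right (by linarith) (by positivity)
    linarith
  have hn2f : n ≤ h + f + 1 + f := by
    have h1 : ε₁ * n ≤ u / 2 * n := mul_le_mul_of_nonneg_right hεu hn0.le
    linarith
  obtain ⟨al, be, Z, c1, c2, c3, c4, c5, c6, c7, c8, c9⟩ := hcl hT X hnc
  rw [← hn] at c4 c5 c6 c7 c8 c9
  have hZn : (Z.card : ℝ) ≤ n := by rw [hn]; exact_mod_cast card_le_card c3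
  -- the host of the root
  obtain ⟨z, hzA, hzZ⟩ : ∃ z ∈ Adm R κ ε (M₀.plug (true, F)) X N, z ∈ Z := by
    by_contra hcon
    push Not at hcon
    have h1 : Adm R κ ε (M₀.plug (true, F)) X N ⊆ X \ Z := fun v hv =>
      mem_sdiff.2 ⟨(mem_filter.1 hv).1, hcon v hv⟩
    have h2 : ((Adm R κ ε (M₀.plug (true, F)) X N).card : ℝ) ≤ ((X \ Z).card : ℝ) := by
      exact_mod_cast card_le_card h1
    have h3 : ((X \ Z).card : ℝ) = n - Z.card := by
      rw [card_sdiff_of_subset c3, Nat.cast_sub (card_le_card c3), hn]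
    have h4 : η * n ≤ β * n := mul_le_mul_of_nonneg_right hηβ hn0.le
    have h5 : 0 < η * n := by positivity
    linarith
  unfold Adm at hzA
  rw [mem_filter] at hzA
  obtain ⟨hzX, hNz, hW1, hW2⟩ := hzA
  have hr1 := c8 z hzZ _ hW1
  have hr2 := c9 z hzZ _ hW2
  rw [cum_ge, ← hn, dcl_eq_rch, rch_plug _ _ htn] at hr1
  rw [cum_le, ← hn, blk_eq_rch, rch_plug _ _ htn] at hr2
  obtain ⟨σ, hσ⟩ : ∃ σ : ℝ, σ = 28 * η / u := ⟨_, rfl⟩
  obtain ⟨g1, g2, g3, g4, g5, g6, g7, g8⟩ := jump_num1 (h := h) (f := f) (Zc := Z.card) hn0 hu0 hu1 hη0 hη2 hη3 hη4 hε1 hε hθ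
    hθ1 hσ hC0 (by linarith) hfn (by linarith) c4 hZn hh0 hr1 hr2 hn1
  -- the regions
  obtain ⟨t, e, k, M, s, a, ι, t1, t2, t3, t4, t5, t6, t7, t8, t9, t10, t11, t12, t13, t14, t15, t16, t17, t18⟩ :=
    exists_regions M₀ ((Mu.fal_iff M₀).2 (mem_of_tn (show 1 ≤ tn M₀.sg by omega)).1) (N := Z.sup be + 1) (j := be z) (A := cum Z be) (cum_zero _ _) (cum_mono _ _)
    (Nat.lt_succ_of_le (le_sup (f := be) hzZ)) (f := F.size + 1) (au := AEB.blk F + 1) (du := dcl F + 1) (σ := 0)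
    (σ' := σ) (δ := η * n) (L := θ * f - 1) le_rfl zero_le_one g1 g8 g2
    (by
      rw [cum_all (fun v hv => Nat.lt_succ_of_le (le_sup (f := be) hv)), ← hh]
      push_cast
      rw [← hf]
      linarith)
    (by linarith) (by rw [← hh]; push_cast; rw [← hf]; linarith) g6 (by push_cast; rw [← hf]; exact g7)
    (by
      push_cast
      rw [← hf] at hwin ⊢
      linarith)
  obtain ⟨s', hs'⟩ : ∃ s' : ℕ → ℕ, s' = fun m => if m < 5 then s m else 0 := ⟨_, rfl⟩
  have hs'lt : ∀ m, m < 5 → s' m = s m := fun m hm => by rw [hs']; simp [hm]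
  have hMun : M.un = M₀.un := by rw [← M.er_un, t8]
  have hMsg : M.sg = M₀.sg := by rw [← M.er_sg, t8]
  obtain ⟨q1, -, -⟩ := Mu.deg_plug hD
  have q2 := Mu.len_plug hl
  have hcum : ∀ m, ((seg Z be (t m) (t (m + 1))).card : ℝ) = cum Z be (t (m + 1)) - cum Z be (t m) :=
    fun m => cum_seg Z be (t1 (Nat.le_succ m))
  have hroom : ∀ m, (M.fn.num m = 0 ∧ s' m = 0) ∨
      (M.fn.num m : ℝ) + s' m + η / 2 * n ≤ (seg Z be (t m) (t (m + 1))).card := by
    intro m
    by_cases hm : m < 5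
    · rw [hs'lt m hm, hcum]
      rcases t11 m hm with h1 | h1
      · exact Or.inl h1
      · right; linarith
    · left
      exact ⟨t10 m (by omega), by rw [hs']; simp [hm]⟩
  have hex : ∀ x ∈ Z, η / 2 * n ≤ ((Z.filter (fun v => be v = be x)).card : ℝ) →
      Ex R (α * (Z.filter (fun v => be v = be x)).card) (Z.filter (fun v => be v = be x)) := by
    intro x hx h1
    refine (c7 x hx (by linarith [mul_pos hη0 hn0])).mono ?_
    refine mul_le_mul (hαa.trans c1) ?_ (by positivity) (by linarith)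
    rw [hn]
    exact_mod_cast card_le_card ((filter_subset _ _).trans c3)
  have hνn : η / 32 * n ≤ θ * u / 200 / 16 * n := by
    apply mul_le_mul_of_nonneg_right _ hn0.le
    have : 0 < θ * u := by positivity
    linarith
  obtain ⟨S, π, A, w, r1, r2, r3, r4, r5, r6, r7, r8, r9, r10⟩ := hpl hT X (fun m => seg Z be (t m) (t (m + 1)))
    (η / 32 * n) M e k z s' a ι hnp (fun m => (filter_subset _ _).trans c3) (fun i j hij => seg_disjoint t1 i j hij)
    (by
      intro m hm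
      rw [eq_empty_iff_forall_notMem]
      intro v hv
      rw [mem_seg] at hv
      have h1 := t1 hm
      have h2 : be v ≤ Z.sup be := le_sup (f := be) hv.1
      rw [t3] at h1
      omega)
    (seg_typ t1 c5 c6) (by positivity) (by rw [← hn]; linarith) (by rw [← hn]; exact hνn) t9 (by rw [hMun]; exact q1)
    (by rw [hMun]; exact q2) (by rw [hMsg]; exact htn)
    (by
      rw [hMun]
      have : (M₀.un.size : ℝ) ≤ X.card := by rw [← hh, ← hn]; linarith
      exact_mod_cast this)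
    (by rw [mem_seg]; exact ⟨hzZ, t5.le, by omega⟩)
    (by
      intro h1
      show Ex R (α * (seg Z be (t e) (t (e + 1))).card) (seg Z be (t e) (t (e + 1)))
      rw [seg_one Z be t5 t6]
      apply hex z hzZ
      rw [← seg_one Z be t5 t6]
      rcases hroom e with h2 | h2
      · exfalso
        have := Fn.size_top e M.fn
        omega
      · have h3 : (0 : ℝ) ≤ (M.fn.num e : ℝ) + s' e := by positivity
        linarith)
    (by
      intro h1
      rcases t18 with h2 | ⟨-, h2⟩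
      · omega
      · show Ex R (α * (seg Z be (t k) (t (k + 1))).card) (seg Z be (t k) (t (k + 1)))
        have h3 : η / 2 * n ≤ ((seg Z be (t k) (t (k + 1))).card : ℝ) := by
          rcases hroom k with h2 | h2
          · exfalso
            have h3 := h2.2
            rw [hs'lt k t7] at h3
            have h4 : ι = 0 := by omega
            rw [h4] at t15
            push_cast at t15
            linarith
          · have h3 : (0 : ℝ) ≤ (M.fn.num k : ℝ) + s' k := by positivity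
            linarith
        obtain ⟨x, hx⟩ : (seg Z be (t k) (t (k + 1))).Nonempty := by
          rw [← card_pos]
          have : (0 : ℝ) < ((seg Z be (t k) (t (k + 1))).card : ℝ) := by
            have : 0 < η * n := by positivity
            linarith
          exact_mod_cast this
        rw [mem_seg] at hx
        have hbx : be x = t k := by omega
        rw [seg_one Z be hbx.symm (by omega)] at h3 ⊢
        exact hex x hx.1 h3)
    (by rw [← hn]; exact hroom)
    (by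
      rw [← hn]
      have h1 : θ * (u * n / 2) ≤ θ * f := mul_le_mul_of_nonneg_left hfn hθ.le
      have h2 : θ * u / 200 * n = θ * (u * n / 2) / 100 := by ring
      linarith)
    (by rw [hs'lt k t7]; exact t14)
  have hk5 : ∀ m ∈ range k, s' m = s m := fun m hm => hs'lt m (by rw [mem_range] at hm; omega)
  have hι : (ι : ℝ) / 3 ≤ ((nO R ((S k).filter (fun v => a ≤ π v ∧ π v < a + ι)) w).card : ℝ) := by
    rcases t18 with h1 | ⟨h1, -⟩
    · -- the host of the mark is in an earlier region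
      have h2 := ((seg_typ (R := R) t1 c5 c6) _ _ h1).1 w r7
      have h3 : ((S k).filter (fun v => a ≤ π v ∧ π v < a + ι)).card = ι := by
        have := r3.card_seg (a := a) (b := a + ι) (by rw [r2, hs'lt k t7]; exact t14)
        omega
      have h4 : (((S k).filter (fun v => a ≤ π v ∧ π v < a + ι)).filter (fun v => ¬ R w v)).card ≤
          ((seg Z be (t k) (t (k + 1))).filter (fun v => ¬ R w v)).card := by
        apply card_le_card
        intro v hv
        rw [mem_filter, mem_filter] at hv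
        rw [mem_filter]
        exact ⟨r1 k hv.1.1, hv.2⟩
      have h5 : (nO R ((S k).filter (fun v => a ≤ π v ∧ π v < a + ι)) w).card +
          (((S k).filter (fun v => a ≤ π v ∧ π v < a + ι)).filter (fun v => ¬ R w v)).card =
          ((S k).filter (fun v => a ≤ π v ∧ π v < a + ι)).card := by
        rw [nO]
        exact card_filter_add_card_filter_not _
      rw [h3] at h5
      have h6 : ((nO R ((S k).filter (fun v => a ≤ π v ∧ π v < a + ι)) w).card : ℝ) +
          (((S k).filter (fun v => a ≤ π v ∧ π v < a + ι)).filter (fun v => ¬ R w v)).card = ι := by exact_mod_cast h5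
      have h7 : ((((S k).filter (fun v => a ≤ π v ∧ π v < a + ι)).filter (fun v => ¬ R w v)).card : ℝ) ≤ η / 32 * n := by
        refine le_trans ?_ h2
        exact_mod_cast h4
      have h8 : θ * (u * n / 2) ≤ θ * f := mul_le_mul_of_nonneg_left hfn hθ.le
      have h9 : η * n ≤ θ * u / 8000 * n := mul_le_mul_of_nonneg_right hη3 hn0.le
      have h10 : θ * u / 8000 * n = θ * (u * n / 2) / 4000 := by ring
      linarith
    · exact r10 h1
  have hsum : ∑ m ∈ Ico k 5, (s m : ℝ) = s k + ∑ m ∈ Ico (k + 1) 5, (s m : ℝ) := by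
    rw [sum_eq_sum_Ico_succ_bot t7]
  have hsum1 : ∑ m ∈ Ico (k + 1) 5, (s' m : ℝ) = ∑ m ∈ Ico (k + 1) 5, (s m : ℝ) :=
    sum_congr rfl (fun m hm => by rw [hs'lt m (mem_Ico.1 hm).2])
  have hsum2 : ∑ m ∈ range k, (s' m : ℝ) = ∑ m ∈ range k, (s m : ℝ) :=
    sum_congr rfl (fun m hm => by rw [hk5 m hm])
  obtain ⟨x', hx'⟩ : ∃ x' : ℝ, x' = n - (h + 1) := ⟨_, rfl⟩
  obtain ⟨y1, y2, y3⟩ := jump_num2 (n := n) (h := h) (f := f) (θ := θ) (u := u) (η := η) (ν := η / 32 * n)
    (s1 := ∑ m ∈ range k, (s m : ℝ)) (s2 := ∑ m ∈ Ico (k + 1) 5, (s m : ℝ)) (sk := s k) (a := a) (ι := ι) (D := dcl F)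
    (B := AEB.blk F) (x' := x') (m := m₁) hθ hu0 hn0 (by positivity) hfn hn2f hx' le_rfl hη3 hn2 t15
    (by push_cast at t16; linarith) (by push_cast at t17; rw [hsum] at t17; linarith)
  have hfin := jump_fin hT t1 (ν := η / 32 * n) (κ' := θ / 1024) (ε' := θ / 64) (β' := θ / 1000) (C := C) (M := M)
    (F := F) (k := k) (m₀ := m₁) (a := a) (ι := ι) (N := N) (s := s') c3 r1 r2 r3 r4 hzX r5 r6 r8 r9 c5 c6 hι
    (x' := x') (by rw [hx', hn, hh, hMun]) (by positivity) (by rw [hsum1, hs'lt k t7]; exact y1)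
    (by rw [hsum2]; exact y2) y3 (by rw [hx', ← hf]; linarith) hco hNz
  rw [← M.er_plug, t8] at hfin
  exact hfin

end AEJ
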