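import Pool.Agent.AEJ.LabA
import Pool.Agent.AEJ.Defs

/-!
# Monotone labellings of a tree with a marked vertex, given numbers of labels
-/

namespace AEJ

open Finset AE15 AED AELT AEX AEK LTT
open scoped Classical

/-- the directions of the arcs on the path to the mark -/
def Mu.sg : Mu → List Bool
  | .leaf _ => []
  | .step _ d t => d :: t.sg

theorem Mn.er_sg (M : Mn) : M.er.sg = M.sg := by
  induction M with
  | leaf s => rfl
  | step s d e t ih => simp only [Mn.er, Mu.sg, Mn.sg, ih]

theorem Mu.fal_iff (M : Mu) : M.Fal ↔ false ∈ M.sg := by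
  induction M with
  | leaf s => simp [Mu.Fal, Mu.sg]
  | step s d t ih =>
    simp only [Mu.Fal, Mu.sg, List.mem_cons, ih]
    cases d <;> simp

theorem rch_le (σ : Bool) (c : Fd) : rch σ c ≤ c.size := by
  have := rch_add_le c σ
  omega

theorem Mu.fal_lt {M : Mu} (h : M.Fal) : rch true M.un < M.un.size := by
  induction M with
  | leaf s => exact h.elim
  | step s d t ih =>
    have h1 := rch_le true s
    cases d
    · simp only [Mu.un, rch, Fd.size, Bool.false_eq_true, if_false]
      omega
    · have h' : t.Fal := by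
        rcases h with h | h
        · exact absurd h (by simp)
        · exact h
      have := ih h'
      simp only [Mu.un, rch, Fd.size, if_true]
      omega

/-- the label of number `i` -/
noncomputable def lbl (q : ℕ) (hc : ℕ → ℕ) (i : ℕ) : ℕ := ((range q).filter (fun l => ∑ l' ∈ range (l + 1), hc l' ≤ i)).card

theorem lbl_mono (q : ℕ) (hc : ℕ → ℕ) : Monotone (lbl q hc) := fun _ _ h =>
  card_le_card (fun _ hi => by
    rw [mem_filter] at hi ⊢
    exact ⟨hi.1, hi.2.trans h⟩)

theorem sum_mono (hc : ℕ → ℕ) {a b : ℕ} (h : a ≤ b) : ∑ l ∈ range a, hc l ≤ ∑ l ∈ range b, hc l :=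
  sum_le_sum_of_subset (range_mono h)

theorem lbl_le {q : ℕ} {hc : ℕ → ℕ} {i m : ℕ} (h : i < ∑ l ∈ range (m + 1), hc l) : lbl q hc i ≤ m := by
  have h1 : (range q).filter (fun l => ∑ l' ∈ range (l + 1), hc l' ≤ i) ⊆ range m := by
    intro l hl
    rw [mem_filter] at hl
    rw [mem_range]
    by_contra hcc
    exact absurd (h.trans_le (sum_mono hc (by omega : m + 1 ≤ l + 1))) (not_lt.2 hl.2)
  have := card_le_card h1
  rwa [card_range] at this

theorem le_lbl {q : ℕ} {hc : ℕ → ℕ} {i m : ℕ} (hm : m ≤ q) (h : ∑ l ∈ range m, hc l ≤ i) : m ≤ lbl q hc i := by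
  have h1 : range m ⊆ (range q).filter (fun l => ∑ l' ∈ range (l + 1), hc l' ≤ i) := by
    intro l hl
    rw [mem_range] at hl
    rw [mem_filter, mem_range]
    exact ⟨by omega, (sum_mono hc (by omega : l + 1 ≤ m)).trans h⟩
  have := card_le_card h1
  rwa [card_range] at this

theorem lbl_count {q : ℕ} {hc : ℕ → ℕ} {n l : ℕ} (hn : ∑ l ∈ range q, hc l = n) :
    ((range n).filter (fun i => lbl q hc i = l)).card = if l < q then hc l else 0 := by
  split_ifs with hl
  · have h1 : (range n).filter (fun i => lbl q hc i = l) = Ico (∑ l' ∈ range l, hc l') (∑ l' ∈ range (l + 1), hc l') := by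
      ext i
      rw [mem_filter, mem_range, mem_Ico]
      constructor
      · rintro ⟨h1, h2⟩
        constructor
        · by_contra hcc
          rcases Nat.eq_zero_or_pos l with h0 | h0
          · rw [h0, sum_range_zero] at hcc
            omega
          · obtain ⟨l', rfl⟩ : ∃ l', l = l' + 1 := ⟨l - 1, by omega⟩
            have := lbl_le (q := q) (not_le.1 hcc)
            omega
        · by_contra hcc
          have := le_lbl (by omega : l + 1 ≤ q) (not_lt.1 hcc)
          omega
      · rintro ⟨h1, h2⟩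
        refine ⟨?_, le_antisymm (lbl_le h2) (le_lbl hl.le h1)⟩
        rw [← hn]
        exact h2.trans_le (sum_mono hc (by omega))
    rw [h1, Nat.card_Ico, sum_range_succ]
    omega
  · rw [card_eq_zero, filter_eq_empty_iff]
    intro i hi h1
    rw [mem_range] at hi
    rcases Nat.eq_zero_or_pos q with h0 | h0
    · subst h0
      rw [sum_range_zero] at hn
      omega
    · obtain ⟨q', rfl⟩ : ∃ q', q = q' + 1 := ⟨q - 1, by omega⟩
      have := lbl_le (q := q' + 1) (m := q') (by rw [hn]; exact hi)
      omega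

/-- **Given numbers of labels**: `hc l` vertices (the root not counted) get the label `l`, the root has label `j` and `x`
vertices before it; the mark gets a label at most `m` -/
theorem exists_mn (M₀ : Mn) (x j q m : ℕ) (hc : ℕ → ℕ) (hsum : ∑ l ∈ range q, hc l = M₀.un.size) (hj : j < q)
    (h1 : AEB.blk M₀.un ≤ x) (h2 : x + dcl M₀.un ≤ M₀.un.size) (h3 : ∑ l ∈ range j, hc l ≤ x)
    (h4 : x ≤ ∑ l ∈ range (j + 1), hc l) (hp : false ∈ M₀.sg)
    (hm : M₀.un.size ≤ ∑ l ∈ range (m + 1), hc l ∨
      (x + dcl M₀.un = M₀.un.size ∧ x ≤ ∑ l ∈ range (m + 1), hc l)) :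
    ∃ M : Mn, (∀ p, M.plug p = M₀.plug p) ∧ M.sg = M₀.sg ∧ M.fn.Ok j ∧
      (∀ l, M.fn.num l = if l < q then hc l else 0) ∧ M.lab j ≤ m := by
  rw [AELT.blk_eq_rch] at h1
  rw [AELT.dcl_eq_rch] at h2 hm
  have hF : M₀.er.Fal := by rw [Mu.fal_iff, Mn.er_sg]; exact hp
  have hlt := Mu.fal_lt hF
  rw [Mn.er_un] at hlt
  obtain ⟨g, hg⟩ : ∃ g : ℕ → ℕ, g = fun i => if i < x then lbl q hc i else if i = x then j else lbl q hc (i - 1) :=
    ⟨_, rfl⟩
  have hg1 : ∀ i < x, g i = lbl q hc i := by
    intro i hi
    rw [hg]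
    simp only [if_pos hi]
  have hg2 : g x = j := by
    rw [hg]
    simp
  have hg3 : ∀ i, x < i → g i = lbl q hc (i - 1) := by
    intro i hi
    rw [hg]
    simp only [if_neg (by omega : ¬ i < x), if_neg (by omega : ¬ i = x)]
  have hlow : ∀ i < x, lbl q hc i ≤ j := fun i hi => lbl_le (hi.trans_le h4)
  have hhigh : ∀ i, x ≤ i → j ≤ lbl q hc i := fun i hi => le_lbl hj.le (h3.trans hi)
  have hgm : Monotone g := by
    intro i i' hii
    rcases lt_trichotomy i x with h | h | h
    · rcases lt_trichotomy i' x with h' | h' | h'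
      · rw [hg1 i h, hg1 i' h']
        exact lbl_mono q hc hii
      · rw [hg1 i h, h', hg2]
        exact hlow i h
      · rw [hg1 i h, hg3 i' h']
        exact (hlow i h).trans (hhigh _ (by omega))
    · subst h
      rcases eq_or_lt_of_le hii with h' | h'
      · rw [h']
      · rw [hg2, hg3 i' h']
        exact hhigh _ (by omega)
    · rw [hg3 i h, hg3 i' (by omega)]
      exact lbl_mono q hc (by omega)
  obtain ⟨M, a1, a2, a3, a4, a5⟩ := exists_mnA M₀.er x (by rw [Mn.er_un]; exact h1) (by rw [Mn.er_un]; exact h2) g hgm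
  rw [Mn.er_un] at a3 a4 a5
  rw [hg2] at a2 a4 a5
  refine ⟨M, fun p => ?_, ?_, a2, fun l => ?_, ?_⟩
  · rw [← Mn.er_plug, a1, Mn.er_plug]
  · rw [← Mn.er_sg, a1, Mn.er_sg]
  · rw [a3 l, ← lbl_count hsum]
    -- the bijection which skips `x`
    refine (card_bij (fun i _ => if i < x then i else i + 1) ?_ ?_ ?_).symm
    · intro i hi
      rw [mem_filter, mem_range] at hi
      rw [mem_filter, mem_erase, mem_range]
      split_ifs with h
      · exact ⟨⟨by omega, by omega⟩, by rw [hg1 i h]; exact hi.2⟩
      · refine ⟨⟨by omega, by omega⟩, ?_⟩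
        rw [hg3 (i + 1) (by omega), Nat.add_sub_cancel]
        exact hi.2
    · intro i _ i' _ h
      split_ifs at h <;> omega
    · intro i hi
      rw [mem_filter, mem_erase, mem_range] at hi
      rcases lt_or_ge i x with h | h
      · refine ⟨i, ?_, by rw [if_pos h]⟩
        rw [mem_filter, mem_range]
        exact ⟨by omega, by rw [← hg1 i h]; exact hi.2⟩
      · refine ⟨i - 1, ?_, ?_⟩
        · rw [mem_filter, mem_range]
          exact ⟨by omega, by rw [← hg3 i (by omega)]; exact hi.2⟩
        · rw [if_neg (by omega)]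
          omega
  · have key : x + rch true M₀.un = M₀.un.size → x ≤ ∑ l ∈ range (m + 1), hc l → M.lab j ≤ m := by
      intro h5 h6
      refine (a5 h5 hF).trans ?_
      rw [hg1 (x - 1) (by omega)]
      exact lbl_le (by omega)
    rcases hm with hm | hm
    · by_cases h5 : x + rch true M₀.un = M₀.un.size
      · exact key h5 (by omega)
      · refine a4.trans ?_
        rw [hg3 _ (by omega)]
        exact lbl_le (by omega)
    · exact key hm.1 hm.2

end AEJ
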