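import Pool.Agent.AEJ.ExtG

/-!
# Labelled forests with a marked vertex

`Mn.leaf s`: the common vertex is marked, the forest there is `s`. `Mn.step s d e t`: the forest `s` and a further tree
hang on the common vertex; the further tree has direction `d` and label `e`, and its root carries `t`, which contains the
mark.
-/

namespace AEJ

open Finset AE15 AED AELT AEK
open scoped Classical

inductive Mn : Type
  | leaf (s : Fn) : Mn
  | step (s : Fn) (d : Bool) (e : ℕ) (t : Mn) : Mn

/-- forget the mark -/
def Mn.fn : Mn → Fn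
  | .leaf s => s
  | .step s d e t => .node d e t.fn s

/-- forget the mark and the labels -/
def Mn.un (M : Mn) : Fd := M.fn.un

/-- the label of the marked vertex, the common vertex having label `e` -/
def Mn.lab : ℕ → Mn → ℕ
  | e, .leaf _ => e
  | _, .step _ _ e' t => t.lab e'

/-- the marked vertex is in the component of the common vertex (label `e`) -/
def Mn.In : ℕ → Mn → Prop
  | _, .leaf _ => True
  | e, .step _ _ e' t => e' = e ∧ t.In e

/-- the whole forest, the tree `p` being added at the marked vertex -/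
def Mn.plug (p : Bool × Fd) : Mn → Fd
  | .leaf s => .node p.1 p.2 s.un
  | .step s d _ t => .node d (t.plug p) s.un

theorem Mn.lab_of_in {M : Mn} : ∀ {e : ℕ}, M.In e → M.lab e = e := by
  induction M with
  | leaf s => intro e _; rfl
  | step s d e' t ih =>
    rintro e ⟨rfl, h⟩
    exact ih h

theorem Mn.size_plug (p : Bool × Fd) (M : Mn) : (M.plug p).size = M.un.size + (p.2.size + 1) := by
  induction M with
  | leaf s => simp only [Mn.plug, Fd.size, Mn.un, Mn.fn]; omega
  | step s d e t ih =>
    simp only [Mn.plug, Mn.un, Mn.fn, Fn.un, Fd.size] at ih ⊢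
    omega

variable {V : Type*} {R : V → V → Prop}

/-- the forest is embedded at `x` onto `S`, the marked vertex at `w` -/
def EmbM (R : V → V → Prop) : Mn → V → Finset V → V → Prop
  | .leaf s, x, S, w => Emb R s.un x S ∧ w = x
  | .step s d _ t, x, S, w => ∃ x1 A B, Adj R d x x1 ∧ x1 ∉ A ∧ x1 ∉ B ∧ Disjoint A B ∧ S = insert x1 (A ∪ B) ∧
      EmbM R t x1 A w ∧ Emb R s.un x B

/-- the component of the common vertex (label `e`) is embedded at `x` onto `P`, the marked vertex, if it is in the
component, at `w` -/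
def TopM (R : V → V → Prop) (e : ℕ) : Mn → V → Finset V → V → Prop
  | .leaf s, x, P, w => Emb R (s.top e) x P ∧ w = x
  | .step s d e' t, x, P, w => if e' = e then (∃ x1 A B, Adj R d x x1 ∧ x1 ∉ A ∧ x1 ∉ B ∧ Disjoint A B ∧
      P = insert x1 (A ∪ B) ∧ TopM R e t x1 A w ∧ Emb R (s.top e) x B) else Emb R (s.top e) x P

theorem EmbM.emb {M : Mn} : ∀ {x : V} {S : Finset V} {w : V}, EmbM R M x S w → Emb R M.un x S := by
  induction M with
  | leaf s => intro x S w h; exact h.1
  | step s d e t ih =>
    rintro x S w ⟨x1, A, B, h1, h2, h3, h4, h5, h6, h7⟩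
    exact ⟨x1, A, B, h1, h2, h3, h4, h5, ih h6, h7⟩

theorem EmbM.mem {M : Mn} : ∀ {x : V} {S : Finset V} {w : V}, EmbM R M x S w → w = x ∨ w ∈ S := by
  induction M with
  | leaf s => intro x S w h; exact Or.inl h.2
  | step s d e t ih =>
    rintro x S w ⟨x1, A, B, h1, h2, h3, h4, rfl, h6, h7⟩
    rcases ih h6 with rfl | h
    · exact Or.inr (mem_insert_self _ _)
    · exact Or.inr (mem_insert_of_mem (mem_union_left _ h))

/-- the tree at the marked vertex can be added -/
theorem EmbM.plug {p : Bool × Fd} {M : Mn} : ∀ {x : V} {S : Finset V} {w : V}, EmbM R M x S w → x ∉ S → ∀ {S' : Finset V},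
    Disjoint S' (insert x S) → EmbL R w [p] S' → Emb R (M.plug p) x (S ∪ S') := by
  induction M with
  | leaf s =>
    rintro x S w ⟨h, rfl⟩ hx S' hd hL
    obtain ⟨S₁, S₂, f1, f2, f3, f4⟩ := hL
    obtain rfl : S₂ = ∅ := f4
    rw [union_empty] at f2
    subst f2
    obtain ⟨x1, A, g1, g2, g3, g4⟩ := f3
    subst g3
    rw [disjoint_insert_left, disjoint_insert_right, mem_insert, not_or] at hd
    refine ⟨x1, A, S, g1, g2, hd.1.2, hd.2.2, ?_, g4, h⟩
    ext v
    simp only [mem_union, mem_insert]
    tauto
  | step s d e t ih =>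
    rintro x S w ⟨x1, A, B, h1, h2, h3, h4, rfl, h6, h7⟩ hx S' hd hL
    have hd' : Disjoint S' (insert x1 A) := hd.mono_right (by
      intro v hv
      rw [mem_insert] at hv
      simp only [mem_insert, mem_union]
      tauto)
    have hdB : Disjoint S' B := hd.mono_right (by
      intro v hv
      simp only [mem_insert, mem_union]
      tauto)
    have hx1 : x1 ∉ S' := fun h => disjoint_left.1 hd' h (mem_insert_self _ _)
    refine ⟨x1, A ∪ S', B, h1, ?_, h3, ?_, ?_, ih h6 h2 hd' hL, h7⟩
    · rw [mem_union, not_or]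
      exact ⟨h2, hx1⟩
    · rw [disjoint_union_left]
      exact ⟨h4, hdB⟩
    · ext v
      simp only [mem_union, mem_insert]
      tauto

theorem TopM.emb {e : ℕ} {M : Mn} : ∀ {x : V} {P : Finset V} {w : V}, TopM R e M x P w → Emb R (M.fn.top e) x P := by
  induction M with
  | leaf s => intro x P w h; exact h.1
  | step s d e' t ih =>
    intro x P w h
    by_cases he : e' = e
    · simp only [TopM, if_pos he] at h
      simp only [Mn.fn, Fn.top, if_pos he]
      obtain ⟨x1, A, B, h1, h2, h3, h4, h5, h6, h7⟩ := h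
      exact ⟨x1, A, B, h1, h2, h3, h4, h5, ih h6, h7⟩
    · simp only [TopM, if_neg he] at h
      simp only [Mn.fn, Fn.top, if_neg he]
      exact h

theorem exists_topM (e : ℕ) (M : Mn) : ∀ {x : V} {P : Finset V}, Emb R (M.fn.top e) x P →
    ∃ w, (w = x ∨ w ∈ P) ∧ TopM R e M x P w := by
  induction M with
  | leaf s => intro x P h; exact ⟨x, Or.inl rfl, h, rfl⟩
  | step s d e' t ih =>
    intro x P h
    by_cases he : e' = e
    · simp only [Mn.fn, Fn.top, if_pos he] at h
      obtain ⟨x1, A, B, h1, h2, h3, h4, rfl, h6, h7⟩ := h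
      obtain ⟨w, hw, hw2⟩ := ih h6
      refine ⟨w, Or.inr ?_, ?_⟩
      · rcases hw with rfl | hw
        · exact mem_insert_self _ _
        · exact mem_insert_of_mem (mem_union_left _ hw)
      · simp only [TopM, if_pos he]
        exact ⟨x1, A, B, h1, h2, h3, h4, rfl, hw2, h7⟩
    · simp only [Mn.fn, Fn.top, if_neg he] at h
      exact ⟨x, Or.inl rfl, by simpa only [TopM, if_neg he] using h⟩

end AEJ
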