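import Pool.Agent.AEK.Lab3
import Pool.Agent.LTT.Label
import Pool.Agent.AEJ.Mark

/-!
# Monotone labellings of a tree with a marked vertex: the root has any admissible place
-/

namespace AEJ

open Finset AE15 AED AELT AEX AEK LTT
open scoped Classical

/-- trees with a marked vertex (the path to the mark and the side forests) -/
inductive Mu : Type
  | leaf (s : Fd) : Mu
  | step (s : Fd) (d : Bool) (t : Mu) : Mu

/-- forget the mark -/
def Mu.un : Mu → Fd
  | .leaf s => s
  | .step s d t => .node d t.un s

/-- some arc of the path to the mark is directed to the root: the mark is no descendant of the root -/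
def Mu.Fal : Mu → Prop
  | .leaf _ => False
  | .step _ d t => d = false ∨ t.Fal

/-- the label of the mark (labels in `ℕ`) -/
def Mu.labN : Mu → ℕ → Fn → ℕ
  | .leaf _, e, _ => e
  | .step _ _ t, _, .node _ e c _ => t.labN e c
  | .step _ _ _, e, .nil => e

/-- the label of the mark (real labels) -/
noncomputable def Mu.labR : Mu → ℝ → Fr → ℝ
  | .leaf _, e, _ => e
  | .step _ _ t, _, .node _ e c _ => t.labR e c
  | .step _ _ _, e, .nil => e

/-- the label of the mark (Boolean labels) -/
def Mu.labB : Mu → Bool → Fl → Bool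
  | .leaf _, e, _ => e
  | .step _ _ t, _, .node _ e c _ => t.labB e c
  | .step _ _ _, e, .nil => e

/-- all labels `true` -/
def allT : Fd → Fl
  | .nil => .nil
  | .node d c s => .node d true (allT c) (allT s)

/-- the descendants of the common vertex have label `false`, all other vertices label `true` -/
def dl : Fd → Fl
  | .nil => .nil
  | .node d c s => .node d (!d) (if d then dl c else allT c) (dl s)

theorem allT_un (c : Fd) : (allT c).un = c := by
  induction c with
  | nil => rfl
  | node d c s ihc ihs => simp [allT, Fl.un, ihc, ihs]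

theorem allT_ok (c : Fd) : (allT c).Ok true true := by
  induction c with
  | nil => trivial
  | node d c s ihc ihs => exact ⟨by simp, ihc, ihs⟩

theorem allT_cnt (c : Fd) : (allT c).cnt = c.size := by
  induction c with
  | nil => rfl
  | node d c s ihc ihs =>
    simp only [allT, Fl.cnt, Fd.size, ihc, ihs, if_true]
    omega

theorem dl_un (c : Fd) : (dl c).un = c := by
  induction c with
  | nil => rfl
  | node d c s ihc ihs => cases d <;> simp [dl, Fl.un, ihc, ihs, allT_un]

theorem dl_ok (c : Fd) : (dl c).Ok true false := by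
  induction c with
  | nil => trivial
  | node d c s ihc ihs =>
    cases d
    · exact ⟨by simp, by simpa using allT_ok c, ihs⟩
    · exact ⟨by simp, by simpa using ihc, ihs⟩

theorem dl_cnt (c : Fd) : (dl c).cnt + rch true c = c.size := by
  induction c with
  | nil => rfl
  | node d c s ihc ihs =>
    cases d
    · simp only [dl, Fl.cnt, rch, Fd.size, Bool.not_false, if_true, Bool.false_eq_true, if_false, allT_cnt]
      omega
    · simp only [dl, Fl.cnt, rch, Fd.size, Bool.not_true, if_true, Bool.false_eq_true, if_false]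
      omega

theorem dl_top (c : Fd) : rch false (dl c).top = 0 := by
  induction c with
  | nil => rfl
  | node d c s ihc ihs =>
    cases d
    · simp only [dl, Fl.top, Bool.not_false, if_true]
      exact ihs
    · simp only [dl, Fl.top, Bool.not_true, Bool.false_eq_true, if_false, rch]
      simpa using ihs

theorem labB_allT (M : Mu) : M.labB true (allT M.un) = true := by
  induction M with
  | leaf s => rfl
  | step s d t ih => simpa [Mu.un, allT, Mu.labB] using ih

theorem labB_dl (M : Mu) (h : M.Fal) : M.labB false (dl M.un) = true := by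
  induction M with
  | leaf s => exact h.elim
  | step s d t ih =>
    cases d
    · simpa [Mu.un, dl, Mu.labB] using labB_allT t
    · have h' : t.Fal := by
        rcases h with h | h
        · exact absurd h (by simp)
        · exact h
      simpa [Mu.un, dl, Mu.labB] using ih h'

/-- the signs of the labels -/
noncomputable def sgn : Fr → Fl
  | .nil => .nil
  | .node d t c s => .node d (decide (t < 0)) (sgn c) (sgn s)

theorem sgn_un (F : Fr) : (sgn F).un = F.un := by
  induction F with
  | nil => rfl
  | node d t c s ihc ihs => simp [sgn, Fr.un, Fl.un, ihc, ihs]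

theorem sgn_cnt (F : Fr) (h : F.Inj) : (sgn F).cnt = (F.labs.filter (fun x => x < 0)).card := by
  induction F with
  | nil => rfl
  | node d t c s ihc ihs =>
    obtain ⟨h1, h2, h3, h4, h5⟩ := h
    simp only [sgn, Fl.cnt, Fr.labs, ihc h4, ihs h5, decide_eq_true_eq]
    rw [filter_insert, filter_union]
    split_ifs with h6
    · rw [card_insert_of_notMem (by simp [h1, h2]), card_union_of_disjoint (disjoint_filter_filter h3)]
      omega
    · rw [card_union_of_disjoint (disjoint_filter_filter h3)]
      omega

/-- new labels with a given sign on the right side of a given label -/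
theorem exists_lab (d e p : Bool) (t : ℝ) (A : Finset ℝ) (ht : t < 0 ↔ p = true) (ht0 : t ≠ 0 ∨ (d = e → False))
    (h : if d = true then (e = true → p = true) else (p = true → e = true)) :
    ∃ t', t' ∉ A ∧ t' ≠ 0 ∧ (t' < 0 ↔ e = true) ∧ (if d then t ≤ t' else t' ≤ t) := by
  cases d
  · cases e
    · -- `t' ≤ t`, `0 < t'`
      have hp : ¬ p = true := fun hp => by simpa using h hp
      have h1 : ¬ t < 0 := fun h1 => hp (ht.1 h1)
      have h2 : t ≠ 0 := by
        rcases ht0 with h2 | h2
        · exact h2
        · exact (h2 rfl).elim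
      have h3 : 0 < t := lt_of_le_of_ne (not_lt.1 h1) h2.symm
      obtain ⟨t', ht', htA⟩ := (Set.Ioo_infinite h3).exists_notMem_finset A
      exact ⟨t', htA, ht'.1.ne', ⟨fun h4 => absurd h4 (not_lt.2 ht'.1.le), fun h4 => by simp at h4⟩, by simpa using ht'.2.le⟩
    · obtain ⟨t', ht', htA⟩ := (Set.Iio_infinite (min t 0)).exists_notMem_finset A
      rw [Set.mem_Iio, lt_min_iff] at ht'
      exact ⟨t', htA, ht'.2.ne, ⟨fun _ => rfl, fun _ => ht'.2⟩, by simpa using ht'.1.le⟩
  · cases e
    · obtain ⟨t', ht', htA⟩ := (Set.Ioi_infinite (max t 0)).exists_notMem_finset A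
      rw [Set.mem_Ioi, max_lt_iff] at ht'
      exact ⟨t', htA, ht'.2.ne', ⟨fun h4 => absurd h4 (not_lt.2 ht'.2.le), fun h4 => by simp at h4⟩, by simpa using ht'.1.le⟩
    · have hp : p = true := by simpa using h
      have h3 : t < 0 := ht.2 hp
      obtain ⟨t', ht', htA⟩ := (Set.Ioo_infinite h3).exists_notMem_finset A
      exact ⟨t', htA, ht'.2.ne, ⟨fun _ => rfl, fun _ => ht'.2⟩, by simpa using ht'.1.le⟩

theorem refine_inner (F : Fl) : ∀ (p : Bool) (t : ℝ) (A : Finset ℝ), F.Ok true p → (t < 0 ↔ p = true) → t ≠ 0 →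
    ∃ F' : Fr, sgn F' = F ∧ F'.Ok t ∧ F'.Inj ∧ Disjoint F'.labs A ∧ F'.labs.card = F.un.size := by
  induction F with
  | nil => exact fun p t A _ _ _ => ⟨.nil, rfl, trivial, trivial, by simp [Fr.labs], rfl⟩
  | node d e c s ihc ihs =>
    rintro p t A ⟨h1, h2, h3⟩ ht ht0
    obtain ⟨t', htA, ht'0, ht', hts⟩ := exists_lab d e p t A ht (Or.inl ht0) h1
    obtain ⟨F₁, a1, a2, a3, a4, a5⟩ := ihc e t' (insert t' A) h2 ht' ht'0
    obtain ⟨F₂, b1, b2, b3, b4, b5⟩ := ihs p t (insert t' A ∪ F₁.labs) h3 ht ht0
    rw [disjoint_insert_right] at a4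
    rw [disjoint_union_right, disjoint_insert_right] at b4
    refine ⟨.node d t' F₁ F₂, ?_, ⟨hts, a2, b2⟩, ⟨a4.1, b4.1.1, b4.2.symm, a3, b3⟩, ?_, ?_⟩
    · simp only [sgn, a1, b1]
      congr 1
      rcases Bool.eq_false_or_eq_true e with he | he
      · rw [he, decide_eq_true_eq]
        exact ht'.2 he
      · rw [he, decide_eq_false_iff_not]
        intro h4
        rw [ht'.1 h4] at he
        exact absurd he (by simp)
    · simp only [Fr.labs]
      rw [disjoint_insert_left, disjoint_union_left]
      exact ⟨htA, a4.2, b4.1.2⟩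
    · simp only [Fr.labs, Fl.un, Fd.size]
      rw [card_insert_of_notMem (by simp [a4.1, b4.1.1]), card_union_of_disjoint b4.2.symm, a5, b5]

theorem refine_root (F : Fl) : ∀ (A : Finset ℝ), F.Ok true false → rch false F.top = 0 →
    ∃ F' : Fr, sgn F' = F ∧ F'.Ok 0 ∧ F'.Inj ∧ Disjoint F'.labs A ∧ F'.labs.card = F.un.size := by
  induction F with
  | nil => exact fun A _ _ => ⟨.nil, rfl, trivial, trivial, by simp [Fr.labs], rfl⟩
  | node d e c s _ ihs =>
    rintro A ⟨h1, h2, h3⟩ h4
    have h5 : (d = e → False) ∧ rch false s.top = 0 := by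
      cases e
      · simp only [Fl.top, Bool.false_eq_true, if_false, rch] at h4
        refine ⟨fun hd => ?_, by omega⟩
        rw [if_pos hd] at h4
        omega
      · simp only [Fl.top, if_true] at h4
        refine ⟨fun hd => ?_, h4⟩
        rw [if_pos hd] at h1
        exact absurd (h1 rfl) (by simp)
    obtain ⟨t', htA, ht'0, ht', hts⟩ := exists_lab d e false 0 A (by simp) (Or.inr h5.1) h1
    obtain ⟨F₁, a1, a2, a3, a4, a5⟩ := refine_inner c e t' (insert t' A) h2 ht' ht'0
    obtain ⟨F₂, b1, b2, b3, b4, b5⟩ := ihs (insert t' A ∪ F₁.labs) h3 h5.2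
    rw [disjoint_insert_right] at a4
    rw [disjoint_union_right, disjoint_insert_right] at b4
    refine ⟨.node d t' F₁ F₂, ?_, ⟨hts, a2, b2⟩, ⟨a4.1, b4.1.1, b4.2.symm, a3, b3⟩, ?_, ?_⟩
    · simp only [sgn, a1, b1]
      congr 1
      rcases Bool.eq_false_or_eq_true e with he | he
      · rw [he, decide_eq_true_eq]
        exact ht'.2 he
      · rw [he, decide_eq_false_iff_not]
        intro h4
        rw [ht'.1 h4] at he
        exact absurd he (by simp)
    · simp only [Fr.labs]
      rw [disjoint_insert_left, disjoint_union_left]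
      exact ⟨htA, a4.2, b4.1.2⟩
    · simp only [Fr.labs, Fl.un, Fd.size]
      rw [card_insert_of_notMem (by simp [a4.1, b4.1.1]), card_union_of_disjoint b4.2.symm, a5, b5]

theorem labN_map (f : ℝ → ℕ) (M : Mu) : ∀ (p : ℝ) (F : Fr), M.labN (f p) (F.map f) = f (M.labR p F) := by
  induction M with
  | leaf s => exact fun _ _ => rfl
  | step s d t ih =>
    intro p F
    cases F with
    | nil => rfl
    | node d' t' c s' => exact ih t' c

theorem labB_sgn (M : Mu) : ∀ (p : ℝ) (F : Fr), M.labB (decide (p < 0)) (sgn F) = decide (M.labR p F < 0) := by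
  induction M with
  | leaf s => exact fun _ _ => rfl
  | step s d t ih =>
    intro p F
    cases F with
    | nil => rfl
    | node d' t' c s' => exact ih t' c

theorem labR_mem (M : Mu) : ∀ (p : ℝ) (F : Fr), M.labR p F ∈ insert p F.labs := by
  induction M with
  | leaf s => exact fun p F => mem_insert_self _ _
  | step s d t ih =>
    intro p F
    cases F with
    | nil => exact mem_insert_self _ _
    | node d' t' c s' =>
      have h := ih t' c
      simp only [Mu.labR, Fr.labs]
      rw [mem_insert] at h
      rw [mem_insert, mem_insert, mem_union]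
      rcases h with h | h
      · exact Or.inr (Or.inl h)
      · exact Or.inr (Or.inr (Or.inl h))

/-- **Labels with the root at the place `ρ`** (`ρ` vertices before the root): the vertices of the tree with children
forest `M.un` are numbered by `0, .., M.un.size`, increasingly along arcs, the root having number `ρ`; the labels are
`g` (number). If the descendants of the root come last, then the mark comes before the root if it is no descendant -/
theorem exists_marked (M : Mu) (ρ : ℕ) (h₁ : rch false M.un ≤ ρ) (h₂ : ρ + rch true M.un ≤ M.un.size) (g : ℕ → ℕ)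
    (hg : Monotone g) : ∃ F : Fn, F.un = M.un ∧ F.Ok (g ρ) ∧
      (∀ j, F.num j = (((range (M.un.size + 1)).erase ρ).filter (fun i => g i = j)).card) ∧
      M.labN (g ρ) F ≤ g M.un.size ∧ (ρ + rch true M.un = M.un.size → M.Fal → M.labN (g ρ) F ≤ g (ρ - 1)) := by
  obtain ⟨L, l1, l2, l3, l4, l5⟩ : ∃ L : Fl, L.un = M.un ∧ L.Ok true false ∧ L.cnt = ρ ∧ rch false L.top = 0 ∧
      (ρ + rch true M.un = M.un.size → M.Fal → M.labB false L = true) := by
    by_cases h : ρ + rch true M.un = M.un.size
    · refine ⟨dl M.un, dl_un _, dl_ok _, ?_, dl_top _, fun _ hF => labB_dl M hF⟩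
      have := dl_cnt M.un
      omega
    · obtain ⟨L, a1, a2, a3, a4⟩ := (exists_label true M.un).1 ρ h₂
      refine ⟨L, a1, a2, a3, ?_, fun h' => absurd h' h⟩
      simp only [Bool.not_true] at a4
      omega
  obtain ⟨F, a1, a2, a3, a4, a5⟩ := refine_root L {0} l2 l4
  rw [disjoint_singleton_right] at a4
  have aun : F.un = M.un := by rw [← l1, ← a1, sgn_un]
  rw [l1] at a5
  obtain ⟨S, hS⟩ : ∃ S, S = insert (0 : ℝ) F.labs := ⟨_, rfl⟩
  have hSc : S.card = M.un.size + 1 := by rw [hS, card_insert_of_notMem a4, a5]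
  have h0S : (0 : ℝ) ∈ S := by rw [hS]; exact mem_insert_self _ _
  have hrk : rk S 0 = ρ := by
    rw [← l3, ← a1, sgn_cnt F a3, rk, hS, filter_insert, if_neg (lt_irrefl _)]
  have hrlt : ∀ x ∈ S, rk S x < M.un.size + 1 := by
    intro x hx
    rw [← hSc, ← mem_range, ← rk_image S]
    exact mem_image_of_mem _ hx
  have hmem : M.labR 0 F ∈ S := by rw [hS]; exact labR_mem M 0 F
  refine ⟨F.map (fun x => g (rk S x)), by rw [map_un, aun], ?_, ?_, ?_, ?_⟩
  · have := map_ok (hg.comp (rk_mono S)) F 0 a2
    rw [← hrk]
    exact this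
  · intro j
    rw [map_num _ _ _ a3]
    have h1 := rk_count S (fun i => i ≠ ρ ∧ g i = j)
    have h2 : (S.filter (fun x => rk S x ≠ ρ ∧ g (rk S x) = j)) = F.labs.filter (fun x => g (rk S x) = j) := by
      ext x
      rw [mem_filter, mem_filter]
      constructor
      · rintro ⟨h3, h4, h5⟩
        rw [hS, mem_insert] at h3
        rcases h3 with h3 | h3
        · rw [h3] at h4
          exact absurd hrk h4
        · exact ⟨h3, h5⟩
      · rintro ⟨h3, h4⟩
        have h5 : x ∈ S := by rw [hS]; exact mem_insert_of_mem h3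
        refine ⟨h5, fun h6 => ?_, h4⟩
        rw [← hrk] at h6
        have := rk_inj S h5 h0S h6
        rw [this] at h3
        exact a4 h3
    have h3 : ((range (M.un.size + 1)).erase ρ).filter (fun i => g i = j) =
        (range S.card).filter (fun i => i ≠ ρ ∧ g i = j) := by
      rw [hSc]
      ext i
      simp only [mem_filter, mem_erase, mem_range]
      tauto
    rw [h3, ← h2]
    convert h1
  · have h1 := labN_map (fun x => g (rk S x)) M 0 F
    rw [← hrk, h1]
    apply hg
    have := hrlt _ hmem
    omega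
  · intro h hF
    have h1 := labN_map (fun x => g (rk S x)) M 0 F
    rw [hrk] at h1
    rw [h1]
    apply hg
    have h2 := labB_sgn M 0 F
    rw [decide_eq_false (lt_irrefl _), a1, l5 h hF] at h2
    have h3 : M.labR 0 F < 0 := by
      have := h2.symm
      rwa [decide_eq_true_eq] at this
    have h4 := rk_lt S hmem h3
    rw [hrk] at h4
    omega

/-- forget the labels -/
def Mn.er : Mn → Mu
  | .leaf s => .leaf s.un
  | .step s d _ t => .step s.un d t.er

/-- the whole forest, the tree `p` being added at the marked vertex -/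
def Mu.plug (p : Bool × Fd) : Mu → Fd
  | .leaf s => .node p.1 p.2 s
  | .step s d t => .node d (t.plug p) s

theorem Mn.er_un (M : Mn) : M.er.un = M.un := by
  induction M with
  | leaf s => rfl
  | step s d e t ih =>
    simp only [Mn.er, Mu.un, Mn.un, Mn.fn, Fn.un] at ih ⊢
    rw [ih]

theorem Mn.er_plug (p : Bool × Fd) (M : Mn) : M.er.plug p = M.plug p := by
  induction M with
  | leaf s => rfl
  | step s d e t ih => simp only [Mn.er, Mu.plug, Mn.plug, ih]

/-- a labelled forest whose unlabelled version has a mark -/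
theorem transport (M : Mu) : ∀ (e : ℕ) (F : Fn), F.un = M.un → ∃ M' : Mn, M'.er = M ∧ M'.fn = F ∧ M'.lab e = M.labN e F := by
  induction M with
  | leaf s =>
    intro e F h
    exact ⟨.leaf F, by rw [Mn.er, h]; rfl, rfl, rfl⟩
  | step s d t ih =>
    intro e F h
    cases F with
    | nil => simp [Fn.un, Mu.un] at h
    | node d' e' c s' =>
      simp only [Fn.un, Mu.un] at h
      injection h with h1 h2 h3
      obtain ⟨M', a1, a2, a3⟩ := ih e' c h2
      refine ⟨.step s' d' e' M', ?_, ?_, ?_⟩
      · simp only [Mn.er, a1, h3, h1]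
      · simp only [Mn.fn, a2]
      · simp only [Mn.lab, Mu.labN, a3]

/-- **Labels with the root at the place `ρ`**, marked version -/
theorem exists_mnA (M : Mu) (ρ : ℕ) (h₁ : rch false M.un ≤ ρ) (h₂ : ρ + rch true M.un ≤ M.un.size) (g : ℕ → ℕ)
    (hg : Monotone g) : ∃ M' : Mn, M'.er = M ∧ M'.fn.Ok (g ρ) ∧
      (∀ j, M'.fn.num j = (((range (M.un.size + 1)).erase ρ).filter (fun i => g i = j)).card) ∧
      M'.lab (g ρ) ≤ g M.un.size ∧ (ρ + rch true M.un = M.un.size → M.Fal → M'.lab (g ρ) ≤ g (ρ - 1)) := by
  obtain ⟨F, a1, a2, a3, a4, a5⟩ := exists_marked M ρ h₁ h₂ g hg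
  obtain ⟨M', b1, b2, b3⟩ := transport M (g ρ) F a1
  exact ⟨M', b1, by rw [b2]; exact a2, by rw [b2]; exact a3, by rw [b3]; exact a4, by rw [b3]; exact a5⟩

end AEJ
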