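import Pool.Agent.AEJ.Clean
import Pool.Agent.AEJ.ExtG
import Pool.Agent.AEJ.Resv

/-!
# The regions of a clean partition

`t` = the numbers of the blocks where the regions start; the region `m` consists of the vertices of `Z` in the blocks
`t m, .., t (m + 1) - 1`.
-/

set_option autoImplicit false

namespace AEJ

open Finset AE15 AED AELT
open scoped Classical

variable {V : Type*}

/-- the region `m` -/
noncomputable def reg (β : V → ℕ) (Z : Finset V) (t : ℕ → ℕ) (m : ℕ) : Finset V :=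
  Z.filter (fun v => t m ≤ β v ∧ β v < t (m + 1))

/-- number of vertices of `Z` in the blocks before `i` -/
noncomputable def cumA (β : V → ℕ) (Z : Finset V) (i : ℕ) : ℝ := ((Z.filter (fun v => β v < i)).card : ℝ)

variable {β : V → ℕ} {Z X : Finset V} {t : ℕ → ℕ}

theorem mem_reg {m : ℕ} {v : V} : v ∈ reg β Z t m ↔ v ∈ Z ∧ t m ≤ β v ∧ β v < t (m + 1) := by
  rw [reg, mem_filter]

theorem reg_sub {m : ℕ} : reg β Z t m ⊆ Z := filter_subset _ _

theorem cumA_zero : cumA β Z 0 = 0 := by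
  simp [cumA]

theorem cumA_mono : Monotone (cumA β Z) := by
  intro i j hij
  unfold cumA
  have h : (Z.filter (fun v => β v < i)).card ≤ (Z.filter (fun v => β v < j)).card := by
    apply card_le_card
    intro v hv
    rw [mem_filter] at hv ⊢
    exact ⟨hv.1, lt_of_lt_of_le hv.2 hij⟩
  exact_mod_cast h

theorem cumA_nonneg (i : ℕ) : 0 ≤ cumA β Z i := Nat.cast_nonneg _

/-- all blocks together -/
theorem cumA_all {N : ℕ} (h : ∀ v ∈ Z, β v < N) : cumA β Z N = Z.card := by
  unfold cumA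
  rw [filter_true_of_mem h]

/-- a bound for the numbers of the blocks -/
theorem exists_bd (β : V → ℕ) (Z : Finset V) : ∃ N : ℕ, ∀ v ∈ Z, β v < N :=
  ⟨Z.sup β + 1, fun _ hv => Nat.lt_succ_of_le (le_sup (f := β) hv)⟩

/-- the vertices from the block `j` on -/
theorem cumA_upp (j : ℕ) : ((Z.filter (fun v => j ≤ β v)).card : ℝ) = Z.card - cumA β Z j := by
  unfold cumA
  have h := card_filter_add_card_filter_not (s := Z) (fun v => β v < j)
  have h1 : Z.filter (fun v => ¬ β v < j) = Z.filter (fun v => j ≤ β v) := by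
    apply filter_congr
    intro v _
    exact not_lt
  rw [h1] at h
  have : (((Z.filter (fun v => β v < j)).card : ℝ) + (Z.filter (fun v => j ≤ β v)).card) = Z.card := by exact_mod_cast h
  linarith

/-- the vertices up to the block `j` -/
theorem cumA_dwn (j : ℕ) : ((Z.filter (fun v => β v ≤ j)).card : ℝ) = cumA β Z (j + 1) := by
  unfold cumA
  congr 2
  apply filter_congr
  intro v _
  exact Nat.lt_succ_iff.symm

/-- the size of a region -/
theorem reg_card (ht : Monotone t) (m : ℕ) :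
    ((reg β Z t m).card : ℝ) = cumA β Z (t (m + 1)) - cumA β Z (t m) := by
  have h1 : Z.filter (fun v => β v < t (m + 1)) = Z.filter (fun v => β v < t m) ∪ reg β Z t m := by
    ext v
    rw [mem_union, mem_filter, mem_filter, mem_reg]
    have := ht (Nat.le_succ m)
    constructor
    · rintro ⟨h1, h2⟩
      by_cases h3 : β v < t m
      · exact Or.inl ⟨h1, h3⟩
      · exact Or.inr ⟨h1, not_lt.1 h3, h2⟩
    · rintro (⟨h1, h2⟩ | ⟨h1, -, h2⟩)
      · exact ⟨h1, lt_of_lt_of_le h2 this⟩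
      · exact ⟨h1, h2⟩
  have h2 : Disjoint (Z.filter (fun v => β v < t m)) (reg β Z t m) := by
    rw [disjoint_left]
    intro v hv hv'
    rw [mem_filter] at hv
    rw [mem_reg] at hv'
    omega
  unfold cumA
  rw [h1, card_union_of_disjoint h2]
  push_cast
  ring

/-- different regions are disjoint -/
theorem reg_disj (ht : Monotone t) {i j : ℕ} (hij : i ≠ j) : Disjoint (reg β Z t i) (reg β Z t j) := by
  rw [disjoint_left]
  intro v hi hj
  rw [mem_reg] at hi hj
  rcases lt_or_gt_of_ne hij with h | h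
  · have := ht (show i + 1 ≤ j by omega)
    omega
  · have := ht (show j + 1 ≤ i by omega)
    omega

/-- there are no vertices behind the last block -/
theorem reg_empty (ht : Monotone t) {q N : ℕ} (hq : t q = N) (hN : ∀ v ∈ Z, β v < N) {m : ℕ} (hm : q ≤ m) :
    reg β Z t m = ∅ := by
  apply eq_empty_of_forall_notMem
  intro v hv
  rw [mem_reg] at hv
  have h1 := hN v hv.1
  have h2 := ht hm
  omega

/-- between different regions the arcs are in the right direction -/
theorem reg_typ {R : V → V → Prop} {ν : ℝ} (ht : Monotone t)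
    (h1 : ∀ x ∈ Z, ((Z.filter (fun v => β x < β v ∧ ¬ R x v)).card : ℝ) ≤ ν)
    (h2 : ∀ x ∈ Z, ((Z.filter (fun v => β v < β x ∧ ¬ R v x)).card : ℝ) ≤ ν) :
    Typ2 R ν (reg β Z t) (reg β Z t) := by
  intro i j hij
  have hij' := ht (show i + 1 ≤ j by omega)
  constructor
  · intro x hx
    rw [mem_reg] at hx
    refine le_trans ?_ (h1 x hx.1)
    have : ((reg β Z t j).filter (fun v => ¬ R x v)).card ≤ (Z.filter (fun v => β x < β v ∧ ¬ R x v)).card := by
      apply card_le_card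
      intro v hv
      rw [mem_filter, mem_reg] at hv
      rw [mem_filter]
      exact ⟨hv.1.1, by omega, hv.2⟩
    exact_mod_cast this
  · intro x hx
    rw [mem_reg] at hx
    refine le_trans ?_ (h2 x hx.1)
    have : ((reg β Z t i).filter (fun v => ¬ R v x)).card ≤ (Z.filter (fun v => β v < β x ∧ ¬ R v x)).card := by
      apply card_le_card
      intro v hv
      rw [mem_filter, mem_reg] at hv
      rw [mem_filter]
      exact ⟨hv.1.1, by omega, hv.2⟩
    exact_mod_cast this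

/-- smaller sets have the property as well -/
theorem Typ2.mono {R : V → V → Prop} {ν ν' : ℝ} {H G H' G' : ℕ → Finset V} (h : Typ2 R ν H G) (hν : ν ≤ ν')
    (hH : ∀ i, H' i ⊆ H i) (hG : ∀ i, G' i ⊆ G i) : Typ2 R ν' H' G' := by
  intro i j hij
  obtain ⟨h1, h2⟩ := h i j hij
  constructor
  · intro x hx
    refine le_trans ?_ ((h1 x (hH i hx)).trans hν)
    exact_mod_cast card_le_card (filter_subset_filter _ (hG j))
  · intro x hx
    refine le_trans ?_ ((h2 x (hH j hx)).trans hν)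
    exact_mod_cast card_le_card (filter_subset_filter _ (hG i))

/-- a region which is a single block -/
theorem reg_one {m : ℕ} (hm : t (m + 1) = t m + 1) : reg β Z t m = Z.filter (fun v => β v = t m) := by
  apply filter_congr
  intro v _
  omega

/-- a large region which is a single block is a core -/
theorem reg_ex {R : V → V → Prop} {b a : ℝ} (hb : 0 < b)
    (hEx : ∀ x ∈ Z, b ≤ ((Z.filter (fun v => β v = β x)).card : ℝ) → Ex R a (Z.filter (fun v => β v = β x)))
    {m : ℕ} (hm : t (m + 1) = t m + 1) (hbig : b ≤ ((reg β Z t m).card : ℝ)) : Ex R a (reg β Z t m) := by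
  have hne : (reg β Z t m).Nonempty := by
    rw [← card_pos]
    have : (0 : ℝ) < (reg β Z t m).card := lt_of_lt_of_le hb hbig
    exact_mod_cast this
  obtain ⟨x, hx⟩ := hne
  rw [reg_one hm] at hbig hx ⊢
  rw [mem_filter] at hx
  rw [← hx.2] at hbig ⊢
  exact hEx x hx.1 hbig

/-- the expansion relative to the size of the region -/
theorem reg_ex' {R : V → V → Prop} {b al : ℝ} (hb : 0 < b) (hal : 0 ≤ al) (hZX : Z ⊆ X)
    (hEx : ∀ x ∈ Z, b ≤ ((Z.filter (fun v => β v = β x)).card : ℝ) →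
      Ex R (al * X.card) (Z.filter (fun v => β v = β x)))
    {m : ℕ} (hm : t (m + 1) = t m + 1) (hbig : b ≤ ((reg β Z t m).card : ℝ)) :
    Ex R (al * (reg β Z t m).card) (reg β Z t m) := by
  refine (reg_ex hb hEx hm hbig).mono (mul_le_mul_of_nonneg_left ?_ hal)
  exact_mod_cast card_le_card (reg_sub.trans hZX)

/-- a vertex of a region in the block `j` -/
theorem reg_of_eq {m j : ℕ} (hj : t m = j) (hj1 : t (m + 1) = j + 1) {z : V} (hz : z ∈ Z) (hzj : β z = j) :
    z ∈ reg β Z t m := by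
  rw [mem_reg]
  exact ⟨hz, by omega, by omega⟩

/-- the vertices in a union of consecutive regions -/
theorem reg_sum (ht : Monotone t) {i j : ℕ} (hij : i ≤ j) :
    ∑ m ∈ Ico i j, ((reg β Z t m).card : ℝ) = cumA β Z (t j) - cumA β Z (t i) := by
  induction j, hij using Nat.le_induction with
  | base => simp
  | succ j hij ih =>
    rw [sum_Ico_succ_top hij, ih, reg_card ht]
    ring

/-- **Regions and reserves**: a large region which is a single block contains the sets `U`, `Rc` and `Ro` -/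
theorem reg_reserve {al₀ : ℝ} (hal : 0 < al₀) (hal1 : al₀ ≤ 1) : ∃ ℓ : ℕ, ∀ (ζ : ℝ) (w₀ : ℕ), 0 < ζ → ζ ≤ 1 / 8 →
    ∃ n₂ : ℕ, ∀ {V : Type} {R : V → V → Prop}, AE32.Tour R → ∀ (X Z : Finset V) (β : V → ℕ) (t : ℕ → ℕ) (al b : ℝ)
      (m : ℕ), 0 < b → al₀ ≤ al → Z ⊆ X →
        (∀ x ∈ Z, b ≤ ((Z.filter (fun v => β v = β x)).card : ℝ) →
          Ex R (al * X.card) (Z.filter (fun v => β v = β x))) →
        t (m + 1) = t m + 1 → b ≤ ((reg β Z t m).card : ℝ) → n₂ ≤ (reg β Z t m).card →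
          ∃ U Rc Ro : Finset V, Cor R (reg β Z t m) U Rc Ro ℓ w₀ (al / 2 * ζ * (reg β Z t m).card) ∧
            (1 - 3 * ζ) * (reg β Z t m).card ≤ (U.card : ℝ) := by
  obtain ⟨ℓ, hℓ⟩ := exists_reserve2 hal hal1
  refine ⟨ℓ, ?_⟩
  intro ζ w₀ hζ hζ1
  obtain ⟨n₂, hn₂⟩ := hℓ ζ w₀ hζ hζ1
  refine ⟨n₂, ?_⟩
  intro V R hT X Z β t al b m hb hal' hZX hEx hm hbig hn
  exact hn₂ hT (reg β Z t m) al hn hal' (reg_ex' hb (hal.le.trans hal') hZX hEx hm hbig)

/-- **The clean partition, in terms of `cumA`**: `clean` with the bound `N` for the numbers of the blocks. -/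
theorem clean2 {k eta : ℝ} (hk : 0 < k) (he : 0 < eta) (he1 : eta ≤ 1) (psi : ℝ → ℝ) (hpsi : ∀ a, 0 < a → 0 < psi a) :
    ∃ a0 : ℝ, 0 < a0 ∧ ∃ n0 : ℕ, ∀ {V : Type} {R : V → V → Prop}, AE32.Tour R → ∀ X : Finset V, n0 ≤ X.card →
      ∃ (al : ℝ) (β : V → ℕ) (Z : Finset V) (N : ℕ), a0 ≤ al ∧ al ≤ 1 ∧ Z ⊆ X ∧ (∀ v ∈ Z, β v < N) ∧
        (1 - eta) * X.card ≤ cumA β Z N ∧ cumA β Z N = Z.card ∧
        (∀ t : ℕ → ℕ, Monotone t → t 0 = 0 → t 5 = N → Typ2 R (psi al * X.card) (reg β Z t) (reg β Z t) ∧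
          (∀ m, reg β Z t m ⊆ X) ∧ (∀ i j, i ≠ j → Disjoint (reg β Z t i) (reg β Z t j)) ∧
          (∀ m, 5 ≤ m → reg β Z t m = ∅) ∧
          (∀ m, ((reg β Z t m).card : ℝ) = cumA β Z (t (m + 1)) - cumA β Z (t m)) ∧
          (∀ m, t (m + 1) = t m + 1 → eta * X.card ≤ ((reg β Z t m).card : ℝ) → Ex R (al * X.card) (reg β Z t m)) ∧
          ∀ z ∈ Z, ∀ m, t m = β z → t (m + 1) = β z + 1 → z ∈ reg β Z t m) ∧
        (∀ z ∈ Z, ∀ a, Wide R k a X z → a ≤ cumA β Z N - cumA β Z (β z) + eta * X.card) ∧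
        (∀ z ∈ Z, ∀ a, Wide (fun a b => R b a) k a X z → a ≤ cumA β Z (β z + 1) + eta * X.card) := by
  obtain ⟨a0, ha0, n0, hc⟩ := clean hk he he1 psi hpsi
  refine ⟨a0, ha0, max n0 1, ?_⟩
  intro V R hT X hX
  have hX1 : 1 ≤ X.card := (le_max_right _ _).trans hX
  obtain ⟨al, β, Z, h1, h2, h3, h4, h5, h6, h7, h8, h9⟩ := hc hT X ((le_max_left _ _).trans hX)
  obtain ⟨N, hN⟩ := exists_bd β Z
  have hcum : cumA β Z N = Z.card := cumA_all hN
  have hXpos : (0 : ℝ) < X.card := by exact_mod_cast hX1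
  refine ⟨al, β, Z, N, h1, h2, h3, hN, by rw [hcum]; exact h4, hcum, ?_, ?_, ?_⟩
  · intro t ht ht0 ht5
    refine ⟨reg_typ ht h5 h6, fun m => reg_sub.trans h3, fun i j hij => reg_disj ht hij,
      fun m hm => reg_empty ht ht5 hN hm, reg_card ht, ?_, ?_⟩
    · intro m hm hbig
      exact reg_ex (mul_pos he hXpos) h7 hm hbig
    · intro z hz m hm hm1
      exact reg_of_eq hm hm1 hz rfl
  · intro z hz a hW
    have h := h8 z hz a hW
    rw [cumA_upp, ← hcum] at h
    exact h
  · intro z hz a hW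
    have h := h9 z hz a hW
    rw [cumA_dwn] at h
    exact h

end AEJ
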