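import Pool.Agent.AEJ.Defs
import Pool.Agent.AESK.Core2

/-!
# Walks with given directions

`walk_free`: inside a set of a tournament every word can be walked. `walk_two`: from a given vertex with many neighbours,
a word with two turns leads to almost all vertices.
-/

namespace AEJ

open Finset AE15 AED AELT AEK
open scoped Classical

variable {V : Type*} {R : V → V → Prop}

/-- few vertices have few neighbours of a given sign -/
theorem card_lt (hT : AE32.Tour R) (d : Bool) (B : Finset V) (K : ℕ) :
    (B.filter (fun v => (nb R d B v).card < K)).card ≤ 2 * K := by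
  rcases K with _ | K
  · simp
  cases d with
  | true =>
    have h1 := card_low hT B K
    have h2 : B.filter (fun v => (nb R true B v).card < K + 1) = B.filter (fun v => (nO R B v).card ≤ K) := by
      apply filter_congr
      intro v _
      simp [nb, nO, Adj]
    rw [h2]
    omega
  | false =>
    have hT' : AE32.Tour (fun a b => R b a) := ⟨hT.irr, fun a b h => (hT.tot a b h).symm, fun a b h => hT.asym b a h⟩
    have h1 := card_low hT' B K
    have h2 : B.filter (fun v => (nb R false B v).card < K + 1) =
        B.filter (fun v => (nO (fun a b => R b a) B v).card ≤ K) := by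
      apply filter_congr
      intro v _
      simp [nb, nO, Adj]
    rw [h2]
    omega

theorem adj_irr (hT : AE32.Tour R) {d : Bool} {v : V} : ¬ Adj R d v v := by
  cases d <;> simp [Adj, hT.irr]

theorem adj_tot (hT : AE32.Tour R) {d : Bool} {v u : V} (h : v ≠ u) (hn : ¬ Adj R d v u) : Adj R (!d) v u := by
  cases d
  · simp only [Adj, Bool.false_eq_true, if_false, Bool.not_false, if_true] at hn ⊢
    rcases hT.tot v u h with h1 | h1
    exacts [h1, absurd h1 hn]
  · simp only [Adj, if_true, Bool.not_true, Bool.false_eq_true, if_false] at hn ⊢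
    rcases hT.tot v u h with h1 | h1
    exacts [absurd h1 hn, h1]

/-- **Inside any large set every word can be walked** -/
theorem walk_free (hT : AE32.Tour R) (ds : List Bool) : ∀ S : Finset V, 3 ^ (ds.length + 1) ≤ S.card →
    ∃ v ∈ S, ∃ wk : List (Bool × V), wk.map Prod.fst = ds ∧ Wk R v wk ∧ (∀ p ∈ wk, p.2 ∈ S) ∧
      (v :: wk.map Prod.snd).Nodup := by
  induction ds with
  | nil =>
    intro S hS
    have : S.Nonempty := by
      rw [← card_pos]
      exact lt_of_lt_of_le (by positivity) hS
    obtain ⟨v, hv⟩ := this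
    exact ⟨v, hv, [], rfl, trivial, by simp, by simp⟩
  | cons d ds ih =>
    intro S hS
    rw [List.length_cons] at hS
    obtain ⟨K, hK⟩ : ∃ K : ℕ, K = 3 ^ (ds.length + 1) := ⟨_, rfl⟩
    have hK0 : 0 < K := by rw [hK]; positivity
    have h1 := card_lt hT d S K
    have h2 : (3 : ℕ) ^ (ds.length + 1 + 1) = 3 * K := by rw [hK]; ring
    obtain ⟨v, hv, hv2⟩ : ∃ v ∈ S, K ≤ (nb R d S v).card := by
      by_contra hcon
      push Not at hcon
      have h3 : S.filter (fun v => (nb R d S v).card < K) = S := by
        apply filter_true_of_mem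
        exact hcon
      rw [h3] at h1
      omega
    rw [hK] at hv2
    obtain ⟨u, hu, wk, k1, k2, k3, k4⟩ := ih (nb R d S v) hv2
    have hmem : ∀ x ∈ nb R d S v, x ∈ S ∧ Adj R d v x := fun x hx => by
      rw [nb, mem_filter] at hx; exact hx
    refine ⟨v, hv, (d, u) :: wk, by simp [k1], ⟨(hmem u hu).2, k2⟩, ?_, ?_⟩
    · intro p hp
      rcases List.mem_cons.1 hp with rfl | hp
      · exact (hmem u hu).1
      · exact (hmem p.2 (k3 p hp)).1
    · rw [List.map_cons]
      refine List.nodup_cons.2 ⟨?_, k4⟩
      intro hm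
      have hvS : v ∈ nb R d S v := by
        rcases List.mem_cons.1 hm with h | h
        · have h' : v = u := h
          rw [← h'] at hu
          exact hu
        · obtain ⟨p, hp, h⟩ := List.mem_map.1 h
          have := k3 p hp
          rw [h] at this
          exact this
      exact adj_irr hT (hmem v hvS).2

/-- the vertices of `Y` with at least `K` neighbours in `T`, an arc of direction `d` leading from `T` to them -/
noncomputable def stp (R : V → V → Prop) (K : ℕ) (Y T : Finset V) (d : Bool) : Finset V :=
  Y.filter (fun v => K ≤ (nb R (!d) T v).card)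

/-- the vertices reached from `T` by a word, at least `K` choices at each step -/
noncomputable def rea (R : V → V → Prop) (K : ℕ) (Y : Finset V) : Finset V → List Bool → Finset V
  | T, [] => T
  | T, d :: ds => rea R K Y (stp R K Y T d) ds

theorem rea_walk {K : ℕ} {Y : Finset V} (ds : List Bool) : ∀ (T F : Finset V) (w : V), F.card + ds.length + 1 ≤ K →
    w ∈ rea R K Y T ds → w ∉ F → ∃ v ∈ T, ∃ wk : List (Bool × V), wk.map Prod.fst = ds ∧ Wk R v wk ∧
      (wk.map Prod.snd).getLastD v = w ∧ (v :: wk.map Prod.snd).Nodup ∧ v ∉ F ∧ ∀ p ∈ wk, p.2 ∈ Y ∧ p.2 ∉ F := by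
  induction ds with
  | nil =>
    intro T F w _ hw hF
    exact ⟨w, hw, [], rfl, trivial, rfl, by simp, hF, by simp⟩
  | cons d ds ih =>
    intro T F w hK hw hF
    rw [List.length_cons] at hK
    obtain ⟨x, hx, wk, k1, k2, k3, k4, k5, k6⟩ := ih (stp R K Y T d) F w (by omega) hw hF
    rw [stp, mem_filter] at hx
    obtain ⟨hxY, hxK⟩ := hx
    have hlen : (x :: wk.map Prod.snd).toFinset.card ≤ ds.length + 1 := by
      refine (List.toFinset_card_le _).trans ?_
      have := congrArg List.length k1
      simp only [List.length_map] at this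
      simp only [List.length_cons, List.length_map]
      omega
    obtain ⟨u, hu⟩ : (nb R (!d) T x \ (F ∪ (x :: wk.map Prod.snd).toFinset)).Nonempty := by
      rw [← card_pos]
      have h1 := le_card_sdiff (F ∪ (x :: wk.map Prod.snd).toFinset) (nb R (!d) T x)
      have h2 := card_union_le F (x :: wk.map Prod.snd).toFinset
      omega
    rw [mem_sdiff, mem_union, not_or, List.mem_toFinset, List.mem_cons, not_or] at hu
    obtain ⟨hu1, hu2, hu3, hu4⟩ := hu
    rw [nb, mem_filter] at hu1
    refine ⟨u, hu1.1, (d, x) :: wk, by simp [k1], ⟨?_, k2⟩, ?_, ?_, hu2, ?_⟩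
    · have := hu1.2
      cases d <;> simpa [Adj] using this
    · rw [List.map_cons, List.getLastD_cons]
      exact k3
    · rw [List.map_cons]
      refine List.nodup_cons.2 ⟨?_, k4⟩
      rw [List.mem_cons, not_or]
      exact ⟨hu3, hu4⟩
    · intro p hp
      rcases List.mem_cons.1 hp with rfl | hp
      · exact ⟨hxY, k5⟩
      · exact k6 p hp

theorem rea_sub {K : ℕ} {Y : Finset V} (ds : List Bool) : ∀ T ⊆ Y, rea R K Y T ds ⊆ Y := by
  induction ds with
  | nil => exact fun T hT => hT
  | cons d ds ih => exact fun T _ => ih _ (filter_subset _ _)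

/-- a step loses few vertices -/
theorem stp_lose (hT : AE32.Tour R) {K : ℕ} {Y T : Finset V} (hTY : T ⊆ Y) (d : Bool) :
    (T \ stp R K Y T d).card ≤ 2 * K := by
  refine (card_le_card ?_).trans (card_lt hT (!d) T K)
  intro v hv
  rw [mem_sdiff, stp, mem_filter, not_and, not_le] at hv
  rw [mem_filter]
  exact ⟨hv.1, hv.2 (hTY hv.1)⟩

theorem card_sdiff_tri (A B C : Finset V) : (A \ C).card ≤ (A \ B).card + (B \ C).card := by
  refine (card_le_card ?_).trans (card_union_le _ _)
  intro v hv
  rw [mem_sdiff] at hv
  rw [mem_union, mem_sdiff, mem_sdiff]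
  by_cases h : v ∈ B
  · exact Or.inr ⟨h, hv.2⟩
  · exact Or.inl ⟨hv.1, h⟩

theorem rea_all (hT : AE32.Tour R) {K : ℕ} {Y : Finset V} (ds : List Bool) : ∀ T ⊆ Y,
    (Y \ rea R K Y T ds).card ≤ (Y \ T).card + 2 * K * ds.length := by
  induction ds with
  | nil => intro T _; simp [rea]
  | cons d ds ih =>
    intro T hTY
    have h1 := ih (stp R K Y T d) (filter_subset _ _)
    have h2 := card_sdiff_tri Y T (stp R K Y T d)
    have h3 := stp_lose hT (K := K) hTY d
    rw [List.length_cons, rea]
    have h4 : 2 * K * (ds.length + 1) = 2 * K * ds.length + 2 * K := by ring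
    omega

/-- after the first turn -/
theorem rea_one (hT : AE32.Tour R) {K : ℕ} {Y T₀ : Finset V} (hT₀ : T₀ ⊆ Y) (ds : List Bool) : ∀ (d : Bool) (T : Finset V)
    (e : ℕ), T ⊆ Y → (stp R K Y T₀ d \ T).card ≤ e → 1 ≤ tn (d :: ds) → 4 * K + e + 2 * K * ds.length + 1 ≤ T₀.card →
    (Y \ rea R K Y T ds).card ≤ e + 2 * K * (ds.length + 1) := by
  induction ds with
  | nil => intro d T e _ _ h _; simp [tn] at h
  | cons d' ds ih =>
    intro d T e hTY he htn hc
    rw [List.length_cons] at hc ⊢
    have h4 : 2 * K * (ds.length + 1) = 2 * K * ds.length + 2 * K := by ring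
    have h4' : 2 * K * (ds.length + 1 + 1) = 2 * K * ds.length + 2 * K + 2 * K := by ring
    rw [rea]
    by_cases hd : d = d'
    · subst hd
      have h5 : 1 ≤ tn (d :: ds) := by simpa [tn] using htn
      have h1 := ih d (stp R K Y T d) (e + 2 * K) (filter_subset _ _) (by
        have h2 := card_sdiff_tri (stp R K Y T₀ d) T (stp R K Y T d)
        have h3 := stp_lose hT (K := K) hTY d
        omega) h5 (by omega)
      omega
    · -- the second turn
      have hd' : d' = !d := by cases d <;> cases d' <;> simp_all
      subst hd'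
      have h1 := rea_all hT (K := K) ds (stp R K Y T (!d)) (filter_subset _ _)
      have h2 : (Y \ stp R K Y T (!d)).card ≤ e + 2 * K := by
        have h6 : Y \ stp R K Y T (!d) ⊆ (stp R K Y T₀ d \ T) ∪ (T \ stp R K Y T (!d)) := by
          intro v hv
          rw [mem_sdiff] at hv
          obtain ⟨hvY, hv⟩ := hv
          rw [mem_union, mem_sdiff, mem_sdiff]
          by_cases hvT : v ∈ T
          · exact Or.inr ⟨hvT, hv⟩
          · refine Or.inl ⟨?_, hvT⟩
            rw [stp, mem_filter, not_and, not_le] at hv
            have h7 := hv hvY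
            rw [Bool.not_not] at h7
            rw [stp, mem_filter]
            refine ⟨hvY, ?_⟩
            by_contra hcon
            rw [not_le] at hcon
            -- `T₀` is covered
            have h8 : T₀ ⊆ insert v (nb R (!d) T₀ v ∪ (nb R d T v ∪ ((T₀ \ stp R K Y T₀ d) ∪ (stp R K Y T₀ d \ T)))) := by
              intro u hu
              simp only [mem_insert, mem_union, mem_sdiff, nb, mem_filter]
              by_cases huv : u = v
              · exact Or.inl huv
              right
              by_cases h9 : Adj R (!d) v u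
              · exact Or.inl ⟨hu, h9⟩
              right
              have h10 := adj_tot hT (fun h => huv h.symm) h9
              rw [Bool.not_not] at h10
              by_cases h11 : u ∈ stp R K Y T₀ d
              · by_cases h12 : u ∈ T
                · exact Or.inl ⟨h12, h10⟩
                · exact Or.inr (Or.inr ⟨h11, h12⟩)
              · exact Or.inr (Or.inl ⟨hu, h11⟩)
            have h9 := card_le_card h8
            have h10 := card_insert_le v (nb R (!d) T₀ v ∪ (nb R d T v ∪ ((T₀ \ stp R K Y T₀ d) ∪ (stp R K Y T₀ d \ T))))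
            have h11 := card_union_le (nb R (!d) T₀ v) (nb R d T v ∪ ((T₀ \ stp R K Y T₀ d) ∪ (stp R K Y T₀ d \ T)))
            have h12 := card_union_le (nb R d T v) ((T₀ \ stp R K Y T₀ d) ∪ (stp R K Y T₀ d \ T))
            have h13 := card_union_le (T₀ \ stp R K Y T₀ d) (stp R K Y T₀ d \ T)
            have h14 := stp_lose hT (K := K) hT₀ d
            omega
        have h7 := card_le_card h6
        have h8 := card_union_le (stp R K Y T₀ d \ T) (T \ stp R K Y T (!d))
        have h9 := stp_lose hT (K := K) hTY (!d)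
        omega
      omega

/-- **two turns reach almost everything** -/
theorem rea_two (hT : AE32.Tour R) {K : ℕ} {Y : Finset V} (ds : List Bool) : ∀ (d : Bool) (T : Finset V), T ⊆ Y →
    2 ≤ tn (d :: ds) → 4 * K + 4 * K * ds.length + 1 ≤ T.card → (Y \ rea R K Y T ds).card ≤ 2 * K * (ds.length + 1) := by
  induction ds with
  | nil => intro d T _ h; simp [tn] at h
  | cons d' ds ih =>
    intro d T hTY htn hc
    rw [List.length_cons] at hc ⊢
    have h4 : 4 * K * (ds.length + 1) = 4 * K * ds.length + 4 * K := by ring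
    have h4' : 2 * K * (ds.length + 1 + 1) = 2 * K * (ds.length + 1) + 2 * K := by ring
    rw [rea]
    have h3 := stp_lose hT (K := K) hTY d'
    by_cases hd : d = d'
    · subst hd
      have h5 : 2 ≤ tn (d :: ds) := by simpa [tn] using htn
      have h6 : T.card ≤ (T \ stp R K Y T d).card + (stp R K Y T d).card := card_le_card_sdiff_add_card
      have h1 := ih d (stp R K Y T d) (filter_subset _ _) h5 (by omega)
      omega
    · have h5 : 1 ≤ tn (d' :: ds) := by
        simp only [tn, if_neg hd] at htn
        omega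
      have h1 := rea_one hT (K := K) hTY ds d' (stp R K Y T d') 0 (filter_subset _ _) (by simp) h5 (by
        have : 2 * K * ds.length ≤ 4 * K * ds.length := Nat.mul_le_mul_right _ (by omega)
        omega)
      omega

/-- **A walk with two turns from a given vertex** -/
theorem walk_two (hT : AE32.Tour R) {K : ℕ} {Y : Finset V} {z : V} (d : Bool) (ds : List Bool) (htn : 2 ≤ tn (d :: ds))
    (F : Finset V) (hK : F.card + ds.length + 1 ≤ K) (hz : 4 * K + 4 * K * ds.length + 1 ≤ (nb R d Y z).card)
    (N : Finset V) (hN : N ⊆ Y) (hNF : Disjoint N F) (hNc : 2 * K * (ds.length + 1) < N.card) :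
    ∃ wk : List (Bool × V), wk.map Prod.fst = d :: ds ∧ Wk R z wk ∧ (wk.map Prod.snd).getLastD z ∈ N ∧
      (wk.map Prod.snd).Nodup ∧ ∀ p ∈ wk, p.2 ∈ Y ∧ p.2 ∉ F := by
  have h1 := rea_two hT (K := K) ds d (nb R d Y z) (filter_subset _ _) htn hz
  obtain ⟨w, hw, hw2⟩ : ∃ w ∈ N, w ∈ rea R K Y (nb R d Y z) ds := by
    by_contra hcon
    push Not at hcon
    have h2 : N ⊆ Y \ rea R K Y (nb R d Y z) ds := fun w hw => mem_sdiff.2 ⟨hN hw, hcon w hw⟩
    have := card_le_card h2
    omega
  obtain ⟨v, hv, wk, k1, k2, k3, k4, k5, k6⟩ := rea_walk ds _ F w hK hw2 (disjoint_left.1 hNF hw)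
  rw [nb, mem_filter] at hv
  refine ⟨(d, v) :: wk, by simp [k1], ⟨hv.2, k2⟩, ?_, ?_, ?_⟩
  · rw [List.map_cons, List.getLastD_cons, k3]
    exact hw
  · rw [List.map_cons]
    exact k4
  · intro p hp
    rcases List.mem_cons.1 hp with rfl | hp
    · exact ⟨hv.1, k5⟩
    · exact k6 p hp

end AEJ
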