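import Pool.Agent.AEJ.Lab
import Pool.Agent.AEJ.Clean
import Pool.Agent.AEJ.ExtM
import Pool.Agent.AEJ.Univ
import Pool.Agent.AEK.LT1

/-!
# The regions and the window of the root of the final branch
-/

namespace AEJ

open Finset AE15 AED AELT AEK LTT
open scoped Classical

variable {V : Type*} {R : V → V → Prop}

/-- number of vertices in the first `t` blocks -/
noncomputable def cum (Z : Finset V) (β : V → ℕ) (t : ℕ) : ℝ := ((Z.filter (fun v => β v < t)).card : ℝ)

/-- the vertices in the blocks `a, .., b - 1` -/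
noncomputable def seg (Z : Finset V) (β : V → ℕ) (a b : ℕ) : Finset V := Z.filter (fun v => a ≤ β v ∧ β v < b)

theorem mem_seg {Z : Finset V} {β : V → ℕ} {a b : ℕ} {v : V} : v ∈ seg Z β a b ↔ v ∈ Z ∧ a ≤ β v ∧ β v < b := by
  simp [seg]

theorem cum_zero (Z : Finset V) (β : V → ℕ) : cum Z β 0 = 0 := by
  simp [cum]

theorem cum_mono (Z : Finset V) (β : V → ℕ) : Monotone (cum Z β) := by
  intro a b hab
  unfold cum
  exact_mod_cast card_le_card (fun v hv => by
    rw [mem_filter] at hv ⊢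
    exact ⟨hv.1, lt_of_lt_of_le hv.2 hab⟩)

theorem cum_seg (Z : Finset V) (β : V → ℕ) {a b : ℕ} (hab : a ≤ b) :
    ((seg Z β a b).card : ℝ) = cum Z β b - cum Z β a := by
  have h1 : Z.filter (fun v => β v < b) = Z.filter (fun v => β v < a) ∪ seg Z β a b := by
    ext v
    rw [mem_union, mem_filter, mem_filter, mem_seg]
    constructor
    · intro h
      rcases Nat.lt_or_ge (β v) a with h2 | h2
      · exact Or.inl ⟨h.1, h2⟩
      · exact Or.inr ⟨h.1, h2, h.2⟩
    · rintro (h | h)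
      · exact ⟨h.1, lt_of_lt_of_le h.2 hab⟩
      · exact ⟨h.1, h.2.2⟩
  have h2 : Disjoint (Z.filter (fun v => β v < a)) (seg Z β a b) := by
    rw [disjoint_left]
    intro v hv hv'
    rw [mem_filter] at hv
    rw [mem_seg] at hv'
    omega
  have h3 : (Z.filter (fun v => β v < b)).card = (Z.filter (fun v => β v < a)).card + (seg Z β a b).card := by
    rw [h1, card_union_of_disjoint h2]
  unfold cum
  rw [h3]
  push_cast
  ring

theorem cum_ge (Z : Finset V) (β : V → ℕ) (j : ℕ) :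
    ((Z.filter (fun v => j ≤ β v)).card : ℝ) = Z.card - cum Z β j := by
  have h1 : (Z.filter (fun v => β v < j)).card + (Z.filter (fun v => ¬ β v < j)).card = Z.card :=
    card_filter_add_card_filter_not _
  have h2 : Z.filter (fun v => ¬ β v < j) = Z.filter (fun v => j ≤ β v) := by
    apply filter_congr
    intro v _
    exact not_lt
  rw [h2] at h1
  have h3 : (Z.card : ℝ) = (Z.filter (fun v => β v < j)).card + (Z.filter (fun v => j ≤ β v)).card := by
    exact_mod_cast h1.symm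
  unfold cum
  linarith

theorem cum_le (Z : Finset V) (β : V → ℕ) (j : ℕ) : ((Z.filter (fun v => β v ≤ j)).card : ℝ) = cum Z β (j + 1) := by
  have h2 : Z.filter (fun v => β v ≤ j) = Z.filter (fun v => β v < j + 1) := by
    apply filter_congr
    intro v _
    exact Nat.lt_succ_iff.symm
  rw [h2, cum]

theorem cum_all {Z : Finset V} {β : V → ℕ} {N : ℕ} (h : ∀ v ∈ Z, β v < N) : cum Z β N = Z.card := by
  unfold cum
  rw [filter_true_of_mem h]

theorem seg_disjoint {Z : Finset V} {β : V → ℕ} {t : ℕ → ℕ} (ht : Monotone t) (i j : ℕ) (hij : i ≠ j) :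
    Disjoint (seg Z β (t i) (t (i + 1))) (seg Z β (t j) (t (j + 1))) := by
  rw [disjoint_left]
  intro v hv hv'
  rw [mem_seg] at hv hv'
  rcases Nat.lt_or_ge i j with h | h
  · have := ht (show i + 1 ≤ j from h)
    omega
  · have := ht (show j + 1 ≤ i by omega)
    omega

theorem seg_typ {Z : Finset V} {β : V → ℕ} {t : ℕ → ℕ} (ht : Monotone t) {ν : ℝ}
    (h1 : ∀ x ∈ Z, ((Z.filter (fun v => β x < β v ∧ ¬ R x v)).card : ℝ) ≤ ν)
    (h2 : ∀ x ∈ Z, ((Z.filter (fun v => β v < β x ∧ ¬ R v x)).card : ℝ) ≤ ν) :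
    Typ2 R ν (fun m => seg Z β (t m) (t (m + 1))) (fun m => seg Z β (t m) (t (m + 1))) := by
  intro i j hij
  have hij' := ht (show i + 1 ≤ j from hij)
  constructor
  · intro x hx
    rw [mem_seg] at hx
    refine le_trans ?_ (h1 x hx.1)
    exact_mod_cast card_le_card (fun v hv => by
      rw [mem_filter, mem_seg] at hv
      rw [mem_filter]
      exact ⟨hv.1.1, by omega, hv.2⟩)
  · intro x hx
    rw [mem_seg] at hx
    refine le_trans ?_ (h2 x hx.1)
    exact_mod_cast card_le_card (fun v hv => by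
      rw [mem_filter, mem_seg] at hv
      rw [mem_filter]
      exact ⟨hv.1.1, by omega, hv.2⟩)

/-- a union of shares -/
theorem card_shares {S : ℕ → Finset V} {s : ℕ → ℕ} (hS : ∀ m, (S m).card = s m) (hd : ∀ i j, i ≠ j → Disjoint (S i) (S j))
    (J : Finset ℕ) : ((J.biUnion S).card : ℝ) = ∑ m ∈ J, (s m : ℝ) := by
  rw [card_biUnion (fun i _ j _ h => hd i j h)]
  push_cast
  exact sum_congr rfl (fun m _ => by rw [hS])

/-- the candidates are admissible -/
theorem window_adm (hT : AE32.Tour R) {X' Q Sv T₁ T₂ : Finset V} {π : V → ℕ} (hπ : AEM.MedO R Q π) {κ ε ν : ℝ} {m a ι : ℕ}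
    (hκ : 0 ≤ κ) (hSQ : Sv ⊆ Q) (hm : (Q \ Sv).card ≤ m) (hSX : Sv ⊆ X') (hT1 : T₁ ⊆ X') (hT2 : T₂ ⊆ X')
    (hd1 : Disjoint Sv T₁) (hd2 : Disjoint Sv T₂) {v : V} (hv : v ∈ Sv) (ha : a ≤ π v) (hι : π v < a + ι)
    (hg1 : ((T₁.filter (fun u => ¬ R v u)).card : ℝ) ≤ ν) (hg2 : ((T₂.filter (fun u => ¬ R u v)).card : ℝ) ≤ ν) {D A : ℝ}
    (hD : D + ε * X'.card ≤ T₁.card + ((Q.card : ℝ) - (a + ι)) - 9 * m - 8 * κ * X'.card - ν)
    (hA : A + ε * X'.card ≤ T₂.card + (a : ℝ) - 9 * m - 8 * κ * X'.card - ν) :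
    Wide R κ (D + ε * X'.card) X' v ∧ Wide (fun a b => R b a) κ (A + ε * X'.card) X' v := by
  constructor
  · refine wide_mono ?_ (univ_out hT hπ hκ hSQ hm hSX hT1 hd1 hv hg1)
    have h1 : (π v : ℝ) + 1 ≤ a + ι := by exact_mod_cast hι
    linarith
  · refine wide_mono ?_ (univ_in hT hπ hκ hSQ hm hSX hT2 hd2 hv hg2)
    have h1 : (a : ℝ) ≤ π v := by exact_mod_cast ha
    linarith

end AEJ
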